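import Pool.Agent.P.MP_3c83d0_ag.Loc

open MvPolynomial

namespace Pool.Agent.P.MP_3c83d0_ag

variable {ι : Type*} [Fintype ι]

theorem lin_X (g : Matrix (Fin 3) (Fin 3) ℂ) (a : Fin 3) :
    lin g (X a) = ∑ b, C (g a b) * X b := by
  simp [lin]

theorem lin_C (g : Matrix (Fin 3) (Fin 3) ℂ) (c : ℂ) : lin g (C c) = C c := by
  simp [lin]

theorem eval_lin (g : Matrix (Fin 3) (Fin 3) ℂ) (x : Fin 3 → ℂ) (G : S) :
    eval x (lin g G) = eval (g.mulVec x) G := by
  induction G using MvPolynomial.induction_on with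
  | C c => simp
  | add p q hp hq => simp [hp, hq]
  | mul_X p a hp =>
    rw [map_mul, map_mul, map_mul, hp, lin_X]
    simp [Matrix.mulVec, dotProduct]

theorem lin_lin (g h : Matrix (Fin 3) (Fin 3) ℂ) (G : S) : lin h (lin g G) = lin (g * h) G := by
  have : (lin h).comp (lin g) = lin (g * h) := by
    refine MvPolynomial.algHom_ext fun a => ?_
    rw [AlgHom.comp_apply, lin_X, lin_X, map_sum]
    simp only [map_mul, lin_C, lin_X, Matrix.mul_apply, map_sum, Finset.mul_sum, Finset.sum_mul]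
    rw [Finset.sum_comm]
    refine Finset.sum_congr rfl fun b _ => Finset.sum_congr rfl fun c _ => ?_
    ring
  exact DFunLike.congr_fun this G

theorem lin_one (G : S) : lin 1 G = G := by
  have : lin 1 = AlgHom.id ℂ S := by
    refine MvPolynomial.algHom_ext fun a => ?_
    rw [lin_X, Finset.sum_eq_single a]
    · simp
    · intro b _ hb
      simp [Matrix.one_apply_ne hb.symm]
    · simp
  rw [this]
  rfl

theorem lin_isHomogeneous (g : Matrix (Fin 3) (Fin 3) ℂ) {G : S} {k : ℕ} (h : G.IsHomogeneous k) :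
    (lin g G).IsHomogeneous k := by
  have := h.aeval (fun a => ∑ b, C (g a b) * (X b : S)) (n := 1) fun a =>
    IsHomogeneous.sum _ _ _ fun b _ => (isHomogeneous_X ℂ b).C_mul _
  rwa [one_mul] at this

theorem lin_mem_pow (g : Matrix (Fin 3) (Fin 3) ℂ) (x : Fin 3 → ℂ) {G : S} {a : ℕ}
    (h : G ∈ mx (g.mulVec x) ^ a) : lin g G ∈ mx x ^ a := by
  have h1 : (mx (g.mulVec x)).map (lin g) ≤ mx x := by
    rw [Ideal.map_le_iff_le_comap]
    intro H hH
    rw [Ideal.mem_comap, mem_mx, eval_lin]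
    exact hH
  have h2 := Ideal.mem_map_of_mem (lin g) h
  rw [Ideal.map_pow] at h2
  exact Ideal.pow_right_mono h1 a h2

theorem lin_dv_add (w : Fin 3 → ℂ) (G H : S) : dv w (G + H) = dv w G + dv w H := by
  simp [dv, mul_add, Finset.sum_add_distrib]

theorem lin_dv_mul (w : Fin 3 → ℂ) (G H : S) : dv w (G * H) = dv w G * H + G * dv w H := by
  simp only [dv, Derivation.leibniz, smul_eq_mul, Finset.sum_mul, Finset.mul_sum,
    ← Finset.sum_add_distrib]
  refine Finset.sum_congr rfl fun j _ => ?_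
  ring

theorem lin_dv_C (w : Fin 3 → ℂ) (c : ℂ) : dv w (C c : S) = 0 := by
  simp [dv]

theorem lin_dv_X (w : Fin 3 → ℂ) (a : Fin 3) : dv w (X a : S) = C (w a) := by
  unfold dv
  rw [Finset.sum_eq_single a]
  · simp
  · intro b _ hb
    simp [pderiv_X_of_ne hb.symm]
  · simp

/-- Chain rule. -/
theorem dv_lin (g : Matrix (Fin 3) (Fin 3) ℂ) (w : Fin 3 → ℂ) (G : S) :
    dv w (lin g G) = lin g (dv (g.mulVec w) G) := by
  induction G using MvPolynomial.induction_on with
  | C c => rw [lin_C, lin_dv_C, lin_dv_C, map_zero]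
  | add p q hp hq => rw [map_add, lin_dv_add, lin_dv_add, map_add, hp, hq]
  | mul_X p a hp =>
    have h : dv w (lin g (X a)) = C (g.mulVec w a) := by
      rw [lin_X]
      simp only [Fin.sum_univ_three, lin_dv_add, lin_dv_mul, lin_dv_C, lin_dv_X, Matrix.mulVec,
        dotProduct, map_add, map_mul]
      ring
    rw [map_mul, lin_dv_mul, lin_dv_mul, map_add, map_mul, map_mul, hp, h, lin_dv_X, lin_C]

/-- An invertible linear substitution as an automorphism. -/
noncomputable def linEquiv {g : Matrix (Fin 3) (Fin 3) ℂ} (hg : IsUnit g.det) : S ≃ₐ[ℂ] S :=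
  AlgEquiv.ofAlgHom (lin g) (lin g⁻¹)
    (AlgHom.ext fun G => by
      rw [AlgHom.comp_apply, lin_lin, Matrix.nonsing_inv_mul g hg, lin_one]; rfl)
    (AlgHom.ext fun G => by
      rw [AlgHom.comp_apply, lin_lin, Matrix.mul_nonsing_inv g hg, lin_one]; rfl)

theorem lin_prime {g : Matrix (Fin 3) (Fin 3) ℂ} (hg : IsUnit g.det) {F : S} (hF : Prime F) :
    Prime (lin g F) :=
  (MulEquiv.prime_iff (linEquiv hg).toMulEquiv).2 hF

/-- Change of coordinates: the curve `F` at the points `g (q i)` is the curve `lin g F` at the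
points `q i`. -/
theorem Cv.subst {g : Matrix (Fin 3) (Fin 3) ℂ} (hg : IsUnit g.det) {q : ι → Fin 3 → ℂ} {F : S}
    {d : ℕ} {m : ι → ℕ} (h : Cv (fun i => g.mulVec (q i)) F d m) : Cv q (lin g F) d m := by
  refine ⟨lin_isHomogeneous g h.hom, lin_prime hg h.prime, fun i =>
    ⟨lin_mem_pow g _ (h.mult i).1, fun hh => (h.mult i).2 ?_⟩⟩
  have e : q i = g⁻¹.mulVec (g.mulVec (q i)) := by
    rw [Matrix.mulVec_mulVec, Matrix.nonsing_inv_mul g hg, Matrix.one_mulVec]
  rw [e] at hh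
  have h2 := lin_mem_pow g⁻¹ _ hh
  rwa [lin_lin, Matrix.mul_nonsing_inv g hg, lin_one] at h2

theorem lin_scalar {G : S} {k : ℕ} (hG : G.IsHomogeneous k) (c : ℂ) :
    lin (c • (1 : Matrix (Fin 3) (Fin 3) ℂ)) G = C (c ^ k) * G := by
  refine MvPolynomial.funext fun x => ?_
  rw [eval_lin, Matrix.smul_mulVec, Matrix.one_mulVec, eval_smul_of_isHomogeneous hG, map_mul,
    eval_C]

/-- Rescaling a point does not change the multiplicity conditions on forms. -/
theorem mem_smul_of_mem {F G : S} {d k a : ℕ} (hF : F.IsHomogeneous d) (hG : G.IsHomogeneous k)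
    (p : Fin 3 → ℂ) {c : ℂ} (hc : c ≠ 0) (h : G ∈ mx p ^ a ⊔ Ideal.span {F}) :
    G ∈ mx (c • p) ^ a ⊔ Ideal.span {F} := by
  obtain ⟨u, hu, v, hv, rfl⟩ := Submodule.mem_sup.1 h
  obtain ⟨b, rfl⟩ := Ideal.mem_span_singleton'.1 hv
  set g : Matrix (Fin 3) (Fin 3) ℂ := c⁻¹ • (1 : Matrix (Fin 3) (Fin 3) ℂ) with hg
  have e : p = g.mulVec (c • p) := by
    rw [hg, Matrix.smul_mulVec, Matrix.one_mulVec, smul_smul, inv_mul_cancel₀ hc, one_smul]
  have h1 : lin g u ∈ mx (c • p) ^ a := lin_mem_pow g _ (e ▸ hu)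
  have h2 : lin g (b * F) ∈ Ideal.span {F} := by
    rw [map_mul, hg, lin_scalar hF, ← mul_assoc]
    exact Ideal.mem_span_singleton'.2 ⟨_, rfl⟩
  have h3 : lin g (u + b * F) ∈ mx (c • p) ^ a ⊔ Ideal.span {F} := by
    rw [map_add]
    exact Submodule.add_mem_sup h1 h2
  rw [hg, lin_scalar hG] at h3
  have h4 := Ideal.mul_mem_left _ (C (c ^ k)) h3
  rwa [← mul_assoc, ← map_mul, ← mul_pow, mul_inv_cancel₀ hc, one_pow, map_one, one_mul] at h4

theorem mem_pow_smul_of_mem {G : S} {k a : ℕ} (hG : G.IsHomogeneous k)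
    (p : Fin 3 → ℂ) {c : ℂ} (hc : c ≠ 0) (h : G ∈ mx p ^ a) : G ∈ mx (c • p) ^ a := by
  have := mem_smul_of_mem (F := 0) (d := 0) (isHomogeneous_zero _ _ _) hG p hc
    (Ideal.mem_sup_left h)
  simpa using this

theorem Cv.pos {p : ι → Fin 3 → ℂ} {F : S} {d : ℕ} {m : ι → ℕ} (h : Cv p F d m) : 0 < d := by
  rcases Nat.eq_zero_or_pos d with rfl | hd
  · exfalso
    have h1 : F.totalDegree = 0 := h.hom.totalDegree h.prime.ne_zero
    rw [totalDegree_eq_zero_iff_eq_C] at h1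
    have h2 : coeff 0 F ≠ 0 := fun h0 => h.prime.ne_zero (by rw [h1, h0, map_zero])
    apply h.prime.not_isUnit
    rw [h1]
    exact (IsUnit.mk0 _ h2).map C
  · exact hd

theorem Cv.le {p : ι → Fin 3 → ℂ} {F : S} {d : ℕ} {m : ι → ℕ} (h : Cv p F d m) (i : ι) :
    m i ≤ d := by
  have := mult_le_totalDegree (p i) h.prime.ne_zero (h.mult i).1
  rwa [h.hom.totalDegree h.prime.ne_zero] at this

end Pool.Agent.P.MP_3c83d0_ag
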