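import Pool.Agent.P.MP_3c83d0_ag.Defs

open MvPolynomial

namespace Pool.Agent.P.MP_3c83d0_ag

variable {σ : Type*} [Fintype σ] [DecidableEq σ]

namespace LocX

omit [Fintype σ] [DecidableEq σ]

/-- Translation of the variables. -/
noncomputable def tr (p : σ → ℂ) : MvPolynomial σ ℂ →ₐ[ℂ] MvPolynomial σ ℂ :=
  aeval fun j => X j + C (p j)

theorem tr_X (p : σ → ℂ) (j : σ) : tr p (X j) = X j + C (p j) := aeval_X _ _

theorem tr_C (p : σ → ℂ) (c : ℂ) : tr p (C c) = C c := aeval_C _ _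

theorem tr_tr (p q : σ → ℂ) (h : ∀ j, q j + p j = 0) (G : MvPolynomial σ ℂ) :
    tr q (tr p G) = G := by
  induction G using MvPolynomial.induction_on with
  | C c => rw [tr_C, tr_C]
  | add G H hG hH => rw [map_add, map_add, hG, hH]
  | mul_X G j hG =>
    rw [map_mul, map_mul, hG, tr_X, map_add, tr_X, tr_C, add_assoc, ← map_add, h, map_zero,
      add_zero]

theorem tr_injective (p : σ → ℂ) : Function.Injective (tr p) :=
  Function.LeftInverse.injective (tr_tr p (-p) fun j => by simp)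

theorem coeff_zero_tr (p : σ → ℂ) (G : MvPolynomial σ ℂ) : coeff 0 (tr p G) = eval p G := by
  change constantCoeff (tr p G) = _
  induction G using MvPolynomial.induction_on with
  | C c => rw [tr_C]; simp
  | add G H hG hH => rw [map_add, map_add, hG, hH, map_add]
  | mul_X G j hG => rw [map_mul, map_mul, hG, tr_X]; simp

theorem pderiv_tr (p : σ → ℂ) (j : σ) (G : MvPolynomial σ ℂ) :
    pderiv j (tr p G) = tr p (pderiv j G) := by
  classical
  induction G using MvPolynomial.induction_on with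
  | C c => rw [tr_C]; simp
  | add G H hG hH => simp only [map_add, hG, hH]
  | mul_X G i hG =>
    rw [map_mul, pderiv_mul, pderiv_mul, hG, tr_X, map_add, map_add, map_mul, map_mul, tr_X,
      pderiv_C, add_zero]
    by_cases h : i = j
    · subst h; simp
    · simp [pderiv_X_of_ne h]

theorem mem_vars_iff (G : MvPolynomial σ ℂ) : G ∈ idealOfVars σ ℂ ↔ coeff 0 G = 0 := by
  rw [← pow_one (idealOfVars σ ℂ), mem_pow_idealOfVars_iff']
  constructor
  · intro h; exact h 0 (by simp)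
  · intro h x hx
    have : x = 0 := (Finsupp.degree_eq_zero_iff x).1 (by omega)
    rw [this, h]

theorem mem_mx_iff (p : σ → ℂ) (G : MvPolynomial σ ℂ) : G ∈ mx p ↔ tr p G ∈ idealOfVars σ ℂ := by
  rw [mem_vars_iff, coeff_zero_tr]; rfl

theorem mem_pow_iff (p : σ → ℂ) (G : MvPolynomial σ ℂ) (a : ℕ) :
    G ∈ mx p ^ a ↔ tr p G ∈ idealOfVars σ ℂ ^ a := by
  constructor
  · intro h
    have h1 : mx p ≤ (idealOfVars σ ℂ).comap (tr p) := fun H hH => (mem_mx_iff p H).1 hH
    exact Ideal.le_comap_pow _ a (Ideal.pow_right_mono h1 a h)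
  · intro h
    have h1 : idealOfVars σ ℂ ≤ (mx p).comap (tr (-p)) := fun H hH => by
      rw [Ideal.mem_comap, mem_mx_iff, tr_tr (-p) p fun j => by simp]
      exact hH
    have h2 := Ideal.le_comap_pow _ a (Ideal.pow_right_mono h1 a h)
    rwa [Ideal.mem_comap, tr_tr p (-p) fun j => by simp] at h2

theorem totalDegree_tr_le (p : σ → ℂ) (G : MvPolynomial σ ℂ) :
    (tr p G).totalDegree ≤ G.totalDegree := by
  conv_lhs => rw [G.as_sum, map_sum]
  refine totalDegree_finsetSum_le fun s hs => ?_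
  refine le_trans ?_ (le_totalDegree hs)
  rw [tr, aeval_monomial]
  refine (totalDegree_mul _ _).trans ?_
  rw [algebraMap_eq, totalDegree_C, zero_add]
  refine (totalDegree_finsetProd _ _).trans (Finset.sum_le_sum fun j _ => ?_)
  refine (totalDegree_pow _ _).trans ?_
  have : (X j + C (p j) : MvPolynomial σ ℂ).totalDegree ≤ 1 :=
    (totalDegree_add _ _).trans (by simp)
  calc s j * (X j + C (p j) : MvPolynomial σ ℂ).totalDegree ≤ s j * 1 := Nat.mul_le_mul_left _ this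
    _ = s j := mul_one _

theorem succ_iff (G : MvPolynomial σ ℂ) (a : ℕ) :
    G ∈ idealOfVars σ ℂ ^ (a + 1) ↔ coeff 0 G = 0 ∧ ∀ j, pderiv j G ∈ idealOfVars σ ℂ ^ a := by
  simp only [mem_pow_idealOfVars_iff']
  constructor
  · intro h
    refine ⟨h 0 (by simp), fun j x hx => ?_⟩
    rw [coeff_pderiv, h _ (by rw [map_add, Finsupp.degree_single]; omega), zero_mul]
  · rintro ⟨h0, h⟩ x hx
    by_cases hx0 : x = 0
    · rw [hx0, h0]
    · obtain ⟨j, hj⟩ := Finsupp.ne_iff.1 hx0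
      obtain ⟨y, rfl⟩ : ∃ y, x = y + Finsupp.single j 1 :=
        ⟨x - Finsupp.single j 1, (Finsupp.sub_add_single_one_cancel hj).symm⟩
      rw [map_add, Finsupp.degree_single] at hx
      have h1 := h j y (by omega)
      rw [coeff_pderiv] at h1
      exact (mul_eq_zero.1 h1).resolve_right (Nat.cast_add_one_ne_zero _)

theorem sub_comp_mem {G : MvPolynomial σ ℂ} {a : ℕ} (h : G ∈ idealOfVars σ ℂ ^ a) :
    G - homogeneousComponent a G ∈ idealOfVars σ ℂ ^ (a + 1) := by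
  rw [mem_pow_idealOfVars_iff'] at h ⊢
  intro x hx
  rw [coeff_sub, coeff_homogeneousComponent]
  split_ifs with h1
  · exact sub_self _
  · rw [h x (by omega), sub_zero]

theorem mem_of_hom {G : MvPolynomial σ ℂ} {a : ℕ} (h : G.IsHomogeneous a) :
    G ∈ idealOfVars σ ℂ ^ a :=
  (mem_pow_idealOfVars_iff' _ _).2 fun _ hx => h.coeff_eq_zero hx.ne

theorem eq_zero_of_hom {G : MvPolynomial σ ℂ} {a : ℕ} (h : G.IsHomogeneous a)
    (h' : G ∈ idealOfVars σ ℂ ^ (a + 1)) : G = 0 := by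
  ext x
  by_cases hx : x.degree = a
  · exact (mem_pow_idealOfVars_iff' _ _).1 h' x (by omega)
  · exact h.coeff_eq_zero hx

theorem exists_exact {R : Type*} [CommRing R] (I : Ideal R) {G : R} {a : ℕ}
    (h : G ∉ I ^ (a + 1)) : ∃ b ≤ a, G ∈ I ^ b ∧ G ∉ I ^ (b + 1) := by
  induction a with
  | zero => exact ⟨0, le_rfl, by simp, h⟩
  | succ a ih =>
    by_cases h1 : G ∈ I ^ (a + 1)
    · exact ⟨a + 1, le_rfl, h1, h⟩
    · obtain ⟨b, hb, h2⟩ := ih h1
      exact ⟨b, hb.trans (Nat.le_succ a), h2⟩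

theorem not_mem_mul₀ {G H : MvPolynomial σ ℂ} {a b : ℕ} (hG : G ∉ idealOfVars σ ℂ ^ (a + 1))
    (hH : H ∉ idealOfVars σ ℂ ^ (b + 1)) : G * H ∉ idealOfVars σ ℂ ^ (a + b + 1) := by
  obtain ⟨a', ha, hG1, hG2⟩ := exists_exact _ hG
  obtain ⟨b', hb, hH1, hH2⟩ := exists_exact _ hH
  intro h
  have h1 : G * H ∈ idealOfVars σ ℂ ^ (a' + b' + 1) := Ideal.pow_le_pow_right (by omega) h
  have hG3 := sub_comp_mem hG1
  have hH3 := sub_comp_mem hH1
  have hG4 := homogeneousComponent_isHomogeneous a' G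
  have hH4 := homogeneousComponent_isHomogeneous b' H
  set G₀ := homogeneousComponent a' G
  set H₀ := homogeneousComponent b' H
  have h2 : (G - G₀) * H ∈ idealOfVars σ ℂ ^ (a' + b' + 1) := by
    rw [show a' + b' + 1 = (a' + 1) + b' by ring, pow_add]
    exact Ideal.mul_mem_mul hG3 hH1
  have h3 : G₀ * (H - H₀) ∈ idealOfVars σ ℂ ^ (a' + b' + 1) := by
    rw [add_assoc, pow_add]
    exact Ideal.mul_mem_mul (mem_of_hom hG4) hH3
  have h4 : G₀ * H₀ ∈ idealOfVars σ ℂ ^ (a' + b' + 1) := by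
    have : G₀ * H₀ = G * H - (G - G₀) * H - G₀ * (H - H₀) := by ring
    rw [this]
    exact Ideal.sub_mem _ (Ideal.sub_mem _ h1 h2) h3
  rcases mul_eq_zero.1 (eq_zero_of_hom (hG4.mul hH4) h4) with h5 | h5
  · rw [h5, sub_zero] at hG3; exact hG2 hG3
  · rw [h5, sub_zero] at hH3; exact hH2 hH3

theorem le_totalDegree₀ {G : MvPolynomial σ ℂ} {a : ℕ} (h0 : G ≠ 0)
    (hG : G ∈ idealOfVars σ ℂ ^ a) : a ≤ G.totalDegree := by
  obtain ⟨x, hx⟩ := support_nonempty.2 h0
  exact ((mem_pow_idealOfVars_iff _ _).1 hG x hx).trans (le_totalDegree hx)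

theorem euler₀ [Fintype σ] {G : MvPolynomial σ ℂ} {a : ℕ} (hG : G ∈ idealOfVars σ ℂ ^ a) :
    ∑ j, X j * pderiv j G - C (a : ℂ) * G ∈ idealOfVars σ ℂ ^ (a + 1) := by
  have h1 := sub_comp_mem hG
  have h2 := (homogeneousComponent_isHomogeneous a G).sum_X_mul_pderiv
  set G₀ := homogeneousComponent a G
  have h3 : ∑ j, X j * pderiv j G - C (a : ℂ) * G =
      ∑ j, X j * pderiv j (G - G₀) - C (a : ℂ) * (G - G₀) := by
    simp only [map_sub, mul_sub, Finset.sum_sub_distrib, h2, nsmul_eq_mul, map_natCast]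
    ring
  rw [h3]
  refine Ideal.sub_mem _ (Ideal.sum_mem _ fun j _ => ?_) (Ideal.mul_mem_left _ _ h1)
  rw [pow_succ']
  exact Ideal.mul_mem_mul (Ideal.subset_span ⟨j, rfl⟩) (((succ_iff _ a).1 h1).2 j)

end LocX

open LocX

omit [Fintype σ] [DecidableEq σ] in
theorem mem_mx (p : σ → ℂ) (G : MvPolynomial σ ℂ) : G ∈ mx p ↔ eval p G = 0 := Iff.rfl

theorem mx_eq_span (p : σ → ℂ) : mx p = Ideal.span (Set.range fun j => X j - C (p j)) := by
  apply le_antisymm
  · intro G hG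
    have h1 : idealOfVars σ ℂ ≤
        (Ideal.span (Set.range fun j => X j - C (p j))).comap (tr (-p)) := by
      rw [Ideal.span_le]
      rintro _ ⟨j, rfl⟩
      refine Ideal.subset_span ⟨j, ?_⟩
      rw [tr_X]; simp [sub_eq_add_neg]
    have h2 := h1 ((mem_mx_iff p G).1 hG)
    rwa [Ideal.mem_comap, tr_tr p (-p) fun j => by simp] at h2
  · rw [Ideal.span_le]
    rintro _ ⟨j, rfl⟩
    simp [mem_mx]

theorem mx_isMaximal (p : σ → ℂ) : (mx p).IsMaximal :=
  RingHom.ker_isMaximal_of_surjective _ fun c => ⟨C c, eval_C c⟩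

/-- Taylor criterion. -/
theorem mem_pow_succ_iff (p : σ → ℂ) (G : MvPolynomial σ ℂ) (a : ℕ) :
    G ∈ mx p ^ (a + 1) ↔ eval p G = 0 ∧ ∀ j, pderiv j G ∈ mx p ^ a := by
  simp only [mem_pow_iff, succ_iff, coeff_zero_tr, pderiv_tr]

/-- Multiplicities add. -/
theorem not_mem_mul (p : σ → ℂ) {G H : MvPolynomial σ ℂ} {a b : ℕ} (hG : G ∉ mx p ^ (a + 1))
    (hH : H ∉ mx p ^ (b + 1)) : G * H ∉ mx p ^ (a + b + 1) := by
  rw [mem_pow_iff] at hG hH ⊢
  rw [map_mul]
  exact not_mem_mul₀ hG hH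

/-- Euler identity for the leading form at `p`. -/
theorem euler_mem (p : σ → ℂ) {G : MvPolynomial σ ℂ} {a : ℕ} (hG : G ∈ mx p ^ a) :
    ∑ j, (X j - C (p j)) * pderiv j G - C (a : ℂ) * G ∈ mx p ^ (a + 1) := by
  rw [mem_pow_iff] at hG ⊢
  have h := euler₀ hG
  simpa only [map_sub, map_sum, map_mul, tr_X, tr_C, add_sub_cancel_right, pderiv_tr] using h

theorem dv_mem (p w : σ → ℂ) {G : MvPolynomial σ ℂ} {a : ℕ} (hG : G ∈ mx p ^ (a + 1)) :
    dv w G ∈ mx p ^ a :=
  Ideal.sum_mem _ fun j _ => Ideal.mul_mem_left _ _ (((mem_pow_succ_iff p G a).1 hG).2 j)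

/-- The radial derivative of a form does not lower the multiplicity. -/
theorem dv_self_mem (p : σ → ℂ) {G : MvPolynomial σ ℂ} {k a : ℕ} (hh : G.IsHomogeneous k)
    (hG : G ∈ mx p ^ a) : dv p G ∈ mx p ^ a := by
  have h1 := Ideal.pow_le_pow_right (Nat.le_succ a) (euler_mem p hG)
  have h2 : dv p G = ((k : MvPolynomial σ ℂ) - C (a : ℂ)) * G -
      (∑ j, (X j - C (p j)) * pderiv j G - C (a : ℂ) * G) := by
    simp only [dv, sub_mul, Finset.sum_sub_distrib, hh.sum_X_mul_pderiv, nsmul_eq_mul]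
    ring
  rw [h2]
  exact Ideal.sub_mem _ (Ideal.mul_mem_left _ _ hG) h1

theorem mult_le_totalDegree (p : σ → ℂ) {G : MvPolynomial σ ℂ} {a : ℕ} (h0 : G ≠ 0)
    (hG : G ∈ mx p ^ a) : a ≤ G.totalDegree := by
  rw [mem_pow_iff] at hG
  exact (le_totalDegree₀ ((map_ne_zero_iff _ (tr_injective p)).2 h0) hG).trans
    (totalDegree_tr_le p G)

theorem exists_hasMult (p : σ → ℂ) {G : MvPolynomial σ ℂ} (h0 : G ≠ 0) : ∃ m, HasMult G p m := by
  have h : G ∉ mx p ^ (G.totalDegree + 1) := fun h => by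
    have := mult_le_totalDegree p h0 h
    omega
  obtain ⟨b, -, hb⟩ := exists_exact _ h
  exact ⟨b, hb⟩

/-- A derivation that preserves an ideal preserves its powers. -/
theorem der_pow_mem {R : Type*} [CommRing R] (Θ : Derivation ℤ R R) (I : Ideal R)
    (h : ∀ x ∈ I, Θ x ∈ I) (a : ℕ) : ∀ x ∈ I ^ a, Θ x ∈ I ^ a := by
  induction a with
  | zero => intro x _; simp
  | succ a ih =>
    intro x hx
    rw [pow_succ] at hx ⊢
    refine Submodule.mul_induction_on hx (fun y hy z hz => ?_) (fun y z hy hz => ?_)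
    · rw [Derivation.leibniz, smul_eq_mul, smul_eq_mul, mul_comm z]
      exact Ideal.add_mem _ (Ideal.mul_mem_mul hy (h z hz)) (Ideal.mul_mem_mul (ih y hy) hz)
    · rw [map_add]
      exact Ideal.add_mem _ hy hz

/-- A factor of a nonzero form is a form. -/
theorem isHomogeneous_of_mul {G H : MvPolynomial σ ℂ} {k : ℕ} (h : (G * H).IsHomogeneous k)
    (h0 : G * H ≠ 0) : G.IsHomogeneous G.totalDegree := by
  have hG0 : G ≠ 0 := left_ne_zero_of_mul h0
  have hH0 : H ≠ 0 := right_ne_zero_of_mul h0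
  have hk : G.totalDegree + H.totalDegree = k := by
    rw [← totalDegree_mul_of_isDomain hG0 hH0, h.totalDegree h0]
  have hH : H ∉ idealOfVars σ ℂ ^ (H.totalDegree + 1) := fun h1 => by
    have := le_totalDegree₀ hH0 h1
    omega
  have hG : G ∈ idealOfVars σ ℂ ^ G.totalDegree := by
    rcases hd : G.totalDegree with _ | a
    · simp
    · by_contra h1
      apply not_mem_mul₀ h1 hH
      rw [show a + H.totalDegree + 1 = k by omega]
      exact mem_of_hom h
  intro x hx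
  have hx' : x ∈ G.support := mem_support_iff.2 hx
  have h1 := (mem_pow_idealOfVars_iff _ _).1 hG x hx'
  have h2 : x.degree ≤ G.totalDegree := le_totalDegree hx'
  have h3 : x.degree = G.totalDegree := le_antisymm h2 h1
  rw [Finsupp.degree_eq_weight_one] at h3
  exact h3

theorem eval_smul_of_isHomogeneous {G : MvPolynomial σ ℂ} {k : ℕ} (h : G.IsHomogeneous k)
    (c : ℂ) (p : σ → ℂ) : eval (c • p) G = c ^ k * eval p G := by
  rw [eval_eq', eval_eq', Finset.mul_sum]
  refine Finset.sum_congr rfl fun x hx => ?_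
  have h1 : ∑ j, x j = k := by
    by_contra hne
    exact mem_support_iff.1 hx (h.coeff_eq_zero (by rwa [Finsupp.degree_eq_sum]))
  simp only [Pi.smul_apply, smul_eq_mul, mul_pow, Finset.prod_mul_distrib,
    Finset.prod_pow_eq_pow_sum, h1]
  ring

/-- A form divisible by a form of the same degree is a constant multiple. -/
theorem exists_eq_C_mul {F G : MvPolynomial σ ℂ} {d : ℕ} (hF : F.IsHomogeneous d) (hF0 : F ≠ 0)
    (hG : G.IsHomogeneous d) (h : F ∣ G) : ∃ c : ℂ, G = C c * F := by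
  obtain ⟨r, rfl⟩ := h
  by_cases hr : r = 0
  · exact ⟨0, by simp [hr]⟩
  · have h1 := totalDegree_mul_of_isDomain hF0 hr
    rw [hG.totalDegree (mul_ne_zero hF0 hr), hF.totalDegree hF0] at h1
    have h2 : r.totalDegree = 0 := by omega
    rw [totalDegree_eq_zero_iff_eq_C] at h2
    exact ⟨coeff 0 r, by rw [← h2, mul_comm]⟩

end Pool.Agent.P.MP_3c83d0_ag
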