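import Pool.Agent.P.MP_3c83d0_ag.Defs

open MvPolynomial

namespace Pool.Agent.P.MP_3c83d0_ag

variable {ι : Type*} [Fintype ι]

open Finset in
theorem sum_three [DecidableEq ι] {i j k : ι} (hj : j ∈ univ.erase i)
    (hk : k ∈ (univ.erase i).erase j) (f : ι → ℤ) :
    ∑ l, f l = f i + f j + f k + ∑ l ∈ ((univ.erase i).erase j).erase k, f l := by
  rw [← add_sum_erase _ f (mem_univ i), ← add_sum_erase _ f hj, ← add_sum_erase _ f hk]
  ring

omit [Fintype ι] in
theorem defect (U : Finset ι) (f : ι → ℤ) (M c : ℤ)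
    (hM : ∀ u ∈ U, f u ≤ M) (hc : ∀ u ∈ U, f u ≠ 0 → c ≤ f u) :
    ∃ J q : ℤ, 0 ≤ J ∧ ∑ u ∈ U, f u + J = M * q ∧ c * J ≤ ∑ u ∈ U, f u * (M - f u) ∧
      ∑ u ∈ U, f u * (M - f u) ≤ M * J := by
  refine ⟨∑ u ∈ U, if f u = 0 then 0 else M - f u, ∑ u ∈ U, if f u = 0 then 0 else 1,
    Finset.sum_nonneg fun u hu => ?_, ?_, ?_, ?_⟩
  · have := hM u hu
    split_ifs <;> omega
  · rw [← Finset.sum_add_distrib, Finset.mul_sum]
    refine Finset.sum_congr rfl fun u _ => ?_
    split_ifs with h
    · simp [h]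
    · ring
  · rw [Finset.mul_sum]
    refine Finset.sum_le_sum fun u hu => ?_
    split_ifs with h
    · simp [h]
    · exact mul_le_mul_of_nonneg_right (hc u hu h) (sub_nonneg.2 (hM u hu))
  · rw [Finset.mul_sum]
    refine Finset.sum_le_sum fun u hu => ?_
    split_ifs with h
    · simp [h]
    · exact mul_le_mul_of_nonneg_right (hM u hu) (sub_nonneg.2 (hM u hu))

theorem g2_even (d : ℕ) (m : ι → ℕ) : Even (g2 d m) := by
  have h1 : g2 d m = ((d : ℤ) - 1) * ((d : ℤ) - 1 + 1) - 2 * d
      - ∑ i, ((m i : ℤ) - 1) * ((m i : ℤ) - 1 + 1) := by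
    have : ∑ i, ((m i : ℤ) - 1) * ((m i : ℤ) - 1 + 1) = ∑ i, (m i : ℤ) ^ 2 - ∑ i, (m i : ℤ) := by
      rw [← Finset.sum_sub_distrib]
      exact Finset.sum_congr rfl fun i _ => by ring
    rw [this, g2, sq, kc]
    ring
  rw [h1]
  exact ((Int.even_mul_succ_self _).sub (even_two_mul _)).sub
    (Finset.even_sum _ fun i _ => Int.even_mul_succ_self _)

open Finset in
theorem Rules.no_bad {R : ℕ → (ι → ℕ) → Prop} (h : Rules R) (d : ℕ) : ∀ m : ι → ℕ, R d m →
    ((sq d m = -2 ∧ g2 d m = -2) ∨ (sq d m = -1 ∧ g2 d m = 0) ∨ (sq d m = -1 ∧ g2 d m = 2)) →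
    ((∃ l, m l = 3) ∨ ∀ i j k, i ≠ j → i ≠ k → j ≠ k → 3 < m i → 3 < m j → 3 < m k → False) →
    False := by
  classical
  induction d using Nat.strong_induction_on with
  | _ d ih =>
  intro m hR hbad hQ
  have hd : (0 : ℤ) < d := by exact_mod_cast h.pos d m hR
  have hle : ∀ l, (m l : ℤ) ≤ d := fun l => by exact_mod_cast h.le d m hR l
  have hg : g2 d m = sq d m + kc d m := rfl
  have hn : sq d m < 0 := by omega
  have hk0 : 0 ≤ kc d m := by omega
  have hsum : 3 * (d : ℤ) ≤ ∑ l, (m l : ℤ) := by unfold kc at hk0; omega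
  -- the three largest multiplicities
  have ne1 : (univ : Finset ι).Nonempty := by
    by_contra hne
    rw [not_nonempty_iff_eq_empty.1 hne, sum_empty] at hsum
    omega
  obtain ⟨i, -, hi⟩ := exists_max_image univ m ne1
  have e1 := add_sum_erase univ (fun l => (m l : ℤ)) (mem_univ i)
  have ne2 : (univ.erase i).Nonempty := by
    by_contra hne
    rw [not_nonempty_iff_eq_empty.1 hne, sum_empty] at e1
    have := hle i
    omega
  obtain ⟨j, hj, hj'⟩ := exists_max_image _ m ne2
  have e2 := add_sum_erase _ (fun l => (m l : ℤ)) hj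
  have ne3 : ((univ.erase i).erase j).Nonempty := by
    by_contra hne
    rw [not_nonempty_iff_eq_empty.1 hne, sum_empty] at e2
    have := hle i
    have := hle j
    omega
  obtain ⟨k, hk, hk'⟩ := exists_max_image _ m ne3
  clear e1 e2 ne1 ne2 ne3
  have hij : i ≠ j := (ne_of_mem_erase hj).symm
  have hjk : j ≠ k := (ne_of_mem_erase hk).symm
  have hik : i ≠ k := (ne_of_mem_erase (mem_of_mem_erase hk)).symm
  have hji : m j ≤ m i := hi j (mem_univ _)
  have hkj : m k ≤ m j := hj' k (mem_of_mem_erase hk)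
  set U := ((univ.erase i).erase j).erase k with hU
  have memU : ∀ l, l ∈ U ↔ l ≠ i ∧ l ≠ j ∧ l ≠ k := by
    intro l
    simp only [hU, mem_erase, mem_univ, and_true]
    tauto
  have hUk : ∀ l ∈ U, m l ≤ m k := fun l hl => hk' l (mem_of_mem_erase hl)
  have s1 := sum_three hj hk (fun l => (m l : ℤ))
  have s2 := sum_three hj hk (fun l => (m l : ℤ) ^ 2)
  rw [← hU] at s1 s2
  have no2 : ∀ l, m l ≠ 2 := fun l hl => by
    have := h.r2 d m hR hn l hl
    omega
  by_cases hd1 : d = 1
  · subst hd1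
    have e : ∑ l, (m l : ℤ) ^ 2 = ∑ l, (m l : ℤ) := by
      refine sum_congr rfl fun l _ => ?_
      have := h.le 1 m hR l
      interval_cases m l <;> simp
    have hs : sq 1 m = 1 - ∑ l, (m l : ℤ) := by simp [sq, e]
    have hex : ∃ l, m l = 1 := by
      by_contra hne
      have : ∑ l, (m l : ℤ) = 0 := sum_eq_zero fun l _ => by
        have h1 := h.le 1 m hR l
        have h2 : m l ≠ 1 := fun e => hne ⟨l, e⟩
        omega
      omega
    obtain ⟨l, hl⟩ := hex
    have := h.r1 1 m hR hn l hl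
    push_cast at hsum
    omega
  by_cases hlt : d < m i + m j + m k
  · obtain ⟨d', m', hR', c0, c1, c2, c3, c4⟩ := h.cr d m hR hd1 i j k hij hik hjk
    have s1' := sum_three hj hk (fun l => (m' l : ℤ))
    have s2' := sum_three hj hk (fun l => (m' l : ℤ) ^ 2)
    rw [← hU] at s1' s2'
    have u1 : ∑ l ∈ U, (m' l : ℤ) = ∑ l ∈ U, (m l : ℤ) := sum_congr rfl fun l hl => by
      obtain ⟨a, b, c⟩ := (memU l).1 hl
      rw [c4 l a b c]
    have u2 : ∑ l ∈ U, (m' l : ℤ) ^ 2 = ∑ l ∈ U, (m l : ℤ) ^ 2 := sum_congr rfl fun l hl => by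
      obtain ⟨a, b, c⟩ := (memU l).1 hl
      rw [c4 l a b c]
    have z0 : (d' : ℤ) = 2 * d - m i - m j - m k := by omega
    have z1 : (m' i : ℤ) = d - m j - m k := by omega
    have z2 : (m' j : ℤ) = d - m i - m k := by omega
    have z3 : (m' k : ℤ) = d - m i - m j := by omega
    have hsq : sq d' m' = sq d m := by
      simp only [sq, s2, s2', u2, z0, z1, z2, z3]
      ring
    have hkc : kc d' m' = kc d m := by
      simp only [kc, s1, s1', u1, z0, z1, z2, z3]
      ring
    have hg' : g2 d' m' = g2 d m := by rw [g2, g2, hsq, hkc]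
    refine ih d' (by omega) m' hR' (by rw [hsq, hg']; exact hbad) ?_
    by_cases h3 : ∃ l ∈ U, m l = 3
    · obtain ⟨l, hl, hl3⟩ := h3
      obtain ⟨a, b, c⟩ := (memU l).1 hl
      exact Or.inl ⟨l, by rw [c4 l a b c, hl3]⟩
    · right
      have hM3 : m k ≤ 3 := by
        rcases hQ with ⟨l, hl⟩ | hQ
        · by_cases hlU : l ∈ U
          · exact (h3 ⟨l, hlU, hl⟩).elim
          · rw [memU] at hlU
            have : l = i ∨ l = j ∨ l = k := by tauto
            rcases this with rfl | rfl | rfl <;> omega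
        · by_contra hc
          exact hQ i j k hij hik hjk (by omega) (by omega) (by omega)
      have key : ∀ l, 3 < m' l → l = i ∨ l = j := by
        intro l hl
        by_contra hc
        push Not at hc
        by_cases hlk : l = k
        · subst hlk
          omega
        · have h1 := c4 l hc.1 hc.2 hlk
          have h2 := hUk l ((memU l).2 ⟨hc.1, hc.2, hlk⟩)
          omega
      intro a b c hab hac hbc ha hb hc
      rcases key a ha with rfl | rfl <;> rcases key b hb with rfl | rfl <;>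
        rcases key c hc with rfl | rfl <;>
        first | exact hab rfl | exact hac rfl | exact hbc rfl
  -- the reduced case
  obtain ⟨M, hM⟩ : ∃ M : ℤ, (m k : ℤ) = M := ⟨_, rfl⟩
  obtain ⟨a, ha⟩ : ∃ a : ℤ, (m i : ℤ) = M + a := ⟨m i - M, by ring⟩
  obtain ⟨b, hb⟩ : ∃ b : ℤ, (m j : ℤ) = M + b := ⟨m j - M, by ring⟩
  obtain ⟨t, ht⟩ : ∃ t : ℤ, (d : ℤ) = 3 * M + a + b + t := ⟨d - 3 * M - a - b, by ring⟩
  have hM0 : 0 ≤ M := by omega
  have hb0 : 0 ≤ b := by omega
  have hab : b ≤ a := by omega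
  have ht0 : 0 ≤ t := by omega
  have hUM : ∀ l ∈ U, (m l : ℤ) ≤ M := fun l hl => by have := hUk l hl; omega
  obtain ⟨Δ, hΔ⟩ : ∃ Δ : ℤ, ∑ l ∈ U, (m l : ℤ) * (M - m l) = Δ := ⟨_, rfl⟩
  have hΔ0 : 0 ≤ Δ := by
    rw [← hΔ]
    exact sum_nonneg fun l hl => mul_nonneg (by positivity) (sub_nonneg.2 (hUM l hl))
  have hΔe : Δ = M * ∑ l ∈ U, (m l : ℤ) - ∑ l ∈ U, (m l : ℤ) ^ 2 := by
    rw [← hΔ, mul_sum, ← sum_sub_distrib]
    exact sum_congr rfl fun l _ => by ring
  have hS : ∑ l ∈ U, (m l : ℤ) = kc d m + 6 * M + 2 * (a + b) + 3 * t := by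
    simp only [kc, s1, hM, ha, hb, ht]
    ring
  have hid : M * (kc d m - 2 * (a + b) - 3 * t)
      = 2 * a * b + 2 * t * (a + b) + t ^ 2 - sq d m + Δ := by
    rw [hΔe, hS]
    simp only [sq, s2, hM, ha, hb, ht]
    ring
  have hpos : 0 < kc d m - 2 * (a + b) - 3 * t := by
    by_contra hc
    have h1 : M * (kc d m - 2 * (a + b) - 3 * t) ≤ 0 :=
      mul_nonpos_of_nonneg_of_nonpos hM0 (by omega)
    have ha0 : 0 ≤ a := by omega
    have h2 : 0 ≤ 2 * a * b + 2 * t * (a + b) + t ^ 2 := by positivity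
    omega
  have hg0 : g2 d m ≠ -2 := by omega
  have no11 : m i = 1 → m j = 1 → False := fun x y => hg0 (h.r11 d m hR hn i j hij x y)
  have n2i := no2 i
  have n2k := no2 k
  -- a point of multiplicity three among the others
  have big : 4 ≤ M → ∀ c : ℤ, (∀ l, m l ≠ 0 → c ≤ m l) → (∃ l, m l = 3) ∧ ∃ J q D : ℤ, 0 ≤ J ∧
      0 ≤ D ∧ Δ = 3 * (M - 3) + D ∧ ∑ l ∈ U, (m l : ℤ) - 3 + J = M * q ∧ c * J ≤ D ∧
      D ≤ M * J := by
    intro h4 c hc
    have : ∃ l ∈ U, m l = 3 := by
      rcases hQ with ⟨l, hl⟩ | hQ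
      · refine ⟨l, (memU l).2 ⟨?_, ?_, ?_⟩, hl⟩ <;> rintro rfl <;> omega
      · exact (hQ i j k hij hik hjk (by omega) (by omega) (by omega)).elim
    obtain ⟨l, hl, hl3⟩ := this
    obtain ⟨J, q, j0, j1, j2, j3⟩ := defect (U.erase l) (fun u => (m u : ℤ)) M c
      (fun u hu => hUM u (mem_of_mem_erase hu))
      (fun u _ hu => hc u (by simpa using hu))
    have f1 := add_sum_erase U (fun u => (m u : ℤ)) hl
    have f2 := add_sum_erase U (fun u => (m u : ℤ) * (M - m u)) hl
    simp only [hl3, Nat.cast_ofNat] at f1 f2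
    refine ⟨⟨l, hl3⟩, J, q, _, j0, sum_nonneg fun u hu => mul_nonneg (by positivity)
      (sub_nonneg.2 (hUM u (mem_of_mem_erase hu))), ?_, ?_, j2, j3⟩
    · rw [← hΔ, ← f2]
    · rw [← j1, ← f1]
      ring
  rcases hbad with hb1 | hb1 | hb1
  · exact hg0 hb1.2
  · have hkc : kc d m = 1 := by omega
    obtain rfl : t = 0 := by omega
    obtain rfl : a = 0 := by omega
    obtain rfl : b = 0 := by omega
    rw [hkc, hb1.1] at hid
    rw [hkc] at hS
    have hid' : M = 1 + Δ := by linarith
    by_cases h4 : 4 ≤ M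
    · obtain ⟨-, J, q, D, j0, d0, j1, j2, j3, j4⟩ := big h4 1 (fun l hl => by omega)
      obtain rfl : M = 4 := by omega
      omega
    · by_cases h1 : M = 1
      · exact no11 (by omega) (by omega)
      · obtain rfl : M = 3 := by omega
        have hc : 2 * ∑ l ∈ U, (m l : ℤ) = 6 * ((U.filter fun l => m l = 3).card : ℤ) + Δ := by
          rw [← hΔ, card_filter, mul_sum]
          push_cast
          rw [mul_sum, ← sum_add_distrib]
          refine sum_congr rfl fun l hl => ?_
          have h5 : m l ≤ 3 := by have := hUM l hl; omega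
          have h6 := no2 l
          have h7 : m l = 0 ∨ m l = 1 ∨ m l = 3 := by omega
          rcases h7 with h7 | h7 | h7 <;> rw [h7] <;> norm_num
        have hc6 : (U.filter fun l => m l = 3).card = 6 := by omega
        obtain rfl : d = 9 := by omega
        refine h.rH m hR hn (insert i (insert j (insert k (U.filter fun l => m l = 3)))) ?_ ?_
        · rw [card_insert_of_notMem, card_insert_of_notMem, card_insert_of_notMem, hc6]
          · simp [memU]
          · simp [memU, hjk]
          · simp [memU, hij, hik]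
        · intro l hl
          simp only [mem_insert, mem_filter] at hl
          rcases hl with rfl | rfl | rfl | hl
          · omega
          · omega
          · omega
          · exact hl.2
  · have hkc : kc d m = 3 := by omega
    have no31 : (∃ l, m l = 3) → ∀ l, m l ≠ 0 → (3 : ℤ) ≤ m l := by
      rintro ⟨l, hl⟩ u hu
      have h1 : m u ≠ 1 := fun e => by
        have := h.r31 d m hR hn l u hl e
        omega
      have := no2 u
      omega
    obtain rfl : t = 0 := by omega
    obtain rfl : b = 0 := by omega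
    rw [hkc, hb1.1] at hid
    rw [hkc] at hS
    have ha01 : a = 0 ∨ a = 1 := by omega
    by_cases h4 : 4 ≤ M
    · obtain ⟨h3, -⟩ := big h4 1 (fun l hl => by omega)
      obtain ⟨-, J, q, D, j0, d0, j1, j2, j3, j4⟩ := big h4 3 (no31 h3)
      rcases ha01 with rfl | rfl
      · have hid' : 3 * M = 1 + Δ := by linarith
        have hD : D = 8 := by omega
        have hJ : J = M * (q - 6) := by linarith
        have hJ0 : J ≠ 0 := by
          rintro rfl
          omega
        have hq : 1 ≤ q - 6 := by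
          by_contra hc
          have : M * (q - 6) ≤ 0 := mul_nonpos_of_nonneg_of_nonpos hM0 (by omega)
          omega
        have : M * 1 ≤ M * (q - 6) := mul_le_mul_of_nonneg_left hq hM0
        omega
      · have hid' : M = 1 + Δ := by linarith
        obtain rfl : M = 4 := by omega
        omega
    · by_cases h3 : M = 3
      · subst h3
        have h3' := no31 ⟨k, by omega⟩
        have : Δ = 0 := by
          rw [← hΔ]
          refine sum_eq_zero fun l hl => ?_
          have h5 := hUM l hl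
          by_cases h0 : m l = 0
          · simp [h0]
          · have := h3' l h0
            have : (3 : ℤ) - m l = 0 := by omega
            rw [this, mul_zero]
        rcases ha01 with rfl | rfl <;> omega
      · rcases ha01 with rfl | rfl
        · have hid' : 3 * M = 1 + Δ := by linarith
          exact no11 (by omega) (by omega)
        · have hid' : M = 1 + Δ := by linarith
          omega

theorem Rules.three {R : ℕ → (ι → ℕ) → Prop} (h : Rules R) (d : ℕ) (m : ι → ℕ) (hR : R d m)
    (hn : sq d m < 0) (i : ι) (hi : m i = 3) : sq d m = -1 ∧ g2 d m = -2 := by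
  have h3 := h.r3 d m hR hn i hi
  have h0 := h.r0 d m hR
  obtain ⟨c, hc⟩ := g2_even d m
  by_contra hcon
  exact h.no_bad d m hR (by omega) (Or.inl ⟨i, hi⟩)

end Pool.Agent.P.MP_3c83d0_ag
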