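import Pool.Agent.P.MP_3c83d0_ag.ElDefs

open Polynomial

namespace Pool.Agent.P.MP_3c83d0_ag

section
variable {L Ω : Type} [Field L] [Field Ω]

/-- Graphs of homomorphisms from subrings. -/
def elplaceFn (G : Subring (L × Ω)) : Prop := ∀ y : Ω, ((0 : L), y) ∈ G → y = 0

theorem elplace_uniq {G : Subring (L × Ω)} (hG : elplaceFn G) {x : L} {y y' : Ω}
    (h : (x, y) ∈ G) (h' : (x, y') ∈ G) : y = y' := by
  have := G.sub_mem h h'
  rw [Prod.mk_sub_mk, sub_self] at this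
  exact sub_eq_zero.1 (hG _ this)

theorem elplace_zorn (G0 : Subring (L × Ω)) (h0 : elplaceFn G0) :
    ∃ G : Subring (L × Ω), G0 ≤ G ∧ elplaceFn G ∧ ∀ G', elplaceFn G' → G ≤ G' → G' ≤ G := by
  obtain ⟨G, hG0, hG⟩ := zorn_le_nonempty₀ {G : Subring (L × Ω) | elplaceFn G}
    (fun c hc hch y hy => by
      have : Nonempty c := ⟨⟨y, hy⟩⟩
      have hdir : Directed (· ≤ ·) fun i : c => i.1 := hch.directed
      refine ⟨⨆ i : c, i.1, fun z hz => ?_, fun z hz => le_iSup (fun i : c => i.1) ⟨z, hz⟩⟩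
      obtain ⟨i, hi⟩ := (Subring.mem_iSup_of_directed hdir).1 hz
      exact hc i.2 z hi) G0 h0
  exact ⟨G, hG0, hG.1, fun G' h1 h2 => hG.2 h1 h2⟩

theorem elplace_inv {G : Subring (L × Ω)} (hG : elplaceFn G)
    (hm : ∀ G', elplaceFn G' → G ≤ G' → G' ≤ G) {x : L} {y : Ω} (h : (x, y) ∈ G) (hy : y ≠ 0) :
    (x⁻¹, y⁻¹) ∈ G := by
  have hx : x ≠ 0 := by
    rintro rfl
    exact hy (hG _ h)
  let G' : Subring (L × Ω) :=
    { carrier := {z | ∃ n : ℕ, z * (x, y) ^ n ∈ G}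
      mul_mem' := by
        rintro a b ⟨n, hn⟩ ⟨m, hm⟩
        refine ⟨n + m, ?_⟩
        have := G.mul_mem hn hm
        convert this using 1
        ring
      one_mem' := ⟨0, by simp⟩
      add_mem' := by
        rintro a b ⟨n, hn⟩ ⟨m, hm⟩
        refine ⟨n + m, ?_⟩
        have := G.add_mem (G.mul_mem hn (G.pow_mem h m)) (G.mul_mem hm (G.pow_mem h n))
        convert this using 1
        ring
      zero_mem' := ⟨0, by simp⟩
      neg_mem' := by
        rintro a ⟨n, hn⟩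
        exact ⟨n, by simpa using G.neg_mem hn⟩ }
  refine hm G' ?_ (fun z hz => ⟨0, by simpa using hz⟩) ⟨1, ?_⟩
  · rintro z ⟨n, hn⟩
    rw [Prod.pow_mk, Prod.mk_mul_mk, zero_mul] at hn
    exact (mul_eq_zero.1 (hG _ hn)).resolve_right (pow_ne_zero _ hy)
  · rw [pow_one, Prod.mk_mul_mk, inv_mul_cancel₀ hx, inv_mul_cancel₀ hy]
    exact G.one_mem

theorem elplace_val {G : Subring (L × Ω)} (hG : elplaceFn G) :
    ∃ V : ValuationSubring L, (∀ z ∈ G, z.1 ∈ V) ∧ ∀ z ∈ G, z.2 = 0 → z.1 ∈ V.nonunits := by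
  let B : Subring L := G.map (RingHom.fst L Ω)
  let I : Ideal B :=
    { carrier := {b | ((b : L), (0 : Ω)) ∈ G}
      add_mem' := fun {a b} ha hb => by simpa using G.add_mem ha hb
      zero_mem' := G.zero_mem
      smul_mem' := fun c b hb => by
        obtain ⟨c, ⟨z, hz, rfl⟩⟩ := c
        have := G.mul_mem hz hb
        rw [show z * ((b : L), (0 : Ω)) = (z.1 * b, 0) from Prod.ext rfl (mul_zero _)] at this
        exact this }
  have hI : I ≠ ⊤ := fun e => by
    have h1 : (1 : B) ∈ I := e ▸ Submodule.mem_top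
    have h2 : ((1 : L), (0 : Ω)) ∈ G := h1
    exact zero_ne_one (elplace_uniq hG h2 G.one_mem)
  obtain ⟨V, hV, hV'⟩ := Ideal.image_subset_nonunits_valuationSubring I hI
  refine ⟨V, fun z hz => hV ⟨z, hz, rfl⟩, fun z hz h0 => hV' ⟨⟨z.1, z, hz, rfl⟩, ?_, rfl⟩⟩
  change (z.1, (0 : Ω)) ∈ G
  rw [← h0]
  exact hz

theorem elplace_ext [IsAlgClosed Ω] {G : Subring (L × Ω)} (hG : elplaceFn G)
    (hm : ∀ G', elplaceFn G' → G ≤ G' → G' ≤ G) {V : ValuationSubring L}
    (hV' : ∀ z ∈ G, z.2 = 0 → z.1 ∈ V.nonunits) {x : L} (hx : x ∈ V) :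
    ∃ y, (x, y) ∈ G := by
  let κ : Subfield Ω :=
    { G.map (RingHom.snd L Ω) with
      inv_mem' := by
        rintro _ ⟨z, hz, rfl⟩
        by_cases h0 : z.2 = 0
        · exact ⟨0, G.zero_mem, by simp [h0]⟩
        · exact ⟨_, elplace_inv hG hm (x := z.1) (y := z.2) hz h0, rfl⟩ }
  let s : G →+* κ := ((RingHom.snd L Ω).comp G.subtype).codRestrict κ fun z => ⟨z.1, z.2, rfl⟩
  have hs : Function.Surjective s := by
    rintro ⟨_, z, hz, rfl⟩
    exact ⟨⟨z, hz⟩, rfl⟩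
  let f : G →+* L := (RingHom.fst L Ω).comp G.subtype
  let K : Ideal G[X] := RingHom.ker (eval₂RingHom f x)
  let J : Ideal κ[X] := K.map (mapRingHom s)
  have hJ : J ≠ ⊤ := fun e => by
    have h1 : (1 : κ[X]) ∈ J := e ▸ Submodule.mem_top
    obtain ⟨p, hp, hp1⟩ := (Ideal.mem_map_iff_of_surjective _ (map_surjective s hs)).1 h1
    have hp0 : eval₂ f x (1 - p) = 1 := by
      have : eval₂ f x p = 0 := hp
      rw [eval₂_sub, this, eval₂_one, sub_zero]
    have hc : ∀ n, f ((1 - p).coeff n) ∈ V.nonunits := fun n => by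
      refine hV' _ ((1 - p).coeff n).2 ?_
      have h2 : (1 - p).map s = 0 := by
        rw [Polynomial.map_sub, Polynomial.map_one]
        exact sub_eq_zero.2 hp1.symm
      have h3 := congrArg (fun q : κ[X] => ((coeff q n : κ) : Ω)) h2
      simp only [coeff_map, coeff_zero] at h3
      exact h3
    have h4 : V.valuation (eval₂ f x (1 - p)) < 1 := by
      rw [eval₂_eq_sum_range]
      refine Valuation.map_sum_lt _ one_ne_zero fun n _ => ?_
      rw [map_mul, map_pow]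
      exact mul_lt_one_of_nonneg_of_lt_one_left zero_le
        ((V.mem_nonunits_iff).1 (hc n)) (pow_le_one₀ zero_le ((V.valuation_le_one_iff x).2 hx))
    rw [hp0, map_one] at h4
    exact lt_irrefl _ h4
  obtain ⟨y, hy⟩ : ∃ y : Ω, ∀ q ∈ J, aeval y q = 0 := by
    obtain ⟨q0, hq0⟩ : ∃ q0, J = Ideal.span {q0} := ⟨_, (Ideal.span_singleton_generator J).symm⟩
    by_cases h0 : q0 = 0
    · refine ⟨0, fun q hq => ?_⟩
      rw [hq0, h0, Ideal.mem_span_singleton, zero_dvd_iff] at hq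
      rw [hq, map_zero]
    · have hd : q0.degree ≠ 0 := fun hd => hJ (by
        rw [hq0, Ideal.span_singleton_eq_top]
        exact isUnit_iff_degree_eq_zero.2 hd)
      obtain ⟨y, hy⟩ := IsAlgClosed.exists_aeval_eq_zero Ω q0 hd
      refine ⟨y, fun q hq => ?_⟩
      rw [hq0, Ideal.mem_span_singleton] at hq
      obtain ⟨r, rfl⟩ := hq
      rw [map_mul, hy, zero_mul]
  let Ψ : G[X] →+* L × Ω :=
    (eval₂RingHom f x).prod (eval₂RingHom ((RingHom.snd L Ω).comp G.subtype) y)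
  refine ⟨y, hm Ψ.range ?_ (fun z hz => ⟨C ⟨z, hz⟩, ?_⟩) ⟨X, ?_⟩⟩
  · rintro b ⟨p, hp⟩
    have h1 : p ∈ K := congrArg Prod.fst hp
    have h2 : eval₂ ((RingHom.snd L Ω).comp G.subtype) y p = b := congrArg Prod.snd hp
    have h3 := hy _ (Ideal.mem_map_of_mem _ h1)
    rw [coe_mapRingHom, aeval_def, eval₂_map] at h3
    rw [← h2, ← h3]
    rfl
  · ext <;> simp [Ψ, f]
  · ext <;> simp [Ψ]

end

/-- Chevalley extension theorem. -/
theorem exists_place {L Ω A : Type} [Field L] [Field Ω] [IsAlgClosed Ω] [CommRing A]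
    (i : A →+* L) (φ : A →+* Ω) (h : ∀ a, i a = 0 → φ a = 0) :
    ∃ P : Place L Ω, ∀ a, P.To (i a) (φ a) := by
  obtain ⟨G, hG0, hG, hm⟩ := elplace_zorn (i.prod φ).range (by
    rintro y ⟨a, ha⟩
    have h1 : i a = 0 := congrArg Prod.fst ha
    have h2 : φ a = y := congrArg Prod.snd ha
    rw [← h2, h a h1])
  obtain ⟨V, -, hV'⟩ := elplace_val hG
  let O : Subring L := G.map (RingHom.fst L Ω)
  have hO : ∀ x : O, ∃ y, ((x : L), y) ∈ G := by
    rintro ⟨_, z, hz, rfl⟩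
    exact ⟨z.2, hz⟩
  choose e he using hO
  have hmem : ∀ {x : L} {y : Ω}, (x, y) ∈ G → x ∈ O := fun {x y} hxy => ⟨(x, y), hxy, rfl⟩
  let ev : O →+* Ω :=
    { toFun := e
      map_one' := elplace_uniq hG (he 1) G.one_mem
      map_mul' := fun a b => elplace_uniq hG (he (a * b)) (G.mul_mem (he a) (he b))
      map_zero' := elplace_uniq hG (he 0) G.zero_mem
      map_add' := fun a b => elplace_uniq hG (he (a + b)) (G.add_mem (he a) (he b)) }
  refine ⟨⟨O, ev, fun x => ?_, fun x hx => hmem (elplace_inv hG hm (he x) hx)⟩, fun a => ?_⟩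
  · rcases V.mem_or_inv_mem x with h1 | h1
    · obtain ⟨y, hy⟩ := elplace_ext hG hm hV' h1
      exact Or.inl (hmem hy)
    · obtain ⟨y, hy⟩ := elplace_ext hG hm hV' h1
      exact Or.inr (hmem hy)
  · have h1 : (i a, φ a) ∈ G := hG0 ⟨a, rfl⟩
    exact ⟨hmem h1, elplace_uniq hG (he ⟨_, hmem h1⟩) h1⟩

theorem elplace_aeval (P : Place ℂ ℂ) {x y : ℂ} (h : P.To x y) (p : ℚ[X]) :
    P.To (aeval x p) (aeval y p) := by
  induction p using Polynomial.induction_on' with
  | add p q hp hq => rw [map_add, map_add]; exact hp.add hq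
  | monomial n a =>
    rw [aeval_monomial, aeval_monomial]
    exact (Place.to_ratCast a).mul (h.pow n)

/-- Algebraic numbers specialise to algebraic numbers. -/
theorem Place.to_alg (P : Place ℂ ℂ) {l : ℂ} (hl : IsAlgebraic ℚ l) :
    ∃ l', P.To l l' ∧ IsAlgebraic ℚ l' := by
  rcases P.to_or l with ⟨l', h⟩ | ⟨h0, h⟩
  · obtain ⟨p, hp, hpl⟩ := hl
    refine ⟨l', h, p, hp, ?_⟩
    have h1 := elplace_aeval P h p
    rw [hpl] at h1
    exact h1.uniq Place.to_zero
  · exfalso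
    have hi : IsIntegral ℚ l⁻¹ := hl.inv.isIntegral
    have h1 := elplace_aeval P h (minpoly ℚ l⁻¹)
    rw [minpoly.aeval] at h1
    have h2 := h1.uniq Place.to_zero
    rw [← coeff_zero_eq_aeval_zero', map_eq_zero] at h2
    exact minpoly.coeff_zero_ne_zero hi (inv_ne_zero h0) h2

/-- A transcendental element has a pole at some place that fixes the constants. -/
theorem exists_pole {M : Type} [Field M] [Algebra ℂ M] {c : M}
    (hc : ∀ a : ℂ, c ≠ algebraMap ℂ M a) :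
    ∃ P : Place M ℂ, (∀ a : ℂ, P.To (algebraMap ℂ M a) a) ∧ c ∉ P.O := by
  have hc0 : c ≠ 0 := by simpa using hc 0
  have ht : Transcendental ℂ c⁻¹ := fun ha => by
    have hi : IsIntegral ℂ c := (IsAlgebraic.inv_iff.1 ha).isIntegral
    obtain ⟨a, ha⟩ := minpoly.mem_range_of_degree_eq_one ℂ c
      (IsAlgClosed.degree_eq_one_of_irreducible ℂ (minpoly.irreducible hi))
    exact hc a ha.symm
  obtain ⟨P, hP⟩ := exists_place (aeval c⁻¹ : ℂ[X] →ₐ[ℂ] M).toRingHom (evalRingHom (0 : ℂ))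
    fun p hp => by
      have : p = 0 := (transcendental_iff.1 ht) p hp
      rw [this, map_zero]
  refine ⟨P, fun a => by simpa using hP (C a), fun hm => ?_⟩
  have h1 : P.To c⁻¹ 0 := by simpa using hP X
  obtain ⟨y, hy⟩ := Place.to_of_mem hm
  exact Place.not_to_of_inv h1 hc0 y hy

end Pool.Agent.P.MP_3c83d0_ag
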