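import Pool.Agent.P.MP_3c83d0_ag.Numer

open MvPolynomial

namespace Pool.Agent.P.MP_3c83d0_ag

variable {ι : Type*} [Fintype ι]

/-- The effect of a quadratic transformation centred at three of the points on a class
`(degree, multiplicities)`. -/
def Step (x y : ℕ × (ι → ℕ)) : Prop :=
  ∃ i j k, i ≠ j ∧ i ≠ k ∧ j ≠ k ∧ y.1 + x.2 i + x.2 j + x.2 k = 2 * x.1 ∧
    y.2 i + x.2 j + x.2 k = x.1 ∧ y.2 j + x.2 i + x.2 k = x.1 ∧ y.2 k + x.2 i + x.2 j = x.1 ∧
    ∀ l, l ≠ i → l ≠ j → l ≠ k → y.2 l = x.2 l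

omit [Fintype ι] in
open Finset in
theorem red_core (U : Finset ι) (f : ι → ℤ) (P K κ a b t c : ℤ) (hf0 : ∀ l ∈ U, 0 ≤ f l)
    (hfP : ∀ l ∈ U, f l ≤ P) (ha : 0 ≤ a) (hb : 0 ≤ b) (ht : 0 ≤ t) (hc : 1 ≤ c) (hK : 2 ≤ K)
    (hκ : κ ≤ K) (hP : 2 * K ^ 2 < P) (hpos : 0 < κ - 2 * (a + b) - 3 * t)
    (hS : ∑ l ∈ U, f l = κ + 6 * P + 2 * (a + b) + 3 * t)
    (hid : P * (κ - 2 * (a + b) - 3 * t)
      = 2 * a * b + 2 * t * (a + b) + t ^ 2 + c + ∑ l ∈ U, f l * (P - f l)) :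
    a = 0 ∧ b = 0 ∧ (∀ l ∈ U, f l = P ∨ f l ^ 2 ≤ c) ∧ ∃ l ∈ U, 1 ≤ f l ∧ f l ^ 2 ≤ c := by
  obtain ⟨u, hu⟩ : ∃ u : ι → ℤ, u = fun l => if P < 2 * f l then P - f l else 0 := ⟨_, rfl⟩
  obtain ⟨v, hv⟩ : ∃ v : ι → ℤ, v = fun l => if P < 2 * f l then 0 else f l := ⟨_, rfl⟩
  obtain ⟨n, hn⟩ : ∃ n : ι → ℤ, n = fun l => if P < 2 * f l then 1 else 0 := ⟨_, rfl⟩
  have u0 : ∀ l ∈ U, 0 ≤ u l := fun l hl => by
    have := hfP l hl
    simp only [hu]
    split_ifs <;> omega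
  have v0 : ∀ l ∈ U, 0 ≤ v l := fun l hl => by
    have := hf0 l hl
    simp only [hv]
    split_ifs <;> omega
  have x0 : ∀ l ∈ U, 0 ≤ u l + v l := fun l hl => add_nonneg (u0 l hl) (v0 l hl)
  have e1 : ∑ l ∈ U, f l = P * ∑ l ∈ U, n l - ∑ l ∈ U, u l + ∑ l ∈ U, v l := by
    rw [mul_sum, ← sum_sub_distrib, ← sum_add_distrib]
    refine sum_congr rfl fun l _ => ?_
    simp only [hu, hv, hn]
    split_ifs <;> ring
  have e2 : ∑ l ∈ U, f l * (P - f l)
      = P * (∑ l ∈ U, u l + ∑ l ∈ U, v l) - ∑ l ∈ U, (u l + v l) ^ 2 := by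
    rw [← sum_add_distrib, mul_sum, ← sum_sub_distrib]
    refine sum_congr rfl fun l _ => ?_
    simp only [hu, hv]
    split_ifs <;> ring
  have e3 : 2 * ∑ l ∈ U, (u l + v l) ^ 2 ≤ P * (∑ l ∈ U, u l + ∑ l ∈ U, v l) := by
    rw [← sum_add_distrib, mul_sum, mul_sum]
    refine sum_le_sum fun l hl => ?_
    have h1 : 2 * (u l + v l) ≤ P := by
      simp only [hu, hv]
      split_ifs <;> omega
    nlinarith [mul_le_mul_of_nonneg_right h1 (x0 l hl)]
  have e4 : ∑ l ∈ U, (u l + v l) ^ 2 ≤ (∑ l ∈ U, u l + ∑ l ∈ U, v l) ^ 2 := by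
    rw [← sum_add_distrib]
    exact sum_sq_le_sq_sum_of_nonneg x0
  have J0 : 0 ≤ ∑ l ∈ U, u l := sum_nonneg u0
  have S0 : 0 ≤ ∑ l ∈ U, v l := sum_nonneg v0
  have single : ∀ l ∈ U, (u l + v l) ^ 2 ≤ ∑ l ∈ U, (u l + v l) ^ 2 := fun l hl =>
    single_le_sum (f := fun l => (u l + v l) ^ 2) (fun _ _ => sq_nonneg _) hl
  have singleu : ∀ l ∈ U, u l ≤ ∑ l ∈ U, u l := fun l hl => single_le_sum u0 hl
  have exv : 0 < ∑ l ∈ U, v l → ∃ l ∈ U, 0 < v l := fun h => by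
    by_contra hne
    push Not at hne
    exact absurd (sum_nonpos hne) (not_le.2 h)
  rw [e2] at hid
  rw [e1] at hS
  generalize ∑ l ∈ U, u l = J at *
  generalize ∑ l ∈ U, v l = S at *
  generalize ∑ l ∈ U, n l = ν at *
  generalize ∑ l ∈ U, (u l + v l) ^ 2 = Q at *
  have hN : 0 ≤ 2 * a * b + 2 * t * (a + b) + t ^ 2 := by positivity
  have hP4 : 4 * K < P := by nlinarith
  have hP0 : 0 < P := by omega
  have hX : J + S < 2 * (κ - 2 * (a + b) - 3 * t) := by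
    refine lt_of_mul_lt_mul_left ?_ hP0.le
    linarith
  have hν : ν = 6 := by
    have h1 : P * (ν - 6) < P * 1 := by linarith
    have h2 : P * (-1) < P * (ν - 6) := by linarith
    have h3 := lt_of_mul_lt_mul_left h1 hP0.le
    have h4 := lt_of_mul_lt_mul_left h2 hP0.le
    omega
  subst hν
  have hSJ : S = J + κ + 2 * (a + b) + 3 * t := by linarith
  have hbr : P * (2 * J + 4 * (a + b) + 6 * t)
      = Q - (2 * a * b + 2 * t * (a + b) + t ^ 2) - c := by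
    rw [hSJ] at hid
    linarith
  have hQ : Q ≤ 4 * K ^ 2 := by
    have h1 : J + S ≤ 2 * K := by linarith
    have h2 : (J + S) ^ 2 ≤ (2 * K) ^ 2 := pow_le_pow_left₀ (add_nonneg J0 S0) h1 2
    linarith
  have hz : J + 2 * (a + b) + 3 * t < 1 := by
    refine lt_of_mul_lt_mul_left ?_ hP0.le
    linarith
  obtain rfl : J = 0 := by omega
  obtain rfl : a = 0 := by omega
  obtain rfl : b = 0 := by omega
  obtain rfl : t = 0 := by omega
  have hQc : Q = c := by linarith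
  subst hQc
  refine ⟨rfl, rfl, fun l hl => ?_, ?_⟩
  · have h1 := single l hl
    have h2 := singleu l hl
    have h3 := hfP l hl
    simp only [hu, hv] at h1 h2
    split_ifs at h1 h2
    · left
      omega
    · right
      rwa [zero_add] at h1
  · obtain ⟨l, hl, h0⟩ := exv (by omega)
    have h1 := single l hl
    simp only [hu, hv] at h0 h1
    split_ifs at h0 h1
    · omega
    · exact ⟨l, hl, h0, by rwa [zero_add] at h1⟩

open Finset in
theorem Rules.reduce_aux {R : ℕ → (ι → ℕ) → Prop} (h : Rules R)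
    (hx : ∀ d m, R d m → sq d m < 0 → ∀ i, 2 ≤ m i → -sq d m < m i) (M K : ℕ) (hK : 2 ≤ K)
    (hM : M ≤ 2 * K ^ 2) (d : ℕ) : ∀ m : ι → ℕ, R d m → sq d m < 0 → kc d m ≤ K →
    ((∃ l, 2 ≤ m l ∧ m l ≤ M) ∨
      ∀ i j k, i ≠ j → i ≠ k → j ≠ k → M < m i → M < m j → M < m k → False) →
    ∃ y, Relation.ReflTransGen Step (d, m) y ∧ R y.1 y.2 ∧ y.1 ≤ 6 * K ^ 2 + K := by
  classical
  induction d using Nat.strong_induction_on with
  | _ d ih =>
  intro m hR hn hkK hQ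
  by_cases hsmall : d ≤ 6 * K ^ 2 + K
  · exact ⟨(d, m), Relation.ReflTransGen.refl, hR, hsmall⟩
  have hd2 : 2 ≤ d := by omega
  have hle : ∀ l, (m l : ℤ) ≤ d := fun l => by exact_mod_cast h.le d m hR l
  have hsum : 2 * (d : ℤ) < ∑ l, (m l : ℤ) := by
    have h0 := h.r0 d m hR
    unfold g2 kc at h0
    omega
  have ne1 : (univ : Finset ι).Nonempty := by
    by_contra hne
    rw [not_nonempty_iff_eq_empty.1 hne, sum_empty] at hsum
    omega
  obtain ⟨i, -, hi⟩ := exists_max_image univ m ne1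
  have e1 := add_sum_erase univ (fun l => (m l : ℤ)) (mem_univ i)
  have ne2 : (univ.erase i).Nonempty := by
    by_contra hne
    rw [not_nonempty_iff_eq_empty.1 hne, sum_empty] at e1
    have := hle i
    omega
  obtain ⟨j, hj, hj'⟩ := exists_max_image _ m ne2
  have e2 := add_sum_erase _ (fun l => (m l : ℤ)) hj
  have ne3 : ((univ.erase i).erase j).Nonempty := by
    by_contra hne
    rw [not_nonempty_iff_eq_empty.1 hne, sum_empty] at e2
    have := hle i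
    have := hle j
    omega
  obtain ⟨k, hk, hk'⟩ := exists_max_image _ m ne3
  clear e1 e2 ne1 ne2 ne3
  have hij : i ≠ j := (ne_of_mem_erase hj).symm
  have hjk : j ≠ k := (ne_of_mem_erase hk).symm
  have hik : i ≠ k := (ne_of_mem_erase (mem_of_mem_erase hk)).symm
  have hji : m j ≤ m i := hi j (mem_univ _)
  have hkj : m k ≤ m j := hj' k (mem_of_mem_erase hk)
  set U := ((univ.erase i).erase j).erase k with hU
  have memU : ∀ l, l ∈ U ↔ l ≠ i ∧ l ≠ j ∧ l ≠ k := by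
    intro l
    simp only [hU, mem_erase, mem_univ, and_true]
    tauto
  have hUk : ∀ l ∈ U, m l ≤ m k := fun l hl => hk' l (mem_of_mem_erase hl)
  have s1 := sum_three hj hk (fun l => (m l : ℤ))
  have s2 := sum_three hj hk (fun l => (m l : ℤ) ^ 2)
  rw [← hU] at s1 s2
  by_cases hlt : d < m i + m j + m k
  · obtain ⟨d', m', hR', c0, c1, c2, c3, c4⟩ := h.cr d m hR (by omega) i j k hij hik hjk
    have s1' := sum_three hj hk (fun l => (m' l : ℤ))
    have s2' := sum_three hj hk (fun l => (m' l : ℤ) ^ 2)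
    rw [← hU] at s1' s2'
    have u1 : ∑ l ∈ U, (m' l : ℤ) = ∑ l ∈ U, (m l : ℤ) := sum_congr rfl fun l hl => by
      obtain ⟨a, b, c⟩ := (memU l).1 hl
      rw [c4 l a b c]
    have u2 : ∑ l ∈ U, (m' l : ℤ) ^ 2 = ∑ l ∈ U, (m l : ℤ) ^ 2 := sum_congr rfl fun l hl => by
      obtain ⟨a, b, c⟩ := (memU l).1 hl
      rw [c4 l a b c]
    have z0 : (d' : ℤ) = 2 * d - m i - m j - m k := by omega
    have z1 : (m' i : ℤ) = d - m j - m k := by omega
    have z2 : (m' j : ℤ) = d - m i - m k := by omega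
    have z3 : (m' k : ℤ) = d - m i - m j := by omega
    have hsq : sq d' m' = sq d m := by
      simp only [sq, s2, s2', u2, z0, z1, z2, z3]
      ring
    have hkc : kc d' m' = kc d m := by
      simp only [kc, s1, s1', u1, z0, z1, z2, z3]
      ring
    have hstep : Step (d, m) (d', m') := ⟨i, j, k, hij, hik, hjk, c0, c1, c2, c3, c4⟩
    have hQ' : (∃ l, 2 ≤ m' l ∧ m' l ≤ M) ∨
        ∀ i j k, i ≠ j → i ≠ k → j ≠ k → M < m' i → M < m' j → M < m' k → False := by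
      by_cases h3 : ∃ l ∈ U, 2 ≤ m l ∧ m l ≤ M
      · obtain ⟨l, hl, hl3⟩ := h3
        obtain ⟨a, b, c⟩ := (memU l).1 hl
        exact Or.inl ⟨l, by rw [c4 l a b c]; exact hl3⟩
      · right
        have hM3 : m k ≤ M := by
          rcases hQ with ⟨l, hl⟩ | hQ
          · by_cases hlU : l ∈ U
            · exact (h3 ⟨l, hlU, hl⟩).elim
            · rw [memU] at hlU
              have : l = i ∨ l = j ∨ l = k := by tauto
              rcases this with rfl | rfl | rfl <;> omega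
          · by_contra hc
            exact hQ i j k hij hik hjk (by omega) (by omega) (by omega)
        have key : ∀ l, M < m' l → l = i ∨ l = j := by
          intro l hl
          by_contra hc
          push Not at hc
          by_cases hlk : l = k
          · subst hlk
            omega
          · have h1 := c4 l hc.1 hc.2 hlk
            have h2 := hUk l ((memU l).2 ⟨hc.1, hc.2, hlk⟩)
            omega
        intro a b c hab hac hbc ha hb hc
        rcases key a ha with rfl | rfl <;> rcases key b hb with rfl | rfl <;>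
          rcases key c hc with rfl | rfl <;>
          first | exact hab rfl | exact hac rfl | exact hbc rfl
    obtain ⟨y, y1, y2, y3⟩ := ih d' (by omega) m' hR' (hsq ▸ hn) (hkc ▸ hkK) hQ'
    exact ⟨y, Relation.ReflTransGen.head hstep y1, y2, y3⟩
  exfalso
  obtain ⟨P, hP⟩ : ∃ P : ℤ, (m k : ℤ) = P := ⟨_, rfl⟩
  obtain ⟨a, ha⟩ : ∃ a : ℤ, (m i : ℤ) = P + a := ⟨m i - P, by ring⟩
  obtain ⟨b, hb⟩ : ∃ b : ℤ, (m j : ℤ) = P + b := ⟨m j - P, by ring⟩
  obtain ⟨t, ht⟩ : ∃ t : ℤ, (d : ℤ) = 3 * P + a + b + t := ⟨d - 3 * P - a - b, by ring⟩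
  have hP0 : 0 ≤ P := by omega
  have hb0 : 0 ≤ b := by omega
  have ha0 : 0 ≤ a := by omega
  have ht0 : 0 ≤ t := by omega
  have hUM : ∀ l ∈ U, (m l : ℤ) ≤ P := fun l hl => by have := hUk l hl; omega
  have hΔ0 : 0 ≤ ∑ l ∈ U, (m l : ℤ) * (P - m l) :=
    sum_nonneg fun l hl => mul_nonneg (by positivity) (sub_nonneg.2 (hUM l hl))
  have hΔe : ∑ l ∈ U, (m l : ℤ) * (P - m l)
      = P * ∑ l ∈ U, (m l : ℤ) - ∑ l ∈ U, (m l : ℤ) ^ 2 := by
    rw [mul_sum, ← sum_sub_distrib]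
    exact sum_congr rfl fun l _ => by ring
  have hS : ∑ l ∈ U, (m l : ℤ) = kc d m + 6 * P + 2 * (a + b) + 3 * t := by
    simp only [kc, s1, hP, ha, hb, ht]
    ring
  have hid : P * (kc d m - 2 * (a + b) - 3 * t) = 2 * a * b + 2 * t * (a + b) + t ^ 2
      + -sq d m + ∑ l ∈ U, (m l : ℤ) * (P - m l) := by
    rw [hΔe, hS]
    simp only [sq, s2, hP, ha, hb, ht]
    ring
  have hpos : 0 < kc d m - 2 * (a + b) - 3 * t := by
    by_contra hc
    have h1 : P * (kc d m - 2 * (a + b) - 3 * t) ≤ 0 :=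
      mul_nonpos_of_nonneg_of_nonpos hP0 (by omega)
    have h2 : 0 ≤ 2 * a * b + 2 * t * (a + b) + t ^ 2 := by positivity
    omega
  have hbig : (6 * (K : ℤ) ^ 2 + K : ℤ) < d := by exact_mod_cast not_le.1 hsmall
  have hM' : (M : ℤ) ≤ 2 * (K : ℤ) ^ 2 := by exact_mod_cast hM
  have hPK : 2 * (K : ℤ) ^ 2 < P := by linarith
  obtain ⟨rfl, rfl, r3, l, -, l1, l2⟩ := red_core U (fun l => (m l : ℤ)) P K (kc d m) a b t
    (-sq d m) (fun l _ => by positivity) hUM ha0 hb0 ht0 (by omega) (by exact_mod_cast hK) hkK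
    hPK hpos hS hid
  have hc1 : sq d m = -1 := by
    by_cases h1 : m l = 1
    · exact h.r1 d m hR hn l h1
    · have h2 := hx d m hR hn l (by omega)
      nlinarith
  have hMP : (M : ℤ) < P := by linarith
  rcases hQ with ⟨u, u1, u2⟩ | hQ
  · by_cases hu : u ∈ U
    · have u3 : (2 : ℤ) ≤ m u := by exact_mod_cast u1
      rcases r3 u hu with h1 | h1
      · omega
      · rw [hc1] at h1
        nlinarith
    · rw [memU] at hu
      have : u = i ∨ u = j ∨ u = k := by tauto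
      rcases this with rfl | rfl | rfl <;> omega
  · exact hQ i j k hij hik hjk (by omega) (by omega) (by omega)

theorem Rules.reduce {R : ℕ → (ι → ℕ) → Prop} (h : Rules R)
    (hx : ∀ d m, R d m → sq d m < 0 → ∀ i, 2 ≤ m i → -sq d m < m i) (M K : ℕ) (hK : 2 ≤ K)
    (hM : M ≤ 2 * K ^ 2) (d : ℕ) (m : ι → ℕ) (hR : R d m) (hn : sq d m < 0) (hk : kc d m ≤ K)
    (i : ι) (h2 : 2 ≤ m i) (hi : m i ≤ M) :
    ∃ y, Relation.ReflTransGen Step (d, m) y ∧ R y.1 y.2 ∧ y.1 ≤ 6 * K ^ 2 + K := by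
  exact h.reduce_aux hx M K hK hM d m hR hn hk (Or.inl ⟨i, h2, hi⟩)

end Pool.Agent.P.MP_3c83d0_ag
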