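import Pool.Agent.P.MP_3c83d0_ag.Theta

open MvPolynomial

namespace Pool.Agent.P.MP_3c83d0_ag

namespace Crem

theorem hom_iff {G : S} {k : ℕ} :
    G.IsHomogeneous k ↔ ∀ s ∈ G.support, s 0 + s 1 + s 2 = k := by
  have key : ∀ s : Fin 3 →₀ ℕ, Finsupp.weight (1 : Fin 3 → ℕ) s = s 0 + s 1 + s 2 := by
    intro s
    have h1 : Finsupp.weight (1 : Fin 3 → ℕ) s = s.degree := by
      rw [Finsupp.degree_eq_weight_one]; rfl
    rw [h1, Finsupp.degree_eq_sum, Fin.sum_univ_three]
  constructor
  · intro h s hs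
    rw [← key]; exact h (mem_support_iff.mp hs)
  · intro h s hs
    rw [key]; exact h s (mem_support_iff.mpr hs)

theorem mem_support_pderiv {G : S} {b : Fin 3} {s : Fin 3 →₀ ℕ} :
    s ∈ (pderiv b G).support ↔ s + Finsupp.single b 1 ∈ G.support := by
  rw [mem_support_iff, mem_support_iff, coeff_pderiv]
  have : ((s b : ℂ) + 1) ≠ 0 := by exact_mod_cast Nat.succ_ne_zero (s b)
  simp [this]

theorem eval_single_monomial (a : Fin 3) (s : Fin 3 →₀ ℕ) (c : ℂ) (h : ∃ b, b ≠ a ∧ s b ≠ 0) :
    eval (Pi.single a (1 : ℂ) : Fin 3 → ℂ) (monomial s c) = 0 := by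
  obtain ⟨b, hb, hs⟩ := h
  rw [eval_monomial, Finsupp.prod_fintype _ _ (by simp)]
  rw [Finset.prod_eq_zero (Finset.mem_univ b), mul_zero]
  rw [Pi.single_eq_of_ne hb, zero_pow hs]

theorem eval_single {G : S} {k : ℕ} (hG : G.IsHomogeneous k) (a : Fin 3) :
    eval (Pi.single a (1 : ℂ) : Fin 3 → ℂ) G = coeff (Finsupp.single a k) G := by
  classical
  conv_lhs => rw [G.as_sum, map_sum]
  rw [Finset.sum_eq_single (Finsupp.single a k)]
  · rw [eval_monomial, Finsupp.prod_single_index (by simp)]; simp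
  · intro s hs hne
    apply eval_single_monomial
    by_contra hcon
    push Not at hcon
    apply hne
    have h3 := hom_iff.mp hG s hs
    ext b
    fin_cases a <;> fin_cases b <;> simp_all [Fin.forall_fin_succ]
  · intro h
    rw [notMem_support_iff.mp h]; simp

/-- Multiplicity of a form at a coordinate point. -/
theorem mem_pow_single (a : Fin 3) (μ : ℕ) : ∀ {G : S} {k : ℕ}, G.IsHomogeneous k →
    (G ∈ mx (Pi.single a (1 : ℂ) : Fin 3 → ℂ) ^ μ ↔ ∀ s ∈ G.support, s a + μ ≤ k) := by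
  induction μ with
  | zero =>
    intro G k hG
    simp only [pow_zero, Ideal.one_eq_top, Submodule.mem_top, true_iff]
    intro s hs
    have h3 := hom_iff.mp hG s hs
    fin_cases a <;> simp <;> omega
  | succ μ ih =>
    intro G k hG
    rw [mem_pow_succ_iff, eval_single hG]
    constructor
    · rintro ⟨h0, h1⟩ s hs
      have h3 := hom_iff.mp hG s hs
      by_cases hex : ∃ b, b ≠ a ∧ s b ≠ 0
      · obtain ⟨b, hb, hsb⟩ := hex
        have hle : Finsupp.single b 1 ≤ s := by
          rw [Finsupp.single_le_iff]; omega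
        have hmem : s - Finsupp.single b 1 ∈ (pderiv b G).support := by
          rw [mem_support_pderiv, tsub_add_cancel_of_le hle]; exact hs
        have h4 := (ih hG.pderiv).mp (h1 b) _ hmem
        have h5 : (s - Finsupp.single b 1 : Fin 3 →₀ ℕ) a = s a := by
          simp [Finsupp.single_eq_of_ne hb.symm]
        have h6 : 1 ≤ k := by fin_cases b <;> simp at hsb <;> omega
        omega
      · exfalso
        push Not at hex
        have : s = Finsupp.single a k := by
          ext b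
          fin_cases a <;> fin_cases b <;> simp_all [Fin.forall_fin_succ]
        exact mem_support_iff.mp hs (this ▸ h0)
    · intro h
      refine ⟨?_, fun b => (ih hG.pderiv).mpr ?_⟩
      · by_contra hne
        have := h _ (mem_support_iff.mpr hne)
        simp at this
      · intro s hs
        have := h _ (mem_support_pderiv.mp hs)
        simp only [Finsupp.add_apply] at this
        omega

/-- Reversal of the exponents inside the box `be`. -/
noncomputable def rev (be : Fin 3 →₀ ℕ) : S →ₗ[ℂ] S :=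
  (basisMonomials (Fin 3) ℂ).constr ℂ fun s => monomial (be - s) (1 : ℂ)

theorem rev_monomial (be s : Fin 3 →₀ ℕ) (c : ℂ) :
    rev be (monomial s c) = monomial (be - s) c := by
  have h1 : (monomial s c : S) = c • basisMonomials (Fin 3) ℂ s := by
    simp [smul_monomial]
  rw [h1, map_smul, rev, Module.Basis.constr_basis]
  simp [smul_monomial]

/-- All exponents lie in the box `be`. -/
def Bd (be : Fin 3 →₀ ℕ) (G : S) : Prop := ∀ s ∈ G.support, s ≤ be

theorem rev_eq_sum (be : Fin 3 →₀ ℕ) (G : S) :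
    rev be G = ∑ s ∈ G.support, monomial (be - s) (coeff s G) := by
  conv_lhs => rw [G.as_sum, map_sum]
  simp only [rev_monomial]

theorem coeff_rev {be : Fin 3 →₀ ℕ} {G : S} (h : Bd be G) (t : Fin 3 →₀ ℕ) :
    coeff t (rev be G) = if t ≤ be then coeff (be - t) G else 0 := by
  classical
  rw [rev_eq_sum, coeff_sum]
  simp only [coeff_monomial]
  split_ifs with ht
  · rw [Finset.sum_eq_single (be - t)]
    · rw [if_pos (tsub_tsub_cancel_of_le ht)]
    · intro s hs hne
      rw [if_neg]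
      intro he
      apply hne
      rw [← he, tsub_tsub_cancel_of_le (h s hs)]
    · intro hn
      rw [notMem_support_iff.mp hn]; simp
  · apply Finset.sum_eq_zero
    intro s _
    rw [if_neg]
    intro he
    exact ht (he ▸ tsub_le_self)

theorem mem_support_rev {be : Fin 3 →₀ ℕ} {G : S} (h : Bd be G) (t : Fin 3 →₀ ℕ) :
    t ∈ (rev be G).support ↔ t ≤ be ∧ be - t ∈ G.support := by
  rw [mem_support_iff, mem_support_iff, coeff_rev h]
  by_cases ht : t ≤ be <;> simp [ht]

theorem sub_mem_support_rev {be : Fin 3 →₀ ℕ} {G : S} (h : Bd be G) {s : Fin 3 →₀ ℕ}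
    (hs : s ∈ G.support) : be - s ∈ (rev be G).support := by
  rw [mem_support_rev h, tsub_tsub_cancel_of_le (h s hs)]
  exact ⟨tsub_le_self, hs⟩

theorem bd_rev {be : Fin 3 →₀ ℕ} {G : S} (h : Bd be G) : Bd be (rev be G) :=
  fun t ht => ((mem_support_rev h t).mp ht).1

theorem rev_rev {be : Fin 3 →₀ ℕ} {G : S} (h : Bd be G) : rev be (rev be G) = G := by
  ext t
  rw [coeff_rev (bd_rev h)]
  split_ifs with ht
  · rw [coeff_rev h, if_pos tsub_le_self, tsub_tsub_cancel_of_le ht]
  · by_contra hne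
    exact ht (h t (mem_support_iff.mpr fun h0 => hne h0.symm))

theorem rev_mul {be ga : Fin 3 →₀ ℕ} {G H : S} (hG : Bd be G) (hH : Bd ga H) :
    rev (be + ga) (G * H) = rev be G * rev ga H := by
  rw [rev_eq_sum be, rev_eq_sum ga]
  conv_lhs => rw [G.as_sum, H.as_sum]
  rw [Finset.sum_mul_sum, Finset.sum_mul_sum, map_sum]
  refine Finset.sum_congr rfl fun s hs => ?_
  rw [map_sum]
  refine Finset.sum_congr rfl fun t ht => ?_
  rw [monomial_mul, monomial_mul, rev_monomial, tsub_add_tsub_comm (hG s hs) (hH t ht)]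

/-- The vector of the degrees in the three variables. -/
noncomputable def dvec (G : S) : Fin 3 →₀ ℕ :=
  Finsupp.equivFunOnFinite.symm fun a => degreeOf a G

theorem dvec_apply (G : S) (a : Fin 3) : dvec G a = degreeOf a G := rfl

theorem bd_dvec (G : S) : Bd (dvec G) G := fun _ hs a => monomial_le_degreeOf a hs

theorem degreeOf_eq {G : S} {a : Fin 3} {n : ℕ} (h1 : ∀ s ∈ G.support, s a ≤ n)
    (h2 : ∃ s ∈ G.support, s a = n) : degreeOf a G = n := by
  obtain ⟨s, hs, rfl⟩ := h2
  exact le_antisymm (degreeOf_le_iff.mpr h1) (monomial_le_degreeOf a hs)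

theorem X_dvd_of {G : S} {a : Fin 3} (h : ∀ s ∈ G.support, s a ≠ 0) : (X a : S) ∣ G := by
  rw [G.as_sum]
  exact Finset.dvd_sum fun s hs => X_dvd_monomial.mpr (Or.inr (h s hs))

theorem ne_zero_of_X_dvd {G : S} {a : Fin 3} (h : (X a : S) ∣ G) : ∀ s ∈ G.support, s a ≠ 0 := by
  classical
  obtain ⟨H, rfl⟩ := h
  intro s hs h0
  rw [mem_support_iff, coeff_X_mul'] at hs
  simp [h0] at hs

theorem irreducible_rev {F : S} {al : Fin 3 →₀ ℕ} (hF : Irreducible F) (hb : Bd al F)
    (h0 : ∀ a, ∃ s ∈ F.support, s a = 0) (h1 : ∀ a, ∃ s ∈ F.support, s a = al a) :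
    Irreducible (rev al F) := by
  have hd : dvec (rev al F) = al := by
    ext a
    rw [dvec_apply]
    refine degreeOf_eq (fun s hs => bd_rev hb s hs a) ?_
    obtain ⟨s, hs, hs0⟩ := h0 a
    exact ⟨al - s, sub_mem_support_rev hb hs, by simp [hs0]⟩
  have hX : ∀ a, ¬ (X a : S) ∣ rev al F := by
    intro a hdv
    obtain ⟨s, hs, hs1⟩ := h1 a
    exact ne_zero_of_X_dvd hdv _ (sub_mem_support_rev hb hs) (by simp [hs1])
  have hne : rev al F ≠ 0 := fun h => hX 0 (h ▸ dvd_zero _)
  have aux : ∀ G : S, G ∣ rev al F → IsUnit (rev (dvec G) G) → IsUnit G := by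
    intro G hG hu
    obtain ⟨c, hc, hGc⟩ := isUnit_iff_eq_C_of_isReduced.mp hu
    have hG1 : G = monomial (dvec G) c := by
      conv_lhs => rw [← rev_rev (bd_dvec G), hGc, C_apply, rev_monomial, tsub_zero]
    have hz : dvec G = 0 := by
      ext a
      by_contra hne
      exact hX a ((hG1 ▸ X_dvd_monomial.mpr (Or.inr hne) : (X a : S) ∣ G).trans hG)
    rw [hG1, hz, ← C_apply]
    exact hc.map C
  constructor
  · intro hu
    obtain ⟨c, hc, hFc⟩ := isUnit_iff_eq_C_of_isReduced.mp hu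
    have hz : al = 0 := by
      rw [← hd, hFc]; ext a; simp [dvec_apply]
    apply hF.not_isUnit
    rw [← rev_rev hb, hFc, C_apply, rev_monomial, hz, tsub_zero, ← C_apply]
    exact hc.map C
  · intro G H hGH
    have hG0 : G ≠ 0 := by rintro rfl; exact hne (by simpa using hGH)
    have hH0 : H ≠ 0 := by rintro rfl; exact hne (by simpa using hGH)
    have hal : al = dvec G + dvec H := by
      rw [← hd, hGH]; ext a
      simp [dvec_apply, degreeOf_mul_eq hG0 hH0]
    have hFm : F = rev (dvec G) G * rev (dvec H) H := by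
      rw [← rev_mul (bd_dvec G) (bd_dvec H), ← hal, ← hGH, rev_rev hb]
    rcases hF.isUnit_or_isUnit hFm with hu | hu
    · exact Or.inl (aux G ⟨H, hGH⟩ hu)
    · exact Or.inr (aux H ⟨G, by rw [hGH, mul_comm]⟩ hu)

/-- Reversal transports multiplicities at points of the torus. -/
theorem rev_mem_pow {q : Fin 3 → ℂ} (hq : ∀ a, q a ≠ 0) {be : Fin 3 →₀ ℕ} {G : S} (hb : Bd be G)
    {μ : ℕ} (hG : G ∈ mx q ^ μ) : rev be G ∈ mx (fun a => (q a)⁻¹) ^ μ := by
  set q' : Fin 3 → ℂ := fun a => (q a)⁻¹ with hq'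
  set I : Ideal S := mx q' ^ μ with hI
  let mk : S →ₐ[ℂ] S ⧸ I := Ideal.Quotient.mkₐ ℂ I
  have hgen : ∀ a, (X a - C (q' a) : S) ∈ mx q' := fun a => by simp [mem_mx]
  have hunit : ∀ a, IsUnit (mk (X a)) := by
    intro a
    have hnil : IsNilpotent (mk (X a - C (q' a))) := by
      refine ⟨μ, ?_⟩
      rw [← map_pow]
      exact Ideal.Quotient.eq_zero_iff_mem.mpr (Ideal.pow_mem_pow (hgen a) μ)
    have hu : IsUnit (mk (C (q' a))) :=
      ((IsUnit.mk0 _ (inv_ne_zero (hq a))).map (C : ℂ →+* S)).map mk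
    have := hnil.isUnit_add_right_of_commute hu (Commute.all _ _)
    rwa [← map_add, sub_add_cancel] at this
  choose u hu using hunit
  let φ : S →ₐ[ℂ] S ⧸ I := aeval fun a => ((u a)⁻¹ : (S ⧸ I)ˣ)
  let J : Ideal (S ⧸ I) := (mx q').map mk
  have hJ : J ^ μ = ⊥ := by
    rw [← Ideal.map_pow]
    exact Ideal.map_quotient_self I
  have hφ : (mx q).map φ ≤ J := by
    rw [mx_eq_span q, Ideal.map_span, Ideal.span_le]
    rintro _ ⟨_, ⟨a, rfl⟩, rfl⟩
    have h1 : φ (X a - C (q a)) =
        -(((u a)⁻¹ : (S ⧸ I)ˣ) * mk (C (q a))) * mk (X a - C (q' a)) := by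
      have h2 : mk (C (q a)) * mk (C (q' a)) = 1 := by
        rw [← map_mul, ← map_mul, hq', mul_inv_cancel₀ (hq a), map_one, map_one]
      have h3 : (((u a)⁻¹ : (S ⧸ I)ˣ) : S ⧸ I) * mk (X a) = 1 := by
        rw [← hu a]; exact Units.inv_mul _
      have h4 : φ (C (q a)) = mk (C (q a)) := by
        rw [← algebraMap_eq, AlgHom.commutes, AlgHom.commutes]
      rw [map_sub, map_sub, h4]
      simp only [φ, aeval_X]
      linear_combination (mk (C (q a))) * h3 - (((u a)⁻¹ : (S ⧸ I)ˣ) : S ⧸ I) * h2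
    rw [SetLike.mem_coe, h1]
    exact Ideal.mul_mem_left _ _ (Ideal.mem_map_of_mem mk (hgen a))
  have hφG : φ G = 0 := by
    have h1 : φ G ∈ ((mx q).map φ) ^ μ := by
      rw [← Ideal.map_pow]; exact Ideal.mem_map_of_mem φ hG
    have h2 := Ideal.pow_right_mono hφ μ h1
    rwa [hJ, Ideal.mem_bot] at h2
  have hmon : ∀ s : Fin 3 →₀ ℕ, s ≤ be → ∀ c : ℂ,
      mk (monomial (be - s) c) = (∏ a, mk (X a) ^ be a) * φ (monomial s c) := by
    intro s hs c
    have h4 : φ (C c) = mk (C c) := by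
      rw [← algebraMap_eq, AlgHom.commutes, AlgHom.commutes]
    rw [monomial_eq, monomial_eq, Finsupp.prod_fintype _ _ (by simp),
      Finsupp.prod_fintype _ _ (by simp), map_mul, map_mul, map_prod, map_prod, h4,
      mul_left_comm, ← Finset.prod_mul_distrib]
    congr 1
    refine Finset.prod_congr rfl fun a _ => ?_
    have h3 : mk (X a) * (((u a)⁻¹ : (S ⧸ I)ˣ) : S ⧸ I) = 1 := by
      rw [← hu a]; exact Units.mul_inv _
    have h5 : be a = (be - s) a + s a := by
      rw [Finsupp.tsub_apply, tsub_add_cancel_of_le (hs a)]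
    rw [map_pow, map_pow]
    simp only [φ, aeval_X]
    conv_rhs => rw [h5, pow_add, mul_assoc, ← mul_pow, h3, one_pow, mul_one]
  have hfin : mk (rev be G) = 0 := by
    rw [rev_eq_sum, map_sum, Finset.sum_congr rfl fun s hs => hmon s (hb s hs) _,
      ← Finset.mul_sum, ← map_sum, ← G.as_sum, hφG, mul_zero]
  exact Ideal.Quotient.eq_zero_iff_mem.mp hfin

variable {ι : Type*} [Fintype ι]

/-- The image of the points under the standard quadratic transformation. -/
noncomputable def crPt (q : ι → Fin 3 → ℂ) (i j k : ι) : ι → Fin 3 → ℂ := by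
  classical
  exact fun l => if l = i ∨ l = j ∨ l = k then q l else fun a => (q l a)⁻¹

omit [Fintype ι] in
theorem crPt_of_mem (q : ι → Fin 3 → ℂ) {i j k l : ι} (h : l = i ∨ l = j ∨ l = k) :
    crPt q i j k l = q l := by
  simp only [crPt, if_pos h]

omit [Fintype ι] in
theorem crPt_of_not (q : ι → Fin 3 → ℂ) {i j k l : ι} (h : ¬ (l = i ∨ l = j ∨ l = k)) :
    crPt q i j k l = fun a => (q l a)⁻¹ := by
  simp only [crPt, if_neg h]

omit [Fintype ι] in
theorem gen_crPt {q : ι → Fin 3 → ℂ} (hq : Gen q) {i j k : ι}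
    (hi : q i = Pi.single 0 1) (hj : q j = Pi.single 1 1) (hk : q k = Pi.single 2 1)
    (hT : ∀ l, ¬ (l = i ∨ l = j ∨ l = k) → ∀ a, q l a ≠ 0) : Gen (crPt q i j k) := by
  classical
  refine ⟨fun l => ?_, fun w' => ?_⟩
  · by_cases h : l = i ∨ l = j ∨ l = k
    · rw [crPt_of_mem q h]; exact hq.1 l
    · rw [crPt_of_not q h]
      intro h0
      exact inv_ne_zero (hT l h 0) (congrFun h0 0)
  · let A0 : Matrix (Fin 3) (Fin 3) ℂ := (Matrix.of ![w' i, w' j, w' k]).transpose
    let w : ι → Fin 3 → ℂ := fun l => if l = i ∨ l = j ∨ l = k then 0 else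
      fun a => -(w' l a - A0.mulVec (fun b => (q l b)⁻¹) a) * q l a ^ 2
    obtain ⟨D, A, c, h⟩ := hq.2 w
    have hD : ∀ b a : Fin 3, D ((Pi.single b (1 : ℂ) : Fin 3 → ℂ) a) = 0 := by
      intro b a
      by_cases hab : a = b
      · subst hab; simp
      · simp [Pi.single_eq_of_ne hab]
    have hcol : ∀ l (b : Fin 3), (l = i ∨ l = j ∨ l = k) → q l = Pi.single b 1 →
        ∀ a, A a b = c l * (Pi.single b (1 : ℂ) : Fin 3 → ℂ) a := by
      intro l b hl hb a
      have h1 := h l a
      simp only [w, if_pos hl, hb, hD, Matrix.mulVec_single_one] at h1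
      simpa using h1
    have h0 := hcol i 0 (Or.inl rfl) hi
    have h1 := hcol j 1 (Or.inr (Or.inl rfl)) hj
    have h2 := hcol k 2 (Or.inr (Or.inr rfl)) hk
    have hdiag : ∀ (x : Fin 3 → ℂ) (a : Fin 3), A.mulVec x a = A a a * x a := by
      intro x a
      simp only [Matrix.mulVec, dotProduct, Fin.sum_univ_three, h0, h1, h2]
      fin_cases a <;> simp [h0, h1, h2]
    refine ⟨D, A0 - A, fun l => -c l, fun l a => ?_⟩
    by_cases hl : l = i ∨ l = j ∨ l = k
    · rw [crPt_of_mem q hl, Matrix.sub_mulVec, Pi.sub_apply]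
      have h3 := h l a
      simp only [w, if_pos hl, Pi.zero_apply, zero_add] at h3
      have h4 : A0.mulVec (q l) a = w' l a ∧ D (q l a) = 0 := by
        rcases hl with rfl | rfl | rfl
        · rw [hi]; exact ⟨by simp [A0], hD _ _⟩
        · rw [hj]; exact ⟨by simp [A0], hD _ _⟩
        · rw [hk]; exact ⟨by simp [A0], hD _ _⟩
      rw [h4.2] at h3
      rw [h4.1, h4.2]
      linear_combination -h3
    · rw [crPt_of_not q hl, Matrix.sub_mulVec, Pi.sub_apply, hdiag]
      have h3 := h l a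
      simp only [w, if_neg hl, hdiag] at h3
      have hne := hT l hl a
      simp only [Derivation.leibniz_inv, smul_eq_mul]
      generalize A0.mulVec (fun b => (q l b)⁻¹) a = y at h3 ⊢
      field_simp
      linear_combination -h3

omit [Fintype ι] in
theorem cremona_std {q : ι → Fin 3 → ℂ} {F : S} {d : ℕ} {m : ι → ℕ} (hC : Cv q F d m)
    (hd : d ≠ 1) {i j k : ι} (hij : i ≠ j) (hik : i ≠ k) (hjk : j ≠ k)
    (hi : q i = Pi.single 0 1) (hj : q j = Pi.single 1 1) (hk : q k = Pi.single 2 1)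
    (hT : ∀ l, ¬ (l = i ∨ l = j ∨ l = k) → ∀ a, q l a ≠ 0) :
    ∃ (F' : S) (d' : ℕ) (m' : ι → ℕ), Cv (crPt q i j k) F' d' m' ∧
    d' + m i + m j + m k = 2 * d ∧ m' i + m j + m k = d ∧ m' j + m i + m k = d ∧
    m' k + m i + m j = d ∧ ∀ l, l ≠ i → l ≠ j → l ≠ k → m' l = m l := by
  classical
  have hF0 : F ≠ 0 := hC.prime.ne_zero
  set al := dvec F with hal
  have hb : Bd al F := bd_dvec F
  have hdeg : ∀ (l : ι) (a : Fin 3), q l = Pi.single a 1 →
      al a + m l = d ∧ ∃ s ∈ F.support, s a = al a := by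
    intro l a hl
    obtain ⟨h1, h2⟩ := hC.mult l
    rw [hl, mem_pow_single a _ hC.hom] at h1 h2
    push Not at h2
    obtain ⟨s, hs, hs2⟩ := h2
    have h3 := h1 s hs
    have h4 : al a = s a := by
      rw [hal, dvec_apply]
      refine degreeOf_eq (fun t ht => ?_) ⟨s, hs, rfl⟩
      have := h1 t ht
      omega
    exact ⟨by omega, s, hs, h4.symm⟩
  obtain ⟨e0, t0⟩ := hdeg i 0 hi
  obtain ⟨e1, t1⟩ := hdeg j 1 hj
  obtain ⟨e2, t2⟩ := hdeg k 2 hk
  have htop : ∀ a, ∃ s ∈ F.support, s a = al a := by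
    intro a
    fin_cases a
    exacts [t0, t1, t2]
  have hbot : ∀ a, ∃ s ∈ F.support, s a = 0 := by
    intro a
    by_contra hcon
    push Not at hcon
    obtain ⟨H, hH⟩ := X_dvd_of hcon
    rcases hC.prime.irreducible.isUnit_or_isUnit hH with hu | hu
    · obtain ⟨c, _, hc⟩ := isUnit_iff_eq_C_of_isReduced.mp hu
      have := congrArg (degreeOf a) hc
      simp at this
    · obtain ⟨c, _, hc⟩ := isUnit_iff_eq_C_of_isReduced.mp hu
      have h1 : F.IsHomogeneous 1 := by
        rw [hH, hc]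
        simpa using (isHomogeneous_X ℂ a).mul (isHomogeneous_C (Fin 3) c)
      exact hd (hC.hom.inj_right h1 hF0)
  obtain ⟨d', hd'⟩ : ∃ d', d' + d = al 0 + al 1 + al 2 := by
    obtain ⟨s, hs, _⟩ := t0
    have h1 := hom_iff.mp hC.hom s hs
    have h2 := hb s hs 0
    have h3 := hb s hs 1
    have h4 := hb s hs 2
    exact ⟨al 0 + al 1 + al 2 - d, by omega⟩
  have hsub : ∀ s ∈ F.support, (al - s) 0 + (al - s) 1 + (al - s) 2 = d' := by
    intro s hs
    have h1 := hom_iff.mp hC.hom s hs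
    have h2 := hb s hs 0
    have h3 := hb s hs 1
    have h4 := hb s hs 2
    simp only [Finsupp.tsub_apply]
    omega
  have hhom : (rev al F).IsHomogeneous d' := by
    rw [hom_iff]
    intro t ht
    obtain ⟨h1, h2⟩ := (mem_support_rev hb t).mp ht
    have := hsub _ h2
    rwa [tsub_tsub_cancel_of_le h1] at this
  have hle : ∀ a, al a ≤ d' := by
    intro a
    obtain ⟨s, hs, hs0⟩ := hbot a
    have h1 := hsub s hs
    have h2 : (al - s) a = al a := by simp [hs0]
    fin_cases a <;> simp only [Fin.zero_eta, Fin.mk_one, Fin.reduceFinMk] at h2 ⊢ <;> omega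
  have hmult : ∀ a : Fin 3, HasMult (rev al F) (Pi.single a 1) (d' - al a) := by
    intro a
    have h0 := hle a
    constructor
    · rw [mem_pow_single a _ hhom]
      intro t ht
      have := bd_rev hb t ht a
      omega
    · rw [mem_pow_single a _ hhom]
      intro h
      obtain ⟨s, hs, hs0⟩ := hbot a
      have h1 := h _ (sub_mem_support_rev hb hs)
      have h2 : (al - s) a = al a := by simp [hs0]
      omega
  let m' : ι → ℕ := fun l =>
    if l = i then d' - al 0 else if l = j then d' - al 1 else if l = k then d' - al 2 else m l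
  have mi : m' i = d' - al 0 := by simp [m']
  have mj : m' j = d' - al 1 := by simp [m', hij.symm]
  have mk : m' k = d' - al 2 := by simp [m', hik.symm, hjk.symm]
  have ml : ∀ l, l ≠ i → l ≠ j → l ≠ k → m' l = m l := by
    intro l h1 h2 h3
    simp [m', h1, h2, h3]
  have l0 := hle 0
  have l1 := hle 1
  have l2 := hle 2
  refine ⟨rev al F, d', m', ⟨hhom, ?_, fun l => ?_⟩, by omega, by omega, by omega, by omega, ml⟩
  · exact (irreducible_rev hC.prime.irreducible hb hbot htop).prime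
  · by_cases hl : l = i ∨ l = j ∨ l = k
    · rw [crPt_of_mem q hl]
      rcases hl with rfl | rfl | rfl
      · rw [hi, mi]; exact hmult 0
      · rw [hj, mj]; exact hmult 1
      · rw [hk, mk]; exact hmult 2
    · rw [crPt_of_not q hl, ml l (fun h => hl (Or.inl h)) (fun h => hl (Or.inr (Or.inl h)))
        (fun h => hl (Or.inr (Or.inr h)))]
      refine ⟨rev_mem_pow (hT l hl) hb (hC.mult l).1, fun h => (hC.mult l).2 ?_⟩
      have h1 := rev_mem_pow (fun a => inv_ne_zero (hT l hl a)) (bd_rev hb) h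
      simpa only [rev_rev hb, inv_inv] using h1

end Crem

variable {ι : Type*} [Fintype ι] {p : ι → Fin 3 → ℂ} {F : S} {d : ℕ} {m : ι → ℕ}

/-- The quadratic transformation centred at three of the points. -/
theorem cremona (hp : Gen p) (hC : Cv p F d m) (hd : d ≠ 1) {i j k : ι} (hij : i ≠ j)
    (hik : i ≠ k) (hjk : j ≠ k) : ∃ (p' : ι → Fin 3 → ℂ) (F' : S) (d' : ℕ) (m' : ι → ℕ),
    Gen p' ∧ Cv p' F' d' m' ∧
    d' + m i + m j + m k = 2 * d ∧ m' i + m j + m k = d ∧ m' j + m i + m k = d ∧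
    m' k + m i + m j = d ∧ ∀ l, l ≠ i → l ≠ j → l ≠ k → m' l = m l := by
  let g : Matrix (Fin 3) (Fin 3) ℂ := (Matrix.of ![p i, p j, p k]).transpose
  have hg : IsUnit g.det := by
    rw [Matrix.det_transpose]
    exact IsUnit.mk0 _ (hp.det_ne hij hik hjk)
  let q : ι → Fin 3 → ℂ := fun l => g⁻¹.mulVec (p l)
  have hq : Gen q := hp.subst (Matrix.isUnit_nonsing_inv_det g hg)
  have hgq : (fun l => g.mulVec (q l)) = p := by
    funext l
    simp only [q, Matrix.mulVec_mulVec, Matrix.mul_nonsing_inv g hg, Matrix.one_mulVec]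
  have hC1 : Cv q (lin g F) d m := Cv.subst hg (hgq ▸ hC)
  have hstd : ∀ (l : ι) (a : Fin 3), g.mulVec (Pi.single a 1) = p l → q l = Pi.single a 1 := by
    intro l a h
    simp only [q, ← h, Matrix.mulVec_mulVec, Matrix.nonsing_inv_mul g hg, Matrix.one_mulVec]
  have hi : q i = Pi.single 0 1 := hstd i 0 (by ext a; simp [g])
  have hj : q j = Pi.single 1 1 := hstd j 1 (by ext a; simp [g])
  have hk : q k = Pi.single 2 1 := hstd k 2 (by ext a; simp [g])
  have hT : ∀ l, ¬ (l = i ∨ l = j ∨ l = k) → ∀ a, q l a ≠ 0 := by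
    intro l hl a
    push Not at hl
    obtain ⟨h1, h2, h3⟩ := hl
    fin_cases a
    · have := hq.det_ne h2 h3 hjk
      rw [hj, hk, Matrix.det_fin_three] at this
      simpa using this
    · have := hq.det_ne h1 h3 hik
      rw [hi, hk, Matrix.det_fin_three] at this
      simpa using this
    · have := hq.det_ne h1 h2 hij
      rw [hi, hj, Matrix.det_fin_three] at this
      simpa using this
  obtain ⟨F', d', m', h⟩ := Crem.cremona_std hC1 hd hij hik hjk hi hj hk hT
  exact ⟨Crem.crPt q i j k, F', d', m', Crem.gen_crPt hq hi hj hk hT, h⟩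

end Pool.Agent.P.MP_3c83d0_ag
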