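import Mathlib

/-! Definitions for negative curves on very general blow-ups of the plane. -/

open MvPolynomial

namespace Pool.Agent.P.MP_3c83d0_ag

/-- The ideal of the polynomials that vanish at `p`. -/
noncomputable def mx {σ : Type*} (p : σ → ℂ) : Ideal (MvPolynomial σ ℂ) := RingHom.ker (eval p)

/-- `F` has multiplicity exactly `m` at `p`. -/
def HasMult {σ : Type*} (F : MvPolynomial σ ℂ) (p : σ → ℂ) (m : ℕ) : Prop :=
  F ∈ mx p ^ m ∧ F ∉ mx p ^ (m + 1)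

/-- Polynomials in the three homogeneous coordinates. -/
abbrev S : Type := MvPolynomial (Fin 3) ℂ

/-- Polynomials in two affine coordinates. -/
abbrev P2 : Type := MvPolynomial (Fin 2) ℂ

/-- Derivative in the direction `w`. -/
noncomputable def dv {σ : Type*} [Fintype σ] (w : σ → ℂ) (G : MvPolynomial σ ℂ) :
    MvPolynomial σ ℂ := ∑ j, C (w j) * pderiv j G

/-- Linear substitution: `lin g G` is the polynomial `x ↦ G (g x)`. -/
noncomputable def lin (g : Matrix (Fin 3) (Fin 3) ℂ) : S →ₐ[ℂ] S :=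
  aeval fun a => ∑ b, C (g a b) * X b

variable {ι : Type*} [Fintype ι]

/-- An irreducible plane curve of degree `d` with multiplicity exactly `m i` at `p i`. -/
structure Cv (p : ι → Fin 3 → ℂ) (F : S) (d : ℕ) (m : ι → ℕ) : Prop where
  hom : F.IsHomogeneous d
  prime : Prime F
  mult : ∀ i, HasMult F (p i) (m i)

/-- The vectors represent pairwise different points of the projective plane. -/
def Sep (p : ι → Fin 3 → ℂ) : Prop :=
  (∀ i, p i ≠ 0) ∧ ∀ i j, i ≠ j → ∀ c : ℂ, p i ≠ c • p j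

/-- Infinitesimal genericity: derivations of the ground field together with linear vector fields
move the points in all directions independently. -/
def Gen (p : ι → Fin 3 → ℂ) : Prop :=
  (∀ i, p i ≠ 0) ∧ ∀ w : ι → Fin 3 → ℂ, ∃ (D : Derivation ℤ ℂ ℂ) (A : Matrix (Fin 3) (Fin 3) ℂ)
    (c : ι → ℂ), ∀ i a, A.mulVec (p i) a - D (p i a) = w i a + c i * p i a

/-- Self-intersection of the class `(d; m)`. -/
def sq (d : ℕ) (m : ι → ℕ) : ℤ := (d : ℤ) ^ 2 - ∑ i, (m i : ℤ) ^ 2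

/-- Intersection of the class `(d; m)` with the canonical class. -/
def kc (d : ℕ) (m : ι → ℕ) : ℤ := ∑ i, (m i : ℤ) - 3 * (d : ℤ)

/-- `2 g - 2` for the arithmetic genus `g` of the class `(d; m)`. -/
def g2 (d : ℕ) (m : ι → ℕ) : ℤ := sq d m + kc d m

/-- Intersection number of the classes `(d; m)` and `(k; μ)`. -/
def dg (d : ℕ) (m : ι → ℕ) (k : ℕ) (μ : ι → ℕ) : ℤ :=
  (k : ℤ) * d - ∑ i, (μ i : ℤ) * m i

/-- Riemann-Roch, product inequalities and vanishing for the numbers `h0`, `h1` of the classes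
`(k; μ)` restricted to a curve of class `(d; m)`. -/
structure Pack (d : ℕ) (m : ι → ℕ) (h0 h1 : ℕ → (ι → ℕ) → ℕ) : Prop where
  pos : 0 < d
  rr : ∀ k μ, d ≤ k + 2 → (∀ i, m i ≤ μ i + 1) →
    2 * ((h0 k μ : ℤ) - h1 k μ) = 2 * dg d m k μ - g2 d m
  p0 : ∀ k μ k' μ', 0 < h0 k μ → 0 < h0 k' μ' → h0 k μ + h0 k' μ' ≤ h0 (k + k') (μ + μ') + 1
  p1 : ∀ k μ k' μ', d ≤ k + 2 → 0 < h0 k' μ' → 0 < h1 (k + k') (μ + μ') →
    h0 k' μ' + h1 (k + k') (μ + μ') ≤ h1 k μ + 1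
  van : ∀ μ, ∃ k0, ∀ k, k0 ≤ k → h1 k μ = 0

/-- `h0` bounds the number of forms of degree `k`, independent modulo `F`, that have
multiplicity at least `μ i` at `p i` modulo `F`. -/
def Low (p : ι → Fin 3 → ℂ) (F : S) (h0 : ℕ → (ι → ℕ) → ℕ) : Prop :=
  ∀ (k : ℕ) (μ : ι → ℕ) (r : ℕ) (G : Fin r → S), (∀ a, (G a).IsHomogeneous k) →
    (∀ a i, G a ∈ mx (p i) ^ μ i ⊔ Ideal.span {F}) →
    (∀ c : Fin r → ℂ, F ∣ ∑ a, C (c a) * G a → ∀ a, c a = 0) → r ≤ h0 k μ

/-- The affine coordinate ring of the curve `f = 0`. -/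
abbrev Af (f : P2) : Type := P2 ⧸ Ideal.span {f}

/-- Classes of polynomials of total degree at most `k`. -/
noncomputable def Ak (f : P2) (k : ℕ) : Submodule ℂ (Af f) :=
  (restrictTotalDegree (Fin 2) ℂ k).map (Ideal.Quotient.mkₐ ℂ (Ideal.span {f})).toLinearMap

/-- Functions on the curve with multiplicity at least `μ i` at `q i`. -/
noncomputable def Im (f : P2) (q : ι → Fin 2 → ℂ) (μ : ι → ℕ) : Submodule ℂ (Af f) :=
  ⨅ i, ((mx (q i) ^ μ i).map (Ideal.Quotient.mk (Ideal.span {f}))).restrictScalars ℂ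

/-- Dimension of the space of sections. -/
noncomputable def a0 (f : P2) (q : ι → Fin 2 → ℂ) (k : ℕ) (μ : ι → ℕ) : ℕ :=
  Module.finrank ℂ ↥(Im f q μ ⊓ Ak f k)

/-- Dimension of the first cohomology (as a space of linear functionals). -/
noncomputable def a1 (f : P2) (q : ι → Fin 2 → ℂ) (k : ℕ) (μ : ι → ℕ) : ℕ :=
  Module.finrank ℂ ↥(Im f q μ ⊔ Ak f k).dualAnnihilator

/-- An affine curve, monic in the second variable, with its multiplicities. -/
structure Ca (q : ι → Fin 2 → ℂ) (f : P2) (d : ℕ) (m : ι → ℕ) : Prop where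
  inj : Function.Injective q
  prime : Prime f
  deg : f.totalDegree = d
  top : coeff (Finsupp.single 1 d) f ≠ 0
  mult : ∀ i, HasMult f (q i) (m i)

/-- The numerical rules satisfied by a family `R` of classes. -/
structure Rules (R : ℕ → (ι → ℕ) → Prop) : Prop where
  pos : ∀ d m, R d m → 0 < d
  le : ∀ d m, R d m → ∀ i, m i ≤ d
  r0 : ∀ d m, R d m → -2 ≤ g2 d m
  r1 : ∀ d m, R d m → sq d m < 0 → ∀ i, m i = 1 → sq d m = -1
  r11 : ∀ d m, R d m → sq d m < 0 → ∀ i j, i ≠ j → m i = 1 → m j = 1 → g2 d m = -2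
  r2 : ∀ d m, R d m → sq d m < 0 → ∀ i, m i = 2 → sq d m = -1 ∧ g2 d m = -2
  r3 : ∀ d m, R d m → sq d m < 0 → ∀ i, m i = 3 →
    (sq d m = -2 ∧ g2 d m = -2) ∨ (sq d m = -1 ∧ g2 d m ≤ 2)
  r31 : ∀ d m, R d m → sq d m < 0 → ∀ i j, m i = 3 → m j = 1 → g2 d m ≤ 0
  rH : ∀ m, R 9 m → sq 9 m < 0 → ∀ s : Finset ι, s.card = 9 → (∀ i ∈ s, m i = 3) → False
  cr : ∀ d m, R d m → d ≠ 1 → ∀ i j k, i ≠ j → i ≠ k → j ≠ k → ∃ d' m', R d' m' ∧
    d' + m i + m j + m k = 2 * d ∧ m' i + m j + m k = d ∧ m' j + m i + m k = d ∧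
    m' k + m i + m j = d ∧ ∀ l, l ≠ i → l ≠ j → l ≠ k → m' l = m l

end Pool.Agent.P.MP_3c83d0_ag
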