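import Pool.Agent.P.MP_3c83d0_ag.Defs

open MvPolynomial

namespace Pool.Agent.P.MP_3c83d0_ag

/-- Derivations extend along formally etale maps. -/
theorem der_extend {R A T : Type} [CommRing R] [CommRing A] [CommRing T] [Algebra R A]
    [Algebra R T] [Algebra A T] [IsScalarTower R A T] [Algebra.FormallyEtale A T]
    (D₀ : Derivation R A T) : ∃ D : Derivation R T T, ∀ s, D (algebraMap A T s) = D₀ s := by
  have hb := KaehlerDifferential.isBaseChange_of_formallyEtale R A T
  refine ⟨(hb.lift D₀.liftKaehlerDifferential).compDer (KaehlerDifferential.D R T), fun s => ?_⟩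
  have h1 := hb.lift_eq D₀.liftKaehlerDifferential (KaehlerDifferential.D R A s)
  rw [KaehlerDifferential.map_D, Derivation.liftKaehlerDifferential_comp_D] at h1
  exact h1

open scoped IntermediateField.algebraAdjoinAdjoin in
theorem der_basis {τ : Type} (b : τ → ℂ) (hb : IsTranscendenceBasis ℚ b) (v : τ → ℂ) :
    ∃ D : Derivation ℤ ℂ ℂ, ∀ t, D (b t) = v t := by
  let e := hb.1.aevalEquiv
  let : Algebra (MvPolynomial τ ℚ) ℂ := (aeval b : MvPolynomial τ ℚ →ₐ[ℚ] ℂ).toRingHom.toAlgebra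
  have : IsScalarTower ℚ (MvPolynomial τ ℚ) ℂ :=
    IsScalarTower.of_algebraMap_eq fun r => ((aeval b).commutes r).symm
  let D₁ : Derivation ℚ (MvPolynomial τ ℚ) ℂ := mkDerivation ℚ v
  have he : ∀ x : Algebra.adjoin ℚ (Set.range b), aeval b (e.symm x) = (x : ℂ) := fun x => by
    rw [← hb.1.algebraMap_aevalEquiv]
    exact congrArg _ (e.apply_symm_apply x)
  let D₀ : Derivation ℚ (Algebra.adjoin ℚ (Set.range b)) ℂ :=
    Derivation.mk' (D₁.toLinearMap ∘ₗ e.symm.toLinearMap) fun x y => by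
      change D₁ (e.symm (x * y)) = x • D₁ (e.symm y) + y • D₁ (e.symm x)
      rw [map_mul, Derivation.leibniz]
      change aeval b (e.symm x) * _ + aeval b (e.symm y) * _ = (x : ℂ) * _ + (y : ℂ) * _
      rw [he, he]
  have : Algebra.FormallyEtale (Algebra.adjoin ℚ (Set.range b))
      (IntermediateField.adjoin ℚ (Set.range b)) :=
    .of_isLocalization (nonZeroDivisors _)
  have := hb.isAlgebraic_field
  have : Algebra.FormallyEtale (IntermediateField.adjoin ℚ (Set.range b)) ℂ :=
    Algebra.FormallyEtale.of_isSeparable _ ℂ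
  have : Algebra.FormallyEtale (Algebra.adjoin ℚ (Set.range b)) ℂ :=
    .comp _ (IntermediateField.adjoin ℚ (Set.range b)) _
  obtain ⟨D, hD⟩ := der_extend D₀
  refine ⟨D.restrictScalars ℤ, fun t => ?_⟩
  have h1 := hD (e (X t))
  rw [hb.1.algebraMap_aevalEquiv, aeval_X] at h1
  change D (b t) = D₁ (e.symm (e (X t))) at h1
  rw [e.symm_apply_apply] at h1
  exact h1.trans (mkDerivation_X ℚ v t)

/-- Derivations of the complex numbers with prescribed values on an algebraically independent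
family. -/
theorem exists_derivation {τ : Type} (a : τ → ℂ) (ha : AlgebraicIndependent ℚ a) (v : τ → ℂ) :
    ∃ D : Derivation ℤ ℂ ℂ, ∀ t, D (a t) = v t := by
  obtain ⟨B, hB, hb⟩ := exists_isTranscendenceBasis_superset (R := ℚ) (s := Set.range a)
    ha.to_subtype_range
  obtain ⟨D, hD⟩ := der_basis _ hb fun x : B => Function.extend a v 0 x
  refine ⟨D, fun t => ?_⟩
  have h := hD ⟨a t, hB ⟨t, rfl⟩⟩
  rwa [ha.injective.extend_apply] at h

theorem gen_of_algInd {n : ℕ} (a : Fin n × Fin 2 → ℂ) (ha : AlgebraicIndependent ℚ a) :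
    Gen (fun i : Fin n => ![a (i, 0), a (i, 1), 1]) := by
  refine ⟨fun i h => ?_, fun w => ?_⟩
  · simpa using congrFun h 2
  · obtain ⟨D, hD⟩ := exists_derivation a ha fun t => w t.1 2 * a t - w t.1 t.2.castSucc
    refine ⟨D, 0, fun i => -w i 2, fun i j => ?_⟩
    fin_cases j
    · simp [hD]
      ring
    · simp [hD]
      ring
    · simp

/-- Outside countably many hypersurfaces the coordinates are algebraically independent. -/
theorem exists_hypersurfaces (τ : Type) [Fintype τ] : ∃ Z : ℕ → MvPolynomial τ ℂ,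
    (∀ k, Z k ≠ 0) ∧ ∀ a : τ → ℂ, (∀ k, eval a (Z k) ≠ 0) → AlgebraicIndependent ℚ a := by
  have : Countable (MvPolynomial τ ℚ) := by
    exact (AddMonoidAlgebra.coeffEquiv (R := ℚ) (M := τ →₀ ℕ)).injective.countable
  have : Nonempty {p : MvPolynomial τ ℚ // p ≠ 0} := ⟨⟨1, one_ne_zero⟩⟩
  obtain ⟨g, hg⟩ := exists_surjective_nat {p : MvPolynomial τ ℚ // p ≠ 0}
  refine ⟨fun k => map (algebraMap ℚ ℂ) (g k).1, fun k h => ?_, fun a h => ?_⟩
  · exact (g k).2 (map_injective _ (algebraMap ℚ ℂ).injective (h.trans (map_zero _).symm))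
  · rw [algebraicIndependent_iff]
    intro p hp
    by_contra h0
    obtain ⟨k, hk⟩ := hg ⟨p, h0⟩
    refine h k ?_
    simp only [hk]
    rw [eval_map, ← aeval_def, hp]

end Pool.Agent.P.MP_3c83d0_ag
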