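import Pool.Agent.P.MP_3c83d0_ag.Loc

open MvPolynomial

namespace Pool.Agent.P.MP_3c83d0_ag

instance finite_Ak (f : P2) (k : ℕ) : Module.Finite ℂ (Ak f k) := by
  unfold Ak
  infer_instance

theorem dimA_card (k : ℕ) :
    2 * Nat.card {n : Fin 2 →₀ ℕ | (n.sum fun _ e => e) ≤ k} = (k + 1) * (k + 2) := by
  have e : {n : Fin 2 →₀ ℕ | (n.sum fun _ e => e) ≤ k} ≃
      ((Finset.range (k + 1)).sigma fun j => Finset.HasAntidiagonal.antidiagonal j) :=
    { toFun := fun n => ⟨⟨n.1 0 + n.1 1, (n.1 0, n.1 1)⟩, by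
        have := n.2
        simp only [Set.mem_ofPred_eq] at this
        rw [Finsupp.sum_fintype _ _ (fun _ => rfl), Fin.sum_univ_two] at this
        simp only [Finset.mem_sigma, Finset.mem_range, Finset.HasAntidiagonal.mem_antidiagonal, and_true]
        omega⟩
      invFun := fun x => ⟨Finsupp.equivFunOnFinite.symm ![x.1.2.1, x.1.2.2], by
        have := x.2
        simp only [Finset.mem_sigma, Finset.mem_range, Finset.HasAntidiagonal.mem_antidiagonal] at this
        simp only [Set.mem_ofPred_eq]
        rw [Finsupp.sum_fintype _ _ (fun _ => rfl), Fin.sum_univ_two]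
        simp
        omega⟩
      left_inv := fun n => by
        ext i
        fin_cases i <;> simp
      right_inv := fun x => by
        obtain ⟨⟨j, a, b⟩, hx⟩ := x
        simp only [Finset.mem_sigma, Finset.mem_range, Finset.HasAntidiagonal.mem_antidiagonal] at hx
        obtain ⟨-, rfl⟩ := hx
        simp }
  rw [Nat.card_congr e, Nat.card_eq_fintype_card, Fintype.card_coe, Finset.card_sigma]
  simp only [Finset.Nat.card_antidiagonal]
  clear e
  induction k with
  | zero => simp
  | succ k ih =>
    rw [Finset.sum_range_succ, mul_add, ih]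
    ring

theorem dimA_finrank (k : ℕ) :
    2 * Module.finrank ℂ (restrictTotalDegree (Fin 2) ℂ k) = (k + 1) * (k + 2) := by
  rw [← dimA_card k]
  congr 1
  exact Module.finrank_eq_nat_card_basis (basisRestrictSupport ℂ _)

/-- Dimension of the degree filtration of the coordinate ring. -/
theorem finrank_Ak {f : P2} {d : ℕ} (hf : f ≠ 0) (hd : f.totalDegree = d) (k : ℕ)
    (hk : d ≤ k + 2) :
    2 * (Module.finrank ℂ (Ak f k) : ℤ) = 2 * (k : ℤ) * d - (d : ℤ) ^ 2 + 3 * d := by
  set π := (Ideal.Quotient.mkₐ ℂ (Ideal.span {f})).toLinearMap with hπ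
  set P := restrictTotalDegree (Fin 2) ℂ k with hP
  have h1 := LinearMap.finrank_range_add_finrank_ker (π.domRestrict P)
  rw [LinearMap.range_domRestrict, ← Submodule.finrank_map_subtype_eq P] at h1
  have h2 : ∀ g : P2, g ∈ (LinearMap.ker (π.domRestrict P)).map P.subtype ↔
      g.totalDegree ≤ k ∧ f ∣ g := by
    intro g
    constructor
    · rintro ⟨x, hx, rfl⟩
      refine ⟨(mem_restrictTotalDegree _ _ _).1 x.2, ?_⟩
      have : Ideal.Quotient.mk (Ideal.span {f}) (x : P2) = 0 := hx
      exact Ideal.mem_span_singleton.1 (Ideal.Quotient.eq_zero_iff_mem.1 this)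
    · rintro ⟨a, b⟩
      refine ⟨⟨g, (mem_restrictTotalDegree _ _ _).2 a⟩, ?_, rfl⟩
      show Ideal.Quotient.mk (Ideal.span {f}) g = 0
      exact Ideal.Quotient.eq_zero_iff_mem.2 (Ideal.mem_span_singleton.2 b)
  have h3 := dimA_finrank k
  change Module.finrank ℂ (Ak f k) + _ = Module.finrank ℂ P at h1
  rw [← hP] at h3
  by_cases hkd : d ≤ k
  · obtain ⟨e, rfl⟩ := Nat.exists_eq_add_of_le hkd
    have h4 : (LinearMap.ker (π.domRestrict P)).map P.subtype =
        (restrictTotalDegree (Fin 2) ℂ e).map (LinearMap.mulLeft ℂ f) := by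
      ext g
      rw [h2]
      constructor
      · rintro ⟨a, g', rfl⟩
        refine ⟨g', (mem_restrictTotalDegree _ _ _).2 ?_, rfl⟩
        by_cases h0 : g' = 0
        · simp [h0]
        · rw [totalDegree_mul_of_isDomain hf h0, hd] at a
          omega
      · rintro ⟨g', a, rfl⟩
        refine ⟨(totalDegree_mul _ _).trans ?_, Dvd.intro _ rfl⟩
        have := (mem_restrictTotalDegree _ _ _).1 a
        omega
    have h5 : Module.finrank ℂ ((restrictTotalDegree (Fin 2) ℂ e).map (LinearMap.mulLeft ℂ f))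
        = Module.finrank ℂ (restrictTotalDegree (Fin 2) ℂ e) :=
      (Submodule.equivMapOfInjective (LinearMap.mulLeft ℂ f) (mul_right_injective₀ hf)
        _).finrank_eq.symm
    rw [h4, h5] at h1
    have h6 := dimA_finrank e
    zify at h1 h3 h6
    push_cast
    linear_combination 2 * h1 + h3 - h6
  · have h4 : (LinearMap.ker (π.domRestrict P)).map P.subtype = ⊥ := by
      rw [eq_bot_iff]
      intro g hg
      obtain ⟨a, g', rfl⟩ := (h2 g).1 hg
      by_cases h0 : g' = 0
      · simp [h0]
      · rw [totalDegree_mul_of_isDomain hf h0, hd] at a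
        omega
    rw [h4, finrank_bot] at h1
    have h7 : d = k + 1 ∨ d = k + 2 := by omega
    zify at h1 h3
    rcases h7 with rfl | rfl
    · push_cast
      linear_combination 2 * h1 + h3
    · push_cast
      linear_combination 2 * h1 + h3

theorem Ak_mono (f : P2) : Monotone (Ak f) := by
  intro k k' h
  refine Submodule.map_mono fun g hg => ?_
  rw [mem_restrictTotalDegree] at hg ⊢
  exact hg.trans h

theorem exists_mem_Ak (f : P2) (x : Af f) : ∃ k, x ∈ Ak f k := by
  obtain ⟨g, rfl⟩ := Ideal.Quotient.mk_surjective x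
  exact ⟨g.totalDegree, g, (mem_restrictTotalDegree _ _ _).2 le_rfl, rfl⟩

end Pool.Agent.P.MP_3c83d0_ag
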