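import Pool.Agent.P.MP_3c83d0_ag.Loc

open MvPolynomial

namespace Pool.Agent.P.MP_3c83d0_ag

variable {ι : Type*} [Fintype ι]

theorem dimb_equiv {W : Type*} [AddCommGroup W] [Module ℂ W] (I : Ideal P2) (L : P2 →ₗ[ℂ] W)
    (hk : ∀ x, L x = 0 ↔ x ∈ I) : Nonempty ((P2 ⧸ I) ≃ₗ[ℂ] LinearMap.range L) := by
  have h : (I : Submodule P2 P2).restrictScalars ℂ = LinearMap.ker L := by
    ext x
    simp [hk]
  exact ⟨((Submodule.Quotient.restrictScalarsEquiv ℂ (I : Submodule P2 P2)).symm.trans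
    (Submodule.quotEquivOfEq _ _ h)).trans L.quotKerEquivRange⟩

/-- Translation of the variables. -/
noncomputable def dimb_tr (p : Fin 2 → ℂ) : P2 →ₐ[ℂ] P2 := aeval fun j => X j + C (p j)

theorem dimb_tr_tr (p : Fin 2 → ℂ) (G : P2) : dimb_tr p (dimb_tr (-p) G) = G := by
  have : (dimb_tr p).comp (dimb_tr (-p)) = AlgHom.id ℂ P2 := by
    apply MvPolynomial.algHom_ext
    intro j
    simp [dimb_tr]
  exact AlgHom.congr_fun this G

theorem dimb_tr_tr' (p : Fin 2 → ℂ) (G : P2) : dimb_tr (-p) (dimb_tr p G) = G := by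
  have := dimb_tr_tr (-p) G
  rwa [neg_neg] at this

theorem dimb_tr_mem (p : Fin 2 → ℂ) (a : ℕ) (G : P2) :
    G ∈ mx p ^ a ↔ dimb_tr p G ∈ idealOfVars (Fin 2) ℂ ^ a := by
  have h1 : (mx p).map (dimb_tr p) ≤ idealOfVars (Fin 2) ℂ := by
    rw [mx_eq_span, Ideal.map_span, Ideal.span_le]
    rintro _ ⟨_, ⟨j, rfl⟩, rfl⟩
    have : dimb_tr p (X j - C (p j)) = X j := by simp [dimb_tr]
    rw [this]
    exact Ideal.subset_span ⟨j, rfl⟩
  have h2 : (idealOfVars (Fin 2) ℂ).map (dimb_tr (-p)) ≤ mx p := by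
    rw [idealOfVars, Ideal.map_span, Ideal.span_le]
    rintro _ ⟨_, ⟨j, rfl⟩, rfl⟩
    show dimb_tr (-p) (X j) ∈ mx p
    rw [mem_mx]
    simp [dimb_tr]
  constructor
  · intro h
    have := Ideal.mem_map_of_mem (dimb_tr p) h
    rw [Ideal.map_pow] at this
    exact Ideal.pow_right_mono h1 a this
  · intro h
    have := Ideal.mem_map_of_mem (dimb_tr (-p)) h
    rw [Ideal.map_pow, dimb_tr_tr'] at this
    exact Ideal.pow_right_mono h2 a this

/-- Exponents of degree less than `a`. -/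
def dimb_T (a : ℕ) : Finset (Σ _ : ℕ, ℕ × ℕ) :=
  (Finset.range a).sigma fun n => Finset.HasAntidiagonal.antidiagonal n

/-- The exponent vector of a pair. -/
noncomputable def dimb_e (t : ℕ × ℕ) : Fin 2 →₀ ℕ := Finsupp.single 0 t.1 + Finsupp.single 1 t.2

theorem dimb_card (a : ℕ) : 2 * (dimb_T a).card = a * (a + 1) := by
  rw [dimb_T, Finset.card_sigma]
  simp only [Finset.Nat.card_antidiagonal]
  induction a with
  | zero => simp
  | succ n ih => rw [Finset.sum_range_succ, mul_add, ih]; ring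

theorem dimb_e_inj (a : ℕ) (s t : dimb_T a) (h : dimb_e s.1.2 = dimb_e t.1.2) : s = t := by
  obtain ⟨⟨n, i, j⟩, hs⟩ := s
  obtain ⟨⟨n', i', j'⟩, ht⟩ := t
  have h0 := DFunLike.congr_fun h 0
  have h1 := DFunLike.congr_fun h 1
  simp [dimb_e] at h0 h1
  simp only [dimb_T, Finset.mem_sigma, Finset.HasAntidiagonal.mem_antidiagonal] at hs ht
  obtain rfl := h0
  obtain rfl := h1
  obtain rfl : n = n' := hs.2.symm.trans ht.2
  rfl

/-- Taylor coefficients of order less than `a` at `p`. -/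
noncomputable def dimb_L (p : Fin 2 → ℂ) (a : ℕ) : P2 →ₗ[ℂ] (dimb_T a → ℂ) :=
  LinearMap.pi fun t => (lcoeff ℂ (dimb_e t.1.2)).comp (dimb_tr p).toLinearMap

theorem dimb_L_apply (p : Fin 2 → ℂ) (a : ℕ) (G : P2) (t : dimb_T a) :
    dimb_L p a G t = coeff (dimb_e t.1.2) (dimb_tr p G) := rfl

theorem dimb_L_ker (p : Fin 2 → ℂ) (a : ℕ) (G : P2) : dimb_L p a G = 0 ↔ G ∈ mx p ^ a := by
  rw [dimb_tr_mem, mem_pow_idealOfVars_iff']
  constructor
  · intro h x hx
    have hx' : x 0 + x 1 < a := by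
      rw [Finsupp.degree_eq_sum, Fin.sum_univ_two] at hx
      exact hx
    have hmem : (⟨x 0 + x 1, x 0, x 1⟩ : Σ _ : ℕ, ℕ × ℕ) ∈ dimb_T a := by
      simp [dimb_T, hx']
    have h1 := congrFun h ⟨_, hmem⟩
    rw [dimb_L_apply] at h1
    have h2 : dimb_e (x 0, x 1) = x := by
      ext j
      fin_cases j <;> simp [dimb_e]
    simpa [h2] using h1
  · intro h
    funext t
    rw [dimb_L_apply]
    apply h
    obtain ⟨⟨n, i, j⟩, ht⟩ := t
    simp only [dimb_T, Finset.mem_sigma, Finset.HasAntidiagonal.mem_antidiagonal, Finset.mem_range] at ht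
    rw [Finsupp.degree_eq_sum, Fin.sum_univ_two]
    simp [dimb_e]
    omega

theorem dimb_L_surj (p : Fin 2 → ℂ) (a : ℕ) : Function.Surjective (dimb_L p a) := by
  classical
  intro v
  refine ⟨dimb_tr (-p) (∑ t : dimb_T a, monomial (dimb_e t.1.2) (v t)), ?_⟩
  funext s
  rw [dimb_L_apply, dimb_tr_tr, coeff_sum, Finset.sum_eq_single s]
  · simp
  · intro t _ hts
    rw [coeff_monomial, if_neg]
    exact fun h => hts (dimb_e_inj a t s h)
  · simp

theorem dimb_pow_equiv (p : Fin 2 → ℂ) (a : ℕ) :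
    Nonempty ((P2 ⧸ mx p ^ a) ≃ₗ[ℂ] (dimb_T a → ℂ)) := by
  obtain ⟨e⟩ := dimb_equiv (mx p ^ a) (dimb_L p a) (dimb_L_ker p a)
  exact ⟨e.trans ((LinearEquiv.ofEq _ _ (LinearMap.range_eq_top.2 (dimb_L_surj p a))).trans
    Submodule.topEquiv)⟩

theorem dimb_pow_finite (p : Fin 2 → ℂ) (a : ℕ) : Module.Finite ℂ (P2 ⧸ mx p ^ a) := by
  obtain ⟨e⟩ := dimb_pow_equiv p a
  exact Module.Finite.equiv e.symm

theorem dimb_pow_finrank (p : Fin 2 → ℂ) (a : ℕ) :
    2 * Module.finrank ℂ (P2 ⧸ mx p ^ a) = a * (a + 1) := by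
  obtain ⟨e⟩ := dimb_pow_equiv p a
  rw [e.finrank_eq, Module.finrank_fintype_fun_eq_card, Fintype.card_coe, dimb_card]

theorem dimb_factor_surj {I J : Ideal P2} (h : I ≤ J) :
    Function.Surjective (Ideal.Quotient.factorₐ ℂ h).toLinearMap := by
  intro y
  obtain ⟨G, rfl⟩ := Ideal.Quotient.mk_surjective y
  exact ⟨Ideal.Quotient.mk _ G, rfl⟩

theorem dimb_sup_finite (f : P2) (p : Fin 2 → ℂ) (a : ℕ) :
    Module.Finite ℂ (P2 ⧸ (mx p ^ a ⊔ Ideal.span {f})) :=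
  haveI := dimb_pow_finite p a
  Module.Finite.of_surjective _ (dimb_factor_surj (le_sup_left (a := mx p ^ a)))

theorem dimb_mul_mem {f : P2} {p : Fin 2 → ℂ} {m : ℕ} (hm : HasMult f p m) (a : ℕ) (G : P2) :
    G * f ∈ mx p ^ a ↔ G ∈ mx p ^ (a - m) := by
  constructor
  · intro h
    by_cases h0 : G = 0
    · rw [h0]; exact Ideal.zero_mem _
    obtain ⟨k, hk⟩ := exists_hasMult p h0
    have h1 := not_mem_mul p hk.2 hm.2
    have h2 : a ≤ k + m := by
      by_contra hc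
      exact h1 (Ideal.pow_le_pow_right (by omega) h)
    exact Ideal.pow_le_pow_right (by omega) hk.1
  · intro h
    have h1 := Ideal.mul_mem_mul h hm.1
    rw [← pow_add] at h1
    exact Ideal.pow_le_pow_right (by omega) h1

theorem dimb_one {f : P2} {p : Fin 2 → ℂ} {m : ℕ} (hm : HasMult f p m) (a : ℕ) :
    Module.finrank ℂ (P2 ⧸ (mx p ^ a ⊔ Ideal.span {f})) +
      Module.finrank ℂ (P2 ⧸ mx p ^ (a - m)) = Module.finrank ℂ (P2 ⧸ mx p ^ a) := by
  have := dimb_pow_finite p a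
  let φ : P2 →ₗ[ℂ] P2 ⧸ mx p ^ a :=
    (Ideal.Quotient.mkₐ ℂ (mx p ^ a)).toLinearMap.comp (LinearMap.mulRight ℂ f)
  have hφ : ∀ G, φ G = Ideal.Quotient.mk _ (G * f) := fun _ => rfl
  let ψ : (P2 ⧸ mx p ^ a) →ₗ[ℂ] P2 ⧸ (mx p ^ a ⊔ Ideal.span {f}) :=
    (Ideal.Quotient.factorₐ ℂ (le_sup_left (a := mx p ^ a))).toLinearMap
  have hψ : ∀ G : P2, ψ (Ideal.Quotient.mk _ G) = Ideal.Quotient.mk _ G := fun _ => rfl
  obtain ⟨e⟩ := dimb_equiv (mx p ^ (a - m)) φ fun G => by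
    rw [hφ, Ideal.Quotient.eq_zero_iff_mem, dimb_mul_mem hm]
  have hk : LinearMap.ker ψ = LinearMap.range φ := by
    ext y
    obtain ⟨G, rfl⟩ := Ideal.Quotient.mk_surjective y
    rw [LinearMap.mem_ker, hψ, Ideal.Quotient.eq_zero_iff_mem, LinearMap.mem_range]
    constructor
    · intro h
      obtain ⟨u, hu, w, hw, rfl⟩ := Submodule.mem_sup.1 h
      obtain ⟨c, rfl⟩ := Ideal.mem_span_singleton'.1 hw
      refine ⟨c, ?_⟩
      rw [hφ, map_add, Ideal.Quotient.eq_zero_iff_mem.2 hu, zero_add]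
    · rintro ⟨c, hc⟩
      rw [hφ, Ideal.Quotient.eq] at hc
      have : G = -(c * f - G) + c * f := by ring
      rw [this]
      exact Submodule.add_mem_sup (neg_mem hc) (Ideal.mem_span_singleton'.2 ⟨c, rfl⟩)
  have h1 := ψ.finrank_range_add_finrank_ker
  rw [LinearMap.range_eq_top.2 (dimb_factor_surj _), finrank_top, hk, ← e.finrank_eq] at h1
  exact h1

/-- Restriction of a function on the curve to the fat points. -/
noncomputable def dimb_Psi (f : P2) (q : ι → Fin 2 → ℂ) (μ : ι → ℕ) :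
    Af f →ₗ[ℂ] ∀ i, P2 ⧸ (mx (q i) ^ μ i ⊔ Ideal.span {f}) :=
  LinearMap.pi fun i =>
    (Ideal.Quotient.factorₐ ℂ (le_sup_right (a := mx (q i) ^ μ i))).toLinearMap

omit [Fintype ι] in
theorem dimb_Psi_ker (f : P2) (q : ι → Fin 2 → ℂ) (μ : ι → ℕ) :
    Im f q μ = LinearMap.ker (dimb_Psi f q μ) := by
  ext y
  obtain ⟨G, rfl⟩ := Ideal.Quotient.mk_surjective y
  rw [LinearMap.mem_ker, Im, Submodule.mem_iInf, funext_iff]
  refine forall_congr' fun i => ?_
  rw [Submodule.restrictScalars_mem, Ideal.mem_quotient_iff_mem_sup]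
  exact (Ideal.Quotient.eq_zero_iff_mem (I := mx (q i) ^ μ i ⊔ Ideal.span {f}) (a := G)).symm

theorem dimb_Psi_surj (f : P2) {q : ι → Fin 2 → ℂ} (hq : Function.Injective q) (μ : ι → ℕ) :
    Function.Surjective (dimb_Psi f q μ) := by
  intro v
  have hc : Pairwise (Function.onFun IsCoprime fun i => mx (q i) ^ μ i ⊔ Ideal.span {f}) := by
    intro i j hij
    have hne : mx (q i) ≠ mx (q j) := by
      intro h
      apply hij
      apply hq
      funext l
      have h1 : X l - C (q i l) ∈ mx (q i) := by simp [mem_mx]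
      rw [h, mem_mx] at h1
      simp at h1
      exact (sub_eq_zero.1 h1).symm
    have h1 : IsCoprime (mx (q i)) (mx (q j)) :=
      Ideal.isCoprime_iff_sup_eq.2 ((mx_isMaximal _).coprime_of_ne (mx_isMaximal _) hne)
    have h2 : IsCoprime (mx (q i) ^ μ i) (mx (q j) ^ μ j) := h1.pow
    rw [Ideal.isCoprime_iff_codisjoint] at h2
    exact Ideal.isCoprime_iff_codisjoint.2 (h2.mono le_sup_left le_sup_left)
  obtain ⟨G, hG⟩ := Ideal.pi_quotient_surjective hc v
  exact ⟨Ideal.Quotient.mk _ G, funext hG⟩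

theorem finite_quot_Im (f : P2) (q : ι → Fin 2 → ℂ) (μ : ι → ℕ) :
    Module.Finite ℂ (Af f ⧸ Im f q μ) := by
  have := fun i => dimb_sup_finite f (q i) (μ i)
  rw [dimb_Psi_ker]
  exact Module.Finite.equiv (dimb_Psi f q μ).quotKerEquivRange.symm

/-- Colength of the multiplicity conditions on the curve. -/
theorem finrank_quot_Im {f : P2} {q : ι → Fin 2 → ℂ} (hq : Function.Injective q) {m : ι → ℕ}
    (hm : ∀ i, HasMult f (q i) (m i)) (μ : ι → ℕ) (hμ : ∀ i, m i ≤ μ i + 1) :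
    2 * (Module.finrank ℂ (Af f ⧸ Im f q μ) : ℤ) =
      ∑ i, (2 * (μ i : ℤ) * m i - (m i : ℤ) ^ 2 + m i) := by
  have := fun i => dimb_sup_finite f (q i) (μ i)
  rw [dimb_Psi_ker, ((dimb_Psi f q μ).quotKerEquivOfSurjective (dimb_Psi_surj f hq μ)).finrank_eq,
    Module.finrank_pi_fintype]
  push_cast
  rw [Finset.mul_sum]
  refine Finset.sum_congr rfl fun i _ => ?_
  have h1 := dimb_one (hm i) (μ i)
  have h2 := dimb_pow_finrank (q i) (μ i)
  have h3 := dimb_pow_finrank (q i) (μ i - m i)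
  rcases Nat.lt_or_ge (μ i) (m i) with h | h
  · have h4 : m i = μ i + 1 := by have := hμ i; omega
    have h5 : μ i - m i = 0 := by omega
    rw [h5] at h1 h3
    zify at h1 h2 h3
    rw [h4]
    push_cast
    linear_combination 2 * h1 + h2 - h3
  · zify [h] at h1 h2 h3
    linear_combination 2 * h1 + h2 - h3

end Pool.Agent.P.MP_3c83d0_ag
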