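import Pool.Agent.P.MP_3c83d0_ag.ElRed

open Polynomial

namespace Pool.Agent.P.MP_3c83d0_ag

theorem elbez_coprime {p p' : Fin 3 → ℂ} (h : p ≠ p') : IsCoprime (mx p) (mx p') := by
  obtain ⟨j, hj⟩ := Function.ne_iff.1 h
  rw [Ideal.isCoprime_iff_sup_eq]
  have h1 : MvPolynomial.X j - MvPolynomial.C (p j) ∈ mx p := by
    simp [mx, RingHom.mem_ker]
  have h2 : MvPolynomial.X j - MvPolynomial.C (p' j) ∈ mx p' := by
    simp [mx, RingHom.mem_ker]
  have h3 : (MvPolynomial.C (p' j - p j) : S) ∈ mx p ⊔ mx p' := by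
    have := Ideal.sub_mem _ (Ideal.mem_sup_left (T := mx p') h1) (Ideal.mem_sup_right (S := mx p) h2)
    convert this using 1
    rw [map_sub]
    ring
  exact Ideal.eq_top_of_isUnit_mem _ h3
    ((isUnit_iff_ne_zero.2 (sub_ne_zero.2 hj.symm)).map MvPolynomial.C)

theorem elbez_map_le {R : Type} [CommRing R] [Algebra ℂ R] (ξ η : R) {w : Fin 3 → ℂ}
    (hw : w 2 = 1) :
    (mx w).map (MvPolynomial.aeval ![ξ, η, 1] : S →ₐ[ℂ] R) ≤
      Ideal.span {ξ - algebraMap ℂ R (w 0)} ⊔ Ideal.span {η - algebraMap ℂ R (w 1)} := by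
  rw [mx_eq_span, Ideal.map_span, Ideal.span_le]
  rintro _ ⟨_, ⟨j, rfl⟩, rfl⟩
  fin_cases j
  · exact Ideal.mem_sup_left (by simp)
  · exact Ideal.mem_sup_right (by simp)
  · simp [hw]

theorem elbez_mul_le {R : Type} [CommRing R] {a b c : R} (h : a ∣ b * c) :
    (Ideal.span {a} ⊔ Ideal.span {b}) * (Ideal.span {a} ⊔ Ideal.span {c}) ≤ Ideal.span {a} := by
  rw [Ideal.sup_mul, Ideal.mul_sup (Ideal.span {b})]
  refine sup_le Ideal.mul_le_left (sup_le Ideal.mul_le_right ?_)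
  rw [Ideal.span_singleton_mul_span_singleton]
  exact Ideal.span_singleton_le_span_singleton.2 h

theorem elbez_dvd (q : ℂ[X]) {ι : Type} (T : Finset ι) {w : ι → Fin 3 → ℂ} {m : ι → ℕ} {G : S}
    (hw : ∀ i ∈ T, w i 2 = 1) (hq : ∀ i ∈ T, w i 1 ^ 2 = q.eval (w i 0))
    (hne : ∀ i ∈ T, ∀ j ∈ T, i ≠ j → w i ≠ w j) (hm : ∀ i ∈ T, G ∈ mx (w i) ^ m i) {A B : ℂ[X]}
    (hAB : ∀ (R : Type) [CommRing R] [Algebra ℂ R] (ξ η : R), η ^ 2 = aeval ξ q →
        MvPolynomial.aeval ![ξ, η, 1] G = aeval ξ A + aeval ξ B * η) :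
    ∏ i ∈ T, (X - C (w i 0)) ^ m i ∣ A ^ 2 - B ^ 2 * q := by
  let R := QuadraticAlgebra ℂ[X] q 0
  let f : ℂ[X] →+* R := algebraMap ℂ[X] R
  let η : R := QuadraticAlgebra.omega
  have hf : ∀ p : ℂ[X], aeval (f X) p = f p := fun p => by
    have := Polynomial.aeval_algebraMap_apply R (X : ℂ[X]) p
    rwa [aeval_X_left_apply] at this
  have hC : ∀ c : ℂ, algebraMap ℂ R c = f (C c) := fun c => rfl
  have hη : η ^ 2 = f q := by
    rw [pow_two]
    exact QuadraticAlgebra.omega_mul_omega_eq_mk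
  have hη' : (-η) ^ 2 = f q := by rw [neg_sq, hη]
  have hG : G ∈ ∏ i ∈ T, mx (w i) ^ m i := by
    rw [Ideal.prod_eq_iInf_of_pairwise_isCoprime
      fun i hi j hj hij => (elbez_coprime (hne i hi j hj hij)).pow]
    simpa [Ideal.mem_iInf] using hm
  let φ : S →ₐ[ℂ] R := MvPolynomial.aeval ![f X, η, 1]
  let ψ : S →ₐ[ℂ] R := MvPolynomial.aeval ![f X, -η, 1]
  have h1 : φ G ∈ ∏ i ∈ T, (mx (w i)).map φ ^ m i := by
    have := Ideal.mem_map_of_mem φ hG
    rw [← Ideal.mapHom_apply, map_prod] at this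
    simpa [Ideal.map_pow] using this
  have h2 : ψ G ∈ ∏ i ∈ T, (mx (w i)).map ψ ^ m i := by
    have := Ideal.mem_map_of_mem ψ hG
    rw [← Ideal.mapHom_apply, map_prod] at this
    simpa [Ideal.map_pow] using this
  have h3 := Ideal.mul_mem_mul h1 h2
  rw [← Finset.prod_mul_distrib] at h3
  have h4 : ∏ i ∈ T, ((mx (w i)).map φ ^ m i * (mx (w i)).map ψ ^ m i) ≤
      ∏ i ∈ T, Ideal.span {f ((X - C (w i 0)) ^ m i)} := by
    refine Finset.prod_le_prod' fun i hi => ?_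
    rw [← mul_pow, map_pow, ← Ideal.span_singleton_pow]
    refine Ideal.pow_right_mono ?_ _
    refine (Ideal.mul_mono (elbez_map_le _ _ (hw i hi)) (elbez_map_le _ _ (hw i hi))).trans ?_
    rw [map_sub, ← hC]
    refine elbez_mul_le ?_
    have e : (η - algebraMap ℂ R (w i 1)) * (-η - algebraMap ℂ R (w i 1)) =
        -f (q - C (q.eval (w i 0))) := by
      rw [map_sub, ← hη, ← hq i hi, map_pow, map_pow, ← hC]
      ring
    rw [e, dvd_neg, hC, ← map_sub]
    exact map_dvd f (X_sub_C_dvd_sub_C_eval)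
  have h5 := h4 h3
  rw [Ideal.prod_span_singleton, Ideal.mem_span_singleton, ← map_prod] at h5
  have h6 : φ G * ψ G = f (A ^ 2 - B ^ 2 * q) := by
    have e1 : φ G = f A + f B * η := by
      have := hAB R (f X) η (by rw [hf, hη])
      rwa [hf, hf] at this
    have e2 : ψ G = f A + f B * -η := by
      have := hAB R (f X) (-η) (by rw [hf, hη'])
      rwa [hf, hf] at this
    rw [e1, e2, map_sub, map_mul, map_pow, map_pow, ← hη]
    ring
  rw [h6] at h5
  exact QuadraticAlgebra.algebraMap_dvd_iff_dvd.1 h5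

theorem elbez_zero {q A B : ℂ[X]} (h3 : q.natDegree = 3) (h : A ^ 2 - B ^ 2 * q = 0) :
    A = 0 ∧ B = 0 := by
  have hq : q ≠ 0 := by
    rintro rfl
    simp at h3
  rw [sub_eq_zero] at h
  have hB : B = 0 := by
    by_contra hB
    have := congrArg natDegree h
    rw [natDegree_mul (pow_ne_zero _ hB) hq, natDegree_pow, natDegree_pow, h3] at this
    omega
  subst hB
  simpa using h

theorem elbez_deg {q A B : ℂ[X]} (h3 : q.natDegree = 3) {n k : ℕ}
    (hA : A ≠ 0 → 2 * A.natDegree + k ≤ n) (hB : B ≠ 0 → 2 * B.natDegree + 3 + k ≤ n)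
    (h : A ^ 2 - B ^ 2 * q ≠ 0) : (A ^ 2 - B ^ 2 * q).natDegree + k ≤ n := by
  have h1 : (A ^ 2).natDegree = 2 * A.natDegree := natDegree_pow _ _
  have h2 : (B ^ 2 * q).natDegree ≤ 2 * B.natDegree + 3 := by
    refine natDegree_mul_le.trans ?_
    rw [natDegree_pow, h3]
  have h4 := natDegree_sub_le (A ^ 2) (B ^ 2 * q)
  by_cases a0 : A = 0
  · have b0 : B ≠ 0 := by
      rintro rfl
      simp [a0] at h
    have := hB b0
    rw [a0, natDegree_zero] at h1
    rw [a0] at h4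
    rw [a0]
    omega
  · have := hA a0
    by_cases b0 : B = 0
    · have e : A ^ 2 - B ^ 2 * q = A ^ 2 := by simp [b0]
      rw [e]
      omega
    · have := hB b0
      omega

/-- Bezout theorem for the Legendre cubic. -/
theorem bez (μ : ℂ) {ι : Type} [Fintype ι] {v : ι → Fin 3 → ℂ} (hs : Sep v)
    (hc : ∀ i, OnC μ (v i)) {G : S} {d : ℕ} {m : ι → ℕ} (hG : G.IsHomogeneous d)
    (hm : ∀ i, G ∈ mx (v i) ^ m i) (hlt : 3 * d < ∑ i, m i)
    {R : Type} [CommRing R] [Algebra ℂ R] (ξ η : R)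
    (h : η ^ 2 = ξ * (ξ - 1) * (ξ - algebraMap ℂ R μ)) :
    MvPolynomial.aeval ![ξ, η, 1] G = 0 := by
  classical
  let q : ℂ[X] := X * (X - 1) * (X - C μ)
  have h3 : q.natDegree = 3 := by
    simp only [q]
    compute_degree!
  have hinf : ∀ i, v i 2 = 0 → v i 1 ≠ 0 ∧ (v i 1)⁻¹ • v i = ![0, 1, 0] := by
    intro i hi
    have h0 : v i 0 = 0 := by
      have := hc i
      simp only [OnC, hi, mul_zero, sub_zero] at this
      simpa using this.symm
    have h1 : v i 1 ≠ 0 := by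
      intro h1
      apply hs.1 i
      funext j
      fin_cases j <;> simp [h0, h1, hi]
    refine ⟨h1, ?_⟩
    funext j
    fin_cases j <;> simp [h0, h1, hi]
  obtain ⟨k, hk, hk'⟩ : ∃ k, G ∈ mx ![0, 1, 0] ^ k ∧
      ∑ i ∈ Finset.univ.filter (fun i => ¬ v i 2 ≠ 0), m i ≤ k := by
    by_cases hex : ∃ i, v i 2 = 0
    · obtain ⟨i, hi⟩ := hex
      refine ⟨m i, ?_, ?_⟩
      · rw [← (hinf i hi).2]
        exact mem_pow_smul_of_mem hG _ (inv_ne_zero (hinf i hi).1) (hm i)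
      · have : Finset.univ.filter (fun j => ¬ v j 2 ≠ 0) = {i} := by
          ext j
          simp only [Finset.mem_filter, Finset.mem_univ, true_and, not_not, Finset.mem_singleton]
          refine ⟨fun hj => ?_, fun hj => hj ▸ hi⟩
          by_contra hji
          apply hs.2 j i hji (v j 1 * (v i 1)⁻¹)
          rw [mul_smul, (hinf i hi).2, ← (hinf j hj).2, smul_smul,
            mul_inv_cancel₀ (hinf j hj).1, one_smul]
        rw [this, Finset.sum_singleton]
    · refine ⟨0, by simp, ?_⟩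
      refine (Finset.sum_eq_zero fun i hi => ?_).le
      exact absurd ⟨i, not_not.1 (Finset.mem_filter.1 hi).2⟩ hex
  obtain ⟨A, B, hAB, hA, hB, -⟩ := red q h3 hG hk
  let T := Finset.univ.filter fun i => v i 2 ≠ 0
  have hT : ∀ i ∈ T, v i 2 ≠ 0 := fun i hi => (Finset.mem_filter.1 hi).2
  have hd := elbez_dvd q T (w := fun i => (v i 2)⁻¹ • v i) (m := m) (G := G)
    (fun i hi => by simp [hT i hi])
    (fun i hi => by
      have h0 := hT i hi
      have h1 : v i 1 ^ 2 * v i 2 = v i 0 * (v i 0 - v i 2) * (v i 0 - μ * v i 2) := hc i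
      simp only [q, Pi.smul_apply, smul_eq_mul, eval_mul, eval_sub, eval_X, eval_one, eval_C]
      field_simp
      linear_combination h1)
    (fun i hi j hj hij he => hs.2 i j hij (v i 2 * (v j 2)⁻¹) (by
      rw [mul_smul, ← he, smul_smul, mul_inv_cancel₀ (hT i hi), one_smul]))
    (fun i hi => mem_pow_smul_of_mem hG _ (inv_ne_zero (hT i hi)) (hm i)) hAB
  have hN : A ^ 2 - B ^ 2 * q = 0 := by
    by_contra hN
    have h4 := natDegree_le_of_dvd hd hN
    rw [natDegree_prod_of_monic _ _ fun i _ => (monic_X_sub_C _).pow _] at h4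
    simp only [natDegree_pow, natDegree_X_sub_C, mul_one] at h4
    have h5 := elbez_deg h3 hA hB hN
    have h6 := Finset.sum_filter_add_sum_filter_not Finset.univ (fun i => v i 2 ≠ 0) m
    simp only [T] at h4
    omega
  obtain ⟨rfl, rfl⟩ := elbez_zero h3 hN
  rw [hAB R ξ η (by simpa [q] using h)]
  simp

end Pool.Agent.P.MP_3c83d0_ag
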