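import Pool.Agent.P.MP_3c83d0_ag.ElDer

open Polynomial

namespace Pool.Agent.P.MP_3c83d0_ag

variable {M : Type} [Field M] [Algebra ℂ M]

theorem elrep_parity {a b r : ℂ[X]} (hodd : Odd r.natDegree) (h : a ^ 2 - b ^ 2 * r = 0) :
    a = 0 ∧ b = 0 := by
  have hr : r ≠ 0 := by
    rintro rfl
    simp at hodd
  have h1 : a ^ 2 = b ^ 2 * r := sub_eq_zero.1 h
  have hb : b = 0 := by
    by_contra hb
    have h2 := congrArg natDegree h1
    rw [natDegree_mul (pow_ne_zero _ hb) hr, natDegree_pow, natDegree_pow] at h2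
    obtain ⟨k, hk⟩ := hodd
    omega
  subst hb
  refine ⟨?_, rfl⟩
  have h3 : a ^ 2 = 0 := by simpa using h1
  exact pow_eq_zero_iff (two_ne_zero) |>.1 h3

theorem elrep_ne {x : M} (hx : Transcendental ℂ x) {p : ℂ[X]} (hp : p ≠ 0) : aeval x p ≠ 0 :=
  fun h => hx ⟨p, hp, h⟩

/-- Normal form of the elements of a hyperelliptic function field. -/
theorem rep {x y : M} (r : ℂ[X]) (hodd : Odd r.natDegree) (hx : Transcendental ℂ x)
    (hy : y ^ 2 = aeval x r) {z : M} (hz : z ∈ IntermediateField.adjoin ℂ {x, y}) :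
    ∃ a b c : ℂ[X], c ≠ 0 ∧ z * aeval x c = aeval x a + aeval x b * y := by
  induction hz using IntermediateField.adjoin_induction with
  | mem z hz =>
    rcases hz with rfl | hz
    · exact ⟨X, 0, 1, one_ne_zero, by simp⟩
    · rw [Set.mem_singleton_iff] at hz
      subst hz
      exact ⟨0, 1, 1, one_ne_zero, by simp⟩
  | algebraMap k => exact ⟨C k, 0, 1, one_ne_zero, by simp⟩
  | add z z' _ _ h h' =>
    obtain ⟨a, b, c, hc, e⟩ := h
    obtain ⟨a', b', c', hc', e'⟩ := h'
    refine ⟨a * c' + a' * c, b * c' + b' * c, c * c', mul_ne_zero hc hc', ?_⟩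
    simp only [map_add, map_mul]
    linear_combination aeval x c' * e + aeval x c * e'
  | inv z _ h =>
    obtain ⟨a, b, c, hc, e⟩ := h
    by_cases hN : a ^ 2 - b ^ 2 * r = 0
    · obtain ⟨rfl, rfl⟩ := elrep_parity hodd hN
      have h1 : z = 0 := by
        have h2 : z * aeval x c = 0 := by simpa using e
        exact (mul_eq_zero.1 h2).resolve_right (elrep_ne hx hc)
      exact ⟨0, 0, 1, one_ne_zero, by simp [h1]⟩
    · have h1 : z * (aeval x c * (aeval x a - aeval x b * y)) = aeval x (a ^ 2 - b ^ 2 * r) := by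
        simp only [map_sub, map_mul, map_pow]
        linear_combination (aeval x a - aeval x b * y) * e - aeval x b ^ 2 * hy
      have hz0 : z ≠ 0 := by
        rintro rfl
        rw [zero_mul] at h1
        exact elrep_ne hx hN h1.symm
      refine ⟨c * a, -(c * b), a ^ 2 - b ^ 2 * r, hN, ?_⟩
      rw [← h1, ← mul_assoc, inv_mul_cancel₀ hz0]
      simp only [map_neg, map_mul]
      ring
  | mul z z' _ _ h h' =>
    obtain ⟨a, b, c, hc, e⟩ := h
    obtain ⟨a', b', c', hc', e'⟩ := h'
    refine ⟨a * a' + b * b' * r, a * b' + a' * b, c * c', mul_ne_zero hc hc', ?_⟩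
    simp only [map_add, map_mul]
    linear_combination (z' * aeval x c') * e + (aeval x a + aeval x b * y) * e' +
      aeval x b * aeval x b' * hy

theorem elrep_to (P : Place M ℂ) (hP : ∀ a : ℂ, P.To (algebraMap ℂ M a) a) {u : M} {s : ℂ}
    (h : P.To u s) (p : ℂ[X]) : P.To (aeval u p) (p.eval s) := by
  have h1 := Place.To.aeval (P := P) (fun a => hP a) h p
  rwa [coe_aeval_eq_eval] at h1

theorem elrep_claim (P : Place M ℂ) (hP : ∀ a : ℂ, P.To (algebraMap ℂ M a) a) {u w : M} (r : ℂ[X])
    (hr : r.Separable) (hu : Transcendental ℂ u) (hw : w ^ 2 = aeval u r) {s t : ℂ}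
    (hs : P.To u s) (ht : P.To w t) (k : ℕ) :
    ∀ (a b c : ℂ[X]) (z : M), c ≠ 0 → c.natDegree = k → z ∈ P.O →
      z * aeval u c = aeval u a + aeval u b * w →
      ∃ a' b' c' e' : ℂ[X], c'.eval s + e'.eval s * t ≠ 0 ∧
        z * (aeval u c' + aeval u e' * w) = aeval u a' + aeval u b' * w := by
  have hts : t ^ 2 = r.eval s := (ht.pow 2).uniq (hw ▸ elrep_to P hP hs r)
  have hus : aeval u (X - C s) ≠ 0 := elrep_ne hu (X_sub_C_ne_zero s)
  induction k using Nat.strong_induction_on with
  | _ k ih =>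
    intro a b c z hc hk hz e
    by_cases hcs : c.eval s ≠ 0
    · exact ⟨a, b, c, 0, by simpa using hcs, by simpa using e⟩
    rw [not_not] at hcs
    obtain ⟨c1, rfl⟩ := dvd_iff_isRoot.2 hcs
    have hc1 : c1 ≠ 0 := right_ne_zero_of_mul hc
    have hlt : c1.natDegree < k := by
      rw [natDegree_mul (X_sub_C_ne_zero s) hc1, natDegree_X_sub_C] at hk
      omega
    obtain ⟨v, hv⟩ := Place.to_of_mem hz
    have h0 : a.eval s + b.eval s * t = 0 := by
      have h1 := hv.mul (elrep_to P hP hs ((X - C s) * c1))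
      rw [e, hcs, mul_zero] at h1
      exact ((elrep_to P hP hs a).add ((elrep_to P hP hs b).mul ht)).uniq h1
    by_cases hbs : b.eval s = 0
    · have has : a.eval s = 0 := by simpa [hbs] using h0
      obtain ⟨a1, rfl⟩ := dvd_iff_isRoot.2 has
      obtain ⟨b1, rfl⟩ := dvd_iff_isRoot.2 hbs
      refine ih _ hlt a1 b1 c1 z hc1 rfl hz (mul_left_cancel₀ hus ?_)
      simp only [map_mul] at e
      linear_combination e
    by_cases ht0 : t = 0
    · exfalso
      subst ht0
      have has : a.eval s = 0 := by simpa using h0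
      have hrs : r.eval s = 0 := by simpa using hts.symm
      obtain ⟨a1, rfl⟩ := dvd_iff_isRoot.2 has
      obtain ⟨r1, rfl⟩ := dvd_iff_isRoot.2 hrs
      have hr1 : r1.eval s ≠ 0 := by
        intro h
        obtain ⟨r2, rfl⟩ := dvd_iff_isRoot.2 h
        exact not_isUnit_X_sub_C s (hr.squarefree _ ⟨r2, by ring⟩)
      have h2 : z * aeval u c1 * w = aeval u a1 * w + aeval u b * aeval u r1 := by
        refine mul_left_cancel₀ hus ?_
        simp only [map_mul] at e hw
        linear_combination w * e + aeval u b * hw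
      have h3 := (hv.mul (elrep_to P hP hs c1)).mul ht
      rw [h2, mul_zero] at h3
      have h4 := (((elrep_to P hP hs a1).mul ht).add
        ((elrep_to P hP hs b).mul (elrep_to P hP hs r1))).uniq h3
      rw [mul_zero, zero_add] at h4
      exact mul_ne_zero hbs hr1 h4
    · have hN : (a ^ 2 - b ^ 2 * r).eval s = 0 := by
        simp only [eval_sub, eval_mul, eval_pow]
        linear_combination (a.eval s - b.eval s * t) * h0 + b.eval s ^ 2 * hts
      obtain ⟨N1, hN1⟩ := dvd_iff_isRoot.2 hN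
      have h5 := congrArg (aeval u) hN1
      simp only [map_mul] at h5 e
      rw [map_sub, map_mul, map_pow, map_pow] at h5
      have hn0 := (elrep_to P hP hs a).sub ((elrep_to P hP hs b).mul ht)
      obtain ⟨a', b', c', e', hne, he⟩ := ih _ hlt N1 0 c1 (z * (aeval u a - aeval u b * w)) hc1 rfl
        (hv.mul hn0).mem (by
          refine mul_left_cancel₀ hus ?_
          rw [map_zero]
          linear_combination (aeval u a - aeval u b * w) * e - aeval u b ^ 2 * hw + h5)
      refine ⟨a', b', a * c' - b * e' * r, a * e' - b * c', ?_, ?_⟩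
      · have h6 : (a * c' - b * e' * r).eval s + (a * e' - b * c').eval s * t =
            (-2 * (b.eval s * t)) * (c'.eval s + e'.eval s * t) := by
          simp only [eval_sub, eval_mul]
          linear_combination (c'.eval s + e'.eval s * t) * h0 + b.eval s * e'.eval s * hts
        rw [h6]
        exact mul_ne_zero (mul_ne_zero (by norm_num) (mul_ne_zero hbs ht0)) hne
      · simp only [map_sub, map_mul]
        linear_combination he + z * aeval u b * aeval u e' * hw

/-- A derivation that is regular on the coordinates preserves the local ring of a smooth point. -/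
theorem pres (P : Place M ℂ) (hP : ∀ a : ℂ, P.To (algebraMap ℂ M a) a) {u w : M} (r : ℂ[X])
    (hr : r.Separable) (hodd : Odd r.natDegree) (hu : Transcendental ℂ u)
    (hw : w ^ 2 = aeval u r) (huO : u ∈ P.O) (δ : Derivation ℤ M M)
    (h0 : ∀ a : ℂ, δ (algebraMap ℂ M a) = 0) (h1 : δ u ∈ P.O) (h2 : δ w ∈ P.O) {z : M}
    (hz : z ∈ IntermediateField.adjoin ℂ {u, w}) (hzO : z ∈ P.O) : δ z ∈ P.O := by
  obtain ⟨s, hs⟩ := Place.to_of_mem huO
  obtain ⟨t, ht, -⟩ := Place.To.of_pow (P := P) (x := w) two_ne_zero (hw ▸ elrep_to P hP hs r)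
  obtain ⟨a, b, c, hc, e⟩ := rep r hodd hu hw hz
  obtain ⟨a', b', c', e', hne, he⟩ := elrep_claim P hP r hr hu hw hs ht _ a b c z hc rfl hzO e
  have hp : ∀ p : ℂ[X], aeval u p ∈ P.O := fun p => (elrep_to P hP hs p).mem
  have hd : ∀ p q : ℂ[X], δ (aeval u p + aeval u q * w) ∈ P.O := by
    intro p q
    rw [map_add, Derivation.leibniz, der_aeval δ h0, der_aeval δ h0, smul_eq_mul, smul_eq_mul]
    exact P.O.add_mem (P.O.mul_mem (hp _) h1)
      (P.O.add_mem (P.O.mul_mem (hp _) h2) (P.O.mul_mem ht.mem (P.O.mul_mem (hp _) h1)))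
  have hn := (elrep_to P hP hs c').add ((elrep_to P hP hs e').mul ht)
  have hn0 := hn.ne_zero hne
  have h3 := congrArg δ he
  rw [Derivation.leibniz, smul_eq_mul, smul_eq_mul] at h3
  have h4 : δ z = (δ (aeval u a' + aeval u b' * w) - z * δ (aeval u c' + aeval u e' * w)) *
      (aeval u c' + aeval u e' * w)⁻¹ := by
    rw [eq_mul_inv_iff_mul_eq₀ hn0]
    linear_combination h3
  rw [h4]
  exact P.O.mul_mem (P.O.sub_mem (hd _ _) (P.O.mul_mem hzO (hd _ _))) (hn.inv hne).mem

end Pool.Agent.P.MP_3c83d0_ag
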