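import Pool.Agent.P.MP_3c83d0_ag.ElPlace
import Pool.Agent.P.MP_3c83d0_ag.ElRep

open Polynomial

namespace Pool.Agent.P.MP_3c83d0_ag

variable {M : Type} [Field M] [Algebra ℂ M]

theorem elconst_sep {k a b c : ℂ} (hk : k ≠ 0) (hab : a ≠ b) (hac : a ≠ c) (hbc : b ≠ c) :
    (C k * ((X - C a) * (X - C b) * (X - C c))).Separable ∧
      Odd (C k * ((X - C a) * (X - C b) * (X - C c))).natDegree := by
  constructor
  · refine Separable.unit_mul (isUnit_C.2 hk.isUnit) ?_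
    refine Separable.mul (Separable.mul separable_X_sub_C separable_X_sub_C ?_)
      separable_X_sub_C (IsCoprime.mul_left ?_ ?_)
    · exact isCoprime_X_sub_C_of_isUnit_sub (sub_ne_zero.2 hab).isUnit
    · exact isCoprime_X_sub_C_of_isUnit_sub (sub_ne_zero.2 hac).isUnit
    · exact isCoprime_X_sub_C_of_isUnit_sub (sub_ne_zero.2 hbc).isUnit
  · rw [natDegree_C_mul hk, natDegree_mul (mul_ne_zero (X_sub_C_ne_zero a) (X_sub_C_ne_zero b))
      (X_sub_C_ne_zero c), natDegree_mul (X_sub_C_ne_zero a) (X_sub_C_ne_zero b),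
      natDegree_X_sub_C, natDegree_X_sub_C, natDegree_X_sub_C]
    decide

theorem elconst_ne {x : M} (hx : Transcendental ℂ x) (a : ℂ) : x ≠ algebraMap ℂ M a := by
  rintro rfl
  exact hx (isAlgebraic_algebraMap a)

theorem elconst_ne0 {x : M} (hx : Transcendental ℂ x) : x ≠ 0 := by
  simpa using elconst_ne hx 0

theorem elconst_y {l : ℂ} {x y : M} (hx : Transcendental ℂ x)
    (hy : y ^ 2 = x * (x - 1) * (x - algebraMap ℂ M l)) : y ≠ 0 := by
  rintro rfl
  have h1 : x - 1 ≠ 0 := sub_ne_zero.2 (by simpa using elconst_ne hx 1)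
  have h2 : x - algebraMap ℂ M l ≠ 0 := sub_ne_zero.2 (elconst_ne hx l)
  exact mul_ne_zero (mul_ne_zero (elconst_ne0 hx) h1) h2 (by rw [← hy]; ring)

omit [Algebra ℂ M] in
theorem elconst_d1 {L x y : M} (δ : Derivation ℤ M M) (hL : δ L = 0)
    (hy : y ^ 2 = x * (x - 1) * (x - L)) :
    2 * y * δ y = (3 * x ^ 2 - 2 * (1 + L) * x + L) * δ x := by
  have h := congrArg δ hy
  rw [pow_two] at h
  simp only [Derivation.leibniz, map_sub, hL, Derivation.map_one_eq_zero, smul_eq_mul] at h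
  linear_combination h

omit [Algebra ℂ M] in
theorem elconst_d2 {L u w : M} (δ : Derivation ℤ M M) (hL : δ L = 0)
    (hy : w ^ 2 = u * (1 - u) * (1 - L * u)) :
    2 * w * δ w = (1 - 2 * (1 + L) * u + 3 * L * u ^ 2) * δ u := by
  have h := congrArg δ hy
  rw [pow_two] at h
  simp only [Derivation.leibniz, map_sub, hL, Derivation.map_one_eq_zero, smul_eq_mul] at h
  linear_combination h

omit [Algebra ℂ M] in
theorem elconst_inv {L x y : M} (hx : x ≠ 0) (hy : y ^ 2 = x * (x - 1) * (x - L)) :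
    (y * x⁻¹ ^ 2) ^ 2 = x⁻¹ * (1 - x⁻¹) * (1 - L * x⁻¹) := by
  rw [mul_pow, hy]
  field_simp

omit [Algebra ℂ M] in
theorem elconst_dinv (δ : Derivation ℤ M M) (x : M) : δ x⁻¹ = -(x⁻¹ ^ 2 * δ x) := by
  rw [Derivation.leibniz_inv, smul_eq_mul, neg_mul]

theorem elconst_half (P : Place M ℂ) (hP : ∀ a : ℂ, P.To (algebraMap ℂ M a) a) :
    (2 : M)⁻¹ ∈ P.O := by
  have h := (hP 2⁻¹).mem
  rwa [map_inv₀, map_ofNat] at h

omit [Algebra ℂ M] in
theorem elconst_two (P : Place M ℂ) : P.To 2 2 := by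
  have h := Place.to_natCast (P := P) 2
  simpa using h

omit [Algebra ℂ M] in
theorem elconst_three (P : Place M ℂ) : P.To 3 3 := by
  have h := Place.to_natCast (P := P) 3
  simpa using h

/-- The invariant derivation preserves every local ring of the function field. -/
theorem elconst_pres {l : ℂ} (l0 : l ≠ 0) (l1 : l ≠ 1) {x y : M}
    (hx : Transcendental ℂ x) (hy : y ^ 2 = x * (x - 1) * (x - algebraMap ℂ M l))
    (δ : Derivation ℤ M M) (h0 : ∀ a : ℂ, δ (algebraMap ℂ M a) = 0) (hδ : δ x = y)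
    (P : Place M ℂ) (hP : ∀ a : ℂ, P.To (algebraMap ℂ M a) a) {z : M}
    (hz : z ∈ IntermediateField.adjoin ℂ {x, y}) (hzO : z ∈ P.O) : δ z ∈ P.O := by
  have : CharZero M := charZero_of_injective_algebraMap (algebraMap ℂ M).injective
  have y0 := elconst_y hx hy
  have x0 := elconst_ne0 hx
  have hh := elconst_half P hP
  rcases P.to_or x with ⟨s, hs⟩ | ⟨-, hu⟩
  · obtain ⟨t, ht, -⟩ := Place.To.of_pow two_ne_zero
      (((hs.mul (hs.sub Place.to_one)).mul (hs.sub (hP l))).congr hy.symm rfl)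
    obtain ⟨e1, e2⟩ := elconst_sep (k := 1) (a := 0) (b := 1) (c := l) one_ne_zero zero_ne_one
      l0.symm l1.symm
    refine pres P hP _ e1 e2 hx ?_ hs.mem δ h0 (hδ ▸ ht.mem) ?_ hz hzO
    · rw [hy]; simp
    · have h := elconst_d1 δ (h0 l) hy
      rw [hδ] at h
      have h' : δ y = (3 * x ^ 2 - 2 * (1 + algebraMap ℂ M l) * x + algebraMap ℂ M l) * 2⁻¹ := by
        apply mul_left_cancel₀ y0
        have h2 : (2 : M) * 2⁻¹ = 1 := mul_inv_cancel₀ two_ne_zero
        linear_combination (2⁻¹ : M) * h - y * δ y * h2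
      rw [h']
      exact P.O.mul_mem (((((elconst_three P).mul (hs.pow 2)).sub
        (((elconst_two P).mul (Place.to_one.add (hP l))).mul hs)).add (hP l)).mem) hh
  · have hw := elconst_inv x0 hy
    have w0 : y * x⁻¹ ^ 2 ≠ 0 := mul_ne_zero y0 (pow_ne_zero _ (inv_ne_zero x0))
    obtain ⟨t, ht, -⟩ := Place.To.of_pow two_ne_zero
      (((hu.mul (Place.to_one.sub hu)).mul (Place.to_one.sub ((hP l).mul hu))).congr hw.symm rfl)
    obtain ⟨e1, e2⟩ := elconst_sep (k := l) (a := 0) (b := 1) (c := l⁻¹) l0 zero_ne_one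
      (inv_ne_zero l0).symm (fun h => l1 (inv_eq_one.1 h.symm))
    have hdu : δ x⁻¹ = -(y * x⁻¹ ^ 2) := by rw [elconst_dinv, hδ, mul_comm]
    have hL : algebraMap ℂ M l ≠ 0 := (_root_.map_ne_zero _).2 l0
    refine pres P hP _ e1 e2 (u := x⁻¹) (w := y * x⁻¹ ^ 2)
      (fun h => hx (IsAlgebraic.inv_iff.1 h)) ?_ hu.mem δ h0 (hdu ▸ ht.neg.mem) ?_ ?_ hzO
    · rw [hw]
      simp only [map_mul, map_sub, aeval_C, aeval_X, map_zero, map_one, map_inv₀]
      field_simp
      ring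
    · have h := elconst_d2 δ (h0 l) hw
      rw [hdu] at h
      have h' : δ (y * x⁻¹ ^ 2) = -(1 - 2 * (1 + algebraMap ℂ M l) * x⁻¹
          + 3 * algebraMap ℂ M l * x⁻¹ ^ 2) * 2⁻¹ := by
        apply mul_left_cancel₀ w0
        have h2 : (2 : M) * 2⁻¹ = 1 := mul_inv_cancel₀ two_ne_zero
        linear_combination (2⁻¹ : M) * h - (y * x⁻¹ ^ 2) * δ (y * x⁻¹ ^ 2) * h2
      rw [h']
      exact P.O.mul_mem (((Place.to_one.sub (((elconst_two P).mul
        (Place.to_one.add (hP l))).mul hu)).add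
        (((elconst_three P).mul (hP l)).mul (hu.pow 2))).neg.mem) hh
    · refine (IntermediateField.adjoin_le_iff.2 ?_ :
        IntermediateField.adjoin ℂ {x, y} ≤ IntermediateField.adjoin ℂ {x⁻¹, y * x⁻¹ ^ 2}) hz
      have hu' : x⁻¹ ∈ IntermediateField.adjoin ℂ {x⁻¹, y * x⁻¹ ^ 2} :=
        IntermediateField.subset_adjoin _ _ (by simp)
      have hw' : y * x⁻¹ ^ 2 ∈ IntermediateField.adjoin ℂ {x⁻¹, y * x⁻¹ ^ 2} :=
        IntermediateField.subset_adjoin _ _ (by simp)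
      have hx' : x ∈ IntermediateField.adjoin ℂ {x⁻¹, y * x⁻¹ ^ 2} := by
        have := inv_mem hu'
        rwa [inv_inv] at this
      rintro v (rfl | rfl)
      · exact hx'
      · have e : v = v * x⁻¹ ^ 2 * x ^ 2 := by field_simp
        have := mul_mem hw' (pow_mem hx' 2)
        rwa [← e] at this

/-- The pull-back of the invariant differential is a constant multiple of the invariant
differential. -/
theorem iso_const {l μ : ℂ} (l0 : l ≠ 0) (l1 : l ≠ 1) (m0 : μ ≠ 0) (m1 : μ ≠ 1) {x y ξ η : M}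
    (hx : Transcendental ℂ x) (hy : y ^ 2 = x * (x - 1) * (x - algebraMap ℂ M l))
    (hξ : Transcendental ℂ ξ) (hη : η ^ 2 = ξ * (ξ - 1) * (ξ - algebraMap ℂ M μ))
    (h1 : ξ ∈ IntermediateField.adjoin ℂ {x, y}) (h2 : η ∈ IntermediateField.adjoin ℂ {x, y})
    (δ : Derivation ℤ M M) (h0 : ∀ a : ℂ, δ (algebraMap ℂ M a) = 0) (hδ : δ x = y) :
    ∃ c : ℂ, δ ξ = algebraMap ℂ M c * η := by
  have η0 := elconst_y hξ hη
  have ξ0 := elconst_ne0 hξ
  by_contra hne
  have hc : ∀ a : ℂ, δ ξ * η⁻¹ ≠ algebraMap ℂ M a := fun a h =>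
    hne ⟨a, by rw [← h, inv_mul_cancel_right₀ η0]⟩
  obtain ⟨P, hP, hcO⟩ := exists_pole hc
  have hp : ∀ z ∈ IntermediateField.adjoin ℂ {x, y}, z ∈ P.O → δ z ∈ P.O := fun z hz hzO =>
    elconst_pres l0 l1 hx hy δ h0 hδ P hP hz hzO
  apply hcO
  rcases P.to_or ξ with ⟨s, hs⟩ | ⟨-, hu⟩
  · obtain ⟨t, ht, hts⟩ := Place.To.of_pow two_ne_zero
      (((hs.mul (hs.sub Place.to_one)).mul (hs.sub (hP μ))).congr hη.symm rfl)
    by_cases t0 : t = 0
    · have hq := (((elconst_three P).mul (hs.pow 2)).sub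
        (((elconst_two P).mul (Place.to_one.add (hP μ))).mul hs)).add (hP μ)
      have hq0 : 3 * s ^ 2 - 2 * (1 + μ) * s + μ ≠ 0 := by
        rw [t0, zero_pow two_ne_zero] at hts
        rcases mul_eq_zero.1 hts.symm with h | h
        · rcases mul_eq_zero.1 h with h | h
          · rw [h]; simpa using m0
          · rw [sub_eq_zero.1 h]
            intro h'
            exact m1 (by linear_combination -h')
        · rw [sub_eq_zero.1 h]
          intro h'
          exact mul_ne_zero m0 (sub_ne_zero.2 m1) (by linear_combination h')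
      have hQ := hq.ne_zero hq0
      have h := elconst_d1 δ (h0 μ) hη
      have e : δ ξ * η⁻¹ = 2 * δ η *
          (3 * ξ ^ 2 - 2 * (1 + algebraMap ℂ M μ) * ξ + algebraMap ℂ M μ)⁻¹ := by
        rw [← div_eq_mul_inv, ← div_eq_mul_inv, div_eq_div_iff η0 hQ]
        linear_combination -h
      rw [e]
      exact P.O.mul_mem (P.O.mul_mem (elconst_two P).mem (hp _ h2 ht.mem)) (hq.inv hq0).mem
    · exact P.O.mul_mem (hp _ h1 hs.mem) (ht.inv t0).mem
  · have hw := elconst_inv ξ0 hη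
    obtain ⟨t, ht, -⟩ := Place.To.of_pow two_ne_zero
      (((hu.mul (Place.to_one.sub hu)).mul (Place.to_one.sub ((hP μ).mul hu))).congr hw.symm rfl)
    have hq := (Place.to_one.sub (((elconst_two P).mul (Place.to_one.add (hP μ))).mul hu)).add
      (((elconst_three P).mul (hP μ)).mul (hu.pow 2))
    have hq0 : (1 : ℂ) - 2 * (1 + μ) * 0 + 3 * μ * 0 ^ 2 ≠ 0 := by simp
    have hQ := hq.ne_zero hq0
    have h := elconst_d2 δ (h0 μ) hw
    rw [elconst_dinv] at h
    have u0 : ξ⁻¹ ^ 2 ≠ 0 := pow_ne_zero _ (inv_ne_zero ξ0)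
    have e : δ ξ * η⁻¹ = -(2 * δ (η * ξ⁻¹ ^ 2)) *
        (1 - 2 * (1 + algebraMap ℂ M μ) * ξ⁻¹ + 3 * algebraMap ℂ M μ * ξ⁻¹ ^ 2)⁻¹ := by
      rw [← div_eq_mul_inv, ← div_eq_mul_inv, div_eq_div_iff η0 hQ]
      apply mul_left_cancel₀ u0
      linear_combination h
    rw [e]
    exact P.O.mul_mem (P.O.neg_mem (P.O.mul_mem (elconst_two P).mem
      (hp _ (mul_mem h2 (pow_mem (inv_mem h1) 2)) ht.mem))) (hq.inv hq0).mem

end Pool.Agent.P.MP_3c83d0_ag
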