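import Pool.Agent.P.MP_3c83d0_ag.Lin

/-! Places of fields (specialisations) and the Legendre cubic. -/

open MvPolynomial

namespace Pool.Agent.P.MP_3c83d0_ag

/-- A place of the field `L` with values in the field `Ω`. -/
structure Place (L Ω : Type) [Field L] [Field Ω] where
  O : Subring L
  ev : O →+* Ω
  tot : ∀ x : L, x ∈ O ∨ x⁻¹ ∈ O
  inv : ∀ x : O, ev x ≠ 0 → (x : L)⁻¹ ∈ O

/-- The vector `v` lies on the cone over the Legendre cubic with parameter `μ`. -/
def OnC (μ : ℂ) (v : Fin 3 → ℂ) : Prop := v 1 ^ 2 * v 2 = v 0 * (v 0 - v 2) * (v 0 - μ * v 2)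

namespace Place

variable {L Ω : Type} [Field L] [Field Ω]

/-- `x` is finite at the place and has the value `y`. -/
def To (P : Place L Ω) (x : L) (y : Ω) : Prop := ∃ h : x ∈ P.O, P.ev ⟨x, h⟩ = y

/-- Coefficientwise specialisation of polynomials. -/
def TP (P : Place L Ω) {σ : Type} (F : MvPolynomial σ L) (G : MvPolynomial σ Ω) : Prop :=
  ∃ H : MvPolynomial σ P.O, map P.O.subtype H = F ∧ map P.ev H = G

/-- The place `Q` extends the place `P` of the complex numbers. -/
def Over [Algebra ℂ L] [Algebra ℂ Ω] (P : Place ℂ ℂ) (Q : Place L Ω) : Prop :=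
  ∀ a b, P.To a b → Q.To (algebraMap ℂ L a) (algebraMap ℂ Ω b)

variable {P : Place L Ω} {x x' : L} {y y' : Ω}

theorem To.mem (h : P.To x y) : x ∈ P.O := h.1

theorem to_of_mem (h : x ∈ P.O) : ∃ y, P.To x y := ⟨_, h, rfl⟩

theorem to_coe (a : P.O) : P.To (a : L) (P.ev a) := ⟨a.2, rfl⟩

theorem To.uniq (h : P.To x y) (h' : P.To x y') : y = y' := by
  obtain ⟨_, rfl⟩ := h
  obtain ⟨_, rfl⟩ := h'
  rfl

theorem to_zero : P.To 0 0 := ⟨P.O.zero_mem, map_zero P.ev⟩

theorem to_one : P.To 1 1 := ⟨P.O.one_mem, map_one P.ev⟩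

theorem To.add (h : P.To x y) (h' : P.To x' y') : P.To (x + x') (y + y') := by
  obtain ⟨a, rfl⟩ := h
  obtain ⟨b, rfl⟩ := h'
  exact ⟨P.O.add_mem a b, map_add P.ev ⟨x, a⟩ ⟨x', b⟩⟩

theorem To.mul (h : P.To x y) (h' : P.To x' y') : P.To (x * x') (y * y') := by
  obtain ⟨a, rfl⟩ := h
  obtain ⟨b, rfl⟩ := h'
  exact ⟨P.O.mul_mem a b, map_mul P.ev ⟨x, a⟩ ⟨x', b⟩⟩

theorem To.neg (h : P.To x y) : P.To (-x) (-y) := by
  obtain ⟨a, rfl⟩ := h
  exact ⟨P.O.neg_mem a, map_neg P.ev ⟨x, a⟩⟩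

theorem To.sub (h : P.To x y) (h' : P.To x' y') : P.To (x - x') (y - y') := by
  rw [sub_eq_add_neg, sub_eq_add_neg]
  exact h.add h'.neg

theorem To.pow (h : P.To x y) (n : ℕ) : P.To (x ^ n) (y ^ n) := by
  induction n with
  | zero => rw [pow_zero, pow_zero]; exact to_one
  | succ n ih => rw [pow_succ, pow_succ]; exact ih.mul h

theorem To.ne_zero (h : P.To x y) (hy : y ≠ 0) : x ≠ 0 := by
  rintro rfl
  exact hy (h.uniq to_zero)

theorem To.inv (h : P.To x y) (hy : y ≠ 0) : P.To x⁻¹ y⁻¹ := by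
  have hx := h.ne_zero hy
  obtain ⟨a, rfl⟩ := h
  obtain ⟨z, hz⟩ := to_of_mem (P.inv ⟨x, a⟩ hy)
  have h1 := (to_coe (P := P) ⟨x, a⟩).mul hz
  rw [mul_inv_cancel₀ hx] at h1
  rwa [eq_inv_of_mul_eq_one_right (h1.uniq to_one)] at hz

theorem To.div (h : P.To x y) (h' : P.To x' y') (hy : y' ≠ 0) : P.To (x / x') (y / y') := by
  rw [div_eq_mul_inv, div_eq_mul_inv]
  exact h.mul (h'.inv hy)

theorem To.congr (h : P.To x y) (e : x = x') (e' : y = y') : P.To x' y' := e ▸ e' ▸ h

theorem to_sum {κ : Type*} (s : Finset κ) {f : κ → L} {g : κ → Ω}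
    (h : ∀ i ∈ s, P.To (f i) (g i)) : P.To (∑ i ∈ s, f i) (∑ i ∈ s, g i) := by
  classical
  induction s using Finset.induction_on with
  | empty => simpa using to_zero
  | insert a s ha ih =>
    rw [Finset.sum_insert ha, Finset.sum_insert ha]
    exact (h a (Finset.mem_insert_self _ _)).add (ih fun i hi => h i (Finset.mem_insert_of_mem hi))

theorem to_prod {κ : Type*} (s : Finset κ) {f : κ → L} {g : κ → Ω}
    (h : ∀ i ∈ s, P.To (f i) (g i)) : P.To (∏ i ∈ s, f i) (∏ i ∈ s, g i) := by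
  classical
  induction s using Finset.induction_on with
  | empty => simpa using to_one
  | insert a s ha ih =>
    rw [Finset.prod_insert ha, Finset.prod_insert ha]
    exact (h a (Finset.mem_insert_self _ _)).mul (ih fun i hi => h i (Finset.mem_insert_of_mem hi))

theorem to_natCast (n : ℕ) : P.To (n : L) (n : Ω) := by
  induction n with
  | zero => simpa using to_zero
  | succ n ih => push_cast; exact ih.add to_one

theorem to_intCast (n : ℤ) : P.To (n : L) (n : Ω) := by
  obtain ⟨m, rfl | rfl⟩ := n.eq_nat_or_neg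
  · simpa using to_natCast m
  · simpa using (to_natCast m).neg

theorem to_ratCast [CharZero L] [CharZero Ω] (q : ℚ) : P.To (q : L) (q : Ω) := by
  rw [Rat.cast_def, Rat.cast_def]
  exact (to_intCast _).div (to_natCast _) (Nat.cast_ne_zero.2 q.den_nz)

/-- An element with a pole is not finite. -/
theorem not_to_of_inv (h : P.To x⁻¹ 0) (hx : x ≠ 0) (y : Ω) : ¬P.To x y := fun h' => by
  have h1 := h'.mul h
  rw [mul_inv_cancel₀ hx, mul_zero] at h1
  exact one_ne_zero (to_one.uniq h1)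

/-- Every element is finite or has a pole. -/
theorem to_or (P : Place L Ω) (x : L) : (∃ y, P.To x y) ∨ (x ≠ 0 ∧ P.To x⁻¹ 0) := by
  by_cases hx : x ∈ P.O
  · exact Or.inl (to_of_mem hx)
  · have h1 := (P.tot x).resolve_left hx
    refine Or.inr ⟨fun h => hx (h ▸ P.O.zero_mem), h1, ?_⟩
    by_contra h
    exact hx (by simpa using P.inv ⟨x⁻¹, h1⟩ h)

theorem To.of_pow {n : ℕ} (hn : n ≠ 0) (h : P.To (x ^ n) y) : ∃ t, P.To x t ∧ t ^ n = y := by
  rcases P.to_or x with ⟨t, ht⟩ | ⟨hx, h0⟩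
  · exact ⟨t, ht, (ht.pow n).uniq h⟩
  · have h1 := h0.pow n
    rw [zero_pow hn, inv_pow] at h1
    exact absurd h (not_to_of_inv h1 (pow_ne_zero _ hx) _)

/-- Among finitely many elements, not all zero, one has maximal size. -/
theorem exists_max (P : Place L Ω) {κ : Type*} (s : Finset κ) (f : κ → L) (h : ∃ i ∈ s, f i ≠ 0) :
    ∃ i ∈ s, f i ≠ 0 ∧ ∀ j ∈ s, f j / f i ∈ P.O := by
  classical
  induction s using Finset.induction_on with
  | empty => simp at h
  | insert a s ha ih =>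
    by_cases hs : ∃ i ∈ s, f i ≠ 0
    · obtain ⟨i, hi, hi0, hm⟩ := ih hs
      by_cases h1 : f a / f i ∈ P.O
      · refine ⟨i, Finset.mem_insert_of_mem hi, hi0, fun j hj => ?_⟩
        rcases Finset.mem_insert.1 hj with rfl | hj
        · exact h1
        · exact hm j hj
      · have h2 := (P.tot _).resolve_left h1
        have ha0 : f a ≠ 0 := fun h => h1 (by rw [h, zero_div]; exact P.O.zero_mem)
        refine ⟨a, Finset.mem_insert_self _ _, ha0, fun j hj => ?_⟩
        rcases Finset.mem_insert.1 hj with rfl | hj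
        · rw [div_self ha0]; exact P.O.one_mem
        · have : f j / f a = f j / f i * (f a / f i)⁻¹ := by field_simp
          rw [this]
          exact P.O.mul_mem (hm j hj) h2
    · obtain ⟨i, hi, hi0⟩ := h
      rcases Finset.mem_insert.1 hi with rfl | hi
      · refine ⟨i, Finset.mem_insert_self _ _, hi0, fun j hj => ?_⟩
        rcases Finset.mem_insert.1 hj with rfl | hj
        · rw [div_self hi0]; exact P.O.one_mem
        · have : f j = 0 := by_contra fun h => hs ⟨j, hj, h⟩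
          rw [this, zero_div]; exact P.O.zero_mem
      · exact absurd ⟨i, hi, hi0⟩ hs

variable [Algebra ℂ L] [Algebra ℂ Ω]

/-- Values of constants under an extension of a place. -/
theorem Over.range {P : Place ℂ ℂ} {Q : Place L Ω} (h : P.Over Q) {a : ℂ} {u : Ω}
    (hu : Q.To (algebraMap ℂ L a) u) : ∃ b, P.To a b ∧ u = algebraMap ℂ Ω b := by
  rcases P.to_or a with ⟨b, hb⟩ | ⟨ha, h0⟩
  · exact ⟨b, hb, hu.uniq (h a b hb)⟩
  · have h1 := h _ _ h0
    rw [map_inv₀, map_zero] at h1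
    exact absurd hu (not_to_of_inv h1 ((map_ne_zero _).2 ha) _)

/-- Polynomials at a place that fixes the constants. -/
theorem To.aeval (hP : ∀ a : ℂ, P.To (algebraMap ℂ L a) (algebraMap ℂ Ω a)) (h : P.To x y)
    (p : Polynomial ℂ) : P.To (Polynomial.aeval x p) (Polynomial.aeval y p) := by
  induction p using Polynomial.induction_on' with
  | add p q hp hq => rw [map_add, map_add]; exact hp.add hq
  | monomial n a =>
    rw [Polynomial.aeval_monomial, Polynomial.aeval_monomial]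
    exact (hP a).mul (h.pow n)

end Place

end Pool.Agent.P.MP_3c83d0_ag
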