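import Pool.Agent.P.MP_3c83d0_ag.ElDefs
import Pool.Agent.P.MP_3c83d0_ag.Der

open Polynomial

namespace Pool.Agent.P.MP_3c83d0_ag

variable {M : Type} [Field M] [Algebra ℂ M]

/-- The ring homomorphism into the dual numbers attached to a derivation of the constants. -/
noncomputable def elder_hom (d : Derivation ℤ ℂ ℂ) : ℂ →+* TrivSqZeroExt M M where
  toFun a := TrivSqZeroExt.inl (algebraMap ℂ M a) + TrivSqZeroExt.inr (algebraMap ℂ M (d a))
  map_one' := by ext <;> simp
  map_mul' a b := by ext <;> simp [mul_comm, -DualNumber.inr_eq_smul_eps]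
  map_zero' := by ext <;> simp
  map_add' a b := by ext <;> simp [-DualNumber.inr_eq_smul_eps]

open scoped IntermediateField.algebraAdjoinAdjoin in
theorem elder_basis (d : Derivation ℤ ℂ ℂ) {τ : Type} (b : τ → M)
    (hb : IsTranscendenceBasis ℂ b) (v : τ → M) :
    ∃ D : Derivation ℤ M M, (∀ a : ℂ, D (algebraMap ℂ M a) = algebraMap ℂ M (d a)) ∧
      ∀ t, D (b t) = v t := by
  have : CharZero M := charZero_of_injective_algebraMap (algebraMap ℂ M).injective
  let e := hb.1.aevalEquiv
  let φ : MvPolynomial τ ℂ →+* TrivSqZeroExt M M := MvPolynomial.eval₂Hom (elder_hom d)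
    fun t => TrivSqZeroExt.inl (b t) + TrivSqZeroExt.inr (v t)
  have hφ : ∀ p, (φ p).fst = MvPolynomial.aeval b p := fun p => by
    induction p using MvPolynomial.induction_on with
    | C a => simp [φ, elder_hom]
    | add p q hp hq => rw [map_add, map_add, TrivSqZeroExt.fst_add, hp, hq]
    | mul_X p t hp => rw [map_mul, map_mul, TrivSqZeroExt.fst_mul, hp]; simp [φ]
  have he : ∀ x : Algebra.adjoin ℂ (Set.range b), (φ (e.symm x)).fst = (x : M) := fun x => by
    rw [hφ, ← hb.1.algebraMap_aevalEquiv]
    exact congrArg _ (e.apply_symm_apply x)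
  let L : Algebra.adjoin ℂ (Set.range b) →+ M :=
    AddMonoidHom.mk' (fun x => (φ (e.symm x)).snd) fun x y => by
      rw [map_add, map_add, TrivSqZeroExt.snd_add]
  let D₀ : Derivation ℤ (Algebra.adjoin ℂ (Set.range b)) M :=
    Derivation.mk' L.toIntLinearMap fun x y => by
      change (φ (e.symm (x * y))).snd =
        (x : M) * (φ (e.symm y)).snd + (y : M) * (φ (e.symm x)).snd
      rw [map_mul, map_mul, TrivSqZeroExt.snd_mul, he, he]
      simp [mul_comm]
  have : Algebra.FormallyEtale (Algebra.adjoin ℂ (Set.range b))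
      (IntermediateField.adjoin ℂ (Set.range b)) :=
    .of_isLocalization (nonZeroDivisors _)
  have := hb.isAlgebraic_field
  have : Algebra.FormallyEtale (IntermediateField.adjoin ℂ (Set.range b)) M :=
    Algebra.FormallyEtale.of_isSeparable _ M
  have : Algebra.FormallyEtale (Algebra.adjoin ℂ (Set.range b)) M :=
    .comp _ (IntermediateField.adjoin ℂ (Set.range b)) _
  obtain ⟨D, hD⟩ := der_extend D₀
  have key : ∀ p, D (MvPolynomial.aeval b p) = (φ p).snd := fun p => by
    have h1 := hD (e p)
    rw [hb.1.algebraMap_aevalEquiv] at h1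
    change _ = (φ (e.symm (e p))).snd at h1
    rwa [e.symm_apply_apply] at h1
  refine ⟨D, fun a => ?_, fun t => ?_⟩
  · simpa [φ, elder_hom, -DualNumber.inr_eq_smul_eps] using key (MvPolynomial.C a)
  · simpa [φ] using key (MvPolynomial.X t)

/-- Extension of a derivation of the constants with a prescribed value at a transcendental
element. -/
theorem der_ext (d : Derivation ℤ ℂ ℂ) {x : M} (hx : Transcendental ℂ x) (u : M) :
    ∃ D : Derivation ℤ M M, (∀ a : ℂ, D (algebraMap ℂ M a) = algebraMap ℂ M (d a)) ∧ D x = u := by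
  have h1 : AlgebraicIndependent ℂ (fun _ : Unit => x) :=
    algebraicIndependent_unique_type_iff.2 hx
  obtain ⟨B, hB, hb⟩ := exists_isTranscendenceBasis_superset (R := ℂ)
    (s := Set.range fun _ : Unit => x) h1.to_subtype_range
  obtain ⟨D, h2, h3⟩ := elder_basis d _ hb fun _ : B => u
  exact ⟨D, h2, h3 ⟨x, hB ⟨(), rfl⟩⟩⟩

theorem elder_aeval {K N : Type} [Field K] [Field N] [Algebra K N] (D : Derivation ℤ N N)
    (h0 : ∀ a : K, D (algebraMap K N a) = 0) (x : N) (p : K[X]) :
    D (aeval x p) = aeval x (derivative p) * D x := by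
  induction p using Polynomial.induction_on' with
  | add p q hp hq => simp only [map_add, hp, hq, add_mul]
  | monomial n a =>
    rw [aeval_monomial, Derivation.leibniz, h0, Derivation.leibniz_pow, derivative_monomial,
      aeval_monomial]
    simp only [smul_eq_mul, nsmul_eq_mul, map_mul, map_natCast]
    ring

theorem elder_alg {K N : Type} [Field K] [CharZero K] [Field N] [Algebra K N]
    (D : Derivation ℤ N N) (h0 : ∀ a : K, D (algebraMap K N a) = 0) {w : N}
    (hw : IsAlgebraic K w) : D w = 0 := by
  have h1 := elder_aeval D h0 w (minpoly K w)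
  rw [minpoly.aeval, map_zero] at h1
  have h2 : (minpoly K w).Separable := (minpoly.irreducible hw.isIntegral).separable
  exact (mul_eq_zero.1 h1.symm).resolve_left (h2.aeval_derivative_ne_zero (minpoly.aeval K w))

theorem der_aeval (D : Derivation ℤ M M) (h0 : ∀ a : ℂ, D (algebraMap ℂ M a) = 0) (x : M)
    (p : ℂ[X]) : D (aeval x p) = aeval x (derivative p) * D x :=
  elder_aeval D h0 x p

/-- A derivation that kills a subfield kills the elements that are algebraic over it. -/
theorem der_alg (D : Derivation ℤ M M) (K : IntermediateField ℂ M) (hK : ∀ z ∈ K, D z = 0)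
    {w : M} (hw : IsAlgebraic K w) : D w = 0 := by
  have : CharZero K := charZero_of_injective_algebraMap (algebraMap ℂ K).injective
  exact elder_alg (K := K) D (fun a => hK a a.2) hw

theorem der_adjoin (D : Derivation ℤ M M) (h0 : ∀ a : ℂ, D (algebraMap ℂ M a) = 0) (s : Set M)
    (hs : ∀ z ∈ s, D z = 0) : ∀ z ∈ IntermediateField.adjoin ℂ s, D z = 0 := by
  intro z hz
  induction hz using IntermediateField.adjoin_induction with
  | mem x hx => exact hs x hx
  | algebraMap a => exact h0 a
  | add x y _ _ hx hy => rw [map_add, hx, hy, add_zero]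
  | inv x _ hx => rw [Derivation.leibniz_inv, hx, smul_zero]
  | mul x y _ _ hx hy => rw [Derivation.leibniz, hx, hy, smul_zero, smul_zero, add_zero]

theorem der_algebraic (d : Derivation ℤ ℂ ℂ) {l : ℂ} (hl : IsAlgebraic ℚ l) : d l = 0 := by
  refine elder_alg d (fun a => ?_) hl
  rw [eq_ratCast, Rat.cast_def, Derivation.leibniz_div]
  simp

end Pool.Agent.P.MP_3c83d0_ag
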