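import Pool.Agent.P.MP_3c83d0_ag.ElDefs

open MvPolynomial

namespace Pool.Agent.P.MP_3c83d0_ag

/-- Elimination of one variable from two coprime polynomials. -/
theorem elim_one {R : Type} [CommRing R] [IsDomain R] [UniqueFactorizationMonoid R]
    {Φ Ψ : Polynomial R} (hΦ : Irreducible Φ) (hd : 0 < Φ.natDegree) (h : ¬Φ ∣ Ψ) :
    ∃ r : R, r ≠ 0 ∧ Polynomial.C r ∈ Ideal.span {Φ, Ψ} := by
  have hp : Φ.IsPrimitive := hΦ.isPrimitive hd.ne'
  have hi : Irreducible (Φ.map (algebraMap R (FractionRing R))) :=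
    (hp.irreducible_iff_irreducible_map_fraction_map (K := FractionRing R)).1 hΦ
  have hn : ¬Φ.map (algebraMap R (FractionRing R)) ∣ Ψ.map (algebraMap R (FractionRing R)) :=
    fun hh => h (hp.dvd_of_fraction_map_dvd_fraction_map hh)
  obtain ⟨a, b, hab⟩ := hi.coprime_iff_not_dvd.2 hn
  obtain ⟨s, hs, ha⟩ := IsLocalization.integerNormalization_spec (nonZeroDivisors R) a
  obtain ⟨t, ht, hb⟩ := IsLocalization.integerNormalization_spec (nonZeroDivisors R) b
  refine ⟨s * t, mul_ne_zero (nonZeroDivisors.ne_zero hs) (nonZeroDivisors.ne_zero ht), ?_⟩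
  rw [Ideal.mem_span_pair]
  refine ⟨Polynomial.C t * IsLocalization.integerNormalization (nonZeroDivisors R) a,
    Polynomial.C s * IsLocalization.integerNormalization (nonZeroDivisors R) b, ?_⟩
  apply Polynomial.map_injective (algebraMap R (FractionRing R)) (IsFractionRing.injective R _)
  simp only [Polynomial.map_add, Polynomial.map_mul, Polynomial.map_C, ha, hb, Algebra.smul_def,
    Polynomial.algebraMap_apply, map_mul]
  linear_combination
    (Polynomial.C (algebraMap R (FractionRing R) s) *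
      Polynomial.C (algebraMap R (FractionRing R) t)) * hab

theorem elkerf_scale {σ A : Type} [CommRing A] [Algebra ℂ A] {φ : MvPolynomial σ ℂ} {d : ℕ}
    (hφ : φ.IsHomogeneous d) (c : A) (v : σ → A) :
    aeval (fun i => v i * c) φ = aeval v φ * c ^ d := by
  rw [aeval_def, aeval_def, eval₂_eq, eval₂_eq, Finset.sum_mul]
  refine Finset.sum_congr rfl fun s hs => ?_
  have h1 : ∑ i ∈ s.support, s i = d := by
    have := hφ (mem_support_iff.1 hs)
    simpa [Finsupp.weight_apply, Finsupp.sum] using this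
  simp only [mul_pow, Finset.prod_mul_distrib, Finset.prod_pow_eq_pow_sum, h1, mul_assoc]

theorem elkerf_symm (r : MvPolynomial (Fin 2) ℂ) :
    finSuccEquiv ℂ 2 (rename Fin.succ r) = Polynomial.C r := by
  have : (finSuccEquiv ℂ 2).toAlgHom.comp (rename Fin.succ) =
      (IsScalarTower.toAlgHom ℂ (MvPolynomial (Fin 2) ℂ) (Polynomial (MvPolynomial (Fin 2) ℂ))) := by
    ext1 i
    simp [finSuccEquiv_X_succ]
  exact DFunLike.congr_fun this r

theorem elkerf_core {F H : S} (hirr : Irreducible F) (h : ¬F ∣ H) :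
    ∃ r : MvPolynomial (Fin 2) ℂ, r ≠ 0 ∧ ∃ a b : S, a * F + b * H = rename Fin.succ r := by
  have hi : Irreducible (finSuccEquiv ℂ 2 F) := (MulEquiv.irreducible_iff _).2 hirr
  have hn : ¬finSuccEquiv ℂ 2 F ∣ finSuccEquiv ℂ 2 H := fun hh => h ((map_dvd_iff _).1 hh)
  have key : ∃ r : MvPolynomial (Fin 2) ℂ, r ≠ 0 ∧
      Polynomial.C r ∈ Ideal.span {finSuccEquiv ℂ 2 F, finSuccEquiv ℂ 2 H} := by
    rcases Nat.eq_zero_or_pos (finSuccEquiv ℂ 2 F).natDegree with h0 | h0
    · obtain ⟨r, hr⟩ := Polynomial.natDegree_eq_zero.1 h0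
      refine ⟨r, fun h1 => hi.ne_zero ?_, ?_⟩
      · rw [← hr, h1, map_zero]
      · rw [hr]
        exact Ideal.subset_span (by simp)
    · exact elim_one hi h0 hn
  obtain ⟨r, hr, hm⟩ := key
  obtain ⟨a, b, hab⟩ := Ideal.mem_span_pair.1 hm
  refine ⟨r, hr, (finSuccEquiv ℂ 2).symm a, (finSuccEquiv ℂ 2).symm b, ?_⟩
  apply (finSuccEquiv ℂ 2).injective
  rw [elkerf_symm, ← hab]
  simp

theorem elkerf_inj {r : MvPolynomial (Fin 2) ℂ}
    (h : aeval (![Polynomial.C Polynomial.X * Polynomial.X, Polynomial.X] :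
      Fin 2 → Polynomial (Polynomial ℂ)) r = 0) : r = 0 := by
  have h1 : (X 1 : MvPolynomial (Fin 2) ℂ) * r = 0 := by
    apply MvPolynomial.funext
    intro x
    rw [map_mul, map_zero, eval_X]
    by_cases hx : x 1 = 0
    · rw [hx, zero_mul]
    · have h2 := congrArg (Polynomial.eval₂AlgHom (Polynomial.aeval (x 0 / x 1) :
        Polynomial ℂ →ₐ[ℂ] ℂ) (x 1) fun _ => Commute.all _ _) h
      rw [map_zero, ← AlgHom.comp_apply, comp_aeval] at h2
      have h3 : (fun i => (Polynomial.eval₂AlgHom (Polynomial.aeval (x 0 / x 1) :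
          Polynomial ℂ →ₐ[ℂ] ℂ) (x 1) fun _ => Commute.all _ _)
          ((![Polynomial.C Polynomial.X * Polynomial.X, Polynomial.X] :
            Fin 2 → Polynomial (Polynomial ℂ)) i)) = x := by
        funext i
        fin_cases i
        · simp [hx]
        · simp
      rw [h3] at h2
      rw [← coe_aeval_eq_eval]
      simp only [RingHom.coe_coe]
      rw [h2, mul_zero]
  exact (mul_eq_zero.1 h1).resolve_left (X_ne_zero 1)

theorem elkerf_const {L : Type} [Field L] [Algebra ℂ L] {r : MvPolynomial (Fin 2) ℂ} (hr : r ≠ 0)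
    {u : Fin 2 → L} (hu : u 1 ≠ 0)
    (h : aeval (fun i => Polynomial.C (u i) * Polynomial.X : Fin 2 → Polynomial L) r = 0) :
    ∃ c : ℂ, u 0 = u 1 * algebraMap ℂ L c := by
  by_cases ht : IsAlgebraic ℂ (u 0 / u 1)
  · obtain ⟨c, hc⟩ : u 0 / u 1 ∈ (algebraMap ℂ L).range :=
      minpoly.mem_range_of_degree_eq_one ℂ _
        (IsAlgClosed.degree_eq_one_of_irreducible ℂ (minpoly.irreducible ht.isIntegral))
    exact ⟨c, by rw [hc]; field_simp⟩
  · exfalso
    have hinj : Function.Injective (Polynomial.aeval (u 0 / u 1) : Polynomial ℂ →ₐ[ℂ] L) :=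
      transcendental_iff_injective.1 ht
    apply hr
    apply elkerf_inj
    apply Polynomial.map_injective
      ((Polynomial.aeval (u 0 / u 1) : Polynomial ℂ →ₐ[ℂ] L) : Polynomial ℂ →+* L) hinj
    have h2 := congrArg ((Polynomial.aeval (Polynomial.C (u 1)⁻¹ * Polynomial.X) :
      Polynomial L →ₐ[L] Polynomial L).restrictScalars ℂ) h
    rw [map_zero, ← AlgHom.comp_apply, comp_aeval] at h2
    rw [Polynomial.map_zero, ← Polynomial.coe_mapAlgHom, ← AlgHom.comp_apply, comp_aeval, ← h2]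
    congr 2
    funext i
    fin_cases i
    · simp [div_eq_mul_inv, mul_assoc]
    · simp [← mul_assoc, ← Polynomial.C_mul, hu]

theorem elkerf_perm {L : Type} [Field L] [Algebra ℂ L] {F H : S} {d e : ℕ} (hF : F.IsHomogeneous d)
    (hirr : Irreducible F) (hH : H.IsHomogeneous e) {f : Fin 3 → L} (h1 : aeval f F = 0)
    (h2 : aeval f H = 0) (h : ¬F ∣ H) (p : Equiv.Perm (Fin 3)) (hk : f (p 2) ≠ 0) :
    ∃ c : ℂ, f (p 1) = f (p 2) * algebraMap ℂ L c := by
  have hi : Irreducible (renameEquiv ℂ p.symm F) := (MulEquiv.irreducible_iff _).2 hirr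
  have hn : ¬renameEquiv ℂ p.symm F ∣ renameEquiv ℂ p.symm H := fun hh => h ((map_dvd_iff _).1 hh)
  obtain ⟨r, hr, a, b, hab⟩ := elkerf_core hi hn
  have h3 := congrArg
    (aeval (fun i => Polynomial.C (f (p i)) * Polynomial.X : Fin 3 → Polynomial L)) hab
  have h4 : ∀ {G : S} {n : ℕ}, G.IsHomogeneous n → aeval f G = 0 →
      aeval (fun i => Polynomial.C (f (p i)) * Polynomial.X : Fin 3 → Polynomial L)
        (renameEquiv ℂ p.symm G) = 0 := by
    intro G n hG h0
    rw [renameEquiv_apply, aeval_rename]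
    have h5 : ((fun i => Polynomial.C (f (p i)) * Polynomial.X : Fin 3 → Polynomial L) ∘ p.symm) =
        fun i => Polynomial.C (f i) * Polynomial.X := by
      funext i
      simp
    have h6 := comp_aeval_apply (IsScalarTower.toAlgHom ℂ L (Polynomial L)) G (f := f)
    rw [h0, map_zero] at h6
    rw [h5, elkerf_scale hG]
    have h7 : aeval (fun i => Polynomial.C (f i) : Fin 3 → Polynomial L) G = 0 := h6.symm
    rw [h7, zero_mul]
  rw [map_add, map_mul, map_mul, h4 hF h1, h4 hH h2, mul_zero, mul_zero, add_zero,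
    aeval_rename] at h3
  exact elkerf_const hr (u := fun i => f (p i.succ)) hk h3.symm

theorem elkerf_exists : ∀ j k : Fin 3, ¬j = k → ∃ p : Equiv.Perm (Fin 3), p 1 = j ∧ p 2 = k := by
  decide

/-- A nonconstant point of an irreducible plane curve is a generic point. -/
theorem ker_form {L : Type} [Field L] [Algebra ℂ L] {F H : S} {d e : ℕ} (hF : F.IsHomogeneous d)
    (hirr : Irreducible F) (hH : H.IsHomogeneous e) {f : Fin 3 → L} (h1 : aeval f F = 0)
    (h2 : aeval f H = 0)
    (hnc : ¬∃ (u : L) (c : Fin 3 → ℂ), ∀ i, f i = u * algebraMap ℂ L (c i)) : F ∣ H := by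
  by_contra h
  apply hnc
  by_cases h0 : ∀ k, f k = 0
  · exact ⟨0, 0, fun i => by rw [h0 i, zero_mul]⟩
  obtain ⟨k, hk⟩ := not_forall.1 h0
  have key : ∀ j, ∃ c : ℂ, f j = f k * algebraMap ℂ L c := by
    intro j
    by_cases hj : j = k
    · exact ⟨1, by rw [hj, map_one, mul_one]⟩
    obtain ⟨p, hp1, hp2⟩ := elkerf_exists j k hj
    have := elkerf_perm hF hirr hH h1 h2 h p (by rw [hp2]; exact hk)
    rwa [hp1, hp2] at this
  choose c hc using key
  exact ⟨f k, c, hc⟩

end Pool.Agent.P.MP_3c83d0_ag
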