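import Pool.Agent.P.MP_3c83d0_ag.ElPlace
import Pool.Agent.P.MP_3c83d0_ag.ElKerF

open MvPolynomial

namespace Pool.Agent.P.MP_3c83d0_ag

theorem Place.exists_tp {L Ω σ : Type} [Field L] [Field Ω] (P : Place L Ω)
    {F : MvPolynomial σ L} (hF : F ≠ 0) :
    ∃ (c : L) (G : MvPolynomial σ Ω), c ≠ 0 ∧ G ≠ 0 ∧ P.TP (C c * F) G := by
  obtain ⟨s0, hs0, h0, hm⟩ := P.exists_max F.support (fun s => coeff s F)
    (by obtain ⟨s, hs⟩ := support_nonempty.2 hF; exact ⟨s, hs, mem_support_iff.1 hs⟩)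
  have hr : C (coeff s0 F)⁻¹ * F ∈ Set.range (map P.O.subtype : MvPolynomial σ P.O → _) := by
    rw [mem_range_map_iff_coeffs_subset]
    intro c hc
    obtain ⟨s, hs, rfl⟩ := mem_coeffs_iff.1 (Finset.mem_coe.1 hc)
    have hs' : s ∈ F.support := by
      rw [mem_support_iff] at hs ⊢
      intro h
      rw [coeff_C_mul, h, mul_zero] at hs
      exact hs rfl
    refine ⟨⟨_, hm s hs'⟩, ?_⟩
    rw [coeff_C_mul, mul_comm, ← div_eq_mul_inv]
    rfl
  obtain ⟨H, hH⟩ := hr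
  refine ⟨(coeff s0 F)⁻¹, map P.ev H, inv_ne_zero h0, fun hz => ?_, H, hH, rfl⟩
  have h1 : coeff s0 H = 1 := by
    apply Subtype.ext
    have := congrArg (coeff s0) hH
    rw [coeff_map, coeff_C_mul, inv_mul_cancel₀ h0] at this
    exact this
  have h2 := congrArg (coeff s0) hz
  rw [coeff_map, h1, map_one, coeff_zero] at h2
  exact one_ne_zero h2

theorem Place.TP.hom {L Ω σ : Type} [Field L] [Field Ω] {P : Place L Ω}
    {F : MvPolynomial σ L} {G : MvPolynomial σ Ω} (h : P.TP F G) {d : ℕ}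
    (hF : F.IsHomogeneous d) : G.IsHomogeneous d := by
  obtain ⟨H, rfl, rfl⟩ := h
  exact (IsHomogeneous.of_map P.O.subtype_injective hF).map _

theorem Place.TP.mult {σ : Type} {P : Place ℂ ℂ} {F G : MvPolynomial σ ℂ} (h : P.TP F G)
    {p v : σ → ℂ} (hp : ∀ j, P.To (p j) (v j)) {m : ℕ} (hF : F ∈ mx p ^ m) : G ∈ mx v ^ m := by
  obtain ⟨H, rfl, rfl⟩ := h
  let π : σ → P.O := fun j => ⟨p j, (hp j).mem⟩
  have key : ∀ (g : P.O →+* ℂ) (w : σ → ℂ), (∀ j, g (π j) = w j) → ∀ K : MvPolynomial σ P.O,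
      LocX.tr w (map g K) =
        map g (aeval (fun j => (X j + C (π j) : MvPolynomial σ P.O)) K) := by
    intro g w hw K
    induction K using MvPolynomial.induction_on with
    | C c => simp
    | add K K' h1 h2 => simp only [map_add, h1, h2]
    | mul_X K j h1 =>
      rw [map_mul, map_mul, map_mul, map_mul, h1, map_X, LocX.tr_X, aeval_X, map_add, map_X,
        map_C, hw]
  rw [LocX.mem_pow_iff, key P.O.subtype p fun j => rfl, mem_pow_idealOfVars_iff'] at hF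
  rw [LocX.mem_pow_iff, key P.ev v fun j => (hp j).2, mem_pow_idealOfVars_iff']
  intro x hx
  have h1 := hF x hx
  rw [coeff_map] at h1 ⊢
  rw [P.O.subtype_injective (h1.trans (map_zero _).symm), map_zero]

theorem eldom_scale {R A σ : Type} [CommRing R] [CommRing A] (g : R →+* A) {H : MvPolynomial σ R}
    {N : ℕ} (hH : H.IsHomogeneous N) (u : A) (w : σ → A) :
    eval₂ g (fun i => u * w i) H = u ^ N * eval₂ g w H := by
  rw [eval₂_eq, eval₂_eq, Finset.mul_sum]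
  refine Finset.sum_congr rfl fun s hs => ?_
  rw [hH.degree_eq_sum_deg_support hs]
  simp only [mul_pow, Finset.prod_mul_distrib, Finset.prod_pow_eq_pow_sum]
  ring

theorem eldom_homog {R : Type} [CommRing R] (h : MvPolynomial (Fin 3) R) :
    ∃ (N : ℕ) (H : MvPolynomial (Fin 3) R), H.IsHomogeneous N ∧
      ∀ (A : Type) [CommRing A] (g : R →+* A) (w : Fin 3 → A), w 2 = 1 →
        eval₂ g w H = eval₂ g w h := by
  refine ⟨h.totalDegree, ∑ e ∈ Finset.range (h.totalDegree + 1),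
    X 2 ^ (h.totalDegree - e) * homogeneousComponent e h, ?_, ?_⟩
  · refine IsHomogeneous.sum _ _ _ fun e he => ?_
    have h1 := (isHomogeneous_X_pow (R := R) (2 : Fin 3) (h.totalDegree - e)).mul
      (homogeneousComponent_isHomogeneous e h)
    rwa [Nat.sub_add_cancel (Nat.lt_succ_iff.1 (Finset.mem_range.1 he))] at h1
  · intro A _ g w hw
    conv_rhs => rw [← sum_homogeneousComponent h]
    rw [eval₂_sum, eval₂_sum]
    refine Finset.sum_congr rfl fun e _ => ?_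
    rw [eval₂_mul, eval₂_pow, eval₂_X, hw, one_pow, one_mul]

theorem eldom_mul {L Ω σ : Type} [Field L] [Field Ω] {P : Place L Ω}
    {F F' : MvPolynomial σ L} {G G' : MvPolynomial σ Ω} (h : P.TP F G) (h' : P.TP F' G') :
    P.TP (F * F') (G * G') := by
  obtain ⟨H, rfl, rfl⟩ := h
  obtain ⟨H', rfl, rfl⟩ := h'
  exact ⟨H * H', map_mul _ _ _, map_mul _ _ _⟩

theorem eldom_uniq {L Ω σ : Type} [Field L] [Field Ω] {P : Place L Ω}
    {F : MvPolynomial σ L} {G G' : MvPolynomial σ Ω} (h : P.TP F G) (h' : P.TP F G') :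
    G = G' := by
  obtain ⟨H, rfl, rfl⟩ := h
  obtain ⟨H', e, rfl⟩ := h'
  rw [map_injective _ P.O.subtype_injective e]

theorem eldom_C {L Ω σ : Type} [Field L] [Field Ω] {P : Place L Ω} {a : L} {b : Ω}
    (h : P.To a b) : P.TP (C a : MvPolynomial σ L) (C b) := by
  obtain ⟨ha, rfl⟩ := h
  exact ⟨C ⟨a, ha⟩, map_C _ _, map_C _ _⟩

theorem eldom_dvd {σ : Type} {P : Place ℂ ℂ} {F G K K' : MvPolynomial σ ℂ} (hFG : P.TP F G)
    (hG : G ≠ 0) (hK : P.TP K K') (hd : F ∣ K) : G ∣ K' := by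
  obtain ⟨r, rfl⟩ := hd
  by_cases hr : r = 0
  · subst hr
    have h0 : P.TP (F * 0) (0 : MvPolynomial σ ℂ) := ⟨0, by simp, by simp⟩
    rw [eldom_uniq hK h0]
    exact dvd_zero _
  obtain ⟨c, rb, hc, hrb, hT⟩ := P.exists_tp hr
  have h1 := eldom_mul hFG hT
  rcases P.to_or c⁻¹ with ⟨c', hc'⟩ | ⟨-, h0⟩
  · have h2 := eldom_mul (eldom_C (σ := σ) hc') h1
    have e : C c⁻¹ * (F * (C c * r)) = F * r := by
      rw [mul_left_comm F, ← mul_assoc, ← map_mul, inv_mul_cancel₀ hc, map_one, one_mul]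
    rw [e] at h2
    rw [eldom_uniq hK h2]
    exact Dvd.dvd.mul_left (dvd_mul_right _ _) _
  · rw [inv_inv] at h0
    have h2 := eldom_mul (eldom_C (σ := σ) h0) hK
    rw [mul_left_comm, map_zero, zero_mul] at h2
    exact absurd (eldom_uniq h1 h2) (mul_ne_zero hG hrb)

/-- A point of the specialised curve is the value of the generic point at a place. -/
theorem dom {L M : Type} [Field L] [Field M] [Algebra ℂ L] [Algebra ℂ M] [IsAlgClosed M]
    (P : Place ℂ ℂ) {F G : S} {d : ℕ} (hF : F.IsHomogeneous d) (hirr : Irreducible F)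
    (hFG : P.TP F G) (hG : G ≠ 0) {f : Fin 3 → L} (h1 : aeval f F = 0)
    (hnc : ¬∃ (u : L) (c : Fin 3 → ℂ), ∀ i, f i = u * algebraMap ℂ L (c i)) (h2 : f 2 ≠ 0)
    {ξ η : M} (hz : aeval ![ξ, η, 1] G = 0) :
    ∃ Q : Place L M, P.Over Q ∧ Q.To (f 0 / f 2) ξ ∧ Q.To (f 1 / f 2) η := by
  let w : Fin 3 → L := ![f 0 / f 2, f 1 / f 2, 1]
  let g1 : P.O →+* L := (algebraMap ℂ L).comp P.O.subtype
  let g2 : P.O →+* M := (algebraMap ℂ M).comp P.ev
  have hw : f = fun i => f 2 * w i := by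
    funext i
    fin_cases i
    · show f 0 = f 2 * (f 0 / f 2)
      field_simp
    · show f 1 = f 2 * (f 1 / f 2)
      field_simp
    · show f 2 = f 2 * 1
      rw [mul_one]
  obtain ⟨Q, hQ⟩ := exists_place (eval₂Hom g1 w) (eval₂Hom g2 ![ξ, η, 1]) fun h hh => by
    obtain ⟨N, H, hH, he⟩ := eldom_homog h
    rw [coe_eval₂Hom] at hh ⊢
    rw [← he L g1 w rfl] at hh
    rw [← he M g2 ![ξ, η, 1] rfl]
    have h3 : aeval f (map P.O.subtype H) = 0 := by
      rw [aeval_def, eval₂_map, hw]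
      exact (eldom_scale g1 hH (f 2) w).trans (by rw [hh, mul_zero])
    have h4 := ker_form hF hirr (hH.map P.O.subtype) h1 h3 hnc
    obtain ⟨r, hr⟩ := eldom_dvd hFG hG ⟨H, rfl, rfl⟩ h4
    have h5 : aeval ![ξ, η, 1] (map P.ev H) = 0 := by rw [hr, map_mul, hz, zero_mul]
    rwa [aeval_def, eval₂_map] at h5
  refine ⟨Q, ?_, ?_, ?_⟩
  · rintro a b ⟨ha, rfl⟩
    have := hQ (C ⟨a, ha⟩)
    rwa [eval₂Hom_C, eval₂Hom_C] at this
  · have := hQ (X 0)
    rwa [eval₂Hom_X', eval₂Hom_X'] at this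
  · have := hQ (X 1)
    rwa [eval₂Hom_X', eval₂Hom_X'] at this

end Pool.Agent.P.MP_3c83d0_ag
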