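import Pool.Agent.P.MP_3c83d0_ag.ElDefs

open Polynomial

namespace Pool.Agent.P.MP_3c83d0_ag

variable {L M : Type} [Field L] [Field M] [Algebra ℂ L] [Algebra ℂ M]

/-- `g` is a constant times an element with a nonzero value in `K`. -/
def ElResGood (Q : Place L M) (K : IntermediateField ℂ M) (g : L) : Prop :=
  ∃ (k : ℂ) (u : L) (v : M), k ≠ 0 ∧ v ≠ 0 ∧ v ∈ K ∧ Q.To u v ∧ g = algebraMap ℂ L k * u

namespace ElResGood

variable {P : Place ℂ ℂ} {Q : Place L M} {K : IntermediateField ℂ M} {g g' x : L} {τ : M}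

theorem mul (h : ElResGood Q K g) (h' : ElResGood Q K g') : ElResGood Q K (g * g') := by
  obtain ⟨k, u, v, a1, a2, a3, a4, rfl⟩ := h
  obtain ⟨k', u', v', b1, b2, b3, b4, rfl⟩ := h'
  exact ⟨k * k', u * u', v * v', mul_ne_zero a1 b1, mul_ne_zero a2 b2, K.mul_mem a3 b3, a4.mul b4,
    by rw [map_mul]; ring⟩

theorem inv (h : ElResGood Q K g) : ElResGood Q K g⁻¹ := by
  obtain ⟨k, u, v, a1, a2, a3, a4, rfl⟩ := h
  exact ⟨k⁻¹, u⁻¹, v⁻¹, inv_ne_zero a1, inv_ne_zero a2, K.inv_mem a3, a4.inv a2,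
    by rw [map_inv₀, mul_inv]⟩

theorem ne_zero (h : ElResGood Q K g) : g ≠ 0 := by
  obtain ⟨k, u, v, a1, a2, -, a4, rfl⟩ := h
  exact mul_ne_zero ((_root_.map_ne_zero _).2 a1) (a4.ne_zero a2)

theorem const {k : ℂ} (hk : k ≠ 0) : ElResGood Q K (algebraMap ℂ L k) :=
  ⟨k, 1, 1, hk, one_ne_zero, K.one_mem, Place.to_one, (mul_one _).symm⟩

theorem of_to {v : M} (h : Q.To g v) (h0 : v ≠ 0) (hK : v ∈ K) : ElResGood Q K g :=
  ⟨1, g, v, one_ne_zero, h0, hK, h, by simp⟩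

theorem val (hP : P.Over Q) (h : ElResGood Q K g) {z : M} (hz : Q.To g z) : z ∈ K := by
  obtain ⟨k, u, v, -, a2, a3, a4, rfl⟩ := h
  have h1 := hz.div a4 a2
  rw [mul_div_cancel_right₀ _ (a4.ne_zero a2)] at h1
  obtain ⟨b, -, hb⟩ := hP.range h1
  rw [(div_eq_iff a2).1 hb]
  exact K.mul_mem (K.algebraMap_mem b) a3

theorem lin (hP : P.Over Q) (h1 : Q.To x τ) (hτ : Transcendental ℂ τ) (hK : τ ∈ K) (α : ℂ) :
    ElResGood Q K (x - algebraMap ℂ L α) := by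
  rcases P.to_or α with ⟨b, hb⟩ | ⟨ha, h0⟩
  · refine of_to (h1.sub (hP _ _ hb)) (fun h => hτ ?_) (K.sub_mem hK (K.algebraMap_mem b))
    rw [sub_eq_zero.1 h]
    exact isAlgebraic_algebraMap b
  · have h2 := Place.to_one.sub (h1.mul (hP _ _ h0))
    rw [map_zero, mul_zero, sub_zero] at h2
    refine ⟨-α, _, 1, neg_ne_zero.2 ha, one_ne_zero, K.one_mem, h2, ?_⟩
    have : algebraMap ℂ L α ≠ 0 := (_root_.map_ne_zero _).2 ha
    rw [map_neg, map_inv₀]
    field_simp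
    ring

theorem poly (hP : P.Over Q) (h1 : Q.To x τ) (hτ : Transcendental ℂ τ) (hK : τ ∈ K) {p : ℂ[X]}
    (hp : p ≠ 0) : ElResGood Q K (aeval x p) := by
  rw [(IsAlgClosed.splits p).eq_prod_roots, map_mul, aeval_C, map_multiset_prod]
  refine (const (leadingCoeff_ne_zero.2 hp)).mul (Multiset.prod_induction _ _ (fun _ _ => mul)
    (of_to Place.to_one one_ne_zero K.one_mem) fun g hg => ?_)
  obtain ⟨q, hq, rfl⟩ := Multiset.mem_map.1 hg
  obtain ⟨a, -, rfl⟩ := Multiset.mem_map.1 hq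
  rw [map_sub, aeval_X, aeval_C]
  exact lin hP h1 hτ hK a

theorem rat (hP : P.Over Q) (h1 : Q.To x τ) (hτ : Transcendental ℂ τ) (hK : τ ∈ K)
    (hg : g ∈ IntermediateField.adjoin ℂ {x}) (h0 : g ≠ 0) : ElResGood Q K g := by
  obtain ⟨r, s, rfl⟩ := (IntermediateField.mem_adjoin_simple_iff ℂ g).1 hg
  rw [div_eq_mul_inv]
  refine (poly hP h1 hτ hK ?_).mul (poly hP h1 hτ hK ?_).inv
  · rintro rfl
    simp at h0
  · rintro rfl
    simp at h0

/-- Two good elements have a common scale. -/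
theorem scale (hP : P.Over Q) (h : ElResGood Q K g) (h' : ElResGood Q K g') :
    ∃ (k : ℂ) (u u' : L) (v v' : M), k ≠ 0 ∧ (v ≠ 0 ∨ v' ≠ 0) ∧ v ∈ K ∧ v' ∈ K ∧ Q.To u v ∧
      Q.To u' v' ∧ g = algebraMap ℂ L k * u ∧ g' = algebraMap ℂ L k * u' := by
  obtain ⟨k, u, v, a1, a2, a3, a4, rfl⟩ := h
  obtain ⟨k', u', v', b1, b2, b3, b4, rfl⟩ := h'
  have a5 : algebraMap ℂ L k ≠ 0 := (_root_.map_ne_zero _).2 a1
  have b5 : algebraMap ℂ L k' ≠ 0 := (_root_.map_ne_zero _).2 b1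
  rcases P.tot (k / k') with h | h
  · obtain ⟨c, hc⟩ := Place.to_of_mem h
    refine ⟨k', _, u', _, v', b1, Or.inr b2, K.mul_mem (K.algebraMap_mem c) a3, b3,
      (hP _ _ hc).mul a4, b4, ?_, rfl⟩
    rw [map_div₀]
    field_simp
  · obtain ⟨c, hc⟩ := Place.to_of_mem h
    refine ⟨k, u, _, v, _, a1, Or.inl a2, a3, K.mul_mem (K.algebraMap_mem c) b3, a4,
      (hP _ _ hc).mul b4, rfl, ?_⟩
    rw [inv_div, map_div₀]
    field_simp

end ElResGood

/-- The values of a Gauss place are generated by the values of the coordinates. -/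
theorem gi_res {P : Place ℂ ℂ} {Q : Place L M} (h : P.Over Q) {x y : L} (r : ℂ[X])
    (hy : y ^ 2 = aeval x r)
    (hrep : ∀ z : L, ∃ a b c : ℂ[X], c ≠ 0 ∧ z * aeval x c = aeval x a + aeval x b * y)
    {τ σ : M} (h1 : Q.To x τ) (hτ : Transcendental ℂ τ) (h2 : Q.To y σ) (hσ : σ ≠ 0)
    {w : L} {u : M} (hw : Q.To w u) : u ∈ IntermediateField.adjoin ℂ {τ, σ} := by
  set K := IntermediateField.adjoin ℂ {τ, σ} with hK
  have hτK : τ ∈ K := IntermediateField.subset_adjoin _ _ (by simp)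
  have hσK : σ ∈ K := IntermediateField.subset_adjoin _ _ (by simp)
  by_cases hw0 : w = 0
  · rw [hw0] at hw
    rw [hw.uniq Place.to_zero]
    exact K.zero_mem
  refine ElResGood.val h ?_ hw
  obtain ⟨a, b, c, hc, e⟩ := hrep w
  have hc0 := (ElResGood.poly h h1 hτ hτK hc).ne_zero
  have mem : ∀ p : ℂ[X], aeval x p ∈ IntermediateField.adjoin ℂ {x} := fun p =>
    (IntermediateField.mem_adjoin_simple_iff ℂ _).2 ⟨p, 1, by simp⟩
  obtain ⟨A, B, hA, hB, rfl⟩ : ∃ A B : L, A ∈ IntermediateField.adjoin ℂ {x} ∧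
      B ∈ IntermediateField.adjoin ℂ {x} ∧ w = A + B * y :=
    ⟨aeval x a / aeval x c, aeval x b / aeval x c, div_mem (mem a) (mem c),
      div_mem (mem b) (mem c), by rw [eq_div_of_mul_eq hc0 e]; field_simp⟩
  by_cases hB0 : B = 0
  · rw [hB0, zero_mul, add_zero] at hw0 ⊢
    exact ElResGood.rat h h1 hτ hτK hA hw0
  have gB := ElResGood.rat h h1 hτ hτK hB hB0
  by_cases hA0 : A = 0
  · rw [hA0, zero_add]
    exact gB.mul (ElResGood.of_to h2 hσ hσK)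
  obtain ⟨k, A1, B1, a1, b1, hk, hne, m1, m2, t1, t2, e1, e2⟩ :=
    (ElResGood.rat h h1 hτ hτK hA hA0).scale h gB
  by_cases hs : a1 + b1 * σ = 0
  swap
  · exact ⟨k, _, _, hk, hs, K.add_mem m1 (K.mul_mem m2 hσK), t1.add (t2.mul h2),
      by rw [e1, e2]; ring⟩
  have : CharZero M := charZero_of_injective_algebraMap (algebraMap ℂ M).injective
  have hb : b1 ≠ 0 := fun h0 => by
    rw [h0, zero_mul, add_zero] at hs
    exact hne.elim (fun h3 => h3 hs) fun h3 => h3 h0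
  have gn : ElResGood Q K (A - B * y) := by
    refine ⟨k, _, _, hk, fun h3 => ?_, K.sub_mem m1 (K.mul_mem m2 hσK), t1.sub (t2.mul h2),
      by rw [e1, e2]; ring⟩
    exact mul_ne_zero two_ne_zero (mul_ne_zero hb hσ) (by linear_combination hs - h3)
  have hN : (A + B * y) * (A - B * y) ∈ IntermediateField.adjoin ℂ {x} := by
    rw [show (A + B * y) * (A - B * y) = A ^ 2 - B ^ 2 * aeval x r by rw [← hy]; ring]
    exact sub_mem (pow_mem hA 2) (mul_mem (pow_mem hB 2) (mem r))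
  have := (ElResGood.rat h h1 hτ hτK hN (mul_ne_zero hw0 gn.ne_zero)).mul gn.inv
  rwa [mul_inv_cancel_right₀ gn.ne_zero] at this

end Pool.Agent.P.MP_3c83d0_ag
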