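import Pool.Agent.P.MP_3c83d0_ag.ElLin
import Pool.Agent.P.MP_3c83d0_ag.ElRes
import Pool.Agent.P.MP_3c83d0_ag.ElRep

open Polynomial

namespace Pool.Agent.P.MP_3c83d0_ag

variable {L M : Type} [Field L] [Field M] [Algebra ℂ L] [Algebra ℂ M]

theorem elgi_trans {τ t : M} (hτ : Transcendental ℂ τ)
    (h : τ ∈ IntermediateField.adjoin ℂ {t}) : Transcendental ℂ t := by
  intro ht
  apply hτ
  have := IntermediateField.isAlgebraic_adjoin_simple ht.isIntegral
  exact IntermediateField.isAlgebraic_iff.1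
    (Algebra.IsAlgebraic.isAlgebraic (⟨τ, h⟩ : IntermediateField.adjoin ℂ {t}))

theorem elgi_const {x : M} (hx : IsAlgebraic ℂ x) : ∃ a : ℂ, x = algebraMap ℂ M a := by
  have h1 := IsAlgClosed.degree_eq_one_of_irreducible ℂ (minpoly.irreducible hx.isIntegral)
  obtain ⟨a, ha⟩ := minpoly.mem_range_of_degree_eq_one ℂ x h1
  exact ⟨a, ha.symm⟩

theorem elgi_ne {τ : M} (hτ : Transcendental ℂ τ) (a : ℂ) : τ - algebraMap ℂ M a ≠ 0 := by
  intro h
  apply hτ
  rw [sub_eq_zero.1 h]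
  exact isAlgebraic_algebraMap a

theorem elgi_self (t : M) : t ∈ IntermediateField.adjoin ℂ {t} :=
  IntermediateField.mem_adjoin_simple_self ℂ t

theorem elgi_rat1 {τ σ : M} (hτ : Transcendental ℂ τ) {a : ℂ}
    (hσ : σ ^ 2 = τ - algebraMap ℂ M a) :
    ∃ t : M, Transcendental ℂ t ∧ τ ∈ IntermediateField.adjoin ℂ {t} ∧
      σ ∈ IntermediateField.adjoin ℂ {t} := by
  have h1 : τ ∈ IntermediateField.adjoin ℂ {σ} := by
    have e : τ = algebraMap ℂ M a + σ ^ 2 := by rw [hσ]; ring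
    rw [e]
    exact add_mem (IntermediateField.algebraMap_mem _ a) (pow_mem (elgi_self σ) 2)
  exact ⟨σ, elgi_trans hτ h1, h1, elgi_self σ⟩

/-- Conics are rational. -/
theorem gi_rat {τ σ u v : M} (hτ : Transcendental ℂ τ)
    (hu : u = 1 ∨ ∃ a : ℂ, u = τ - algebraMap ℂ M a)
    (hv : v = 1 ∨ ∃ a : ℂ, v = τ - algebraMap ℂ M a) (hσ : σ ^ 2 = u * v) :
    ∃ t : M, Transcendental ℂ t ∧ τ ∈ IntermediateField.adjoin ℂ {t} ∧
      σ ∈ IntermediateField.adjoin ℂ {t} := by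
  rcases hu with rfl | ⟨a, rfl⟩
  · rcases hv with rfl | ⟨b, rfl⟩
    · refine ⟨τ, hτ, elgi_self τ, ?_⟩
      rw [mul_one, ← one_pow 2] at hσ
      rcases sq_eq_sq_iff_eq_or_eq_neg.1 hσ with h | h
      · rw [h]; exact one_mem _
      · rw [h]; exact neg_mem (one_mem _)
    · rw [one_mul] at hσ
      exact elgi_rat1 hτ hσ
  · rcases hv with rfl | ⟨b, rfl⟩
    · rw [mul_one] at hσ
      exact elgi_rat1 hτ hσ
    · by_cases hab : a = b
      · subst hab
        refine ⟨τ, hτ, elgi_self τ, ?_⟩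
        have hm : τ - algebraMap ℂ M a ∈ IntermediateField.adjoin ℂ {τ} :=
          sub_mem (elgi_self τ) (IntermediateField.algebraMap_mem _ a)
        rw [← pow_two] at hσ
        rcases sq_eq_sq_iff_eq_or_eq_neg.1 hσ with h | h
        · rw [h]; exact hm
        · rw [h]; exact neg_mem hm
      · have ha := elgi_ne hτ a
        set t : M := σ / (τ - algebraMap ℂ M a) with ht
        have e1 : t ^ 2 * (τ - algebraMap ℂ M a) = τ - algebraMap ℂ M b := by
          rw [ht, div_pow, hσ]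
          field_simp
        have e2 : t ^ 2 - 1 ≠ 0 := by
          intro h0
          rw [sub_eq_zero.1 h0, one_mul] at e1
          exact hab ((algebraMap ℂ M).injective (sub_right_injective e1))
        have e3 : τ = (algebraMap ℂ M a * t ^ 2 - algebraMap ℂ M b) / (t ^ 2 - 1) := by
          rw [eq_div_iff e2]
          linear_combination e1
        have h1 : τ ∈ IntermediateField.adjoin ℂ {t} := by
          rw [e3]
          exact div_mem (sub_mem (mul_mem (IntermediateField.algebraMap_mem _ a)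
            (pow_mem (elgi_self t) 2)) (IntermediateField.algebraMap_mem _ b))
            (sub_mem (pow_mem (elgi_self t) 2) (one_mem _))
        refine ⟨t, elgi_trans hτ h1, h1, ?_⟩
        have e4 : σ = t * (τ - algebraMap ℂ M a) := by
          rw [ht, div_mul_cancel₀ _ ha]
        rw [e4]
        exact mul_mem (elgi_self t) (sub_mem h1 (IntermediateField.algebraMap_mem _ a))

theorem elgi_lin1 {P : Place ℂ ℂ} {Q : Place L M} (h : P.Over Q) {x : L} {τ : M}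
    (hx : Q.To x τ) (c : ℂ) :
    ∃ (g : ℂ) (p : ℂ[X]) (v : M), g ≠ 0 ∧ p.natDegree = 1 ∧
      x - algebraMap ℂ L c = algebraMap ℂ L g * aeval x p ∧ Q.To (aeval x p) v ∧
      (v = 1 ∨ ∃ a, P.To c a ∧ v = τ - algebraMap ℂ M a) := by
  rcases P.to_or c with ⟨a, ha⟩ | ⟨hc, h0⟩
  · refine ⟨1, X - C c, τ - algebraMap ℂ M a, one_ne_zero, natDegree_X_sub_C c, by simp, ?_,
      Or.inr ⟨a, ha, rfl⟩⟩
    refine (hx.sub (h _ _ ha)).congr ?_ rfl
    simp
  · refine ⟨-c, C (-c⁻¹) * X + C 1, 1, neg_ne_zero.2 hc,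
      natDegree_linear (neg_ne_zero.2 (inv_ne_zero hc)), ?_, ?_, Or.inl rfl⟩
    · have hc' : algebraMap ℂ L c ≠ 0 := (_root_.map_ne_zero _).2 hc
      simp only [map_add, map_mul, aeval_C, aeval_X, map_neg, map_inv₀, map_one]
      field_simp
      ring
    · refine ((((h _ _ h0).neg).mul hx).add Place.to_one).congr ?_ ?_
      · simp
      · simp

theorem elgi_A {τ σ v1 v2 v3 : M} (hτ : Transcendental ℂ τ)
    (h2 : v2 = 1 ∨ ∃ a : ℂ, v2 = τ - algebraMap ℂ M a)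
    (h3 : v3 = 1 ∨ ∃ a : ℂ, v3 = τ - algebraMap ℂ M a) (hσ : σ ^ 2 = v1 * v2 * v3)
    (h : v1 = 1 ∨ v1 = v2) :
    ∃ t : M, Transcendental ℂ t ∧ τ ∈ IntermediateField.adjoin ℂ {t} ∧
      σ ∈ IntermediateField.adjoin ℂ {t} := by
  rcases h with rfl | rfl
  · rw [one_mul] at hσ
    exact gi_rat hτ h2 h3 hσ
  · have h0 : v1 ≠ 0 := by
      rcases h2 with rfl | ⟨a, rfl⟩
      · exact one_ne_zero
      · exact elgi_ne hτ a
    have e : (σ / v1) ^ 2 = 1 * v3 := by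
      rw [div_pow, hσ]
      field_simp
    obtain ⟨t, ht, m1, m2⟩ := gi_rat hτ (Or.inl rfl) h3 e
    refine ⟨t, ht, m1, ?_⟩
    have e2 : σ = σ / v1 * v1 := by rw [div_mul_cancel₀ _ h0]
    rw [e2]
    refine mul_mem m2 ?_
    rcases h2 with rfl | ⟨a, rfl⟩
    · exact one_mem _
    · exact sub_mem m1 (IntermediateField.algebraMap_mem _ a)

theorem elgi_le {a b c d : M} (h1 : a ∈ IntermediateField.adjoin ℂ {c, d})
    (h2 : b ∈ IntermediateField.adjoin ℂ {c, d}) :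
    IntermediateField.adjoin ℂ {a, b} ≤ IntermediateField.adjoin ℂ {c, d} := by
  rw [IntermediateField.adjoin_le_iff]
  rintro w (rfl | rfl)
  · exact h1
  · exact h2

theorem elgi_fst (a b : M) : a ∈ IntermediateField.adjoin ℂ {a, b} :=
  IntermediateField.subset_adjoin _ _ (by simp)

theorem elgi_snd (a b : M) : b ∈ IntermediateField.adjoin ℂ {a, b} :=
  IntermediateField.subset_adjoin _ _ (by simp)

theorem elgi_sqrt {K : Type} [Field K] [IsAlgClosed K] (a : K) : ∃ r : K, r ^ 2 = a :=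
  IsAlgClosed.exists_pow_nat_eq a (by norm_num)

theorem elgi_x {P : Place ℂ ℂ} {Q : Place L M} (h : P.Over Q) {l : ℂ}
    {x y : L} (hy : y ^ 2 = x * (x - 1) * (x - algebraMap ℂ L l))
    (hgen : IntermediateField.adjoin ℂ {x, y} = ⊤) {z : L} {ξ : M} (hz : Q.To z ξ)
    (hξ : Transcendental ℂ ξ) : Transcendental ℂ x := by
  intro hx
  obtain ⟨a, rfl⟩ := elgi_const hx
  have hy2 : IsAlgebraic ℂ (y ^ 2) := by
    have e : y ^ 2 = algebraMap ℂ L (a * (a - 1) * (a - l)) := by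
      rw [hy]; simp
    rw [e]
    exact isAlgebraic_algebraMap _
  obtain ⟨b, rfl⟩ := elgi_const (IsAlgebraic.of_pow (by norm_num) hy2)
  have hle : IntermediateField.adjoin ℂ {algebraMap ℂ L a, algebraMap ℂ L b} ≤ ⊥ := by
    rw [IntermediateField.adjoin_le_iff]
    rintro w (rfl | rfl)
    · exact IntermediateField.algebraMap_mem _ a
    · exact IntermediateField.algebraMap_mem _ b
  have hz' : z ∈ (⊥ : IntermediateField ℂ L) := hle (hgen ▸ IntermediateField.mem_top)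
  obtain ⟨c, rfl⟩ := IntermediateField.mem_bot.1 hz'
  obtain ⟨d, -, rfl⟩ := h.range hz
  exact hξ (isAlgebraic_algebraMap d)

/-- Reduction of an elliptic function field at a place with a transcendental value. -/
theorem gi [IsAlgClosed M] {P : Place ℂ ℂ} {Q : Place L M} (h : P.Over Q) {l l' : ℂ}
    (hl : P.To l l') {x y : L} (hy : y ^ 2 = x * (x - 1) * (x - algebraMap ℂ L l))
    (hgen : IntermediateField.adjoin ℂ {x, y} = ⊤) {z : L} {ξ : M} (hz : Q.To z ξ)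
    (hξ : Transcendental ℂ ξ) :
    ∃ (k : ℂ) (x0 y0 : M), (k = l' ∨ k = -1) ∧ k ≠ 0 ∧ k ≠ 1 ∧ Transcendental ℂ x0 ∧
      y0 ^ 2 = x0 * (x0 - 1) * (x0 - algebraMap ℂ M k) ∧
      ∀ w u, Q.To w u → u ∈ IntermediateField.adjoin ℂ {x0, y0} := by
  have hx := elgi_x h hy hgen hz hξ
  have hy1 : y ^ 2 = aeval x ((X - C 0) * (X - C 1) * (X - C l) : ℂ[X]) := by
    rw [hy]; simp
  have hodd : Odd ((X - C 0) * (X - C 1) * (X - C l) : ℂ[X]).natDegree := by
    rw [natDegree_mul (mul_ne_zero (X_sub_C_ne_zero _) (X_sub_C_ne_zero _)) (X_sub_C_ne_zero _),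
      natDegree_mul (X_sub_C_ne_zero _) (X_sub_C_ne_zero _), natDegree_X_sub_C,
      natDegree_X_sub_C, natDegree_X_sub_C]
    decide
  obtain ⟨α, β, τ, hβ, hx', hτ⟩ := gi_lin h _ hx hy1
    (fun w => rep _ hodd hx hy1 (hgen ▸ IntermediateField.mem_top)) hz hξ
  have hβ' : algebraMap ℂ L β ≠ 0 := (_root_.map_ne_zero _).2 hβ
  set x' : L := (x - algebraMap ℂ L α) / algebraMap ℂ L β with hxd
  have ex : x = algebraMap ℂ L α + algebraMap ℂ L β * x' := by
    rw [hxd]; field_simp; ring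
  obtain ⟨g1, p1, v1, hg1, d1, e1, t1, c1⟩ := elgi_lin1 h hx' ((0 - α) / β)
  obtain ⟨g2, p2, v2, hg2, d2, e2, t2, c2⟩ := elgi_lin1 h hx' ((1 - α) / β)
  obtain ⟨g3, p3, v3, hg3, d3, e3, t3, c3⟩ := elgi_lin1 h hx' ((l - α) / β)
  have f : ∀ c : ℂ, x - algebraMap ℂ L c =
      algebraMap ℂ L β * (x' - algebraMap ℂ L ((c - α) / β)) := by
    intro c
    rw [ex, map_div₀, map_sub]
    field_simp
    ring
  obtain ⟨ρ, hρ⟩ := elgi_sqrt (β ^ 3 * (g1 * g2 * g3))
  have hρ0 : ρ ≠ 0 := by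
    rintro rfl
    exact mul_ne_zero (pow_ne_zero 3 hβ) (mul_ne_zero (mul_ne_zero hg1 hg2) hg3)
      (by rw [← hρ]; simp)
  have hρ' : algebraMap ℂ L ρ ≠ 0 := (_root_.map_ne_zero _).2 hρ0
  set y' : L := y / algebraMap ℂ L ρ with hyd
  have ey : y = algebraMap ℂ L ρ * y' := by rw [hyd]; field_simp
  have hy2 : y' ^ 2 = aeval x' (p1 * p2 * p3) := by
    have k0 := f 0
    have k1 := f 1
    have k2 := f l
    rw [e1, map_zero, sub_zero] at k0
    rw [e2, map_one] at k1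
    rw [e3] at k2
    have k3 : algebraMap ℂ L ρ ^ 2 = algebraMap ℂ L β ^ 3 *
        (algebraMap ℂ L g1 * algebraMap ℂ L g2 * algebraMap ℂ L g3) := by
      rw [← map_pow, hρ]; simp
    apply mul_left_cancel₀ (pow_ne_zero 2 hρ')
    rw [← mul_pow, ← ey, hy, k1, k2, k3, map_mul, map_mul]
    conv_lhs => rw [k0]
    ring
  have n1 : p1 ≠ 0 := by rintro rfl; simp at d1
  have n2 : p2 ≠ 0 := by rintro rfl; simp at d2
  have n3 : p3 ≠ 0 := by rintro rfl; simp at d3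
  have hodd' : Odd (p1 * p2 * p3).natDegree := by
    rw [natDegree_mul (mul_ne_zero n1 n2) n3, natDegree_mul n1 n2, d1, d2, d3]
    decide
  have hxt : Transcendental ℂ x' := by
    refine elgi_trans hx ?_
    rw [ex]
    exact add_mem (IntermediateField.algebraMap_mem _ α)
      (mul_mem (IntermediateField.algebraMap_mem _ β) (elgi_self x'))
  have hgen' : IntermediateField.adjoin ℂ {x', y'} = ⊤ := by
    rw [eq_top_iff, ← hgen]
    refine elgi_le ?_ ?_
    · rw [ex]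
      exact add_mem (IntermediateField.algebraMap_mem _ α)
        (mul_mem (IntermediateField.algebraMap_mem _ β) (elgi_fst x' y'))
    · rw [ey]
      exact mul_mem (IntermediateField.algebraMap_mem _ ρ) (elgi_snd x' y')
  have tq : Q.To (y' ^ 2) (v1 * v2 * v3) := by
    refine ((t1.mul t2).mul t3).congr ?_ rfl
    rw [hy2, map_mul, map_mul]
  obtain ⟨σ, hσ, hσ2⟩ := tq.of_pow (by norm_num)
  have w : ∀ {c : ℂ} {v : M}, (v = 1 ∨ ∃ a, P.To c a ∧ v = τ - algebraMap ℂ M a) →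
      (v = 1 ∨ ∃ a : ℂ, v = τ - algebraMap ℂ M a) := by
    intro c v hv
    rcases hv with hv | ⟨a, -, hv⟩
    · exact Or.inl hv
    · exact Or.inr ⟨a, hv⟩
  have nz : ∀ {v : M}, (v = 1 ∨ ∃ a : ℂ, v = τ - algebraMap ℂ M a) → v ≠ 0 := by
    intro v hv
    rcases hv with rfl | ⟨a, rfl⟩
    · exact one_ne_zero
    · exact elgi_ne hτ a
  have hσ0 : σ ≠ 0 := by
    rintro rfl
    exact mul_ne_zero (mul_ne_zero (nz (w c1)) (nz (w c2))) (nz (w c3)) (by rw [← hσ2]; simp)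
  have hall : ∀ w u, Q.To w u → u ∈ IntermediateField.adjoin ℂ {τ, σ} := fun w u hw =>
    gi_res h _ hy2 (fun w => rep _ hodd' hxt hy2 (hgen' ▸ IntermediateField.mem_top))
      hx' hτ hσ hσ0 hw
  have fin : (∃ t : M, Transcendental ℂ t ∧ τ ∈ IntermediateField.adjoin ℂ {t} ∧
      σ ∈ IntermediateField.adjoin ℂ {t}) →
      ∃ (k : ℂ) (x0 y0 : M), (k = l' ∨ k = -1) ∧ k ≠ 0 ∧ k ≠ 1 ∧ Transcendental ℂ x0 ∧
      y0 ^ 2 = x0 * (x0 - 1) * (x0 - algebraMap ℂ M k) ∧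
      ∀ w u, Q.To w u → u ∈ IntermediateField.adjoin ℂ {x0, y0} := by
    rintro ⟨t, ht, m1, m2⟩
    obtain ⟨y0, hy0⟩ := elgi_sqrt (t * (t - 1) * (t - algebraMap ℂ M (-1)))
    have hle : IntermediateField.adjoin ℂ {t} ≤ IntermediateField.adjoin ℂ {t, y0} :=
      IntermediateField.adjoin.mono _ _ _ (by simp)
    exact ⟨-1, t, y0, Or.inr rfl, by norm_num, by norm_num, ht, hy0,
      fun w u hw => elgi_le (hle m1) (hle m2) (hall w u hw)⟩
  have s2 : σ ^ 2 = v2 * v3 * v1 := by rw [hσ2]; ring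
  have s3 : σ ^ 2 = v3 * v1 * v2 := by rw [hσ2]; ring
  by_cases q1 : v1 = 1 ∨ v1 = v2
  · exact fin (elgi_A hτ (w c2) (w c3) hσ2 q1)
  by_cases q2 : v2 = 1 ∨ v2 = v3
  · exact fin (elgi_A hτ (w c3) (w c1) s2 q2)
  by_cases q3 : v3 = 1 ∨ v3 = v1
  · exact fin (elgi_A hτ (w c1) (w c2) s3 q3)
  rw [not_or] at q1 q2 q3
  obtain ⟨a1, b1, rfl⟩ := c1.resolve_left q1.1
  obtain ⟨a2, b2, rfl⟩ := c2.resolve_left q2.1
  obtain ⟨a3, b3, rfl⟩ := c3.resolve_left q3.1
  have h21 : a2 - a1 ≠ 0 := fun h0 => q1.2 (by rw [sub_eq_zero.1 h0])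
  have h32 : a3 - a2 ≠ 0 := fun h0 => q2.2 (by rw [sub_eq_zero.1 h0])
  have h31 : a3 - a1 ≠ 0 := fun h0 => q3.2 (by rw [sub_eq_zero.1 h0])
  have hl' : l' = (a3 - a1) / (a2 - a1) := by
    refine hl.uniq (((b3.sub b1).div (b2.sub b1) h21).congr ?_ rfl)
    field_simp
    ring
  obtain ⟨ρ0, hρ0'⟩ := elgi_sqrt ((a2 - a1) ^ 3)
  have hρ00 : ρ0 ≠ 0 := by
    rintro rfl
    exact pow_ne_zero 3 h21 (by rw [← hρ0']; simp)
  have m21 : algebraMap ℂ M (a2 - a1) ≠ 0 := (_root_.map_ne_zero _).2 h21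
  have mρ : algebraMap ℂ M ρ0 ≠ 0 := (_root_.map_ne_zero _).2 hρ00
  set x0 : M := (τ - algebraMap ℂ M a1) / algebraMap ℂ M (a2 - a1) with hx0
  set y0 : M := σ / algebraMap ℂ M ρ0 with hy0
  have eτ : τ = algebraMap ℂ M a1 + algebraMap ℂ M (a2 - a1) * x0 := by
    rw [hx0]; field_simp; ring
  have eσ : σ = algebraMap ℂ M ρ0 * y0 := by rw [hy0]; field_simp
  refine ⟨l', x0, y0, Or.inl rfl, ?_, ?_, ?_, ?_, fun w u hw => elgi_le ?_ ?_ (hall w u hw)⟩
  · rw [hl']; exact div_ne_zero h31 h21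
  · rw [hl']
    intro h1
    rw [div_eq_one_iff_eq h21] at h1
    exact h32 (by linear_combination h1)
  · refine elgi_trans hτ ?_
    rw [eτ]
    exact add_mem (IntermediateField.algebraMap_mem _ a1)
      (mul_mem (IntermediateField.algebraMap_mem _ _) (elgi_self x0))
  · have k3 : algebraMap ℂ M ρ0 ^ 2 = algebraMap ℂ M (a2 - a1) ^ 3 := by
      rw [← map_pow, hρ0', map_pow]
    rw [hy0, div_pow, hσ2, k3, hl', map_div₀, hx0]
    have m21' := m21
    rw [map_sub] at m21'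
    simp only [map_sub]
    field_simp
    ring
  · rw [eτ]
    exact add_mem (IntermediateField.algebraMap_mem _ a1)
      (mul_mem (IntermediateField.algebraMap_mem _ _) (elgi_fst x0 y0))
  · rw [eσ]
    exact mul_mem (IntermediateField.algebraMap_mem _ ρ0) (elgi_snd x0 y0)

end Pool.Agent.P.MP_3c83d0_ag
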