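import Pool.Agent.P.MP_3c83d0_ag.ElRed
import Pool.Agent.P.MP_3c83d0_ag.Der

open Polynomial

namespace Pool.Agent.P.MP_3c83d0_ag

/-- A derivation acting on the coefficients of a polynomial. -/
noncomputable def elindE (D : Derivation ℤ ℂ ℂ) : Derivation ℤ ℂ[X] ℂ[X] :=
  @Differential.mapCoeffs ℂ _ ⟨D⟩

theorem elind_coeff (D : Derivation ℤ ℂ ℂ) (p : ℂ[X]) (i : ℕ) :
    (elindE D p).coeff i = D (p.coeff i) := rfl

theorem elind_X (D : Derivation ℤ ℂ ℂ) : elindE D X = 0 :=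
  @Differential.mapCoeffs_X ℂ _ ⟨D⟩

theorem elind_C (D : Derivation ℤ ℂ ℂ) (a : ℂ) : elindE D (C a) = C (D a) :=
  @Differential.mapCoeffs_C ℂ _ ⟨D⟩ a

theorem elind_lin (D : Derivation ℤ ℂ ℂ) (a : ℂ) : elindE D (X - C a) = - C (D a) := by
  rw [map_sub, elind_X, elind_C, zero_sub]

theorem elind_deg (D : Derivation ℤ ℂ ℂ) (p : ℂ[X]) : (elindE D p).natDegree ≤ p.natDegree := by
  rw [natDegree_le_iff_coeff_eq_zero]
  intro n hn
  rw [elind_coeff, coeff_eq_zero_of_natDegree_lt hn, map_zero]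

theorem elind_log (D : Derivation ℤ ℂ ℂ) : ∀ (n : ℕ) (p : ℂ[X]), p.natDegree = n → p ≠ 0 →
    (∀ x, p.eval x = 0 → D x = 0) → ∃ γ : ℂ, elindE D p = C γ * p := by
  intro n
  induction n with
  | zero =>
    intro p hp h0 _
    obtain ⟨c, rfl⟩ := natDegree_eq_zero.1 hp
    have hc : c ≠ 0 := fun h => h0 (by rw [h, map_zero])
    refine ⟨D c / c, ?_⟩
    rw [elind_C, ← C_mul, div_mul_cancel₀ _ hc]
  | succ n ih =>
    intro p hp h0 hr
    have hd : p.degree ≠ 0 := by
      rw [degree_eq_natDegree h0, hp]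
      exact_mod_cast Nat.succ_ne_zero n
    obtain ⟨r, hroot⟩ := IsAlgClosed.exists_root p hd
    obtain ⟨p1, rfl⟩ := dvd_iff_isRoot.2 hroot
    have h1 : p1 ≠ 0 := right_ne_zero_of_mul h0
    have hn : p1.natDegree = n := by
      rw [natDegree_mul (X_sub_C_ne_zero r) h1, natDegree_X_sub_C] at hp
      omega
    obtain ⟨γ, hγ⟩ := ih p1 hn h1 fun x hx => hr x (by rw [eval_mul, hx, mul_zero])
    refine ⟨γ, ?_⟩
    rw [Derivation.leibniz, hγ, elind_lin, hr r hroot]
    simp only [smul_eq_mul, map_zero, neg_zero, mul_zero, add_zero]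
    ring

theorem elind_log_one (D : Derivation ℤ ℂ ℂ) (p : ℂ[X]) (h0 : p ≠ 0) (a : ℂ) (ha : p.eval a = 0)
    (hDa : D a = 1) (hr : ∀ x, p.eval x = 0 → x ≠ a → D x = 0) :
    ∃ (γ : ℂ) (ν : ℕ), ν ≠ 0 ∧ (X - C a) * elindE D p = p * (C γ * (X - C a) - (ν : ℂ[X])) := by
  obtain ⟨p1, hp1, hnd⟩ := exists_eq_pow_rootMultiplicity_mul_and_not_dvd p h0 a
  have hpos : 0 < rootMultiplicity a p := (rootMultiplicity_pos h0).2 ha
  obtain ⟨ν, hν⟩ : ∃ ν, rootMultiplicity a p = ν + 1 := ⟨_, (Nat.succ_pred_eq_of_pos hpos).symm⟩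
  rw [hν] at hp1
  have h1 : p1 ≠ 0 := fun h => hnd (h ▸ dvd_zero _)
  obtain ⟨γ, hγ⟩ := elind_log D _ p1 rfl h1 fun x hx => hr x
    (by rw [hp1, eval_mul, hx, mul_zero])
    (fun h => hnd (dvd_iff_isRoot.2 (by rw [← h]; exact hx)))
  refine ⟨γ, ν + 1, Nat.succ_ne_zero ν, ?_⟩
  rw [hp1, Derivation.leibniz, hγ, Derivation.leibniz_pow, elind_lin, hDa]
  simp only [smul_eq_mul, nsmul_eq_mul, Nat.add_sub_cancel, map_one]
  ring

theorem ind_core {ι : Type} [Fintype ι] (q A B : ℂ[X]) (e : ℕ) (he : 0 < e)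
    (hA : A ≠ 0 → 2 * A.natDegree ≤ 3 * e) (hB : B ≠ 0 → 2 * B.natDegree + 3 ≤ 3 * e)
    (hN : (A ^ 2 - B ^ 2 * q).natDegree = 3 * e) (s t : ι → ℂ)
    (ht : ∀ b, t b ≠ 0)
    (hD : ∀ b, ∃ D : Derivation ℤ ℂ ℂ, D (s b) = 1 ∧ (∀ c, c ≠ b → D (s c) = 0) ∧
      ∀ k, D (q.coeff k) = 0)
    (hz : ∀ x y : ℂ, y ^ 2 = q.eval x → A.eval x + B.eval x * y = 0 → ∃ b, x = s b ∧ y = t b) :
    False := by
  obtain ⟨N, hNd⟩ : ∃ N, N = A ^ 2 - B ^ 2 * q := ⟨_, rfl⟩
  rw [← hNd] at hN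
  have hN0 : N ≠ 0 := by
    rintro rfl
    rw [natDegree_zero] at hN
    omega
  have hinj : ∀ b c, s b = s c → b = c := by
    intro b c h
    by_contra hbc
    obtain ⟨D, h1, h2, -⟩ := hD b
    have := h2 c (Ne.symm hbc)
    rw [← h, h1] at this
    exact one_ne_zero this
  have hcom : ∀ x, A.eval x = 0 → B.eval x = 0 → False := by
    intro x h1 h2
    obtain ⟨y, hy⟩ := IsAlgClosed.exists_pow_nat_eq (q.eval x) (n := 2) (by norm_num)
    obtain ⟨b, hb1, hb2⟩ := hz x y hy (by rw [h1, h2]; ring)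
    obtain ⟨c, hc1, hc2⟩ := hz x (-y) (by rw [← hy]; ring) (by rw [h1, h2]; ring)
    obtain rfl := hinj b c (hb1.symm.trans hc1)
    exact ht b (by linear_combination (-1 / 2 : ℂ) * hb2 - (1 / 2 : ℂ) * hc2)
  have hroot : ∀ x, N.eval x = 0 → ∃ b, x = s b ∧ q.eval x ≠ 0 := by
    intro x hx
    obtain ⟨y, hy⟩ := IsAlgClosed.exists_pow_nat_eq (q.eval x) (n := 2) (by norm_num)
    have h1 : (A.eval x + B.eval x * y) * (A.eval x + B.eval x * (-y)) = 0 := by
      rw [hNd] at hx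
      simp only [eval_sub, eval_mul, eval_pow] at hx
      rw [← hy] at hx
      linear_combination hx
    rcases mul_eq_zero.1 h1 with h | h
    · obtain ⟨b, hb1, hb2⟩ := hz x y hy h
      exact ⟨b, hb1, by rw [← hy, hb2]; exact pow_ne_zero _ (ht b)⟩
    · have hy' : (-y) ^ 2 = q.eval x := by rw [← hy]; ring
      obtain ⟨b, hb1, hb2⟩ := hz x (-y) hy' h
      exact ⟨b, hb1, by rw [← hy', hb2]; exact pow_ne_zero _ (ht b)⟩
  have hAne : ∀ x, N.eval x = 0 → A.eval x ≠ 0 := by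
    intro x hx h1
    obtain ⟨b, -, hq⟩ := hroot x hx
    rw [hNd] at hx
    simp only [eval_sub, eval_mul, eval_pow, h1] at hx
    have h2 : B.eval x ^ 2 * q.eval x = 0 := by linear_combination -hx
    exact hcom x h1 (pow_eq_zero_iff two_ne_zero |>.1 ((mul_eq_zero.1 h2).resolve_right hq))
  have hcop : IsCoprime N A := by
    rw [isCoprime_iff_aeval_ne_zero_of_isAlgClosed ℂ ℂ]
    intro x
    by_cases hx : N.eval x = 0
    · right
      simpa using hAne x hx
    · left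
      simpa using hx
  have hd : N.degree ≠ 0 := by
    rw [degree_eq_natDegree hN0, hN]
    exact_mod_cast (by omega : 3 * e ≠ 0)
  obtain ⟨x, hx⟩ := IsAlgClosed.exists_root N hd
  obtain ⟨b, rfl, -⟩ := hroot x hx
  obtain ⟨D, h1, h2, h3⟩ := hD b
  obtain ⟨γ, ν, hν, hlog⟩ := elind_log_one D N hN0 (s b) hx h1 fun x hx hne => by
    obtain ⟨c, rfl, -⟩ := hroot x hx
    exact h2 c fun h => hne (by rw [h])
  have hq : elindE D q = 0 := by
    ext k
    rw [elind_coeff, h3, coeff_zero]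
  have hEN : elindE D N = 2 * A * elindE D A - 2 * B * elindE D B * q := by
    rw [hNd, map_sub, Derivation.leibniz, Derivation.leibniz_pow, Derivation.leibniz_pow, hq]
    simp only [smul_eq_mul, nsmul_eq_mul, Nat.add_one_sub_one, pow_one, Nat.cast_ofNat]
    ring
  obtain ⟨W, hW⟩ : ∃ W, W = elindE D B * A - elindE D A * B := ⟨_, rfl⟩
  have hkey : (X - C (s b)) * (W + W) * A =
      N * (2 * (X - C (s b)) * elindE D B - B * (C γ * (X - C (s b)) - (ν : ℂ[X]))) := by
    rw [hEN] at hlog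
    rw [hW]
    linear_combination (-B) * hlog - 2 * (X - C (s b)) * elindE D B * hNd
  have hW0 : (X - C (s b)) * (W + W) = 0 := by
    by_cases hA0 : A = 0
    · rw [hW, hA0]; simp
    by_cases hB0 : B = 0
    · rw [hW, hB0]; simp
    have hdvd : N ∣ (X - C (s b)) * (W + W) := hcop.dvd_of_dvd_mul_right ⟨_, hkey⟩
    refine eq_zero_of_dvd_of_natDegree_lt hdvd ?_
    have e1 : W.natDegree ≤ A.natDegree + B.natDegree := by
      rw [hW]
      refine (natDegree_sub_le _ _).trans (max_le ?_ ?_)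
      · have := elind_deg D B
        exact natDegree_mul_le.trans (by omega)
      · have := elind_deg D A
        exact natDegree_mul_le.trans (by omega)
    have e2 : (W + W).natDegree ≤ W.natDegree := (natDegree_add_le _ _).trans (max_self _).le
    have e3 : ((X - C (s b)) * (W + W)).natDegree ≤ 1 + (W + W).natDegree := by
      refine natDegree_mul_le.trans ?_
      rw [natDegree_X_sub_C]
    have := hA hA0
    have := hB hB0
    omega
  rw [hW0, zero_mul] at hkey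
  have h4 := congrArg (eval (s b)) ((mul_eq_zero.1 hkey.symm).resolve_left hN0)
  simp only [eval_sub, eval_mul, eval_X, eval_C, sub_self, mul_zero, zero_mul, zero_sub,
    eval_natCast, eval_zero, mul_neg, neg_neg, mul_eq_zero, Nat.cast_eq_zero] at h4
  have h5 : B.eval (s b) = 0 := h4.resolve_right hν
  have h6 : N.eval (s b) = 0 := hx
  refine hAne _ hx ?_
  rw [hNd] at h6
  simp only [eval_sub, eval_mul, eval_pow, h5] at h6
  exact (pow_eq_zero_iff two_ne_zero).1 (by linear_combination h6)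

/-- A form of positive degree has a zero on the cubic outside a set of generic points. -/
theorem zero_one {ι : Type} [Fintype ι] (μ : ℂ) (s : ι → ℂ)
    (hind : AlgebraicIndependent ℚ fun o : Option ι => o.elim μ s) (t : ι → ℂ)
    (ht : ∀ b, t b ^ 2 = s b * (s b - 1) * (s b - μ)) {Z : S} {e : ℕ} (he : 0 < e)
    (hZ : Z.IsHomogeneous e) :
    ∃ v : Fin 3 → ℂ, v ≠ 0 ∧ OnC μ v ∧ MvPolynomial.eval v Z = 0 ∧
      ∀ (b : ι) (c : ℂ), v ≠ c • ![s b, t b, 1] := by
  classical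
  by_cases h0 : MvPolynomial.eval ![0, 1, 0] Z = 0
  · refine ⟨![0, 1, 0], fun h => ?_, ?_, h0, fun b c h => ?_⟩
    · simpa using congrFun h 1
    · simp [OnC]
    · have h2 := congrFun h 2
      have h1 := congrFun h 1
      simp at h1 h2
      rw [← h2] at h1
      simp at h1
  by_contra hcon
  push Not at hcon
  have hq3 : (X * (X - C 1) * (X - C μ) : ℂ[X]).natDegree = 3 := by
    rw [natDegree_mul (mul_ne_zero X_ne_zero (X_sub_C_ne_zero 1)) (X_sub_C_ne_zero μ),
      natDegree_mul X_ne_zero (X_sub_C_ne_zero 1), natDegree_X, natDegree_X_sub_C,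
      natDegree_X_sub_C]
  obtain ⟨A, B, hAB, hA, hB, hN⟩ := red _ hq3 (m := 0) hZ (by simp)
  have hder : ∀ b, ∃ D : Derivation ℤ ℂ ℂ, D (s b) = 1 ∧ (∀ c, c ≠ b → D (s c) = 0) ∧
      D μ = 0 := by
    intro b
    obtain ⟨D, hD⟩ := exists_derivation _ hind fun o => if o = some b then 1 else 0
    refine ⟨D, ?_, fun c hc => ?_, ?_⟩
    · simpa using hD (some b)
    · simpa [hc] using hD (some c)
    · simpa using hD none
  refine ind_core _ A B e he hA hB (hN h0) s t (fun b hb => ?_) (fun b => ?_)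
    fun x y hxy hz => ?_
  · obtain ⟨D, h1, -, h3⟩ := hder b
    have h := ht b
    rw [hb, zero_pow two_ne_zero] at h
    rcases mul_eq_zero.1 h.symm with h | h
    · rcases mul_eq_zero.1 h with h | h
      · rw [h, map_zero] at h1
        exact zero_ne_one h1
      · rw [sub_eq_zero.1 h, Derivation.map_one_eq_zero] at h1
        exact zero_ne_one h1
    · rw [sub_eq_zero.1 h, h3] at h1
      exact zero_ne_one h1
  · obtain ⟨D, h1, h2, h3⟩ := hder b
    refine ⟨D, h1, h2, fun k => ?_⟩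
    rw [← elind_coeff, Derivation.leibniz, Derivation.leibniz, elind_lin, elind_lin, elind_X, h3,
      Derivation.map_one_eq_zero]
    simp
  · have h1 := hAB ℂ x y (by simpa using hxy)
    have h2 : MvPolynomial.eval ![x, y, 1] Z = 0 := by
      rw [← MvPolynomial.coe_aeval_eq_eval]
      change MvPolynomial.aeval ![x, y, 1] Z = 0
      rw [h1]
      simpa using hz
    obtain ⟨b, c, hbc⟩ := hcon ![x, y, 1] (fun h => by simpa using congrFun h 2)
      (by simpa [OnC] using hxy) h2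
    have e2 := congrFun hbc 2
    have e1 := congrFun hbc 1
    have e0 := congrFun hbc 0
    simp at e0 e1 e2
    rw [← e2, one_mul] at e0 e1
    exact ⟨b, e0, e1⟩

end Pool.Agent.P.MP_3c83d0_ag
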