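import Pool.Agent.P.MP_3c83d0_ag.ElDer

open Polynomial

namespace Pool.Agent.P.MP_3c83d0_ag

theorem elode_root (q ρ a b : ℂ[X]) (hq : q.Separable) (hb : b ≠ 0) (hab : IsCoprime a b)
    (h : 2 * q * (derivative a * b - a * derivative b) + derivative q * a * b = 2 * ρ * b ^ 2)
    (e : ℂ) : ¬ b.IsRoot e := by
  intro he
  have ha : a.eval e ≠ 0 := by
    intro h1
    obtain ⟨u, v, huv⟩ := hab
    have h2 := congrArg (eval e) huv
    simp [h1, he.eq_zero] at h2
  obtain ⟨b1, hb1, hnd⟩ := exists_eq_pow_rootMultiplicity_mul_and_not_dvd b hb e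
  obtain ⟨n, hn⟩ := Nat.exists_eq_succ_of_ne_zero ((rootMultiplicity_pos hb).2 he).ne'
  rw [hn] at hb1
  have hb1' : b1.eval e ≠ 0 := fun h1 => hnd (dvd_iff_isRoot.2 h1)
  have hu : (X - C e : ℂ[X]) ≠ 0 := X_sub_C_ne_zero e
  have hdb : derivative b =
      (X - C e) ^ n * ((n + 1 : ℂ[X]) * b1 + (X - C e) * derivative b1) := by
    rw [hb1, derivative_mul, derivative_pow_succ]
    simp only [derivative_sub, derivative_X, derivative_C, sub_zero, mul_one, map_add, map_natCast,
      map_one, Nat.succ_eq_add_one]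
    ring
  have h1 : 2 * q * (derivative a * ((X - C e) * b1) -
      a * ((n + 1 : ℂ[X]) * b1 + (X - C e) * derivative b1)) + derivative q * a * ((X - C e) * b1) =
      2 * ρ * ((X - C e) ^ (n + 2) * b1 ^ 2) := by
    refine mul_left_cancel₀ (pow_ne_zero n hu) ?_
    rw [hdb, hb1] at h
    simp only [Nat.succ_eq_add_one] at h
    linear_combination h
  have hn1 : (n + 1 : ℂ) ≠ 0 := Nat.cast_add_one_ne_zero n
  have hq0 : q.eval e = 0 := by
    have h2 := congrArg (eval e) h1
    simp at h2
    tauto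
  obtain ⟨q1, rfl⟩ := dvd_iff_isRoot.2 hq0
  have hq1 : q1.eval e ≠ 0 := by
    have h2 := hq.aeval_derivative_ne_zero (x := e) (by simp)
    simpa using h2
  have h2 : 2 * q1 * (derivative a * ((X - C e) * b1) -
      a * ((n + 1 : ℂ[X]) * b1 + (X - C e) * derivative b1)) +
      (q1 + (X - C e) * derivative q1) * a * b1 = 2 * ρ * ((X - C e) ^ (n + 1) * b1 ^ 2) := by
    refine mul_left_cancel₀ hu ?_
    simp only [derivative_mul, derivative_sub, derivative_X, derivative_C, sub_zero, one_mul] at h1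
    linear_combination h1
  have h3 := congrArg (eval e) h2
  simp only [eval_add, eval_mul, eval_sub, eval_X, eval_C, sub_self, zero_mul, mul_zero, eval_pow,
    eval_natCast, eval_one, eval_ofNat, add_zero, zero_sub, zero_pow (Nat.succ_ne_zero n)] at h3
  have h4 : (2 * (n : ℂ) + 1) ≠ 0 := by exact_mod_cast Nat.succ_ne_zero (2 * n)
  exact mul_ne_zero (mul_ne_zero (mul_ne_zero h4 hq1) ha) hb1' (by linear_combination -h3)

theorem ode_poly (q ρ a b : ℂ[X]) (hq : q.Separable) (h3 : q.natDegree = 3)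
    (hρ : ρ.natDegree = 1) (hb : b ≠ 0) (hab : IsCoprime a b)
    (h : 2 * q * (derivative a * b - a * derivative b) + derivative q * a * b = 2 * ρ * b ^ 2) :
    False := by
  have hd : b.degree = 0 := by
    by_contra h1
    obtain ⟨e, he⟩ := IsAlgClosed.exists_root b h1
    exact elode_root q ρ a b hq hb hab h e he
  obtain ⟨c, rfl⟩ : ∃ c, b = C c := ⟨_, eq_C_of_degree_eq_zero hd⟩
  have h1 : 2 * (q * derivative a) + derivative q * a = C (2 * c) * ρ := by
    refine mul_left_cancel₀ hb ?_
    rw [derivative_C] at h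
    rw [map_mul, C_ofNat]
    linear_combination h
  have hq3 : q.coeff 3 ≠ 0 := by
    rw [← h3]
    exact leadingCoeff_ne_zero.2 hq.ne_zero
  have hq' : (derivative q).natDegree ≤ 2 := (natDegree_derivative_le q).trans (by omega)
  have hr : ∀ k, (C (2 * c) * ρ).coeff (2 + k) = 0 := fun k => by
    rw [coeff_C_mul, coeff_eq_zero_of_natDegree_lt (by omega), mul_zero]
  have ha : a ≠ 0 := by
    rintro rfl
    have h2 : C (2 * c) ≠ 0 := C_ne_zero.2 (mul_ne_zero two_ne_zero (C_ne_zero.1 hb))
    have h4 : ρ = 0 := (mul_eq_zero.1 (h1.symm.trans (by simp))).resolve_left h2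
    simp [h4] at hρ
  have hl : a.coeff a.natDegree ≠ 0 := leadingCoeff_ne_zero.2 ha
  have h2 := congrArg (fun p => coeff p (2 + a.natDegree)) h1
  simp only [hr, coeff_add, coeff_mul_add_eq_of_natDegree_le hq' le_rfl, coeff_derivative,
    coeff_ofNat_mul] at h2
  rcases hn : a.natDegree with _ | m
  · rw [derivative_of_natDegree_zero hn] at h2
    rw [hn] at h2 hl
    exact mul_ne_zero (mul_ne_zero hq3 hl) (three_ne_zero (α := ℂ))
      (by simp at h2 ⊢; norm_num at h2; tauto)
  · have h4 : (derivative a).natDegree ≤ m := (natDegree_derivative_le a).trans (by omega)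
    rw [hn] at h2 hl
    rw [show 2 + (m + 1) = 3 + m by omega, coeff_mul_add_eq_of_natDegree_le h3.le h4,
      coeff_derivative] at h2
    have h5 : (2 * (m : ℂ) + 5) ≠ 0 := by exact_mod_cast Nat.succ_ne_zero (2 * m + 4)
    refine mul_ne_zero (mul_ne_zero hq3 hl) h5 ?_
    norm_num at h2
    linear_combination h2

theorem elode_coeffs {M : Type} [Field M] [Algebra ℂ M] (d : Derivation ℤ M M)
    (K : IntermediateField ℂ M) (hK : ∀ z ∈ K, d z ∈ K) (B : M) (p : K[X]) :
    ∃ pd : K[X], (∀ i, (pd.coeff i : M) = d (p.coeff i)) ∧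
      d (aeval B p) = aeval B pd + aeval B (derivative p) * d B := by
  induction p using Polynomial.induction_on' with
  | add p r hp hr =>
    obtain ⟨pd, h1, h2⟩ := hp
    obtain ⟨rd, h3, h4⟩ := hr
    refine ⟨pd + rd, fun i => by simp [h1, h3], ?_⟩
    simp only [map_add, h2, h4]
    ring
  | monomial n c =>
    refine ⟨monomial n ⟨d c, hK _ c.2⟩, fun i => ?_, ?_⟩
    · simp only [coeff_monomial]
      split_ifs <;> simp
    · simp only [aeval_monomial, derivative_monomial, Derivation.leibniz, Derivation.leibniz_pow,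
        smul_eq_mul, nsmul_eq_mul, map_mul, map_natCast, IntermediateField.algebraMap_apply]
      ring

theorem ode_alg {M : Type} [Field M] [Algebra ℂ M] (d : Derivation ℤ M M)
    (h0 : ∀ a : ℂ, d (algebraMap ℂ M a) = 0) {ξ B : M} (h1 : d ξ = 1) (hξ : Transcendental ℂ ξ)
    (hB : IsAlgebraic (IntermediateField.adjoin ℂ {ξ}) B) (q ρ : ℂ[X]) (hq : q.Separable)
    (h3 : q.natDegree = 3) (hρ : ρ.natDegree = 1)
    (h : 2 * aeval ξ q * d B + aeval ξ (derivative q) * B = 2 * aeval ξ ρ) : False := by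
  have hK : ∀ z ∈ IntermediateField.adjoin ℂ {ξ}, d z ∈ IntermediateField.adjoin ℂ {ξ} := by
    intro z hz
    induction hz using IntermediateField.adjoin_induction with
    | mem x hx => rw [Set.mem_singleton_iff.1 hx, h1]; exact one_mem _
    | algebraMap x => rw [h0]; exact zero_mem _
    | add x y _ _ hx hy => rw [map_add]; exact add_mem hx hy
    | inv x hx hx' =>
      rw [Derivation.leibniz_inv, smul_eq_mul]
      exact mul_mem (neg_mem (pow_mem (inv_mem hx) _)) hx'
    | mul x y hx hy hx' hy' =>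
      rw [Derivation.leibniz, smul_eq_mul, smul_eq_mul]
      exact add_mem (mul_mem hx hy') (mul_mem hy hx')
  have hp : ∀ p : ℂ[X], aeval ξ p ∈ IntermediateField.adjoin ℂ {ξ} := fun p =>
    (IntermediateField.mem_adjoin_simple_iff ℂ _).2 ⟨p, 1, by simp⟩
  have hrep := fun z (hz : z ∈ IntermediateField.adjoin ℂ {ξ}) =>
    (IntermediateField.mem_adjoin_simple_iff ℂ z).1 hz
  generalize IntermediateField.adjoin ℂ {ξ} = K at hB hK hp hrep
  have hI := hB.isIntegral
  obtain ⟨pd, h4, h5⟩ := elode_coeffs d K hK B (minpoly K B)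
  obtain ⟨s, hs⟩ := Nat.exists_eq_succ_of_ne_zero (minpoly.natDegree_pos hI).ne'
  have hm : (minpoly K B).coeff (s + 1) = 1 := by
    have h6 := (minpoly.monic hI).coeff_natDegree
    rwa [hs] at h6
  have hz : ∀ i, s + 1 < i → (minpoly K B).coeff i = 0 := fun i hi =>
    coeff_eq_zero_of_natDegree_lt (by omega)
  have hmB := minpoly.aeval K B
  have hle := fun (p : K[X]) => minpoly.degree_le_of_ne_zero K B (p := p)
  rw [degree_eq_natDegree (minpoly.ne_zero hI), hs] at hle
  generalize minpoly K B = m at h4 h5 hm hz hmB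
  let Q : K := ⟨_, hp q⟩
  let Q' : K := ⟨_, hp (derivative q)⟩
  let R : K := ⟨_, hp ρ⟩
  let N : K[X] := C (Q + Q) * pd + C (R + R) * derivative m - C Q' * (derivative m * X) +
    C ((s + 1) * Q') * m
  have hN : ∀ i, (N.coeff (i + 1) : M) = 2 * aeval ξ q * d (m.coeff (i + 1)) +
      2 * aeval ξ ρ * (m.coeff (i + 2) * (i + 2)) +
      (s - i) * aeval ξ (derivative q) * m.coeff (i + 1) := fun i => by
    simp only [N, coeff_add, coeff_sub, coeff_C_mul, coeff_mul_X, coeff_derivative]
    push_cast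
    rw [h4]
    simp only [Q, Q', R]
    ring
  have hN0 : (N.coeff 0 : M) = 2 * aeval ξ q * d (m.coeff 0) + 2 * aeval ξ ρ * m.coeff 1 +
      (s + 1) * aeval ξ (derivative q) * m.coeff 0 := by
    simp only [N, coeff_add, coeff_sub, coeff_C_mul, coeff_mul_X_zero, coeff_derivative]
    push_cast
    rw [h4]
    simp only [Q, Q', R]
    ring
  have hNz : N = 0 := by
    by_contra h6
    refine absurd (hle N h6 ?_) (not_le.2 ((degree_lt_iff_coeff_zero _ _).2 fun i hi => ?_))
    · rw [hmB, map_zero] at h5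
      simp only [N, map_add, map_sub, map_mul, aeval_C, aeval_X, hmB,
        IntermediateField.algebraMap_apply, Q, Q', R]
      linear_combination (-2 * aeval ξ q) * h5 - aeval B (derivative m) * h
    · obtain ⟨j, rfl⟩ := Nat.exists_eq_succ_of_ne_zero (n := i) (by omega)
      refine Subtype.ext ((hN j).trans ?_)
      rw [hz (j + 2) (by omega)]
      rcases Nat.eq_or_lt_of_le hi with h7 | h7
      · obtain rfl : s = j := by omega
        simp [hm]
      · simp [hz (j + 1) h7]
  have hc : 2 * aeval ξ q * d (m.coeff s) + aeval ξ (derivative q) * m.coeff s =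
      2 * aeval ξ (C (-((s : ℂ) + 1)) * ρ) := by
    simp only [map_mul, map_neg, map_add, map_natCast, map_one]
    rcases s with _ | s
    · rw [hNz] at hN0
      simp only [zero_add] at hm
      simp only [hm, coeff_zero, ZeroMemClass.coe_zero, OneMemClass.coe_one] at hN0
      push_cast at hN0 ⊢
      linear_combination -hN0
    · have h6 := hN s
      rw [hNz] at h6
      simp only [hm, coeff_zero, ZeroMemClass.coe_zero, OneMemClass.coe_one] at h6
      push_cast at h6 ⊢
      linear_combination -h6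
  obtain ⟨a, b, hab, hb, he⟩ : ∃ a b : ℂ[X], IsCoprime a b ∧ b ≠ 0 ∧
      (m.coeff s : M) * aeval ξ b = aeval ξ a := by
    obtain ⟨a, b, h6⟩ := hrep _ (m.coeff s).2
    by_cases h7 : aeval ξ b = 0
    · exact ⟨0, 1, isCoprime_one_right, one_ne_zero, by simp [h6, h7]⟩
    obtain ⟨a', b', c', h8, rfl, rfl⟩ := UniqueFactorizationMonoid.exists_reduced_factors' a b
      (fun h8 => h7 (by simp [h8]))
    rw [map_mul] at h7
    refine ⟨a', b', h8.isCoprime, fun h9 => h7 (by simp [h9]), ?_⟩
    rw [h6, map_mul, map_mul]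
    field_simp [left_ne_zero_of_mul h7, right_ne_zero_of_mul h7]
  have h6 := congrArg d he
  rw [Derivation.leibniz, der_aeval d h0, der_aeval d h0, h1, smul_eq_mul, smul_eq_mul] at h6
  refine ode_poly q (C (-((s : ℂ) + 1)) * ρ) a b hq h3
    (by rw [natDegree_C_mul (neg_ne_zero.2 (Nat.cast_add_one_ne_zero s)), hρ]) hb hab
    (sub_eq_zero.1 (transcendental_iff.1 hξ _ ?_))
  generalize C (-((s : ℂ) + 1)) * ρ = ρ' at hc ⊢
  simp only [map_sub, map_add, map_mul, map_pow, map_ofNat]
  linear_combination (aeval ξ b) ^ 2 * hc - 2 * aeval ξ q * aeval ξ b * h6 +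
    (2 * aeval ξ q * aeval ξ (derivative b) - aeval ξ (derivative q) * aeval ξ b) * he

end Pool.Agent.P.MP_3c83d0_ag
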