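import Pool.Agent.P.MP_3c83d0_ag.ElConst
import Pool.Agent.P.MP_3c83d0_ag.ElOde

open Polynomial

namespace Pool.Agent.P.MP_3c83d0_ag

theorem eliso_ne {M : Type} [Field M] [Algebra ℂ M] {x : M} (hx : Transcendental ℂ x) (a : ℂ) :
    x - algebraMap ℂ M a ≠ 0 := fun h => hx (sub_eq_zero.1 h ▸ isAlgebraic_algebraMap a)

theorem eliso_root {M : Type} [Field M] [Algebra ℂ M] {x y : M} (hx : Transcendental ℂ x) {l : ℂ}
    (hy : y ^ 2 = x * (x - 1) * (x - algebraMap ℂ M l)) : y ≠ 0 := by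
  rintro rfl
  refine mul_ne_zero (mul_ne_zero ?_ ?_) (eliso_ne hx l) (hy.symm.trans (by simp))
  · simpa using eliso_ne hx 0
  · simpa using eliso_ne hx 1

theorem eliso_der {M : Type} [Field M] (D : Derivation ℤ M M) {x y l : M}
    (hy : y ^ 2 = x * (x - 1) * (x - l)) :
    2 * y * D y = (3 * x ^ 2 - 2 * (1 + l) * x + l) * D x - x * (x - 1) * D l := by
  have h := congrArg D hy
  simp only [pow_two, Derivation.leibniz, map_sub, D.map_one_eq_zero, smul_eq_mul] at h
  linear_combination h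

theorem eliso_sep {μ : ℂ} (m0 : μ ≠ 0) (m1 : μ ≠ 1) :
    (X * (X - C 1) * (X - C μ) : ℂ[X]).Separable := by
  have h : ∀ a b : ℂ, a ≠ b → IsCoprime (X - C a : ℂ[X]) (X - C b) := fun a b hab =>
    isCoprime_X_sub_C_of_isUnit_sub (sub_ne_zero.2 hab).isUnit
  refine (separable_X.mul separable_X_sub_C ?_).mul separable_X_sub_C
    (IsCoprime.mul_left ?_ (h 1 μ m1.symm))
  · simpa using h 0 1 zero_ne_one
  · simpa using h 0 μ m0.symm

/-- A Legendre curve with algebraic parameter does not dominate a Legendre curve with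
transcendental parameter. -/
theorem iso {M : Type} [Field M] [Algebra ℂ M] {l μ : ℂ} (hl : IsAlgebraic ℚ l) (l0 : l ≠ 0)
    (l1 : l ≠ 1) (hμ : Transcendental ℚ μ) {x y ξ η : M}
    (hx : Transcendental ℂ x) (hy : y ^ 2 = x * (x - 1) * (x - algebraMap ℂ M l))
    (hξ : Transcendental ℂ ξ) (hη : η ^ 2 = ξ * (ξ - 1) * (ξ - algebraMap ℂ M μ))
    (h1 : ξ ∈ IntermediateField.adjoin ℂ {x, y}) (h2 : η ∈ IntermediateField.adjoin ℂ {x, y})
    (halg : ∀ w : M, IsAlgebraic (IntermediateField.adjoin ℂ {ξ}) w) : False := by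
  have : CharZero M := charZero_of_injective_algebraMap (algebraMap ℂ M).injective
  have m0 : μ ≠ 0 := fun h => hμ (h ▸ isAlgebraic_zero)
  have m1 : μ ≠ 1 := fun h => hμ (h ▸ isAlgebraic_one)
  obtain ⟨D, hD⟩ := exists_derivation (fun _ : Unit => μ)
    (algebraicIndependent_unique_type_iff.2 hμ) fun _ => 1
  have hD : D μ = 1 := hD ()
  obtain ⟨δ, d0, dx⟩ := der_ext 0 hx y
  obtain ⟨E, e0, ex⟩ := der_ext D hx 0
  replace d0 : ∀ a : ℂ, δ (algebraMap ℂ M a) = 0 := fun a => by simpa using d0 a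
  have el : E (algebraMap ℂ M l) = 0 := by rw [e0, der_algebraic D hl, map_zero]
  have em : E (algebraMap ℂ M μ) = 1 := by rw [e0, hD, map_one]
  have y0 := eliso_root hx hy
  have η0 := eliso_root hξ hη
  have ey : E y = 0 := by
    have h := eliso_der E hy
    rw [ex, el] at h
    simpa [y0] using h
  have dy : δ y + δ y = x * x + x * x + x * x - (1 + algebraMap ℂ M l) * (x + x) +
      algebraMap ℂ M l := by
    have h := eliso_der δ hy
    rw [dx, d0] at h
    exact mul_right_cancel₀ y0 (by linear_combination h)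
  have edy : E (δ y) = 0 := by
    have h := congrArg E dy
    simp only [Derivation.leibniz, map_sub, map_add, E.map_one_eq_zero, smul_eq_mul, ex, el] at h
    exact add_self_eq_zero.1 (by simpa using h)
  have hc := der_adjoin ⁅E, δ⁆ (fun a => by rw [Derivation.commutator_apply, d0, e0, d0]; simp)
    {x, y} (by
      rintro z (rfl | rfl)
      · rw [Derivation.commutator_apply, dx, ex, ey]; simp
      · rw [Derivation.commutator_apply, edy, ey]; simp) ξ h1
  obtain ⟨c, hδ⟩ := iso_const l0 l1 m0 m1 hx hy hξ hη h1 h2 δ d0 dx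
  have c0 : c ≠ 0 := by
    rintro rfl
    refine y0 (dx ▸ der_alg δ _ (der_adjoin δ d0 {ξ} ?_) (halg x))
    rintro z rfl
    simpa using hδ
  have c1 : algebraMap ℂ M c ≠ 0 := by simpa using c0
  rw [Derivation.commutator_apply, hδ, Derivation.leibniz, e0, smul_eq_mul, smul_eq_mul] at hc
  have h3 := eliso_der E hη
  have h4 := eliso_der δ hη
  rw [em] at h3
  rw [d0, hδ] at h4
  obtain ⟨B, hB⟩ : ∃ B : M, η * η * B =
      algebraMap ℂ M μ * (algebraMap ℂ M μ - 1) * E ξ - ξ * (ξ - 1) :=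
    ⟨_, mul_div_cancel₀ _ (mul_ne_zero η0 η0)⟩
  have h5 := congrArg δ hB
  simp only [Derivation.leibniz, map_sub, δ.map_one_eq_zero, smul_eq_mul, d0, hδ] at h5
  refine ode_alg ((algebraMap ℂ M c * η)⁻¹ • δ) (fun a => by simp [d0])
    (by rw [Derivation.smul_apply, hδ, smul_eq_mul, inv_mul_cancel₀ (mul_ne_zero c1 η0)]) hξ
    (halg B) _ (C (-1 / 2) * X + C (μ * (μ - 1) * D c / c + μ / 2)) (eliso_sep m0 m1) ?_
    (natDegree_linear (by norm_num)) ?_
  · compute_degree!
  · simp only [derivative_mul, derivative_X, derivative_C, map_add, map_mul,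
      map_sub, map_one, aeval_X, aeval_C, map_div₀, map_neg, map_ofNat, derivative_one, sub_zero,
      Derivation.smul_apply, smul_eq_mul]
    rw [← hη]
    generalize algebraMap ℂ M μ = m at *
    generalize algebraMap ℂ M c = k at *
    generalize algebraMap ℂ M (D c) = k' at *
    field_simp
    refine mul_left_cancel₀ (mul_ne_zero η0 η0) ?_
    linear_combination (2 * η) * h5 - (2 * η * B) * h4 - (2 * η * m * (m - 1)) * hc +
      (k * m * (m - 1)) * h3 - (k * (3 * ξ ^ 2 - 2 * (1 + m) * ξ + m)) * hB -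
      (k * (3 * ξ + m - 2)) * hη

end Pool.Agent.P.MP_3c83d0_ag
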