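import Pool.Agent.P.MP_3c83d0_ag.ElKerF

open MvPolynomial

namespace Pool.Agent.P.MP_3c83d0_ag

open Cardinal in
theorem exists_indep {κ : Type} [Fintype κ] (b : κ → ℂ) (τ : Type) [Fintype τ] :
    ∃ t : τ → ℂ, AlgebraicIndependent (Algebra.adjoin ℚ (Set.range b)) t := by
  obtain ⟨ι, v, hv⟩ := exists_isTranscendenceBasis' (Algebra.adjoin ℚ (Set.range b)) ℂ
  have hR : #(Algebra.adjoin ℚ (Set.range b)) ≤ ℵ₀ := by
    have h := Algebra.lift_cardinalMk_adjoin_le ℚ (Set.range b)
    simp only [lift_id, Cardinal.mkRat] at h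
    refine h.trans (max_le (max_le le_rfl ?_) le_rfl)
    exact (Set.finite_range b).lt_aleph0.le
  have hK : ℵ₀ < #ℂ := by
    rw [mk_complex]; exact aleph0_lt_continuum
  have hc := IsAlgClosed.cardinal_eq_cardinal_transcendence_basis_of_aleph0_lt' v hv hR hK
  have hinf : Infinite ι := by
    rw [infinite_iff, ← hc]; exact hK.le
  let e : τ ↪ ι := (Fintype.equivFin τ).toEmbedding.trans
    ((Fin.valEmbedding).trans (Infinite.natEmbedding ι))
  exact ⟨v ∘ e, hv.1.comp e e.injective⟩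

theorem indep_hom {n : ℕ} (a : Fin n × Fin 2 → ℂ) (ha : AlgebraicIndependent ℚ a) (l : ℂ)
    (t : Fin n → ℂ)
    (ht : AlgebraicIndependent
      (Algebra.adjoin ℚ (Set.range fun o : Option (Fin n × Fin 2) => o.elim l a)) t) :
    AlgebraicIndependent ℚ fun x : Fin n × Fin 3 => t x.1 * ![a (x.1, 0), a (x.1, 1), 1] x.2 := by
  have h1 : AlgebraicIndependent ℚ (Sum.elim t a) := by
    refine ha.sumElim_of_tower ?_ ht
    rintro _ ⟨x, rfl⟩
    exact ⟨⟨a x, Algebra.subset_adjoin ⟨some x, rfl⟩⟩, rfl⟩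
  let θ : MvPolynomial (Fin n × Fin 3) ℚ →ₐ[ℚ] MvPolynomial (Fin n ⊕ Fin n × Fin 2) ℚ :=
    aeval fun x => X (Sum.inl x.1) * ![X (Sum.inr (x.1, 0)), X (Sum.inr (x.1, 1)), 1] x.2
  let A := MvPolynomial (Fin n × Fin 3) ℚ
  let K := FractionRing A
  let ι : A →ₐ[ℚ] K := IsScalarTower.toAlgHom ℚ A K
  have hι : Function.Injective ι := IsFractionRing.injective A K
  have hX : ∀ x, ι (X x) ≠ 0 := fun x h => X_ne_zero (R := ℚ) x (hι (h.trans (map_zero ι).symm))
  let ρ : MvPolynomial (Fin n ⊕ Fin n × Fin 2) ℚ →ₐ[ℚ] K :=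
    aeval (Sum.elim (fun i => ι (X (i, 2))) fun y => ι (X (y.1, y.2.castSucc)) / ι (X (y.1, 2)))
  have hρ : ρ.comp θ = ι := by
    refine MvPolynomial.algHom_ext ?_
    rintro ⟨i, j⟩
    have := hX (i, 2)
    fin_cases j
    · simp only [θ, ρ, AlgHom.comp_apply, aeval_X, map_mul, Sum.elim_inl]
      simp only [Fin.zero_eta, Matrix.cons_val_zero, aeval_X, Sum.elim_inr, Fin.castSucc_zero]
      exact mul_div_cancel₀ _ this
    · simp only [θ, ρ, AlgHom.comp_apply, aeval_X, map_mul, Sum.elim_inl]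
      simp only [Fin.mk_one, Matrix.cons_val_one, Matrix.cons_val_zero, aeval_X, Sum.elim_inr,
        Fin.castSucc_one]
      exact mul_div_cancel₀ _ this
    · simp only [θ, ρ, AlgHom.comp_apply, aeval_X, map_mul, Sum.elim_inl]
      simp
  have hθ : Function.Injective θ := by
    have : Function.Injective (ρ.comp θ) := hρ ▸ hι
    exact Function.Injective.of_comp (f := ρ) this
  have h2 : (aeval (Sum.elim t a)).comp θ =
      (aeval fun x : Fin n × Fin 3 => t x.1 * ![a (x.1, 0), a (x.1, 1), 1] x.2 :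
        MvPolynomial (Fin n × Fin 3) ℚ →ₐ[ℚ] ℂ) := by
    refine MvPolynomial.algHom_ext ?_
    rintro ⟨i, j⟩
    fin_cases j <;> simp [θ]
  rw [algebraicIndependent_iff_injective_aeval, ← h2]
  exact (algebraicIndependent_iff_injective_aeval.1 h1).comp hθ

theorem elker_prod {σ τ R : Type} [CommRing R] (w : σ → (τ →₀ ℕ)) (β : σ → R) (s : σ →₀ ℕ) :
    ∃ r : R, (s.prod fun o k => (monomial (w o) (β o) : MvPolynomial τ R) ^ k) =
      monomial (Finsupp.weight w s) r := by
  induction s using Finsupp.induction_linear with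
  | zero => exact ⟨1, by simp⟩
  | add f g hf hg =>
    obtain ⟨r, hr⟩ := hf
    obtain ⟨r', hr'⟩ := hg
    refine ⟨r * r', ?_⟩
    rw [Finsupp.prod_add_index' (fun _ => pow_zero _) (fun _ _ _ => pow_add _ _ _), hr, hr',
      monomial_mul, map_add]
  | single o k =>
    refine ⟨β o ^ k, ?_⟩
    rw [Finsupp.prod_single_index (by exact pow_zero _), monomial_pow, Finsupp.weight_single]

theorem elker_theta {σ τ R : Type} [CommRing R] [Algebra ℚ R] (w : σ → (τ →₀ ℕ)) (β : σ → R)
    (d : τ →₀ ℕ) (Ψ : MvPolynomial σ ℚ) :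
    aeval (fun o => (monomial (w o) (β o) : MvPolynomial τ R))
        (weightedHomogeneousComponent w d Ψ) =
      monomial d (coeff d (aeval (fun o => (monomial (w o) (β o) : MvPolynomial τ R)) Ψ)) := by
  classical
  induction Ψ using MvPolynomial.induction_on' with
  | monomial s c =>
    have hm : monomial s c ∈ weightedHomogeneousSubmodule ℚ w (Finsupp.weight w s) :=
      isWeightedHomogeneous_monomial w s c rfl
    obtain ⟨r, hr⟩ := elker_prod w β s
    have he : aeval (fun o => (monomial (w o) (β o) : MvPolynomial τ R)) (monomial s c) =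
        monomial (Finsupp.weight w s) (algebraMap ℚ R c * r) := by
      rw [aeval_monomial, hr, MvPolynomial.algebraMap_apply, C_mul_monomial]
    rw [weightedHomogeneousComponent_of_mem hm, he, coeff_monomial]
    by_cases h : d = Finsupp.weight w s
    · rw [if_pos h, if_pos h.symm, he, h]
    · rw [if_neg h, if_neg (Ne.symm h), map_zero, map_zero]
  | add p q hp hq => simp only [map_add, coeff_add, hp, hq]

/-- A principal ideal closed under weighted components has a homogeneous generator. -/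
theorem elker_hom {σ M : Type} [AddCommMonoid M] (w : σ → M) {Φ : MvPolynomial σ ℚ}
    (h0 : Φ ≠ 0) (h : ∀ d, Φ ∣ weightedHomogeneousComponent w d Φ) :
    ∃ d, Φ.IsWeightedHomogeneous w d := by
  classical
  obtain ⟨s, hs⟩ := ne_zero_iff.1 h0
  refine ⟨Finsupp.weight w s, ?_⟩
  obtain ⟨c, hc⟩ := h (Finsupp.weight w s)
  have hne : weightedHomogeneousComponent w (Finsupp.weight w s) Φ ≠ 0 := by
    intro h1
    have := coeff_weightedHomogeneousComponent (w := w) (Finsupp.weight w s) Φ s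
    rw [h1, if_pos rfl, coeff_zero] at this
    exact hs this.symm
  have hc0 : c ≠ 0 := by
    rintro rfl
    exact hne (by rw [hc, mul_zero])
  have hle : (weightedHomogeneousComponent w (Finsupp.weight w s) Φ).totalDegree ≤
      Φ.totalDegree := by
    refine totalDegree_le_of_support_subset ?_
    intro x hx
    rw [mem_support_iff, coeff_weightedHomogeneousComponent] at hx
    rw [mem_support_iff]
    intro h2
    simp [h2] at hx
  rw [hc, totalDegree_mul_of_isDomain h0 hc0] at hle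
  have hd : c.totalDegree = 0 := by omega
  rw [totalDegree_eq_zero_iff_eq_C] at hd
  have hk : coeff 0 c ≠ 0 := fun h3 => hc0 (by rw [hd, h3, map_zero])
  intro x hx
  refine weightedHomogeneousComponent_isWeightedHomogeneous (w := w) (Finsupp.weight w s) Φ ?_
  rw [hc, hd, mul_comm, coeff_C_mul]
  exact mul_ne_zero hk hx

/-- A kernel that meets the ring of the variables `some x` trivially is principal. -/
theorem elker_princ {σ : Type} [Fintype σ] (f : σ → ℂ) (hf : AlgebraicIndependent ℚ f) (l : ℂ) :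
    (∀ Ψ : MvPolynomial (Option σ) ℚ, aeval (fun o => o.elim l f) Ψ = 0 → Ψ = 0) ∨
    ∃ Φ : MvPolynomial (Option σ) ℚ, Φ ≠ 0 ∧ aeval (fun o => o.elim l f) Φ = 0 ∧
      ∀ Ψ : MvPolynomial (Option σ) ℚ, aeval (fun o => o.elim l f) Ψ = 0 → Φ ∣ Ψ := by
  let ev : MvPolynomial (Option σ) ℚ →ₐ[ℚ] ℂ := aeval fun o => o.elim l f
  by_cases hb : RingHom.ker ev = ⊥
  · left
    intro Ψ hΨ
    have : Ψ ∈ RingHom.ker ev := hΨ
    rwa [hb, Ideal.mem_bot] at this
  right
  obtain ⟨Φ, hΦ, hp⟩ := (RingHom.ker_isPrime ev).exists_mem_prime_of_ne_bot hb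
  let E := optionEquivLeft ℚ σ
  have hC : ∀ r : MvPolynomial σ ℚ, ev (E.symm (Polynomial.C r)) = 0 → r = 0 := by
    intro r hr
    have h1 : ∀ r : MvPolynomial σ ℚ, ev (E.symm (Polynomial.C r)) = aeval f r := by
      intro r
      induction r using MvPolynomial.induction_on with
      | C c => simp [E, ev]
      | add p q hp hq => simp only [map_add, hp, hq]
      | mul_X p x hp =>
        rw [map_mul, map_mul, map_mul, map_mul, hp]
        simp [E, ev]
    rw [h1] at hr
    exact algebraicIndependent_iff.1 hf r hr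
  have hirr : Irreducible (E Φ) := (MulEquiv.irreducible_iff E.toMulEquiv).2 hp.irreducible
  have hd : 0 < (E Φ).natDegree := by
    by_contra h
    have h0 : (E Φ).natDegree = 0 := by omega
    rw [Polynomial.natDegree_eq_zero] at h0
    obtain ⟨r, hr⟩ := h0
    have : r = 0 := hC r (by rw [hr, E.symm_apply_apply]; exact hΦ)
    rw [this, map_zero] at hr
    exact hirr.ne_zero hr.symm
  refine ⟨Φ, hp.ne_zero, hΦ, fun Ψ hΨ => ?_⟩
  by_contra hn
  have hn' : ¬E Φ ∣ E Ψ := fun h => hn (by simpa using map_dvd E.symm h)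
  obtain ⟨r, hr0, hr⟩ := elim_one hirr hd hn'
  obtain ⟨u, v, huv⟩ := Ideal.mem_span_pair.1 hr
  refine hr0 (hC r ?_)
  have h1 : ev Φ = 0 := hΦ
  have h2 : ev Ψ = 0 := hΨ
  rw [← huv]
  simp only [map_add, map_mul, E.symm_apply_apply, h1, h2, mul_zero, add_zero]

/-- The relations between homogeneous coordinates of generic points and one more number. -/
theorem ker_hom {n : ℕ} (a : Fin n × Fin 2 → ℂ) (ha : AlgebraicIndependent ℚ a) (l : ℂ)
    (hl : Transcendental ℚ l) (t : Fin n → ℂ)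
    (ht : AlgebraicIndependent
      (Algebra.adjoin ℚ (Set.range fun o : Option (Fin n × Fin 2) => o.elim l a)) t) :
    (∀ Ψ : MvPolynomial (Option (Fin n × Fin 3)) ℚ,
      aeval (fun o => o.elim l fun x => t x.1 * ![a (x.1, 0), a (x.1, 1), 1] x.2) Ψ = 0 → Ψ = 0) ∨
    ∃ (Φ : MvPolynomial (Option (Fin n × Fin 3)) ℚ) (i : Fin n) (e : ℕ), 0 < e ∧
      Φ.IsWeightedHomogeneous (fun o => o.elim 0 fun x => if x.1 = i then 1 else 0) e ∧
      ∀ Ψ : MvPolynomial (Option (Fin n × Fin 3)) ℚ,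
        aeval (fun o => o.elim l fun x => t x.1 * ![a (x.1, 0), a (x.1, 1), 1] x.2) Ψ = 0 →
          Φ ∣ Ψ := by
  classical
  rcases elker_princ _ (indep_hom a ha l t ht) l with h | ⟨Φ, h0, hΦ, hdvd⟩
  · exact Or.inl h
  right
  let R := Algebra.adjoin ℚ (Set.range fun o : Option (Fin n × Fin 2) => o.elim l a)
  let b : Option (Fin n × Fin 2) → R := fun o => ⟨o.elim l a, Algebra.subset_adjoin ⟨o, rfl⟩⟩
  let β : Option (Fin n × Fin 3) → R := fun o =>
    o.elim (b none) fun x => ![b (some (x.1, 0)), b (some (x.1, 1)), 1] x.2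
  let w : Option (Fin n × Fin 3) → (Fin n →₀ ℕ) := fun o => o.elim 0 fun x => Finsupp.single x.1 1
  let θ : MvPolynomial (Option (Fin n × Fin 3)) ℚ →ₐ[ℚ] MvPolynomial (Fin n) R :=
    aeval fun o => monomial (w o) (β o)
  let ev : MvPolynomial (Option (Fin n × Fin 3)) ℚ →ₐ[ℚ] ℂ :=
    aeval fun o => o.elim l fun x => t x.1 * ![a (x.1, 0), a (x.1, 1), 1] x.2
  have hcomp : ((aeval t : MvPolynomial (Fin n) R →ₐ[R] ℂ).restrictScalars ℚ).comp θ = ev := by
    refine MvPolynomial.algHom_ext ?_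
    rintro (_ | ⟨i, j⟩)
    · simp [θ, ev, w, β, b]
    · fin_cases j <;> simp [θ, ev, w, β, b, aeval_monomial, mul_comm]
  have hev : ∀ Ψ, ev Ψ = aeval t (θ Ψ) := fun Ψ => by rw [← hcomp]; rfl
  have hθ : θ Φ = 0 := algebraicIndependent_iff.1 ht _ (by rw [← hev]; exact hΦ)
  have hcm : ∀ d, Φ ∣ weightedHomogeneousComponent w d Φ := by
    intro d
    refine hdvd _ ?_
    have h1 : θ (weightedHomogeneousComponent w d Φ) = monomial d (coeff d (θ Φ)) :=
      elker_theta w β d Φ
    have h2 := hev (weightedHomogeneousComponent w d Φ)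
    rw [h1, hθ, coeff_zero, map_zero, map_zero] at h2
    exact h2
  obtain ⟨d, hd⟩ := elker_hom w h0 hcm
  have hw : ∀ (i : Fin n) (s : Option (Fin n × Fin 3) →₀ ℕ),
      Finsupp.weight (fun o : Option (Fin n × Fin 3) =>
        o.elim 0 fun x => if x.1 = i then 1 else 0) s = Finsupp.weight w s i := by
    intro i s
    rw [Finsupp.weight_eq_sum, Finsupp.weight_eq_sum, Finsupp.finsetSum_apply]
    refine Finset.sum_congr rfl ?_
    rintro (_ | x) _
    · simp [w]
    · simp [w, Finsupp.single_apply]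
  by_cases hz : ∃ i, 0 < d i
  · obtain ⟨i, hi⟩ := hz
    refine ⟨Φ, i, d i, hi, ?_, hdvd⟩
    intro s hs
    rw [hw, hd hs]
  exfalso
  have hv : (↑Φ.vars : Set (Option (Fin n × Fin 3))) ⊆ Set.range fun _ : Unit => none := by
    rintro (_ | x) hx
    · exact ⟨(), rfl⟩
    · exfalso
      obtain ⟨s, hs, hx⟩ := (mem_vars_iff_mem_support _).1 (Finset.mem_coe.1 hx)
      refine hz ⟨x.1, ?_⟩
      rw [← hd (mem_support_iff.1 hs), ← hw, Finsupp.weight_eq_sum]
      refine lt_of_lt_of_le ?_ (Finset.single_le_sum (fun _ _ => Nat.zero_le _)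
        (Finset.mem_univ (some x)))
      simpa [Nat.pos_iff_ne_zero] using hx
  obtain ⟨q, rfl⟩ := exists_rename_eq_of_vars_subset_range Φ _ (fun _ _ _ => rfl) hv
  have hl' : AlgebraicIndependent ℚ fun _ : Unit => l :=
    algebraicIndependent_unique_type_iff.2 hl
  rw [aeval_rename] at hΦ
  exact h0 (by rw [algebraicIndependent_iff.1 hl' q hΦ, map_zero])

end Pool.Agent.P.MP_3c83d0_ag
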