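import Pool.Agent.P.MP_3c83d0_ag.ElDefs

open Polynomial

namespace Pool.Agent.P.MP_3c83d0_ag

variable {L M : Type} [Field L] [Field M] [Algebra ℂ L] [Algebra ℂ M]

/-- A constant times a power of `s` times an element with a nonzero constant value. -/
def ellinForm (Q : Place L M) (s g : L) : Prop :=
  ∃ (k : ℂ) (n : ℤ) (u : L) (b : ℂ), k ≠ 0 ∧ b ≠ 0 ∧ Q.To u (algebraMap ℂ M b) ∧
    g = algebraMap ℂ L k * s ^ n * u

theorem ellin_const {Q : Place L M} {s : L} {k : ℂ} (hk : k ≠ 0) :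
    ellinForm Q s (algebraMap ℂ L k) :=
  ⟨k, 0, 1, 1, hk, one_ne_zero, by rw [map_one]; exact Place.to_one, by simp⟩

theorem ellin_mul {Q : Place L M} {s g g' : L} (hs : s ≠ 0) (h : ellinForm Q s g)
    (h' : ellinForm Q s g') : ellinForm Q s (g * g') := by
  obtain ⟨k, n, u, b, hk, hb, hu, rfl⟩ := h
  obtain ⟨k', n', u', b', hk', hb', hu', rfl⟩ := h'
  refine ⟨k * k', n + n', u * u', b * b', mul_ne_zero hk hk', mul_ne_zero hb hb', ?_, ?_⟩
  · rw [map_mul]; exact hu.mul hu'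
  · rw [map_mul, zpow_add₀ hs]; ring

theorem ellin_inv {Q : Place L M} {s g : L} (h : ellinForm Q s g) : ellinForm Q s g⁻¹ := by
  obtain ⟨k, n, u, b, hk, hb, hu, rfl⟩ := h
  refine ⟨k⁻¹, -n, u⁻¹, b⁻¹, inv_ne_zero hk, inv_ne_zero hb, ?_, ?_⟩
  · rw [map_inv₀]; exact hu.inv ((_root_.map_ne_zero _).2 hb)
  · rw [map_inv₀, zpow_neg, mul_inv, mul_inv]

theorem ellin_poly {Q : Place L M} {s x : L} (hs : s ≠ 0)
    (h : ∀ α : ℂ, ellinForm Q s (x - algebraMap ℂ L α)) (p : ℂ[X]) (hp : p ≠ 0) :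
    ellinForm Q s (aeval x p) := by
  induction hn : p.natDegree using Nat.strong_induction_on generalizing p with
  | _ n ih =>
    by_cases h0 : p.degree = 0
    · rw [eq_C_of_degree_eq_zero h0] at hp ⊢
      rw [aeval_C]
      exact ellin_const fun h => hp (by rw [h, map_zero])
    · obtain ⟨α, hα⟩ := IsAlgClosed.exists_root p h0
      obtain ⟨q, hq⟩ := dvd_iff_isRoot.2 hα
      have hq0 : q ≠ 0 := by
        rintro rfl
        exact hp (by rw [hq, mul_zero])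
      have hd : p.natDegree = q.natDegree + 1 := by
        rw [hq, natDegree_mul (X_sub_C_ne_zero α) hq0, natDegree_X_sub_C, add_comm]
      rw [hq, map_mul, map_sub, aeval_X, aeval_C]
      exact ellin_mul hs (h α) (ih q.natDegree (by omega) q hq0 rfl)

theorem ellin_val {Q : Place L M} {s g : L} {v : M}
    (hS : ∀ (k : ℂ) (n : ℤ) (w : M), k ≠ 0 → Q.To (algebraMap ℂ L k * s ^ n) w →
      ∃ b, w = algebraMap ℂ M b)
    (h : ellinForm Q s g) (hv : Q.To g v) : ∃ b, v = algebraMap ℂ M b := by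
  obtain ⟨k, n, u, b, hk, hb, hu, rfl⟩ := h
  have hb' : algebraMap ℂ M b ≠ 0 := (_root_.map_ne_zero _).2 hb
  have h1 := hv.div hu hb'
  rw [mul_div_cancel_right₀ _ (hu.ne_zero hb')] at h1
  obtain ⟨c, hc⟩ := hS k n _ hk h1
  refine ⟨c * b, ?_⟩
  rw [map_mul, ← hc, div_mul_cancel₀ _ hb']

omit [Algebra ℂ M] in
theorem ellin_pos {Q : Place L M} {s : L} (hs : s ≠ 0)
    (hd : ∀ β : ℂ, β ≠ 0 → Q.To (s / algebraMap ℂ L β) 0 ∨ Q.To (s / algebraMap ℂ L β)⁻¹ 0)
    {k : ℂ} (hk : k ≠ 0) {n : ℕ} (hn : n ≠ 0) {w : M}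
    (hw : Q.To (algebraMap ℂ L k * s ^ n) w) : w = 0 := by
  by_contra hw0
  obtain ⟨β, hβ⟩ := IsAlgClosed.exists_pow_nat_eq k⁻¹ (Nat.pos_of_ne_zero hn)
  have hβ0 : β ≠ 0 := by
    rintro rfl
    rw [zero_pow hn] at hβ
    exact inv_ne_zero hk hβ.symm
  have e : algebraMap ℂ L k * s ^ n = (s / algebraMap ℂ L β) ^ n := by
    rw [div_pow, ← map_pow, hβ, map_inv₀, div_inv_eq_mul, mul_comm]
  rw [e] at hw
  obtain ⟨t, ht, htn⟩ := Place.To.of_pow hn hw
  rcases hd β hβ0 with h | h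
  · rw [ht.uniq h, zero_pow hn] at htn
    exact hw0 htn.symm
  · exact Place.not_to_of_inv h (div_ne_zero hs ((_root_.map_ne_zero _).2 hβ0)) _ ht

theorem ellin_S {P : Place ℂ ℂ} {Q : Place L M} (h : P.Over Q) {s : L} (hs : s ≠ 0)
    (hd : ∀ β : ℂ, β ≠ 0 → Q.To (s / algebraMap ℂ L β) 0 ∨ Q.To (s / algebraMap ℂ L β)⁻¹ 0)
    (k : ℂ) (n : ℤ) (w : M) (hk : k ≠ 0) (hw : Q.To (algebraMap ℂ L k * s ^ n) w) :
    ∃ b, w = algebraMap ℂ M b := by
  by_cases hw0 : w = 0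
  · exact ⟨0, by rw [hw0, map_zero]⟩
  obtain ⟨m, rfl | rfl⟩ := n.eq_nat_or_neg
  · rw [zpow_natCast] at hw
    by_cases hm : m = 0
    · rw [hm, pow_zero, mul_one] at hw
      obtain ⟨b, -, hb⟩ := h.range hw
      exact ⟨b, hb⟩
    · exact absurd (ellin_pos hs hd hk hm hw) hw0
  · by_cases hm : m = 0
    · rw [hm, Nat.cast_zero, neg_zero, zpow_zero, mul_one] at hw
      obtain ⟨b, -, hb⟩ := h.range hw
      exact ⟨b, hb⟩
    · have h1 := hw.inv hw0
      rw [mul_inv, ← map_inv₀, zpow_neg, inv_inv, zpow_natCast] at h1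
      exact absurd (ellin_pos hs hd (inv_ne_zero hk) hm h1) (inv_ne_zero hw0)

theorem ellin_A {P : Place ℂ ℂ} {Q : Place L M} (h : P.Over Q) {x : L}
    (hx : Transcendental ℂ x)
    (H : ∀ (α β : ℂ) (τ : M), β ≠ 0 → Q.To ((x - algebraMap ℂ L α) / algebraMap ℂ L β) τ →
      ∃ b, τ = algebraMap ℂ M b)
    (a c : ℂ[X]) (hc : c ≠ 0) {v : M} (hv : Q.To (aeval x a / aeval x c) v) :
    ∃ b, v = algebraMap ℂ M b := by
  by_cases ha : a = 0
  · rw [ha, map_zero, zero_div] at hv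
    exact ⟨0, by rw [map_zero]; exact hv.uniq Place.to_zero⟩
  have main : ∀ s : L, s ≠ 0 →
      (∀ (k : ℂ) (n : ℤ) (w : M), k ≠ 0 → Q.To (algebraMap ℂ L k * s ^ n) w →
        ∃ b, w = algebraMap ℂ M b) →
      (∀ α : ℂ, ellinForm Q s (x - algebraMap ℂ L α)) → ∃ b, v = algebraMap ℂ M b := by
    intro s hs hS hF
    refine ellin_val hS ?_ hv
    rw [div_eq_mul_inv]
    exact ellin_mul hs (ellin_poly hs hF a ha) (ellin_inv (ellin_poly hs hF c hc))
  by_cases h1 : ∀ α : ℂ, ellinForm Q 1 (x - algebraMap ℂ L α)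
  · refine main 1 one_ne_zero (fun k n w _ hw => ?_) h1
    rw [one_zpow, mul_one] at hw
    obtain ⟨b, -, hb⟩ := h.range hw
    exact ⟨b, hb⟩
  · obtain ⟨α0, hα0⟩ := not_forall.1 h1
    have hs : x - algebraMap ℂ L α0 ≠ 0 := fun e =>
      hx (sub_eq_zero.1 e ▸ isAlgebraic_algebraMap α0)
    have hd : ∀ β : ℂ, β ≠ 0 → Q.To ((x - algebraMap ℂ L α0) / algebraMap ℂ L β) 0 ∨
        Q.To ((x - algebraMap ℂ L α0) / algebraMap ℂ L β)⁻¹ 0 := by
      intro β hβ
      rcases Q.to_or ((x - algebraMap ℂ L α0) / algebraMap ℂ L β) with ⟨τ, hτ⟩ | ⟨-, h0⟩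
      · left
        obtain ⟨b, rfl⟩ := H α0 β τ hβ hτ
        by_cases hb : b = 0
        · rwa [hb, map_zero] at hτ
        · refine absurd ⟨β, 0, _, b, hβ, hb, hτ, ?_⟩ hα0
          rw [zpow_zero, mul_one, mul_div_cancel₀ _ ((_root_.map_ne_zero _).2 hβ)]
      · exact Or.inr h0
    refine main _ hs (ellin_S h hs hd) fun α => ?_
    by_cases hβ : α - α0 = 0
    · refine ⟨1, 1, 1, 1, one_ne_zero, one_ne_zero, by rw [map_one]; exact Place.to_one, ?_⟩
      rw [sub_eq_zero.1 hβ]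
      simp
    · have hβ' : algebraMap ℂ L (α - α0) ≠ 0 := (_root_.map_ne_zero _).2 hβ
      rcases hd _ hβ with h0 | h0
      · refine ⟨-(α - α0), 0, _, 1, neg_ne_zero.2 hβ, one_ne_zero,
          (Place.to_one.sub h0).congr rfl (by simp), ?_⟩
        rw [zpow_zero, mul_one, map_neg, mul_sub, mul_one, neg_mul, mul_div_cancel₀ _ hβ', map_sub]
        ring
      · refine ⟨1, 1, _, 1, one_ne_zero, one_ne_zero,
          (Place.to_one.sub h0).congr rfl (by simp), ?_⟩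
        rw [zpow_one, map_one, one_mul, mul_sub, mul_one, inv_div, mul_div_cancel₀ _ hs, map_sub]
        ring

/-- A place with a transcendental value is a Gauss place for a linear coordinate. -/
theorem gi_lin {P : Place ℂ ℂ} {Q : Place L M} (h : P.Over Q) {x y : L} (r : ℂ[X])
    (hx : Transcendental ℂ x) (hy : y ^ 2 = aeval x r)
    (hrep : ∀ z : L, ∃ a b c : ℂ[X], c ≠ 0 ∧ z * aeval x c = aeval x a + aeval x b * y)
    {z : L} {ξ : M} (hz : Q.To z ξ) (hξ : Transcendental ℂ ξ) :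
    ∃ (α β : ℂ) (τ : M), β ≠ 0 ∧ Q.To ((x - algebraMap ℂ L α) / algebraMap ℂ L β) τ ∧
      Transcendental ℂ τ := by
  by_contra hcon
  have H : ∀ (α β : ℂ) (τ : M), β ≠ 0 →
      Q.To ((x - algebraMap ℂ L α) / algebraMap ℂ L β) τ → ∃ b, τ = algebraMap ℂ M b := by
    intro α β τ hβ hτ
    have h1 : IsAlgebraic ℂ τ := by
      by_contra h2
      exact hcon ⟨α, β, τ, hβ, hτ, h2⟩
    obtain ⟨b, hb⟩ := minpoly.mem_range_of_degree_eq_one ℂ τ
      (IsAlgClosed.degree_eq_one_of_irreducible ℂ (minpoly.irreducible h1.isIntegral))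
    exact ⟨b, hb.symm⟩
  obtain ⟨a, b, c, hc, he⟩ := hrep z
  have hne : ∀ p : ℂ[X], p ≠ 0 → aeval x p ≠ 0 := fun p hp e => hx ⟨p, hp, e⟩
  let p : Fin 3 → ℂ[X] := ![a ^ 2 - b ^ 2 * r, -(2 * a * c), c ^ 2]
  have hq : aeval x (p 2) * z ^ 2 + aeval x (p 1) * z + aeval x (p 0) = 0 := by
    simp only [p, Matrix.cons_val, map_sub, map_mul, map_pow, map_neg, map_ofNat]
    rw [← hy]
    linear_combination (z * aeval x c - aeval x a + aeval x b * y) * he
  obtain ⟨i, -, hi0, hi⟩ := Q.exists_max Finset.univ (fun j => aeval x (p j))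
    ⟨2, Finset.mem_univ _, hne _ (pow_ne_zero 2 hc)⟩
  have hpi : p i ≠ 0 := fun e => hi0 (by rw [e, map_zero])
  have hval : ∀ j, ∃ b : ℂ, Q.To (aeval x (p j) / aeval x (p i)) (algebraMap ℂ M b) := by
    intro j
    obtain ⟨v, hv⟩ := Place.to_of_mem (hi j (Finset.mem_univ _))
    obtain ⟨b, rfl⟩ := ellin_A h hx H _ _ hpi hv
    exact ⟨b, hv⟩
  choose e hee using hval
  have hei : e i = 1 := by
    have h1 := hee i
    rw [div_self hi0] at h1
    have h2 := h1.uniq Place.to_one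
    rw [← map_one (algebraMap ℂ M)] at h2
    exact (algebraMap ℂ M).injective h2
  have h1 := (((hee 2).mul (hz.pow 2)).add ((hee 1).mul hz)).add (hee 0)
  have h2 : aeval x (p 2) / aeval x (p i) * z ^ 2 + aeval x (p 1) / aeval x (p i) * z +
      aeval x (p 0) / aeval x (p i) = 0 := by
    have : aeval x (p 2) / aeval x (p i) * z ^ 2 + aeval x (p 1) / aeval x (p i) * z +
      aeval x (p 0) / aeval x (p i) =
        (aeval x (p 2) * z ^ 2 + aeval x (p 1) * z + aeval x (p 0)) / aeval x (p i) := by ring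
    rw [this, hq, zero_div]
  rw [h2] at h1
  have h3 := h1.uniq Place.to_zero
  refine hξ ⟨C (e 2) * X ^ 2 + C (e 1) * X + C (e 0), fun h0 => ?_, by simpa using h3⟩
  have c0 := congrArg (fun q : ℂ[X] => q.coeff 0) h0
  have c1 := congrArg (fun q : ℂ[X] => q.coeff 1) h0
  have c2 := congrArg (fun q : ℂ[X] => q.coeff 2) h0
  simp [coeff_X, coeff_C] at c0 c1 c2
  fin_cases i
  · exact one_ne_zero (hei.symm.trans c0)
  · exact one_ne_zero (hei.symm.trans c1)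
  · exact one_ne_zero (hei.symm.trans c2)

end Pool.Agent.P.MP_3c83d0_ag
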