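import Pool.Agent.P.MP_3c83d0_ag.Numer

open Finset

namespace Pool.Agent.P.MP_3c83d0_ag

variable {ι : Type*} [Fintype ι]

/-- There are no roots in a family of classes that satisfies the rules. -/
theorem Rules.no_root {R : ℕ → (ι → ℕ) → Prop} (h : Rules R) (d : ℕ) : ∀ m : ι → ℕ, R d m →
    sq d m = -2 → kc d m = 0 → False := by
  classical
  induction d using Nat.strong_induction_on with
  | _ d ih =>
  intro m hR hs hk0
  have hd : (0 : ℤ) < d := by exact_mod_cast h.pos d m hR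
  have hle : ∀ l, (m l : ℤ) ≤ d := fun l => by exact_mod_cast h.le d m hR l
  have hn : sq d m < 0 := by omega
  have hsum : 3 * (d : ℤ) = ∑ l, (m l : ℤ) := by unfold kc at hk0; omega
  have ne1 : (univ : Finset ι).Nonempty := by
    by_contra hne
    rw [not_nonempty_iff_eq_empty.1 hne, sum_empty] at hsum
    omega
  obtain ⟨i, -, hi⟩ := exists_max_image univ m ne1
  have e1 := add_sum_erase univ (fun l => (m l : ℤ)) (mem_univ i)
  have ne2 : (univ.erase i).Nonempty := by
    by_contra hne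
    rw [not_nonempty_iff_eq_empty.1 hne, sum_empty] at e1
    have := hle i
    omega
  obtain ⟨j, hj, hj'⟩ := exists_max_image _ m ne2
  have e2 := add_sum_erase _ (fun l => (m l : ℤ)) hj
  have ne3 : ((univ.erase i).erase j).Nonempty := by
    by_contra hne
    rw [not_nonempty_iff_eq_empty.1 hne, sum_empty] at e2
    have := hle i
    have := hle j
    omega
  obtain ⟨k, hk, hk'⟩ := exists_max_image _ m ne3
  clear e1 e2 ne1 ne2 ne3
  have hij : i ≠ j := (ne_of_mem_erase hj).symm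
  have hjk : j ≠ k := (ne_of_mem_erase hk).symm
  have hik : i ≠ k := (ne_of_mem_erase (mem_of_mem_erase hk)).symm
  have hji : m j ≤ m i := hi j (mem_univ _)
  have hkj : m k ≤ m j := hj' k (mem_of_mem_erase hk)
  set U := ((univ.erase i).erase j).erase k with hU
  have memU : ∀ l, l ∈ U ↔ l ≠ i ∧ l ≠ j ∧ l ≠ k := by
    intro l
    simp only [hU, mem_erase, mem_univ, and_true]
    tauto
  have hUk : ∀ l ∈ U, m l ≤ m k := fun l hl => hk' l (mem_of_mem_erase hl)
  have s1 := sum_three hj hk (fun l => (m l : ℤ))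
  have s2 := sum_three hj hk (fun l => (m l : ℤ) ^ 2)
  rw [← hU] at s1 s2
  have hU2 : ∑ l ∈ U, (m l : ℤ) ^ 2 ≤ (m k : ℤ) * ∑ l ∈ U, (m l : ℤ) := by
    rw [mul_sum]
    refine sum_le_sum fun l hl => ?_
    have h1 : (m l : ℤ) ≤ m k := by exact_mod_cast hUk l hl
    have h2 : (0 : ℤ) ≤ m l := Int.natCast_nonneg _
    nlinarith
  have hbig : (d : ℤ) < m i + m j + m k := by
    by_contra hc
    rw [not_lt] at hc
    unfold sq at hs
    have a1 : (0 : ℤ) ≤ m i - m k := by omega
    have a2 : (0 : ℤ) ≤ m j - m k := by omega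
    have a3 : (0 : ℤ) ≤ m k := Int.natCast_nonneg _
    have a4 : (0 : ℤ) ≤ d - (m i + m j + m k) := by omega
    have e : ∑ l ∈ U, (m l : ℤ) = 3 * d - m i - m j - m k := by omega
    rw [e] at hU2
    nlinarith [mul_nonneg a1 a2, mul_nonneg a1 a3, mul_nonneg a2 a3, mul_nonneg a1 a4,
      mul_nonneg a2 a4, mul_nonneg a3 a4, mul_nonneg a4 a4]
  by_cases hd1 : d = 1
  · have h1 := hle i
    have h2 := h.r1 d m hR hn i (by omega)
    omega
  obtain ⟨d', m', hR', c0, c1, c2, c3, c4⟩ := h.cr d m hR hd1 i j k hij hik hjk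
  have t1 := sum_three hj hk (fun l => (m' l : ℤ))
  have t2 := sum_three hj hk (fun l => (m' l : ℤ) ^ 2)
  rw [← hU] at t1 t2
  have u1 : ∑ l ∈ U, (m' l : ℤ) = ∑ l ∈ U, (m l : ℤ) := sum_congr rfl fun l hl => by
    obtain ⟨x1, x2, x3⟩ := (memU l).1 hl
    rw [c4 l x1 x2 x3]
  have u2 : ∑ l ∈ U, (m' l : ℤ) ^ 2 = ∑ l ∈ U, (m l : ℤ) ^ 2 := sum_congr rfl fun l hl => by
    obtain ⟨x1, x2, x3⟩ := (memU l).1 hl
    rw [c4 l x1 x2 x3]
  have z0 : (d' : ℤ) = 2 * d - m i - m j - m k := by omega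
  have z1 : (m' i : ℤ) = d - m j - m k := by omega
  have z2 : (m' j : ℤ) = d - m i - m k := by omega
  have z3 : (m' k : ℤ) = d - m i - m j := by omega
  refine ih d' (by omega) m' hR' ?_ ?_
  · unfold sq at hs ⊢
    rw [t2, u2, z0, z1, z2, z3]
    rw [s2] at hs
    linear_combination hs
  · unfold kc
    omega

end Pool.Agent.P.MP_3c83d0_ag
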