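import Pool.Agent.P.MP_3c83d0_ag.ElKer
import Pool.Agent.P.MP_3c83d0_ag.ElInd
import Pool.Agent.P.MP_3c83d0_ag.ElPlace

open MvPolynomial

namespace Pool.Agent.P.MP_3c83d0_ag

theorem elspec_hom {σ : Type} (w : σ → ℕ) (g : σ → S) (hg : ∀ o, (g o).IsHomogeneous (w o))
    {Φ : MvPolynomial σ ℚ} {e : ℕ} (h : Φ.IsWeightedHomogeneous w e) :
    (aeval g Φ).IsHomogeneous e := by
  rw [aeval_def, eval₂_eq]
  refine IsHomogeneous.sum _ _ _ fun d hd => ?_
  have h1 : Finsupp.weight w d = e := h (mem_support_iff.1 hd)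
  have h2 := IsHomogeneous.prod d.support (fun i => g i ^ d i) (fun i => w i * d i)
    fun i _ => (hg i).pow (d i)
  have h3 : ∑ i ∈ d.support, w i * d i = e := by
    rw [← h1, Finsupp.weight_apply, Finsupp.sum]
    exact Finset.sum_congr rfl fun i _ => by rw [smul_eq_mul, mul_comm]
  rw [h3] at h2
  rw [MvPolynomial.algebraMap_apply]
  exact h2.C_mul _

theorem elspec_base (n : ℕ) : ∃ (μ : ℂ) (s r : Fin n → ℂ),
    AlgebraicIndependent ℚ (fun o : Option (Fin n) => o.elim μ s) ∧
      ∀ b, r b ^ 2 = s b * (s b - 1) * (s b - μ) := by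
  obtain ⟨u, hu⟩ := exists_indep (κ := Empty) Empty.elim (Option (Fin n))
  choose r hr using fun b : Fin n =>
    IsAlgClosed.exists_pow_nat_eq (u (some b) * (u (some b) - 1) * (u (some b) - u none)) two_pos
  refine ⟨u none, fun b => u (some b), r, ?_, hr⟩
  have : (fun o : Option (Fin n) => o.elim (u none) fun b => u (some b)) = u := by
    funext o
    cases o <;> rfl
  rw [this]
  exact hu.restrictScalars (algebraMap ℚ _).injective

theorem elspec_sep {n : ℕ} {s r : Fin n → ℂ} (hs : Function.Injective s) :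
    Sep fun b => ![s b, r b, 1] := by
  refine ⟨fun b h => ?_, fun b b' hb c h => hb (hs ?_)⟩
  · simpa using congrFun h 2
  · have h2 : (1 : ℂ) = c := by simpa using congrFun h 2
    simpa [← h2] using congrFun h 0

theorem elspec_sep_update {n : ℕ} {w : Fin n → Fin 3 → ℂ} (hw : Sep w) (i : Fin n)
    {v : Fin 3 → ℂ} (hv : v ≠ 0) (h : ∀ b (c : ℂ), v ≠ c • w b) :
    Sep (Function.update w i v) := by
  refine ⟨fun b => ?_, fun b b' hb c => ?_⟩
  · rcases eq_or_ne b i with rfl | hb
    · rwa [Function.update_self]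
    · rw [Function.update_of_ne hb]
      exact hw.1 b
  · rcases eq_or_ne b i with rfl | h1
    · rw [Function.update_self, Function.update_of_ne hb.symm]
      exact h b' c
    · rw [Function.update_of_ne h1]
      rcases eq_or_ne b' i with rfl | h2
      · rw [Function.update_self]
        intro h3
        have hc : c ≠ 0 := fun h4 => hw.1 b (by rw [h3, h4, zero_smul])
        exact h b c⁻¹ (by rw [h3, smul_smul, inv_mul_cancel₀ hc, one_smul])
      · rw [Function.update_of_ne h2]
        exact hw.2 b b' hb c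

theorem elspec_place {σ : Type} (x y : σ → ℂ)
    (h : ∀ Ψ : MvPolynomial σ ℚ, aeval x Ψ = 0 → aeval y Ψ = 0) :
    ∃ P : Place ℂ ℂ, ∀ o, P.To (x o) (y o) := by
  obtain ⟨P, hP⟩ := exists_place (aeval x : MvPolynomial σ ℚ →ₐ[ℚ] ℂ).toRingHom
    (aeval y : MvPolynomial σ ℚ →ₐ[ℚ] ℂ).toRingHom h
  exact ⟨P, fun o => by simpa using hP (X o)⟩

/-- Generic points can be specialised to distinct points of a cubic with transcendental
parameter, and a given number to an algebraic number. -/
theorem exists_spec {n : ℕ} (a : Fin n × Fin 2 → ℂ) (ha : AlgebraicIndependent ℚ a) (l : ℂ) :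
    ∃ (μ : ℂ) (P : Place ℂ ℂ) (t : Fin n → ℂ) (v : Fin n → Fin 3 → ℂ) (l' : ℂ),
      Transcendental ℚ μ ∧ (∀ i, t i ≠ 0) ∧ Sep v ∧ (∀ i, OnC μ (v i)) ∧
      (∀ i j, P.To (t i * ![a (i, 0), a (i, 1), 1] j) (v i j)) ∧ P.To l l' ∧
      IsAlgebraic ℚ l' := by
  classical
  obtain ⟨t, ht⟩ := exists_indep (fun o : Option (Fin n × Fin 2) => o.elim l a) (Fin n)
  obtain ⟨μ, s, r, hind, hr⟩ := elspec_base n
  have hμ : Transcendental ℚ μ := hind.transcendental none
  have ht0 : ∀ i, t i ≠ 0 := fun i => ht.ne_zero i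
  have hs : Function.Injective s := fun b b' hb =>
    Option.some_injective _ (hind.injective (a₁ := some b) (a₂ := some b') hb)
  set w : Fin n → Fin 3 → ℂ := fun b => ![s b, r b, 1] with hw
  have hsep : Sep w := elspec_sep hs
  have hon : ∀ b, OnC μ (w b) := fun b => by
    simp only [OnC, hw, Matrix.cons_val_zero, Matrix.cons_val_one, Matrix.cons_val]
    rw [mul_one, mul_one, hr]
  have h2 : IsAlgebraic ℚ (2 : ℂ) := by simpa using isAlgebraic_natCast (R := ℚ) (A := ℂ) 2
  by_cases hl : IsAlgebraic ℚ l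
  · obtain ⟨P, hP⟩ := elspec_place
      (fun x : Fin n × Fin 3 => t x.1 * ![a (x.1, 0), a (x.1, 1), 1] x.2) (fun x => w x.1 x.2)
      fun Ψ hΨ => by rw [(indep_hom a ha l t ht).eq_zero_of_aeval_eq_zero Ψ hΨ, map_zero]
    obtain ⟨l', h1, h3⟩ := P.to_alg hl
    exact ⟨μ, P, t, w, l', hμ, ht0, hsep, hon, fun i j => hP (i, j), h1, h3⟩
  · have key : ∀ v : Fin n → Fin 3 → ℂ, Sep v → (∀ b, OnC μ (v b)) →
        (∀ Ψ : MvPolynomial (Option (Fin n × Fin 3)) ℚ,
          aeval (fun o => o.elim l fun x => t x.1 * ![a (x.1, 0), a (x.1, 1), 1] x.2) Ψ = 0 →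
          aeval (fun o : Option (Fin n × Fin 3) => o.elim (2 : ℂ) fun x => v x.1 x.2) Ψ = 0) →
        ∃ (μ : ℂ) (P : Place ℂ ℂ) (t : Fin n → ℂ) (v : Fin n → Fin 3 → ℂ) (l' : ℂ),
          Transcendental ℚ μ ∧ (∀ i, t i ≠ 0) ∧ Sep v ∧ (∀ i, OnC μ (v i)) ∧
          (∀ i j, P.To (t i * ![a (i, 0), a (i, 1), 1] j) (v i j)) ∧ P.To l l' ∧
          IsAlgebraic ℚ l' := fun v hv hv' h => by
      obtain ⟨P, hP⟩ := elspec_place _ _ h
      exact ⟨μ, P, t, v, 2, hμ, ht0, hv, hv', fun i j => hP (some (i, j)), hP none, h2⟩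
    rcases ker_hom a ha l hl t ht with h | ⟨Φ, i, e, he, hΦ, h⟩
    · exact key w hsep hon fun Ψ hΨ => by rw [h Ψ hΨ, map_zero]
    · let g : Option (Fin n × Fin 3) → S := fun o =>
        o.elim (C 2) fun x => if x.1 = i then X x.2 else C (w x.1 x.2)
      have hZ := elspec_hom _ g (fun o => by
        cases o with
        | none => exact isHomogeneous_C _ _
        | some x =>
          simp only [g, Option.elim_some]
          split_ifs
          · exact isHomogeneous_X _ _
          · exact isHomogeneous_C _ _) hΦ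
      obtain ⟨v, hv0, hv1, hv2, hv3⟩ := zero_one μ s hind r hr he hZ
      refine key (Function.update w i v) (elspec_sep_update hsep i hv0 hv3) (fun b => ?_)
        fun Ψ hΨ => ?_
      · rcases eq_or_ne b i with rfl | hb
        · rwa [Function.update_self]
        · rw [Function.update_of_ne hb]
          exact hon b
      · obtain ⟨Q, rfl⟩ := h Ψ hΨ
        have h3 : aeval (fun o : Option (Fin n × Fin 3) =>
            o.elim (2 : ℂ) fun x => Function.update w i v x.1 x.2) Φ = 0 := by
          rw [← hv2, ← coe_aeval_eq_eval]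
          have h4 := comp_aeval_apply (f := g)
            ((aeval v : S →ₐ[ℂ] ℂ).restrictScalars ℚ) Φ
          refine Eq.trans ?_ h4.symm
          congr 2
          funext o
          cases o with
          | none => simp [g]
          | some x =>
            rcases eq_or_ne x.1 i with hx | hx
            · simp [g, hx]
            · simp [g, hx]
        rw [map_mul, h3, zero_mul]

end Pool.Agent.P.MP_3c83d0_ag
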