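import Pool.Agent.P.MP_3c83d0_ag.ElDefs

open Polynomial

namespace Pool.Agent.P.MP_3c83d0_ag

theorem elw_roots (W : WeierstrassCurve ℂ) [W.IsElliptic] :
    ∃ e1 e2 e3 : ℂ, e1 ≠ e2 ∧ W.b₂ = 4 * -(e1 + e2 + e3) ∧
      2 * W.b₄ = 4 * (e1 * e2 + e1 * e3 + e2 * e3) ∧ W.b₆ = 4 * -(e1 * e2 * e3) := by
  have ha : W.twoTorsionPolynomial.a ≠ 0 := by
    simp [WeierstrassCurve.twoTorsionPolynomial]
  obtain ⟨e1, e2, e3, h3⟩ := (Cubic.splits_iff_roots_eq_three (φ := RingHom.id ℂ) ha).1
    (IsAlgClosed.splits _)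
  have hd : W.twoTorsionPolynomial.discr ≠ 0 :=
    W.twoTorsionPolynomial_discr_ne_zero (IsUnit.mk0 _ two_ne_zero) W.isUnit_Δ
  have h1 := (Cubic.discr_ne_zero_iff_roots_ne ha h3).1 hd
  exact ⟨e1, e2, e3, h1.1, Cubic.b_eq_three_roots ha h3, Cubic.c_eq_three_roots ha h3,
    Cubic.d_eq_three_roots ha h3⟩

/-- The two coordinate functions satisfy the equation and generate the function field. -/
theorem elw_coord (W : WeierstrassCurve ℂ) :
    ∃ x y : W.toAffine.FunctionField,
      y ^ 2 + (algebraMap ℂ _ W.a₁ * x + algebraMap ℂ _ W.a₃) * y =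
        x ^ 3 + algebraMap ℂ _ W.a₂ * x ^ 2 + algebraMap ℂ _ W.a₄ * x + algebraMap ℂ _ W.a₆ ∧
      ∀ K : IntermediateField ℂ W.toAffine.FunctionField, x ∈ K → y ∈ K → K = ⊤ := by
  let j : ℂ[X][X] →+* W.toAffine.FunctionField :=
    (algebraMap W.toAffine.CoordinateRing W.toAffine.FunctionField).comp
      (WeierstrassCurve.Affine.CoordinateRing.mk W.toAffine)
  have hj : ∀ a : ℂ, j (C (C a)) = algebraMap ℂ _ a := fun a => by
    rw [IsScalarTower.algebraMap_apply ℂ W.toAffine.CoordinateRing W.toAffine.FunctionField]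
    rfl
  refine ⟨j (C X), j X, ?_, fun K hx hy => ?_⟩
  · have h0 : j (X ^ 2 + C (C W.a₁ * X + C W.a₃) * X -
        C (X ^ 3 + C W.a₂ * X ^ 2 + C W.a₄ * X + C W.a₆)) = 0 := by
      change j W.toAffine.polynomial = 0
      simp only [j, RingHom.comp_apply]
      rw [AdjoinRoot.mk_self, map_zero]
    simp only [map_sub, map_add, map_mul, map_pow, hj] at h0
    exact sub_eq_zero.1 h0
  · have h1 : ∀ p : ℂ[X], j (C p) ∈ K := fun p => by
      induction p using Polynomial.induction_on' with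
      | add p q hp hq => rw [map_add, map_add]; exact K.add_mem hp hq
      | monomial n a =>
        rw [← C_mul_X_pow_eq_monomial, map_mul, map_mul, map_pow, map_pow, hj]
        exact K.mul_mem (K.algebraMap_mem a) (pow_mem hx n)
    have h2 : ∀ p : ℂ[X][X], j p ∈ K := fun p => by
      induction p using Polynomial.induction_on' with
      | add p q hp hq => rw [map_add]; exact K.add_mem hp hq
      | monomial n a =>
        rw [← C_mul_X_pow_eq_monomial, map_mul, map_pow]
        exact K.mul_mem (h1 a) (pow_mem hy n)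
    have h3 : ∀ u : W.toAffine.CoordinateRing, algebraMap _ W.toAffine.FunctionField u ∈ K :=
      fun u => by
        obtain ⟨p, rfl⟩ := AdjoinRoot.mk_surjective u
        exact h2 p
    rw [eq_top_iff]
    intro z _
    obtain ⟨u, v, _, rfl⟩ := IsFractionRing.div_surjective (A := W.toAffine.CoordinateRing) z
    exact K.div_mem (h3 u) (h3 v)

/-- Legendre form of the function field of an elliptic curve. -/
theorem wbridge (W : WeierstrassCurve ℂ) [W.IsElliptic] :
    ∃ (l : ℂ) (x y : W.toAffine.FunctionField),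
      y ^ 2 = x * (x - 1) * (x - algebraMap ℂ W.toAffine.FunctionField l) ∧
      IntermediateField.adjoin ℂ {x, y} = ⊤ := by
  obtain ⟨e1, e2, e3, h12, hb2, hb4, hb6⟩ := elw_roots W
  obtain ⟨x, y, hxy, htop⟩ := elw_coord W
  have hd : e2 - e1 ≠ 0 := sub_ne_zero.2 h12.symm
  obtain ⟨ρ, hρ⟩ := IsAlgClosed.exists_pow_nat_eq ((e2 - e1) ^ 3) (n := 2) two_pos
  have hρ0 : ρ ≠ 0 := by
    rintro rfl
    exact pow_ne_zero 3 hd (by rw [← hρ]; simp)
  set i := algebraMap ℂ W.toAffine.FunctionField with hi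
  have hd' : i e2 - i e1 ≠ 0 := by rw [← map_sub]; exact (map_ne_zero i).2 hd
  have hρ' : i ρ ≠ 0 := (map_ne_zero i).2 hρ0
  have h2 : i (1 / 2) * 2 = 1 := by
    rw [← map_ofNat i 2, ← map_mul]; norm_num
  have hρ2 : i ρ ^ 2 = (i e2 - i e1) ^ 3 := by rw [← map_pow, hρ, map_pow, map_sub]
  have ha2 : W.a₂ + (1 / 2 * W.a₁) ^ 2 = -(e1 + e2 + e3) := by
    rw [WeierstrassCurve.b₂] at hb2
    linear_combination hb2 / 4
  have ha4 : W.a₄ + 2 * (1 / 2 * W.a₁) * (1 / 2 * W.a₃) = e1 * e2 + e1 * e3 + e2 * e3 := by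
    rw [WeierstrassCurve.b₄] at hb4
    linear_combination hb4 / 4
  have ha6 : W.a₆ + (1 / 2 * W.a₃) ^ 2 = -(e1 * e2 * e3) := by
    rw [WeierstrassCurve.b₆] at hb6
    linear_combination hb6 / 4
  have ha2' := congrArg i ha2
  have ha4' := congrArg i ha4
  have ha6' := congrArg i ha6
  simp only [map_add, map_mul, map_pow, map_neg, map_ofNat] at ha2' ha4' ha6'
  set h := i (1 / 2) with hh
  have key : (y + h * (i W.a₁ * x + i W.a₃)) ^ 2 = (x - i e1) * (x - i e2) * (x - i e3) := by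
    linear_combination hxy + x ^ 2 * ha2' + x * ha4' + ha6' + (i W.a₁ * x + i W.a₃) * y * h2
  refine ⟨(e3 - e1) / (e2 - e1), (x - i e1) / (i e2 - i e1),
    (y + h * (i W.a₁ * x + i W.a₃)) / i ρ, ?_, htop _ ?_ ?_⟩
  · rw [div_pow, key, hρ2, map_div₀, map_sub, map_sub]
    field_simp
    ring
  · have hx : x = i (e2 - e1) * ((x - i e1) / (i e2 - i e1)) + i e1 := by
      rw [map_sub]
      field_simp
      ring
    rw [hx]
    refine add_mem (mul_mem (IntermediateField.algebraMap_mem _ _) ?_)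
      (IntermediateField.algebraMap_mem _ _)
    rw [← hx]
    exact IntermediateField.subset_adjoin _ _ (Set.mem_insert _ _)
  · set K := IntermediateField.adjoin ℂ {(x - i e1) / (i e2 - i e1),
      (y + h * (i W.a₁ * x + i W.a₃)) / i ρ} with hK
    have hc : ∀ a : ℂ, i a ∈ K := fun a => IntermediateField.algebraMap_mem _ _
    have h1 : (x - i e1) / (i e2 - i e1) ∈ K :=
      IntermediateField.subset_adjoin _ _ (Set.mem_insert _ _)
    have h3 : (y + h * (i W.a₁ * x + i W.a₃)) / i ρ ∈ K :=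
      IntermediateField.subset_adjoin _ _ (Set.mem_insert_of_mem _ rfl)
    have hx : x ∈ K := by
      have := add_mem (mul_mem (sub_mem (hc e2) (hc e1)) h1) (hc e1)
      rwa [mul_div_cancel₀ _ hd', sub_add_cancel] at this
    have := sub_mem (mul_mem (hc ρ) h3)
      (mul_mem (hc (1 / 2)) (add_mem (mul_mem (hc W.a₁) hx) (hc W.a₃)))
    rwa [mul_div_cancel₀ _ hρ', add_sub_cancel_right] at this

theorem exists_generic : ∃ ξ : AlgebraicClosure (RatFunc ℂ), Transcendental ℂ ξ ∧
    ∀ w : AlgebraicClosure (RatFunc ℂ), IsAlgebraic (IntermediateField.adjoin ℂ {ξ}) w := by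
  set j := algebraMap (RatFunc ℂ) (AlgebraicClosure (RatFunc ℂ)) with hj
  refine ⟨j RatFunc.X, ?_, fun w => ?_⟩
  · exact (transcendental_algebraMap_iff j.injective).2 RatFunc.transcendental_X
  · set K := IntermediateField.adjoin ℂ {j RatFunc.X} with hK
    have h1 : ∀ p : ℂ[X], j (algebraMap ℂ[X] (RatFunc ℂ) p) ∈ K := fun p => by
      induction p using Polynomial.induction_on' with
      | add p q hp hq => rw [map_add, map_add]; exact K.add_mem hp hq
      | monomial n a =>
        rw [← C_mul_X_pow_eq_monomial, map_mul, map_mul, map_pow, map_pow, RatFunc.algebraMap_X]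
        refine K.mul_mem ?_ (pow_mem (IntermediateField.mem_adjoin_simple_self ℂ _) n)
        have : j (algebraMap ℂ[X] (RatFunc ℂ) (C a)) = algebraMap ℂ _ a := by
          rw [IsScalarTower.algebraMap_apply ℂ (RatFunc ℂ) (AlgebraicClosure (RatFunc ℂ)),
            RatFunc.algebraMap_C, RatFunc.algebraMap_eq_C]
        rw [this]
        exact K.algebraMap_mem a
    have h2 : ∀ r : RatFunc ℂ, j r ∈ K := fun r => by
      rw [← RatFunc.num_div_denom r, map_div₀]
      exact K.div_mem (h1 _) (h1 _)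
    let f : RatFunc ℂ →+* K := j.codRestrict K.toSubfield h2
    obtain ⟨p, hp0, hp⟩ := Algebra.IsAlgebraic.isAlgebraic (R := RatFunc ℂ) w
    refine ⟨p.map f, (Polynomial.map_ne_zero_iff f.injective).2 hp0, ?_⟩
    rw [aeval_def, eval₂_map]
    exact hp

end Pool.Agent.P.MP_3c83d0_ag
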