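import Pool.Agent.P.MP_3c83d0_ag.Defs

open MvPolynomial

namespace Pool.Agent.P.MP_3c83d0_ag

variable {ι : Type*} [Fintype ι] {d : ℕ} {m : ι → ℕ} {h0 h1 : ℕ → (ι → ℕ) → ℕ}

theorem num_dg_add (d : ℕ) (m : ι → ℕ) (k k' : ℕ) (μ μ' : ι → ℕ) :
    dg d m (k + k') (μ + μ') = dg d m k μ + dg d m k' μ' := by
  unfold dg
  simp only [Pi.add_apply, Nat.cast_add, add_mul, Finset.sum_add_distrib]
  ring

theorem num_big (h : Pack d m h0 h1) :
    ∃ K, d ≤ K + 2 ∧ h1 K m = 0 ∧ 0 < h0 K m := by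
  obtain ⟨k0, hk0⟩ := h.van m
  set N : ℕ := (2 * ∑ i, (m i : ℤ) * m i + g2 d m).toNat + 1 with hN
  refine ⟨k0 + d + N, by omega, hk0 _ (by omega), ?_⟩
  have hr := h.rr (k0 + d + N) m (by omega) (fun i => by omega)
  rw [hk0 _ (by omega)] at hr
  unfold dg at hr
  have h2 : 2 * ∑ i, (m i : ℤ) * m i + g2 d m < N := by
    have := Int.self_le_toNat (2 * ∑ i, (m i : ℤ) * m i + g2 d m)
    rw [hN]; push_cast; omega
  have h3 : (1 : ℤ) ≤ d := by exact_mod_cast h.pos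
  have h4 : (0 : ℤ) < h0 (k0 + d + N) m := by
    push_cast at hr
    nlinarith [Int.natCast_nonneg k0, Int.natCast_nonneg N]
  exact_mod_cast h4

/-- Bezout bound. -/
theorem Pack.b0 (h : Pack d m h0 h1) (k : ℕ) (μ : ι → ℕ) (hp : 0 < h0 k μ) :
    (h0 k μ : ℤ) ≤ dg d m k μ + 1 := by
  obtain ⟨K, hK, hv, hpos⟩ := num_big h
  have e1 : h1 (K + k) (m + μ) = 0 := by
    by_contra hc
    have := h.p1 K m k μ hK hp (Nat.pos_of_ne_zero hc)
    omega
  have r1 := h.rr K m hK (fun i => by omega)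
  have r2 := h.rr (K + k) (m + μ) (by omega) (fun i => by simp only [Pi.add_apply]; omega)
  have p := h.p0 K m k μ hpos hp
  rw [num_dg_add, e1] at r2
  rw [hv] at r1
  omega

theorem Pack.g0 (h : Pack d m h0 h1) : -2 ≤ g2 d m := by
  obtain ⟨K, hK, hv, hpos⟩ := num_big h
  have r1 := h.rr K m hK (fun i => by omega)
  have b := h.b0 K m hpos
  rw [hv] at r1
  omega

/-- A class with `h0 = deg + 1 ≥ 2` forces genus zero. -/
theorem Pack.g1 (h : Pack d m h0 h1) (k : ℕ) (μ : ι → ℕ) (hk : d ≤ k + 2)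
    (hμ : ∀ i, m i ≤ μ i + 1) (h2 : 2 ≤ h0 k μ) (hd : dg d m k μ + 1 ≤ h0 k μ) :
    g2 d m = -2 := by
  have key : ∀ j : ℕ, ∃ k' μ', d ≤ k' + 2 ∧ (∀ i, m i ≤ μ' i + 1) ∧ 0 < h0 k' μ' ∧
      dg d m k' μ' + 1 ≤ h0 k' μ' ∧ (h1 k' μ' = 0 ∨ h1 k' μ' + j ≤ h1 k μ) := by
    intro j
    induction j with
    | zero => exact ⟨k, μ, hk, hμ, by omega, hd, Or.inr le_rfl⟩
    | succ j ih =>
      obtain ⟨k', μ', a1, a2, a3, a4, a5⟩ := ih
      have p := h.p0 k' μ' k μ a3 (by omega)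
      refine ⟨k' + k, μ' + μ, by omega, fun i => ?_, by omega, ?_, ?_⟩
      · have := a2 i
        simp only [Pi.add_apply]
        omega
      · rw [num_dg_add]
        omega
      · by_cases hc : h1 (k' + k) (μ' + μ) = 0
        · exact Or.inl hc
        · have := h.p1 k' μ' k μ a1 (by omega) (Nat.pos_of_ne_zero hc)
          omega
  obtain ⟨k', μ', a1, a2, a3, a4, a5⟩ := key (h1 k μ)
  have r := h.rr k' μ' a1 a2
  have g := h.g0
  omega

/-- Clifford type alternative. -/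
theorem Pack.cl (h : Pack d m h0 h1) (k : ℕ) (μ : ι → ℕ) (k' : ℕ) (μ' : ι → ℕ) (hk : d ≤ k + 2)
    (hμ : ∀ i, m i ≤ μ i + 1) (hp : 0 < h0 k' μ')
    (hlt : dg d m k' μ' + 1 + h0 k μ < h0 k' μ' + h0 (k + k') (μ + μ')) :
    2 * (h0 (k + k') (μ + μ') : ℤ) = 2 * dg d m (k + k') (μ + μ') - g2 d m := by
  have r1 := h.rr k μ hk hμ
  have r2 := h.rr (k + k') (μ + μ') (by omega) (fun i => by
    have := hμ i
    simp only [Pi.add_apply]
    omega)
  by_cases hc : h1 (k + k') (μ + μ') = 0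
  · rw [hc] at r2
    omega
  · have := h.p1 k μ k' μ' hk hp (Nat.pos_of_ne_zero hc)
    rw [num_dg_add] at r2
    omega

end Pool.Agent.P.MP_3c83d0_ag
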