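import Pool.Agent.P.MP_3c83d0_ag.Lin

open MvPolynomial

namespace Pool.Agent.P.MP_3c83d0_ag

variable {ι : Type*} [Fintype ι]

theorem Gen.sep {p : ι → Fin 3 → ℂ} (hp : Gen p) : Sep p := by
  classical
  refine ⟨hp.1, fun i j hij c hc => ?_⟩
  have key : ∀ u : Fin 3 → ℂ, ∃ α : ℂ, ∀ a, u a = α * p j a := by
    intro u
    obtain ⟨D, A, e, h⟩ := hp.2 (Pi.single i u)
    refine ⟨c * e j - D c - e i * c, fun a => ?_⟩
    have h1 := h i a
    have h2 := h j a
    rw [Pi.single_eq_same, hc, Matrix.mulVec_smul] at h1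
    rw [Pi.single_eq_of_ne hij.symm] at h2
    simp only [Pi.smul_apply, smul_eq_mul, Derivation.leibniz, Pi.zero_apply] at h1 h2
    linear_combination c * h2 - h1
  obtain ⟨α, hα⟩ := key (Pi.single 0 1)
  obtain ⟨β, hβ⟩ := key (Pi.single 1 1)
  have a0 := hα 0
  have a1 := hα 1
  have b0 := hβ 0
  have b1 := hβ 1
  simp only [Pi.single_eq_same] at a0 b1
  rw [Pi.single_eq_of_ne (by decide)] at a1 b0
  have : (1 : ℂ) = 0 := by
    linear_combination a0 + α * p j 0 * b1 - β * p j 0 * a1
  exact one_ne_zero this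

theorem Gen.det_ne {p : ι → Fin 3 → ℂ} (hp : Gen p) {i j k : ι} (hij : i ≠ j) (hik : i ≠ k)
    (hjk : j ≠ k) : (Matrix.of ![p i, p j, p k]).det ≠ 0 := by
  classical
  intro hdet
  rw [Matrix.det_fin_three] at hdet
  simp only [Matrix.of_apply, Matrix.cons_val_zero, Matrix.cons_val_one, Matrix.cons_val] at hdet
  have key : ∀ u : Fin 3 → ℂ, u 0 * (p j 1 * p k 2 - p j 2 * p k 1)
      + u 1 * (p j 2 * p k 0 - p j 0 * p k 2) + u 2 * (p j 0 * p k 1 - p j 1 * p k 0) = 0 := by
    intro u
    obtain ⟨D, A, e, h⟩ := hp.2 (Pi.single i u)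
    have hi : ∀ a, D (p i a) = A a 0 * p i 0 + A a 1 * p i 1 + A a 2 * p i 2 - u a
        - e i * p i a := fun a => by
      have := h i a
      rw [Pi.single_eq_same] at this
      simp only [Matrix.mulVec, dotProduct, Fin.sum_univ_three] at this
      linear_combination -this
    have hl : ∀ l, l ≠ i → ∀ a, D (p l a) = A a 0 * p l 0 + A a 1 * p l 1 + A a 2 * p l 2
        - e l * p l a := fun l hl a => by
      have := h l a
      rw [Pi.single_eq_of_ne hl] at this
      simp only [Matrix.mulVec, dotProduct, Fin.sum_univ_three, Pi.zero_apply] at this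
      linear_combination -this
    have hD := congrArg D hdet
    simp only [map_sub, map_add, Derivation.leibniz, smul_eq_mul, map_zero, hi, hl j hij.symm,
      hl k hik.symm] at hD
    linear_combination (A 0 0 + A 1 1 + A 2 2 - e i - e j - e k) * hdet - hD
  have c0 := key (Pi.single 0 1)
  have c1 := key (Pi.single 1 1)
  have c2 := key (Pi.single 2 1)
  simp only [Pi.single_eq_same, Pi.single_eq_of_ne, ne_eq, Fin.reduceEq, not_false_eq_true,
    one_mul, zero_mul, add_zero, zero_add] at c0 c1 c2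
  obtain ⟨a, ha⟩ := Function.ne_iff.1 (hp.1 k)
  rw [Pi.zero_apply] at ha
  refine hp.sep.2 j k hjk (p j a / p k a) (funext fun b => ?_)
  rw [Pi.smul_apply, smul_eq_mul, div_mul_eq_mul_div, eq_div_iff ha]
  fin_cases a <;> fin_cases b <;> simp only [Fin.zero_eta, Fin.mk_one, Fin.reduceFinMk] <;>
    first
      | linear_combination c0
      | linear_combination -c0
      | linear_combination c1
      | linear_combination -c1
      | linear_combination c2
      | linear_combination -c2

theorem Gen.subst {p : ι → Fin 3 → ℂ} (hp : Gen p) {g : Matrix (Fin 3) (Fin 3) ℂ}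
    (hg : IsUnit g.det) : Gen (fun i => g.mulVec (p i)) := by
  refine ⟨fun i h0 => hp.1 i ?_, fun w => ?_⟩
  · have h1 : g⁻¹.mulVec (g.mulVec (p i)) = p i := by
      rw [Matrix.mulVec_mulVec, Matrix.nonsing_inv_mul _ hg, Matrix.one_mulVec]
    have h2 : g.mulVec (p i) = 0 := h0
    rw [← h1, h2, Matrix.mulVec_zero]
  · obtain ⟨D, A, c, h⟩ := hp.2 fun i => g⁻¹.mulVec (w i)
    refine ⟨D, (g * A + g.map D) * g⁻¹, c, fun i a => ?_⟩
    have h1 : ((g * A + g.map D) * g⁻¹).mulVec (g.mulVec (p i))
        = g.mulVec (A.mulVec (p i)) + (g.map D).mulVec (p i) := by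
      rw [Matrix.mulVec_mulVec, Matrix.mul_assoc, Matrix.nonsing_inv_mul _ hg, Matrix.mul_one,
        Matrix.add_mulVec, Matrix.mulVec_mulVec]
    have h2 : g.mulVec (g⁻¹.mulVec (w i)) = w i := by
      rw [Matrix.mulVec_mulVec, Matrix.mul_nonsing_inv _ hg, Matrix.one_mulVec]
    have h3 := congrFun h2 a
    have e0 := h i 0
    have e1 := h i 1
    have e2 := h i 2
    dsimp only at e0 e1 e2 ⊢
    rw [h1, Pi.add_apply]
    generalize g⁻¹.mulVec (w i) = w' at h3 e0 e1 e2
    generalize A.mulVec (p i) = v at e0 e1 e2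
    simp only [Matrix.mulVec, dotProduct, Fin.sum_univ_three, Matrix.map_apply, map_add,
      Derivation.leibniz, smul_eq_mul] at h3 ⊢
    linear_combination g a 0 * e0 + g a 1 * e1 + g a 2 * e2 + h3

/-- Apply a derivation of the ground field to all coefficients. -/
noncomputable def thCo (D : Derivation ℤ ℂ ℂ) (G : S) : S :=
  ∑ s ∈ G.support, monomial s (D (coeff s G))

theorem coeff_thCo (D : Derivation ℤ ℂ ℂ) (G : S) (s : Fin 3 →₀ ℕ) :
    coeff s (thCo D G) = D (coeff s G) := by
  unfold thCo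
  rw [coeff_sum]
  simp only [coeff_monomial]
  rw [Finset.sum_ite_eq']
  split_ifs with h
  · rfl
  · rw [notMem_support_iff.1 h, map_zero]

theorem thCo_add (D : Derivation ℤ ℂ ℂ) (G H : S) : thCo D (G + H) = thCo D G + thCo D H := by
  ext s
  simp only [coeff_thCo, coeff_add, map_add]

theorem thCo_mul (D : Derivation ℤ ℂ ℂ) (G H : S) :
    thCo D (G * H) = G * thCo D H + H * thCo D G := by
  ext s
  rw [mul_comm H]
  simp only [coeff_thCo, coeff_add, coeff_mul, map_sum, Derivation.leibniz, smul_eq_mul,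
    ← Finset.sum_add_distrib]
  exact Finset.sum_congr rfl fun x _ => by ring

theorem thCo_sub (D : Derivation ℤ ℂ ℂ) (a : Fin 3) (c : ℂ) :
    thCo D (X a - C c) = -C (D c) := by
  ext s
  rw [coeff_thCo, coeff_sub, coeff_neg, coeff_C, coeff_C, coeff_X, map_sub]
  split_ifs <;> simp

theorem thCo_pderiv (D : Derivation ℤ ℂ ℂ) (G : S) (j : Fin 3) :
    thCo D (pderiv j G) = pderiv j (thCo D G) := by
  ext s
  rw [coeff_thCo, coeff_pderiv, coeff_pderiv, coeff_thCo, Derivation.leibniz, map_add,
    Derivation.map_natCast, Derivation.map_one_eq_zero]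
  simp [mul_comm]

theorem th_pderiv_comm (G : S) (a j : Fin 3) :
    pderiv a (pderiv j G) = pderiv j (pderiv a G) := by
  ext s
  simp only [coeff_pderiv]
  rw [add_right_comm s]
  by_cases h : a = j
  · subst h
    rfl
  · simp only [Finsupp.add_apply, Finsupp.single_eq_of_ne h, Finsupp.single_eq_of_ne (Ne.symm h),
      add_zero]
    ring

/-- A derivation of the ground field plus a polynomial vector field. -/
noncomputable def th (D : Derivation ℤ ℂ ℂ) (V : Fin 3 → S) : Derivation ℤ S S :=
  Derivation.mk'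
    (AddMonoidHom.mk' (fun G => thCo D G + ∑ a, V a * pderiv a G) fun G H => by
      simp only [thCo_add, map_add, mul_add, Finset.sum_add_distrib]
      ring).toIntLinearMap
    fun G H => by
      show thCo D (G * H) + ∑ a, V a * pderiv a (G * H)
        = G * (thCo D H + ∑ a, V a * pderiv a H) + H * (thCo D G + ∑ a, V a * pderiv a G)
      simp only [thCo_mul, Derivation.leibniz, smul_eq_mul, Fin.sum_univ_three]
      ring

theorem th_apply (D : Derivation ℤ ℂ ℂ) (V : Fin 3 → S) (G : S) :
    th D V G = thCo D G + ∑ a, V a * pderiv a G := rfl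

theorem th_mem (D : Derivation ℤ ℂ ℂ) (V : Fin 3 → S) (q : Fin 3 → ℂ)
    (h : ∀ a, eval q (V a) = D (q a)) (n : ℕ) : ∀ G ∈ mx q ^ n, th D V G ∈ mx q ^ n := by
  have key : ∀ x ∈ Ideal.span (Set.range fun j => (X j - C (q j) : S)), th D V x ∈ mx q := by
    intro x hx
    induction hx using Submodule.span_induction with
    | mem x hx =>
      obtain ⟨a, rfl⟩ := hx
      rw [mem_mx, th_apply, thCo_sub]
      have e : ∑ b, V b * pderiv b (X a - C (q a) : S) = V a := by
        simp only [map_sub, pderiv_C, sub_zero, pderiv_X]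
        rw [Finset.sum_eq_single a]
        · simp
        · intro b _ hb
          simp [Pi.single_eq_of_ne hb.symm]
        · simp
      rw [e]
      simp [h]
    | zero => simp
    | add x y _ _ hx hy =>
      rw [map_add]
      exact Ideal.add_mem _ hx hy
    | smul r x hx0 hx =>
      have hx1 : x ∈ mx q := by rw [mx_eq_span]; exact hx0
      rw [smul_eq_mul, Derivation.leibniz, smul_eq_mul, smul_eq_mul]
      exact Ideal.add_mem _ (Ideal.mul_mem_left _ _ hx) (Ideal.mul_mem_right _ _ hx1)
  exact der_pow_mem (th D V) (mx q) (fun x hx => key x (mx_eq_span q ▸ hx)) n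

/-- The derivation of the polynomial ring that moves `p i` in the direction `w` and fixes the
other points. -/
theorem Gen.exists_theta {p : ι → Fin 3 → ℂ} (hp : Gen p) (i : ι) (w : Fin 3 → ℂ) :
    ∃ Θ : Derivation ℤ S S, (∀ (G : S) (k : ℕ), G.IsHomogeneous k → (Θ G).IsHomogeneous k) ∧
      (∀ j, j ≠ i → ∀ (G : S) (k a : ℕ), G.IsHomogeneous k → G ∈ mx (p j) ^ a →
        Θ G ∈ mx (p j) ^ a) ∧
      (∀ (G : S) (k a : ℕ), G.IsHomogeneous k → G ∈ mx (p i) ^ a →
        Θ G - dv w G ∈ mx (p i) ^ a) ∧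
      (∀ (G : S) (j : Fin 3),
        Θ (pderiv j G) - pderiv j (Θ G) ∈ Ideal.span (Set.range fun b => pderiv b G)) := by
  classical
  obtain ⟨D, A, c, h⟩ := hp.2 (Pi.single i w)
  have main : ∀ (j : ι) (u : Fin 3 → ℂ), (Pi.single i w : ι → Fin 3 → ℂ) j = u →
      ∀ (G : S) (k a : ℕ), G.IsHomogeneous k → G ∈ mx (p j) ^ a →
        th D (fun a => ∑ b, C (A a b) * X b) G - dv u G ∈ mx (p j) ^ a := by
    intro j u hu G k a hG hm
    have h1 := th_mem D (fun a => ∑ b, C (A a b) * X b - C (u a + c j * p j a)) (p j)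
      (fun a => by
        have := h j a
        rw [hu] at this
        simp only [Matrix.mulVec, dotProduct] at this
        simp only [map_sub, map_sum, map_mul, eval_C, eval_X]
        linear_combination this) a G hm
    have h2 := Ideal.mul_mem_left _ (C (c j)) (dv_self_mem (p j) hG hm)
    have h3 := Ideal.add_mem _ h1 h2
    convert h3 using 1
    simp only [th_apply, dv, Fin.sum_univ_three, map_add, map_mul]
    ring
  refine ⟨th D fun a => ∑ b, C (A a b) * X b, fun G k hG => ?_, fun j hj G k a hG hm => ?_,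
    main i w (Pi.single_eq_same _ _), fun G j => ?_⟩
  · rw [th_apply]
    refine IsHomogeneous.add (fun s hs => hG fun h0 => hs ?_) (IsHomogeneous.sum _ _ _ fun a _ => ?_)
    · rw [coeff_thCo, h0, map_zero]
    · rcases k with _ | k
      · rw [totalDegree_eq_zero_iff_eq_C.1 (Nat.le_zero.1 hG.totalDegree_le), pderiv_C, mul_zero]
        exact isHomogeneous_zero _ _ _
      · have h1 : (∑ b, C (A a b) * X b : S).IsHomogeneous 1 :=
          IsHomogeneous.sum _ _ _ fun b _ => (isHomogeneous_X ℂ b).C_mul _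
        have h2 := h1.mul (hG.pderiv (i := a))
        rwa [Nat.add_sub_cancel, add_comm] at h2
  · have h1 := main j 0 (Pi.single_eq_of_ne hj _) G k a hG hm
    have h2 : dv (0 : Fin 3 → ℂ) G = 0 := by simp [dv]
    rwa [h2, sub_zero] at h1
  · generalize (fun a => ∑ b, C (A a b) * X b : Fin 3 → S) = V
    have e : th D V (pderiv j G) - pderiv j (th D V G) = -∑ a, pderiv j (V a) * pderiv a G := by
      simp only [th_apply, map_add, thCo_pderiv, Fin.sum_univ_three, Derivation.leibniz,
        smul_eq_mul, th_pderiv_comm G _ j]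
      ring
    rw [e]
    exact neg_mem (Ideal.sum_mem _ fun a _ =>
      Ideal.mul_mem_left _ _ (Ideal.subset_span ⟨a, rfl⟩))

end Pool.Agent.P.MP_3c83d0_ag
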