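import Pool.Agent.P.MP_3c83d0_ag.Proj
import Pool.Agent.P.MP_3c83d0_ag.Num
import Pool.Agent.P.MP_3c83d0_ag.Theta

open MvPolynomial

namespace Pool.Agent.P.MP_3c83d0_ag

variable {ι : Type*} [Fintype ι] {p : ι → Fin 3 → ℂ} {F : S} {m : ι → ℕ}

/-- Bezout inequality for a form that is not divisible by the equation of the curve. -/
theorem hal_bez {d k : ℕ} {μ : ι → ℕ} {G : S} (hs : Sep p) (hC : Cv p F d m)
    (hG : G.IsHomogeneous k) (hμ : ∀ i, G ∈ mx (p i) ^ μ i ⊔ Ideal.span {F}) (hd : ¬ F ∣ G) :
    0 ≤ dg d m k μ := by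
  obtain ⟨h0, h1, hP, hL⟩ := exists_pack hs hC
  have h := hL k μ 1 (fun _ => G) (fun _ => hG) (fun _ i => hμ i) (by
    intro c hc a
    by_contra hne
    have ha : a = 0 := Subsingleton.elim _ _
    subst ha
    rw [Fin.sum_univ_one] at hc
    exact hd (((IsUnit.mk0 _ hne).map C).dvd_mul_left.mp hc))
  have := hP.b0 k μ (by omega)
  have h' : (1 : ℤ) ≤ h0 k μ := by exact_mod_cast h
  omega

/-- A form of smaller degree is not divisible by the equation of the curve. -/
theorem hal_not_dvd {d k : ℕ} {G : S} (hF : F.IsHomogeneous d) (hF0 : F ≠ 0)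
    (hG : G.IsHomogeneous k) (hG0 : G ≠ 0) (hk : k < d) : ¬ F ∣ G := by
  intro h
  have := totalDegree_le_of_dvd_of_isDomain h hG0
  rw [hF.totalDegree hF0, hG.totalDegree hG0] at this
  omega

/-- There is a cubic through nine points. -/
theorem hal_cubic (hc : Fintype.card ι = 9) (p : ι → Fin 3 → ℂ) :
    ∃ G : S, G ≠ 0 ∧ G.IsHomogeneous 3 ∧ ∀ i, eval (p i) G = 0 := by
  classical
  set T : Finset (Fin 3 →₀ ℕ) := (Finset.univ : Finset (Fin 3)).finsuppAntidiag 3 with hT
  have hcard : T.card = 10 := by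
    rw [hT, Finset.card_finsuppAntidiag_nat_eq_choose]
    simp [Nat.choose]
  let L : (T → ℂ) →ₗ[ℂ] (ι → ℂ) :=
    Matrix.mulVecLin (Matrix.of fun (i : ι) (t : T) => eval (p i) (monomial t.1 (1 : ℂ)))
  have hk : LinearMap.ker L ≠ ⊥ := by
    apply LinearMap.ker_ne_bot_of_finrank_lt
    simp [hc, hcard]
  obtain ⟨c, hcL, hc0⟩ := Submodule.exists_mem_ne_zero_of_ne_bot hk
  refine ⟨∑ t : T, monomial t.1 (c t), ?_, ?_, ?_⟩
  · intro h
    apply hc0
    funext t
    have := congrArg (coeff t.1) h
    rw [coeff_sum, Finset.sum_eq_single t] at this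
    · simpa using this
    · intro b _ hb
      rw [coeff_monomial, if_neg (fun h => hb (Subtype.ext h))]
    · simp
  · apply IsHomogeneous.sum
    intro t _
    apply isHomogeneous_monomial
    have := (Finset.mem_finsuppAntidiag.mp t.2).1
    rw [Finsupp.degree_eq_sum]
    exact this
  · intro i
    have := congrFun (LinearMap.mem_ker.mp hcL) i
    simp only [L, Matrix.mulVecLin_apply, Matrix.mulVec, dotProduct, Matrix.of_apply,
      Pi.zero_apply] at this
    rw [map_sum, ← this]
    refine Finset.sum_congr rfl fun t _ => ?_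
    simp [eval_monomial, mul_comm]

/-- A form of degree zero that is not zero is a unit. -/
theorem hal_unit {G : S} (h0 : G ≠ 0) (h : G.totalDegree = 0) : IsUnit G := by
  rw [totalDegree_eq_zero_iff_eq_C] at h
  have h2 : coeff 0 G ≠ 0 := fun h1 => h0 (by rw [h, h1, map_zero])
  rw [h]
  exact (IsUnit.mk0 _ h2).map C

omit [Fintype ι] in
/-- A linear form that vanishes at three independent vectors is zero. -/
theorem hal_line {G : S} (hG : G.IsHomogeneous 1) {x y z : Fin 3 → ℂ}
    (hdet : (Matrix.of ![x, y, z]).det ≠ 0) (hx : eval x G = 0) (hy : eval y G = 0)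
    (hz : eval z G = 0) : G = 0 := by
  have hE := hG.sum_X_mul_pderiv
  rw [one_smul] at hE
  have hc : ∀ j, pderiv j G = C (coeff 0 (pderiv j G)) := by
    intro j
    rw [← totalDegree_eq_zero_iff_eq_C]
    have h1 : (pderiv j G).IsHomogeneous 0 := hG.pderiv
    exact Nat.le_zero.mp h1.totalDegree_le
  set c : Fin 3 → ℂ := fun j => coeff 0 (pderiv j G) with hcdef
  have hG' : G = ∑ j, X j * C (c j) := by
    rw [← hE]
    exact Finset.sum_congr rfl fun j _ => by rw [← hc j]
  have hev : ∀ u : Fin 3 → ℂ, eval u G = ∑ j, u j * c j := by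
    intro u
    rw [hG', map_sum]
    simp
  have hc0 : c = 0 := by
    apply Matrix.eq_zero_of_mulVec_eq_zero hdet
    funext r
    fin_cases r
    · simpa [Matrix.mulVec, dotProduct, hev] using hx
    · simpa [Matrix.mulVec, dotProduct, hev] using hy
    · simpa [Matrix.mulVec, dotProduct, hev] using hz
  rw [hG', hc0]
  simp

/-- A cubic through the nine triple points is not a line together with a conic. -/
theorem hal_split (hc : Fintype.card ι = 9) (hp : Gen p) (hC : Cv p F 9 fun _ => 3) {a b : S}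
    (ha : a.IsHomogeneous 1) (ha0 : a ≠ 0) (hb : b.IsHomogeneous 2) (hb0 : b ≠ 0)
    (h : ∀ i, eval (p i) (a * b) = 0) : False := by
  classical
  set A : Finset ι := Finset.univ.filter fun i => eval (p i) a = 0 with hA
  have hA2 : A.card ≤ 2 := by
    by_contra hlt
    obtain ⟨i, hi, j, hj, k, hk, hij, hik, hjk⟩ := Finset.two_lt_card.mp (not_le.mp hlt)
    exact ha0 (hal_line ha (hp.det_ne hij hik hjk) (Finset.mem_filter.mp hi).2
      (Finset.mem_filter.mp hj).2 (Finset.mem_filter.mp hk).2)
  have hb1 := hal_bez (μ := fun i => if i ∈ A then 0 else 1) hp.sep hC hb (by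
    intro i
    apply Ideal.mem_sup_left
    split_ifs with hi
    · simp
    · rw [pow_one, mem_mx]
      have := h i
      rw [map_mul] at this
      rcases mul_eq_zero.mp this with h1 | h1
      · exact absurd (Finset.mem_filter.mpr ⟨Finset.mem_univ i, h1⟩) hi
      · exact h1) (hal_not_dvd hC.hom hC.prime.ne_zero hb hb0 (by norm_num))
  have hsum : ∑ i, (((if i ∈ A then 0 else 1 : ℕ) : ℤ) * ((3 : ℕ) : ℤ)) = (9 - A.card) * 3 := by
    have h1 : ∀ i, (((if i ∈ A then 0 else 1 : ℕ) : ℤ) * ((3 : ℕ) : ℤ)) =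
        3 - (if i ∈ A then 3 else 0) := by
      intro i
      split_ifs <;> simp
    simp only [h1, Finset.sum_sub_distrib, Finset.sum_const, Finset.card_univ, hc,
      Finset.sum_ite_mem, Finset.univ_inter]
    simp
    ring
  unfold dg at hb1
  rw [hsum] at hb1
  have : (A.card : ℤ) ≤ 2 := by exact_mod_cast hA2
  push_cast at hb1
  omega

/-- The cubic through the nine triple points is irreducible. -/
theorem hal_prime (hc : Fintype.card ι = 9) (hp : Gen p) (hC : Cv p F 9 fun _ => 3) {G : S}
    (h0 : G ≠ 0) (hG : G.IsHomogeneous 3) (h : ∀ i, eval (p i) G = 0) : Prime G := by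
  rw [← UniqueFactorizationMonoid.irreducible_iff_prime]
  refine ⟨fun hu => ?_, fun a b hab => ?_⟩
  · have : G ∣ (1 : S) := hu.dvd
    exact hal_not_dvd hG h0 (isHomogeneous_one _ _) one_ne_zero (by norm_num) this
  · subst hab
    have ha0 : a ≠ 0 := left_ne_zero_of_mul h0
    have hb0 : b ≠ 0 := right_ne_zero_of_mul h0
    have ha := isHomogeneous_of_mul hG h0
    have hb : b.IsHomogeneous b.totalDegree :=
      isHomogeneous_of_mul (G := b) (H := a) (by rwa [mul_comm]) (by rwa [mul_comm])
    have hs : a.totalDegree + b.totalDegree = 3 := (ha.mul hb).inj_right hG h0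
    by_contra hn
    rw [not_or] at hn
    have h1 : a.totalDegree ≠ 0 := fun e => hn.1 (hal_unit ha0 e)
    have h2 : b.totalDegree ≠ 0 := fun e => hn.2 (hal_unit hb0 e)
    rcases (show (a.totalDegree = 1 ∧ b.totalDegree = 2) ∨
        (a.totalDegree = 2 ∧ b.totalDegree = 1) by omega) with ⟨e1, e2⟩ | ⟨e1, e2⟩
    · rw [e1] at ha
      rw [e2] at hb
      exact hal_split hc hp hC ha ha0 hb hb0 h
    · rw [e1] at ha
      rw [e2] at hb
      exact hal_split hc hp hC hb hb0 ha ha0 (by intro i; rw [mul_comm]; exact h i)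

theorem hal_dg [DecidableEq ι] (hc : Fintype.card ι = 9) (d c k a b : ℕ) (i0 : ι) :
    dg d (fun _ : ι => c) k (fun i => if i = i0 then a else b) =
      (k : ℤ) * d - ((a : ℤ) + 8 * b) * c := by
  unfold dg
  have h1 : ∀ i, (((if i = i0 then a else b : ℕ) : ℤ) * (c : ℤ)) =
      (b : ℤ) * c + (if i = i0 then ((a : ℤ) - b) * c else 0) := by
    intro i
    split_ifs <;> ring
  simp only [h1, Finset.sum_add_distrib, Finset.sum_const, Finset.card_univ, hc,
    Finset.sum_ite_eq', Finset.mem_univ, if_true]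
  simp
  ring

/-- The case of exactly nine points. -/
theorem hal_nine (hc : Fintype.card ι = 9) (hp : Gen p) (hC : Cv p F 9 fun _ => 3) : False := by
  classical
  obtain ⟨G, h0, hG, hz⟩ := hal_cubic hc p
  have hP := hal_prime hc hp hC h0 hG hz
  have hFG : ¬ F ∣ G := hal_not_dvd hC.hom hC.prime.ne_zero hG h0 (by norm_num)
  have hGF : ¬ G ∣ F := by
    intro h
    exact hFG ((hP.associated_of_dvd hC.prime h).symm.dvd)
  have hCG : Cv p G 3 fun _ => 1 := by
    refine ⟨hG, hP, fun i0 => ⟨by rw [pow_one, mem_mx]; exact hz i0, fun h2 => ?_⟩⟩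
    have := hal_bez (μ := fun i => if i = i0 then 2 else 1) hp.sep hC hG (by
      intro i
      apply Ideal.mem_sup_left
      split_ifs with hi
      · rw [hi]; exact h2
      · rw [pow_one, mem_mx]; exact hz i) hFG
    rw [hal_dg hc] at this
    norm_num at this
  obtain ⟨i0⟩ : Nonempty ι := Fintype.card_pos_iff.mp (by omega)
  have hF3 : ∀ i, F ∈ mx (p i) ^ 3 := fun i => (hC.mult i).1
  have hdv : ∀ v : Fin 3 → ℂ, dv v F ∈ mx (p i0) ^ 3 ⊔ Ideal.span {G} := by
    intro v
    obtain ⟨Θ, hΘ1, hΘ2, hΘ3, -⟩ := hp.exists_theta i0 v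
    have e3 := hΘ3 F 9 3 hC.hom (hF3 i0)
    have hle : mx (p i0) ^ 3 ≤ mx (p i0) ^ 2 := Ideal.pow_le_pow_right (by norm_num)
    have e2 : Θ F ∈ mx (p i0) ^ 2 := by
      have := Ideal.add_mem _ (hle e3) (dv_mem (p i0) v (hF3 i0))
      simpa using this
    suffices hs : Θ F ∈ mx (p i0) ^ 3 ⊔ Ideal.span {G} by
      have := Ideal.sub_mem _ hs (Ideal.mem_sup_left e3)
      simpa using this
    by_contra hn
    obtain ⟨h0', h1', hPk, hL⟩ := exists_pack hp.sep hCG
    have h2 := hL 9 (fun i => if i = i0 then 2 else 3) 2 ![F, Θ F] (by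
      intro a
      fin_cases a
      · exact hC.hom
      · exact hΘ1 F 9 hC.hom) (by
      intro a i
      apply Ideal.mem_sup_left
      fin_cases a
      · by_cases hi : i = i0
        · simp only [hi, if_true]
          exact hle (hF3 i0)
        · simp only [hi, if_false]
          exact hF3 i
      · by_cases hi : i = i0
        · simp only [hi, if_true]
          exact e2
        · simp only [hi, if_false]
          exact hΘ2 i hi F 9 3 hC.hom (hF3 i)) (by
      intro c hcd
      rw [Fin.sum_univ_two] at hcd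
      simp only [Matrix.cons_val_zero, Matrix.cons_val_one] at hcd
      have c1 : c 1 = 0 := by
        by_contra hne
        apply hn
        have hm : C (c 0) * F + C (c 1) * Θ F ∈ mx (p i0) ^ 3 ⊔ Ideal.span {G} :=
          Ideal.mem_sup_right (Ideal.mem_span_singleton.mpr hcd)
        have hm2 : C (c 0) * F ∈ mx (p i0) ^ 3 ⊔ Ideal.span {G} :=
          Ideal.mem_sup_left (Ideal.mul_mem_left _ _ (hF3 i0))
        have hm3 := Ideal.sub_mem _ hm hm2
        rw [add_sub_cancel_left] at hm3
        exact (Ideal.unit_mul_mem_iff_mem _ ((IsUnit.mk0 _ hne).map C)).mp hm3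
      have c0 : c 0 = 0 := by
        by_contra hne
        rw [c1, map_zero, zero_mul, add_zero] at hcd
        exact hGF (((IsUnit.mk0 _ hne).map C).dvd_mul_left.mp hcd)
      intro a
      fin_cases a
      · exact c0
      · exact c1)
    have hg := hPk.g1 9 (fun i => if i = i0 then 2 else 3) (by norm_num)
      (by intro i; split_ifs <;> norm_num) h2 (by
        rw [hal_dg hc]
        have : (2 : ℤ) ≤ h0' 9 (fun i => if i = i0 then 2 else 3) := by exact_mod_cast h2
        push_cast
        omega)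
    simp [g2, sq, kc, hc] at hg
  have hpd : ∀ j, pderiv j F ∈ mx (p i0) ^ 3 ⊔ Ideal.span {G} := by
    intro j
    have := hdv (Pi.single j 1)
    have e : dv (Pi.single j 1) F = pderiv j F := by
      unfold dv
      rw [Finset.sum_eq_single j]
      · simp
      · intro b _ hb
        simp [Pi.single_eq_of_ne hb]
      · simp
    rwa [e] at this
  have h4 : F ∈ mx (p i0) ^ 4 ⊔ Ideal.span {G} := by
    have e1 : ∑ j, (X j - C (p i0 j)) * pderiv j F ∈ mx (p i0) ^ 4 ⊔ Ideal.span {G} := by
      apply Ideal.sum_mem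
      intro j _
      obtain ⟨y, hy, z, hz', hyz⟩ := Submodule.mem_sup.mp (hpd j)
      rw [← hyz, mul_add]
      apply Ideal.add_mem
      · apply Ideal.mem_sup_left
        rw [pow_succ']
        exact Ideal.mul_mem_mul (by rw [mem_mx]; simp) hy
      · exact Ideal.mem_sup_right (Ideal.mul_mem_left _ _ hz')
    have e2 := Ideal.sub_mem _ e1 (Ideal.mem_sup_left (euler_mem (p i0) (hF3 i0)))
    rw [sub_sub_cancel] at e2
    exact (Ideal.unit_mul_mem_iff_mem _ ((IsUnit.mk0 _ (by norm_num)).map C)).mp e2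
  have := hal_bez (μ := fun i => if i = i0 then 4 else 3) hp.sep hCG hC.hom (by
    intro i
    split_ifs with hi
    · rw [hi]; exact h4
    · exact Ideal.mem_sup_left (hF3 i)) hGF
  rw [hal_dg hc] at this
  norm_num at this

/-- No irreducible nonic has triple points at nine of the points. -/
theorem ruleH (hp : Gen p) (hC : Cv p F 9 m) (s : Finset ι) (hs : s.card = 9)
    (h3 : ∀ i ∈ s, m i = 3) : False := by
  classical
  refine hal_nine (ι := s) (p := fun i => p i) (F := F) (by simpa using hs) ⟨fun i => hp.1 i, ?_⟩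
    ⟨hC.hom, hC.prime, fun i => ?_⟩
  · intro w
    obtain ⟨D, A, c, h⟩ := hp.2 fun i => if hi : i ∈ s then w ⟨i, hi⟩ else 0
    refine ⟨D, A, fun i => c i, fun i a => ?_⟩
    have := h i a
    simpa [i.2] using this
  · have := hC.mult i
    rwa [h3 i i.2] at this

end Pool.Agent.P.MP_3c83d0_ag
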