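import Pool.Agent.P.MP_3c83d0_ag.Rule
import Pool.Agent.P.MP_3c83d0_ag.Halph
import Pool.Agent.P.MP_3c83d0_ag.Crem
import Pool.Agent.P.MP_3c83d0_ag.Numer
import Pool.Agent.P.MP_3c83d0_ag.Der

open MvPolynomial

namespace Pool.Agent.P.MP_3c83d0_ag

variable {ι : Type*} [Fintype ι]

theorem rules : Rules (fun (d : ℕ) (m : ι → ℕ) => ∃ (p : ι → Fin 3 → ℂ) (F : S),
    Gen p ∧ Cv p F d m) where
  pos := fun _ _ ⟨_, _, _, hC⟩ => hC.pos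
  le := fun _ _ ⟨_, _, _, hC⟩ => hC.le
  r0 := fun _ _ ⟨_, _, hp, hC⟩ => rule0 hp hC
  r1 := fun _ _ ⟨_, _, hp, hC⟩ hn => rule1 hp hC hn
  r11 := fun _ _ ⟨_, _, hp, hC⟩ hn => rule11 hp hC hn
  r2 := fun _ _ ⟨_, _, hp, hC⟩ hn => rule2 hp hC hn
  r3 := fun _ _ ⟨_, _, hp, hC⟩ hn => rule3 hp hC hn
  r31 := fun _ _ ⟨_, _, hp, hC⟩ hn => rule31 hp hC hn
  rH := fun _ ⟨_, _, hp, hC⟩ _ => ruleH hp hC
  cr := fun _ _ ⟨_, _, hp, hC⟩ hd _ _ _ hij hik hjk => by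
    obtain ⟨p', F', d', m', h1, h2, h3⟩ := cremona hp hC hd hij hik hjk
    exact ⟨d', m', ⟨p', F', h1, h2⟩, h3⟩

theorem three {p : ι → Fin 3 → ℂ} {F : S} {d : ℕ} {m : ι → ℕ} (hp : Gen p) (hC : Cv p F d m)
    (hn : sq d m < 0) (i : ι) (hi : m i = 3) : sq d m = -1 ∧ g2 d m = -2 :=
  rules.three d m ⟨p, F, hp, hC⟩ hn i hi

end Pool.Agent.P.MP_3c83d0_ag
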