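import Pool.Agent.P.MP_3c83d0_ag.ElIso
import Pool.Agent.P.MP_3c83d0_ag.ElGi
import Pool.Agent.P.MP_3c83d0_ag.ElBez
import Pool.Agent.P.MP_3c83d0_ag.ElDom
import Pool.Agent.P.MP_3c83d0_ag.ElSpec
import Pool.Agent.P.MP_3c83d0_ag.ElW
import Pool.Agent.P.MP_3c83d0_ag.ElNum
import Pool.Agent.P.MP_3c83d0_ag.Main

open MvPolynomial

namespace Pool.Agent.P.MP_3c83d0_ag

/-- A curve that is dominated by an elliptic curve meets the canonical class nonpositively. -/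
theorem kc_nonpos {n : ℕ} (a : Fin n × Fin 2 → ℂ) (ha : AlgebraicIndependent ℚ a) {F : S} {d : ℕ}
    {m : Fin n → ℕ} (hF : F.IsHomogeneous d) (hirr : Irreducible F)
    (hm : ∀ i, F ∈ mx ![a (i, 0), a (i, 1), 1] ^ m i) {L : Type} [Field L] [Algebra ℂ L] {l : ℂ}
    {x y : L} (hy : y ^ 2 = x * (x - 1) * (x - algebraMap ℂ L l))
    (hgen : IntermediateField.adjoin ℂ {x, y} = ⊤) {f : Fin 3 → L} (h1 : aeval f F = 0)
    (hnc : ¬∃ (u : L) (c : Fin 3 → ℂ), ∀ i, f i = u * algebraMap ℂ L (c i)) :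
    ∑ i, m i ≤ 3 * d := by
  by_contra hlt
  rw [not_le] at hlt
  have h2 : f 2 ≠ 0 := by
    intro h
    have hd : F ∣ X 2 := ker_form hF hirr (isHomogeneous_X ℂ 2) h1 (by simpa using h) hnc
    have : ∀ i, m i = 0 := fun i => by
      by_contra hi
      have h3 : F ∈ mx ![a (i, 0), a (i, 1), 1] := Ideal.pow_le_self hi (hm i)
      obtain ⟨r, hr⟩ := hd
      have h4 := congrArg (eval ![a (i, 0), a (i, 1), 1]) hr
      rw [map_mul, (mem_mx _ _).1 h3] at h4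
      simp at h4
    simp [this] at hlt
  obtain ⟨μ, P, t, v, l', hμ, ht, hs, hc, hp, hl, hl'⟩ := exists_spec a ha l
  obtain ⟨c, G, hc0, hG0, hFG⟩ := P.exists_tp hirr.ne_zero
  have hF' : (C c * F).IsHomogeneous d := hF.C_mul c
  have hirr' : Irreducible (C c * F) :=
    (irreducible_isUnit_mul ((isUnit_iff_ne_zero.2 hc0).map C)).2 hirr
  have hmG : ∀ i, G ∈ mx (v i) ^ m i := fun i =>
    hFG.mult (p := t i • ![a (i, 0), a (i, 1), 1]) (hp i)
      (mem_pow_smul_of_mem hF' _ (ht i) (Ideal.mul_mem_left _ _ (hm i)))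
  obtain ⟨ξ, hξ, halg⟩ := exists_generic
  obtain ⟨η, hη⟩ := IsAlgClosed.exists_pow_nat_eq
    (ξ * (ξ - 1) * (ξ - algebraMap ℂ _ μ)) (n := 2) (by norm_num)
  have hz := bez μ hs hc (hFG.hom hF') hmG hlt ξ η hη
  obtain ⟨Q, hPQ, q0, q1⟩ := dom P hF' hirr' hFG hG0 (f := f) (by simp [h1]) hnc h2 hz
  obtain ⟨k, x0, y0, hk, k0, k1, hx0, hy0, hall⟩ := gi hPQ hl hy hgen q0 hξ
  have hka : IsAlgebraic ℚ k := by
    rcases hk with rfl | rfl
    · exact hl'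
    · exact isAlgebraic_one.neg
  exact iso hka k0 k1 hμ hx0 hy0 hξ hη (hall _ _ q0) (hall _ _ q1) halg

/-- The conjecture for classes that meet the canonical class nonpositively. -/
theorem of_kc_nonpos {ι : Type*} [Fintype ι] {p : ι → Fin 3 → ℂ} {F : S} {d : ℕ} {m : ι → ℕ}
    (hp : Gen p) (hC : Cv p F d m) (hn : sq d m < 0) (hk : kc d m ≤ 0) :
    sq d m = -1 ∧ g2 d m = -2 := by
  have h0 := rules.r0 d m ⟨p, F, hp, hC⟩
  have h1 := rules.no_root d m ⟨p, F, hp, hC⟩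
  obtain ⟨c, hc⟩ := g2_even d m
  have hg : g2 d m = sq d m + kc d m := rfl
  by_cases h2 : sq d m = -2
  · exact (h1 h2 (by omega)).elim
  · omega

end Pool.Agent.P.MP_3c83d0_ag
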