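import Pool.Agent.P.MP_3c83d0_ag.ElDefs

open Polynomial

namespace Pool.Agent.P.MP_3c83d0_ag

theorem elred_deg {Z : S} {e : ℕ} (hZ : Z.IsHomogeneous e) {s : Fin 3 →₀ ℕ}
    (hs : MvPolynomial.coeff s Z ≠ 0) : s 0 + s 1 + s 2 = e := by
  have h : s.degree = e := by
    rw [Finsupp.degree_eq_weight_one]
    exact hZ hs
  rwa [Finsupp.degree_eq_sum, Fin.sum_univ_three] at h

theorem elred_single {e : ℕ} {s : Fin 3 →₀ ℕ} (h : s 0 + s 1 + s 2 = e) (h0 : s 0 + s 2 = 0) :
    s = Finsupp.single 1 e := by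
  ext j
  fin_cases j
  · simp; omega
  · simp; omega
  · simp; omega

theorem elred_eval {Z : S} {e : ℕ} (hZ : Z.IsHomogeneous e) :
    MvPolynomial.eval ![0, 1, 0] Z = MvPolynomial.coeff (Finsupp.single 1 e) Z := by
  rw [MvPolynomial.eval_eq', Finset.sum_eq_single (Finsupp.single 1 e)]
  · simp [Fin.prod_univ_three]
  · intro s hs hne
    have h1 := elred_deg hZ (MvPolynomial.mem_support_iff.1 hs)
    have h2 : s 0 + s 2 ≠ 0 := fun h => hne (elred_single h1 h)
    rw [Fin.prod_univ_three]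
    by_cases h0 : s 0 = 0
    · have : s 2 ≠ 0 := by omega
      simp [this]
    · simp [h0]
  · intro h
    rw [MvPolynomial.notMem_support_iff.1 h, zero_mul]

theorem elred_supp (m : ℕ) : ∀ {Z : S} {e : ℕ}, Z.IsHomogeneous e → Z ∈ mx ![0, 1, 0] ^ m →
    ∀ s : Fin 3 →₀ ℕ, MvPolynomial.coeff s Z ≠ 0 → m ≤ s 0 + s 2 := by
  induction m with
  | zero => intro Z e _ _ s _; exact Nat.zero_le _
  | succ m ih =>
    intro Z e hZ hm s hs
    obtain ⟨h0, hd⟩ := (mem_pow_succ_iff _ _ _).1 hm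
    have h1 := elred_deg hZ hs
    have h2 : s 0 + s 2 ≠ 0 := fun h => hs (by
      rw [elred_single h1 h, ← elred_eval hZ, h0])
    have key : ∀ j : Fin 3, s j ≠ 0 →
        m ≤ (s - Finsupp.single j 1 : Fin 3 →₀ ℕ) 0 + (s - Finsupp.single j 1 : Fin 3 →₀ ℕ) 2 := by
      intro j hj
      refine ih (hZ.pderiv (i := j)) (hd j) _ ?_
      rw [MvPolynomial.coeff_pderiv, Finsupp.sub_add_single_one_cancel hj]
      exact mul_ne_zero hs (Nat.cast_add_one_ne_zero _)
    by_cases h3 : s 0 = 0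
    · have h4 := key 2 (by omega)
      simp at h4
      omega
    · have h4 := key 0 h3
      simp at h4
      omega

theorem elred_sum {κ : Type} (T : Finset κ) (f : κ → ℂ[X]) (h : ∑ s ∈ T, f s ≠ 0) :
    ∃ s ∈ T, f s ≠ 0 ∧ (∑ s ∈ T, f s).natDegree ≤ (f s).natDegree := by
  have h1 := leadingCoeff_ne_zero.2 h
  rw [leadingCoeff, finsetSum_coeff] at h1
  obtain ⟨s, hs, h2⟩ := Finset.exists_ne_zero_of_sum_ne_zero h1
  exact ⟨s, hs, fun h3 => h2 (by rw [h3, coeff_zero]), le_natDegree_of_ne_zero h2⟩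

theorem elred_top {κ : Type} (T : Finset κ) (f : κ → ℂ[X]) {s0 : κ} (h0 : s0 ∈ T)
    (h : ∀ s ∈ T, s ≠ s0 → f s ≠ 0 → (f s).natDegree < (f s0).natDegree) :
    (∑ s ∈ T, f s).natDegree = (f s0).natDegree := by
  classical
  rw [← Finset.add_sum_erase T f h0]
  by_cases h1 : ∑ s ∈ T.erase s0, f s = 0
  · rw [h1, add_zero]
  · obtain ⟨s, hs, h2, h3⟩ := elred_sum _ _ h1
    exact natDegree_add_eq_left_of_natDegree_lt
      (h3.trans_lt (h s (Finset.mem_of_mem_erase hs) (Finset.ne_of_mem_erase hs) h2))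

theorem elred_term {q : ℂ[X]} (h3 : q.natDegree = 3) {c : ℂ} (hc : c ≠ 0) (i r : ℕ) :
    (C c * X ^ i * q ^ r).natDegree = i + 3 * r := by
  have hq : q ≠ 0 := fun h => by rw [h] at h3; simp at h3
  rw [natDegree_mul (mul_ne_zero (C_ne_zero.2 hc) (pow_ne_zero _ X_ne_zero)) (pow_ne_zero _ hq),
    natDegree_C_mul_X_pow _ _ hc, natDegree_pow, h3, mul_comm]

/-- Reduction of a form modulo `y ^ 2 = q x`, with pole orders at the point at infinity. -/
theorem red (q : ℂ[X]) (h3 : q.natDegree = 3) {Z : S} {e m : ℕ}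
    (hZ : Z.IsHomogeneous e) (hm : Z ∈ mx ![0, 1, 0] ^ m) :
    ∃ A B : ℂ[X], (∀ (R : Type) [CommRing R] [Algebra ℂ R] (ξ η : R), η ^ 2 = aeval ξ q →
        MvPolynomial.aeval ![ξ, η, 1] Z = aeval ξ A + aeval ξ B * η) ∧
      (A ≠ 0 → 2 * A.natDegree + m ≤ 3 * e) ∧ (B ≠ 0 → 2 * B.natDegree + 3 + m ≤ 3 * e) ∧
      (MvPolynomial.eval ![0, 1, 0] Z ≠ 0 → (A ^ 2 - B ^ 2 * q).natDegree = 3 * e) := by
  classical
  have hq : q ≠ 0 := fun h => by rw [h] at h3; simp at h3
  let t : (Fin 3 →₀ ℕ) → ℂ[X] := fun s => C (MvPolynomial.coeff s Z) * X ^ s 0 * q ^ (s 1 / 2)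
  let a : (Fin 3 →₀ ℕ) → ℂ[X] := fun s => if s 1 % 2 = 0 then t s else 0
  let b : (Fin 3 →₀ ℕ) → ℂ[X] := fun s => if s 1 % 2 = 0 then 0 else t s
  have ht : ∀ s ∈ Z.support, (t s).natDegree = s 0 + 3 * (s 1 / 2) := fun s hs =>
    elred_term h3 (MvPolynomial.mem_support_iff.1 hs) _ _
  have ha : ∀ s ∈ Z.support, a s ≠ 0 → s 1 % 2 = 0 ∧ (a s).natDegree = s 0 + 3 * (s 1 / 2) := by
    intro s hs h
    by_cases hp : s 1 % 2 = 0
    · exact ⟨hp, by simp only [a, if_pos hp]; exact ht s hs⟩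
    · exact absurd (if_neg hp) h
  have hb : ∀ s ∈ Z.support, b s ≠ 0 → s 1 % 2 = 1 ∧ (b s).natDegree = s 0 + 3 * (s 1 / 2) := by
    intro s hs h
    by_cases hp : s 1 % 2 = 0
    · exact absurd (if_pos hp) h
    · exact ⟨by omega, by simp only [b, if_neg hp]; exact ht s hs⟩
  have hA : ∑ s ∈ Z.support, a s ≠ 0 → ∃ s ∈ Z.support, s 1 % 2 = 0 ∧
      (∑ s ∈ Z.support, a s).natDegree ≤ s 0 + 3 * (s 1 / 2) := by
    intro h
    obtain ⟨s, hs, h1, h2⟩ := elred_sum _ _ h
    exact ⟨s, hs, (ha s hs h1).1, h2.trans (ha s hs h1).2.le⟩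
  have hB : ∑ s ∈ Z.support, b s ≠ 0 → ∃ s ∈ Z.support, s 1 % 2 = 1 ∧
      (∑ s ∈ Z.support, b s).natDegree ≤ s 0 + 3 * (s 1 / 2) := by
    intro h
    obtain ⟨s, hs, h1, h2⟩ := elred_sum _ _ h
    exact ⟨s, hs, (hb s hs h1).1, h2.trans (hb s hs h1).2.le⟩
  refine ⟨∑ s ∈ Z.support, a s, ∑ s ∈ Z.support, b s, fun R _ _ ξ η hη => ?_, fun h => ?_,
    fun h => ?_, fun h => ?_⟩
  · rw [MvPolynomial.aeval_def, MvPolynomial.eval₂_eq', map_sum, map_sum, Finset.sum_mul,
      ← Finset.sum_add_distrib]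
    refine Finset.sum_congr rfl fun s _ => ?_
    rw [Fin.prod_univ_three]
    have h1 : aeval ξ (t s) = algebraMap ℂ R (MvPolynomial.coeff s Z) * ξ ^ s 0 *
        (η ^ 2) ^ (s 1 / 2) := by
      simp only [t, map_mul, map_pow, aeval_C, aeval_X, hη]
    have h2 : η ^ s 1 = (η ^ 2) ^ (s 1 / 2) * η ^ (s 1 % 2) := by
      rw [← pow_mul, ← pow_add, Nat.div_add_mod]
    by_cases hp : s 1 % 2 = 0
    · simp only [a, b, if_pos hp, h1, map_zero, zero_mul, add_zero]
      simp only [Matrix.cons_val_zero, Matrix.cons_val_one, Matrix.cons_val, one_pow, mul_one]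
      rw [h2, hp]
      ring
    · simp only [a, b, if_neg hp, h1, map_zero, zero_add]
      simp only [Matrix.cons_val_zero, Matrix.cons_val_one, Matrix.cons_val, one_pow, mul_one]
      rw [h2, show s 1 % 2 = 1 by omega]
      ring
  · obtain ⟨s, hs, h1, h2⟩ := hA h
    have h4 := elred_deg hZ (MvPolynomial.mem_support_iff.1 hs)
    have h5 := elred_supp m hZ hm s (MvPolynomial.mem_support_iff.1 hs)
    omega
  · obtain ⟨s, hs, h1, h2⟩ := hB h
    have h4 := elred_deg hZ (MvPolynomial.mem_support_iff.1 hs)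
    have h5 := elred_supp m hZ hm s (MvPolynomial.mem_support_iff.1 hs)
    omega
  · rw [elred_eval hZ] at h
    have hs0 : Finsupp.single 1 e ∈ Z.support := MvPolynomial.mem_support_iff.2 h
    have hlt : ∀ s ∈ Z.support, s ≠ Finsupp.single 1 e →
        s 0 + s 1 + s 2 = e ∧ s 0 + s 2 ≠ 0 := fun s hs hne =>
      ⟨elred_deg hZ (MvPolynomial.mem_support_iff.1 hs), fun h0 =>
        hne (elred_single (elred_deg hZ (MvPolynomial.mem_support_iff.1 hs)) h0)⟩
    have ht0 : (t (Finsupp.single 1 e)).natDegree = 3 * (e / 2) := by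
      rw [ht _ hs0]; simp
    by_cases hp : e % 2 = 0
    · have ha0 : (a (Finsupp.single 1 e)).natDegree = 3 * (e / 2) := by
        have : (Finsupp.single (1 : Fin 3) e) 1 % 2 = 0 := by simpa using hp
        simp only [a, if_pos this]
        exact ht0
      have hAd : (∑ s ∈ Z.support, a s).natDegree = 3 * (e / 2) := by
        rw [← ha0]
        refine elred_top _ _ hs0 fun s hs hne h1 => ?_
        obtain ⟨h4, h5⟩ := hlt s hs hne
        obtain ⟨h6, h7⟩ := ha s hs h1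
        omega
      have hA2 : ((∑ s ∈ Z.support, a s) ^ 2).natDegree = 3 * e := by
        rw [natDegree_pow, hAd]; omega
      by_cases hB0 : ∑ s ∈ Z.support, b s = 0
      · rw [hB0, zero_pow two_ne_zero, zero_mul, sub_zero, hA2]
      · obtain ⟨s, hs, h1, h2⟩ := hB hB0
        have hne : s ≠ Finsupp.single 1 e := fun h0 => by
          rw [h0] at h1
          simp at h1
          omega
        obtain ⟨h4, h5⟩ := hlt s hs hne
        rw [natDegree_sub_eq_left_of_natDegree_lt, hA2]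
        rw [hA2, natDegree_mul (pow_ne_zero _ hB0) hq, natDegree_pow, h3]
        omega
    · have hb0 : (b (Finsupp.single 1 e)).natDegree = 3 * (e / 2) := by
        have : ¬(Finsupp.single (1 : Fin 3) e) 1 % 2 = 0 := by simpa using hp
        simp only [b, if_neg this]
        exact ht0
      have hBd : (∑ s ∈ Z.support, b s).natDegree = 3 * (e / 2) := by
        rw [← hb0]
        refine elred_top _ _ hs0 fun s hs hne h1 => ?_
        obtain ⟨h4, h5⟩ := hlt s hs hne
        obtain ⟨h6, h7⟩ := hb s hs h1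
        omega
      have hB0 : ∑ s ∈ Z.support, b s ≠ 0 := by
        intro h0
        have h1 : (∑ s ∈ Z.support, b s).coeff (3 * (e / 2)) = (b (Finsupp.single 1 e)).coeff
            (3 * (e / 2)) := by
          rw [finsetSum_coeff]
          refine Finset.sum_eq_single _ (fun s hs hne => ?_) fun h => absurd hs0 h
          by_cases h1 : b s = 0
          · rw [h1, coeff_zero]
          · obtain ⟨h4, h5⟩ := hlt s hs hne
            obtain ⟨h6, h7⟩ := hb s hs h1
            exact coeff_eq_zero_of_natDegree_lt (by omega)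
        rw [h0, coeff_zero, ← hb0] at h1
        have h2 : b (Finsupp.single 1 e) = 0 := leadingCoeff_eq_zero.1 h1.symm
        have h4 : ¬(Finsupp.single (1 : Fin 3) e) 1 % 2 = 0 := by simpa using hp
        simp only [b, if_neg h4, t] at h2
        exact mul_ne_zero (mul_ne_zero (C_ne_zero.2 h) (pow_ne_zero _ X_ne_zero))
          (pow_ne_zero _ hq) h2
      have hB2 : ((∑ s ∈ Z.support, b s) ^ 2 * q).natDegree = 3 * e := by
        rw [natDegree_mul (pow_ne_zero _ hB0) hq, natDegree_pow, hBd, h3]; omega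
      by_cases hA0 : ∑ s ∈ Z.support, a s = 0
      · rw [hA0, zero_pow two_ne_zero, zero_sub, natDegree_neg, hB2]
      · obtain ⟨s, hs, h1, h2⟩ := hA hA0
        have hne : s ≠ Finsupp.single 1 e := fun h0 => by
          rw [h0] at h1
          simp at h1
          omega
        obtain ⟨h4, h5⟩ := hlt s hs hne
        rw [natDegree_sub_eq_right_of_natDegree_lt, hB2]
        rw [hB2, natDegree_pow]
        omega

end Pool.Agent.P.MP_3c83d0_ag
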