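import Pool.Agent.P.MP_3c83d0_ag.Rule

open MvPolynomial

namespace Pool.Agent.P.MP_3c83d0_ag

theorem finite_quot_of_le {x : Fin 2 → ℂ} {N : ℕ} {I : Ideal P2} (hI : mx x ^ N ≤ I) :
    Module.Finite ℂ (P2 ⧸ I) :=
  haveI := dimb_pow_finite x N
  Module.Finite.of_surjective _ (dimb_factor_surj hI)

theorem finrank_quot_le {x : Fin 2 → ℂ} {N b : ℕ} {I : Ideal P2} (hI : mx x ^ N ≤ I) {g : P2}
    (hg : g ∈ mx x ^ b) : Module.finrank ℂ (P2 ⧸ I) ≤
      Module.finrank ℂ (P2 ⧸ (I ⊔ Ideal.span {g})) + Module.finrank ℂ (P2 ⧸ mx x ^ (N - b)) := by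
  have := finite_quot_of_le hI
  have := dimb_pow_finite x (N - b)
  let ψ : (P2 ⧸ I) →ₗ[ℂ] P2 ⧸ (I ⊔ Ideal.span {g}) :=
    (Ideal.Quotient.factorₐ ℂ (le_sup_left (a := I))).toLinearMap
  have hψ : ∀ G : P2, ψ (Ideal.Quotient.mk _ G) = Ideal.Quotient.mk _ G := fun _ => rfl
  let μ : (P2 ⧸ mx x ^ (N - b)) →ₗ[ℂ] P2 ⧸ I :=
    (Submodule.mapQ (mx x ^ (N - b)) I (LinearMap.mulRight P2 g) (fun G hG => by
      have h1 := Ideal.mul_mem_mul hG hg
      rw [← pow_add] at h1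
      exact hI (Ideal.pow_le_pow_right (by omega) h1))).restrictScalars ℂ
  have hμ : ∀ G : P2, μ (Ideal.Quotient.mk _ G) = Ideal.Quotient.mk _ (G * g) := fun _ => rfl
  have hk : LinearMap.ker ψ ≤ LinearMap.range μ := by
    intro y hy
    obtain ⟨G, rfl⟩ := Ideal.Quotient.mk_surjective y
    rw [LinearMap.mem_ker, hψ, Ideal.Quotient.eq_zero_iff_mem] at hy
    obtain ⟨u, hu, w, hw, rfl⟩ := Submodule.mem_sup.1 hy
    obtain ⟨c, rfl⟩ := Ideal.mem_span_singleton'.1 hw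
    refine ⟨Ideal.Quotient.mk _ c, ?_⟩
    rw [hμ, map_add, Ideal.Quotient.eq_zero_iff_mem.2 hu, zero_add]
  have h1 := ψ.finrank_range_add_finrank_ker
  rw [LinearMap.range_eq_top.2 (dimb_factor_surj _), finrank_top] at h1
  have h2 := Submodule.finrank_mono hk
  have h3 := LinearMap.finrank_range_le μ
  omega

/-- Products of three functions that give local coordinates fill the jets. -/
theorem span_jets (x : Fin 2 → ℂ) (h0 h1 h2 : P2) (e0 : eval x h0 ≠ 0) (e1 : h1 ∈ mx x)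
    (e2 : h2 ∈ mx x) (hm : mx x ≤ Ideal.span {h1, h2} ⊔ mx x ^ 2) (U : ℕ → Submodule ℂ P2)
    (u0 : (1 : P2) ∈ U 0) (u1 : ∀ j, ∀ y ∈ U j, h0 * y ∈ U (j + 1))
    (u2 : ∀ j, ∀ y ∈ U j, h1 * y ∈ U (j + 1)) (u3 : ∀ j, ∀ y ∈ U j, h2 * y ∈ U (j + 1)) (j : ℕ)
    (y : P2) : ∃ u ∈ U j, y - u ∈ mx x ^ (j + 1) := by
  have hN : ∀ N, mx x ≤ Ideal.span {h1, h2} ⊔ mx x ^ (N + 1) := by
    intro N
    induction N with
    | zero => simp
    | succ N ih =>
      refine ih.trans (sup_le le_sup_left ?_)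
      rw [pow_succ]
      refine (Ideal.mul_mono_right hm).trans ?_
      rw [Ideal.mul_sup, ← pow_add]
      exact sup_le_sup Ideal.mul_le_right le_rfl
  have hp : ∀ j, h0 ^ j ∈ U j := by
    intro j
    induction j with
    | zero => simpa using u0
    | succ j ih => rw [pow_succ']; exact u1 j _ ih
  induction j generalizing y with
  | zero =>
    refine ⟨eval x y • 1, (U 0).smul_mem _ u0, ?_⟩
    rw [zero_add, pow_one, mem_mx]
    simp
  | succ j ih =>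
    have a1 : y - (eval x y / eval x h0 ^ (j + 1)) • h0 ^ (j + 1) ∈ mx x := by
      rw [mem_mx, map_sub, smul_eval, map_pow, div_mul_cancel₀ _ (pow_ne_zero _ e0), sub_self]
    obtain ⟨s, hs, r, hr, e⟩ := Submodule.mem_sup.mp (hN (j + 1) a1)
    obtain ⟨a, b, rfl⟩ := Ideal.mem_span_pair.mp hs
    obtain ⟨ua, ha1, ha2⟩ := ih a
    obtain ⟨ub, hb1, hb2⟩ := ih b
    refine ⟨(eval x y / eval x h0 ^ (j + 1)) • h0 ^ (j + 1) + h1 * ua + h2 * ub,
      (U _).add_mem ((U _).add_mem ((U _).smul_mem _ (hp _)) (u2 j _ ha1)) (u3 j _ hb1), ?_⟩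
    have a2 := Ideal.mul_mem_mul ha2 e1
    have a3 := Ideal.mul_mem_mul hb2 e2
    rw [← pow_succ] at a2 a3
    have := Ideal.add_mem _ (Ideal.add_mem _ a2 a3) hr
    convert this using 1
    linear_combination -e

/-- Restriction to an affine plane through `x`. -/
noncomputable def pl (x v0 v1 : Fin 3 → ℂ) : S →ₐ[ℂ] P2 :=
  aeval fun a => C (x a) + C (v0 a) * X 0 + C (v1 a) * X 1

theorem eval_pl (x v0 v1 : Fin 3 → ℂ) (G : S) : eval 0 (pl x v0 v1 G) = eval x G := by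
  induction G using MvPolynomial.induction_on with
  | C c => simp [pl]
  | add a b ha hb => rw [map_add, map_add, map_add, ha, hb]
  | mul_X a j ha => rw [map_mul, map_mul, map_mul, ha]; simp [pl]

theorem pderiv_pl (x v0 v1 : Fin 3 → ℂ) (G : S) (t : Fin 2) :
    pderiv t (pl x v0 v1 G) = pl x v0 v1 (dv (![v0, v1] t) G) := by
  induction G using MvPolynomial.induction_on with
  | C c => rw [lin_dv_C]; simp [pl]
  | add a b ha hb => rw [lin_dv_add]; simp [ha, hb]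
  | mul_X a j ha =>
    rw [map_mul, Derivation.leibniz, ha, lin_dv_mul, lin_dv_X, map_add, map_mul, map_mul]
    fin_cases t <;> simp [pl] <;> ring

theorem pl_mem_pow (x v0 v1 : Fin 3 → ℂ) {G : S} {a : ℕ} (h : G ∈ mx x ^ a) :
    pl x v0 v1 G ∈ mx (0 : Fin 2 → ℂ) ^ a := by
  have h1 : (mx x).map (pl x v0 v1) ≤ mx 0 := by
    rw [Ideal.map_le_iff_le_comap]
    intro G hG
    rw [Ideal.mem_comap, mem_mx, eval_pl]
    exact hG
  have := Ideal.mem_map_of_mem (pl x v0 v1) h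
  rw [Ideal.map_pow] at this
  exact Ideal.pow_right_mono h1 a this

theorem mx_le_of_det {h1 h2 : P2} (e1 : h1 ∈ mx (0 : Fin 2 → ℂ)) (e2 : h2 ∈ mx (0 : Fin 2 → ℂ))
    (hd : eval 0 (pderiv 0 h1) * eval 0 (pderiv 1 h2) ≠
      eval 0 (pderiv 1 h1) * eval 0 (pderiv 0 h2)) :
    mx (0 : Fin 2 → ℂ) ≤ Ideal.span {h1, h2} ⊔ mx 0 ^ 2 := by
  intro y hy
  have hd' := sub_ne_zero.mpr hd
  set a := eval 0 (pderiv 0 h1)
  set b := eval 0 (pderiv 1 h1)
  set c := eval 0 (pderiv 0 h2)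
  set e := eval 0 (pderiv 1 h2)
  set y0 := eval 0 (pderiv 0 y)
  set y1 := eval 0 (pderiv 1 y)
  have h : y - (C ((y0 * e - y1 * c) / (a * e - b * c)) * h1 +
      C ((y1 * a - y0 * b) / (a * e - b * c)) * h2) ∈ mx (0 : Fin 2 → ℂ) ^ 2 := by
    refine (mem_pow_succ_iff _ _ 1).mpr ⟨?_, fun j => ?_⟩
    · rw [mem_mx] at hy e1 e2
      simp only [map_sub, map_add, map_mul, hy, e1, e2, mul_zero, add_zero, sub_self]
    · rw [pow_one, mem_mx]
      simp only [map_sub, map_add, pderiv_C_mul, map_mul, eval_C]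
      fin_cases j
      · change y0 - (_ * a + _ * c) = 0
        rw [div_mul_eq_mul_div, div_mul_eq_mul_div, ← add_div, sub_eq_zero, eq_div_iff hd']
        ring
      · change y1 - (_ * b + _ * e) = 0
        rw [div_mul_eq_mul_div, div_mul_eq_mul_div, ← add_div, sub_eq_zero, eq_div_iff hd']
        ring
  have := Submodule.add_mem_sup (Ideal.mem_span_pair.mpr ⟨_, _, rfl⟩ :
    C ((y0 * e - y1 * c) / (a * e - b * c)) * h1 + C ((y1 * a - y0 * b) / (a * e - b * c)) * h2 ∈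
      Ideal.span {h1, h2}) h
  simpa using this

variable {ι : Type*} [Fintype ι] {p : ι → Fin 3 → ℂ} {F : S} {d : ℕ} {m : ι → ℕ}

/-- Forms of degree `j d` with multiplicity at least `j m l` at the points other than `p i`. -/
noncomputable def Yj (p : ι → Fin 3 → ℂ) (d : ℕ) (m : ι → ℕ) (i : ι) (j : ℕ) : Submodule ℂ S :=
  homogeneousSubmodule (Fin 3) ℂ (j * d) ⊓
    ⨅ (l : ι) (_ : l ≠ i), (mx (p l) ^ (j * m l)).restrictScalars ℂ

omit [Fintype ι] in
theorem mem_Yj {i : ι} {j : ℕ} {G : S} : G ∈ Yj p d m i j ↔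
    G.IsHomogeneous (j * d) ∧ ∀ l, l ≠ i → G ∈ mx (p l) ^ (j * m l) := by
  simp [Yj, Submodule.mem_iInf]

omit [Fintype ι] in
theorem mul_mem_Yj {i : ι} {j : ℕ} {H G : S} (h1 : H.IsHomogeneous d)
    (h2 : ∀ l, l ≠ i → H ∈ mx (p l) ^ m l) (hG : G ∈ Yj p d m i j) :
    H * G ∈ Yj p d m i (j + 1) := by
  rw [mem_Yj] at *
  refine ⟨?_, fun l hl => ?_⟩
  · rw [add_mul, one_mul, add_comm]
    exact h1.mul hG.1
  · rw [add_mul, one_mul, add_comm, pow_add]
    exact Ideal.mul_mem_mul (h2 l hl) (hG.2 l hl)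

/-- The image of `Yj` on the curve. -/
noncomputable def Wj (p : ι → Fin 3 → ℂ) (F : S) (d : ℕ) (m : ι → ℕ) (i : ι) (j : ℕ) :
    Submodule ℂ (S ⧸ Ideal.span {F}) :=
  (Yj p d m i j).map (Ideal.Quotient.mkₐ ℂ (Ideal.span {F})).toLinearMap

omit [Fintype ι] in
theorem finite_Wj (i : ι) (j : ℕ) : Module.Finite ℂ (Wj p F d m i j) := by
  have : Module.Finite ℂ (homogeneousSubmodule (Fin 3) ℂ (j * d)) :=
    Module.Finite.iff_fg.mpr (homogeneousSubmodule_fg _ _ _)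
  have : Module.Finite ℂ (Yj p d m i j) :=
    Module.Finite.of_injective (Submodule.inclusion inf_le_left) (Submodule.inclusion_injective _)
  exact Module.Finite.map _ _

theorem finrank_Wj_le [DecidableEq ι] {h0 : ℕ → (ι → ℕ) → ℕ} (hL : Low p F h0) (i : ι) (j : ℕ) :
    Module.finrank ℂ (Wj p F d m i j) ≤ h0 (j * d) (Function.update (fun l => j * m l) i 0) := by
  have := finite_Wj (p := p) (F := F) (d := d) (m := m) i j
  let b := Module.finBasis ℂ (Wj p F d m i j)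
  have h1 : ∀ a, ∃ G ∈ Yj p d m i j, Ideal.Quotient.mk _ G = (b a : S ⧸ Ideal.span {F}) :=
    fun a => (b a).2
  choose G hG1 hG2 using h1
  refine hL _ _ _ G (fun a => (mem_Yj.mp (hG1 a)).1) (fun a l => ?_) (fun c hc => ?_)
  · by_cases hl : l = i
    · subst hl
      simp
    · rw [Function.update_of_ne hl]
      exact Ideal.mem_sup_left ((mem_Yj.mp (hG1 a)).2 l hl)
  · refine Fintype.linearIndependent_iff.mp b.linearIndependent c (Subtype.ext ?_)
    have h2 := Ideal.Quotient.eq_zero_iff_mem.mpr (Ideal.mem_span_singleton.mpr hc)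
    rw [map_sum] at h2
    rw [Submodule.coe_sum, Submodule.coe_zero, ← h2]
    refine Finset.sum_congr rfl fun a _ => ?_
    rw [Submodule.coe_smul, ← hG2, ← smul_eq_C_mul]
    rfl

omit [Fintype ι] in
/-- Growth of the spaces `Wj`. -/
theorem finrank_Wj_succ (hC : Cv p F d m) (i : ι) {v0 v1 : Fin 3 → ℂ} {G H0 H1 H2 : S}
    (g1 : G.IsHomogeneous d) (g2 : ∀ l, l ≠ i → G ∈ mx (p l) ^ m l)
    (g3 : G ∈ mx (p i) ^ (m i - 1)) (g4 : ¬F ∣ G)
    (a0 : H0.IsHomogeneous d) (b0 : ∀ l, l ≠ i → H0 ∈ mx (p l) ^ m l)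
    (a1 : H1.IsHomogeneous d) (b1 : ∀ l, l ≠ i → H1 ∈ mx (p l) ^ m l)
    (a2 : H2.IsHomogeneous d) (b2 : ∀ l, l ≠ i → H2 ∈ mx (p l) ^ m l)
    (e0 : eval (p i) H0 ≠ 0) (e1 : eval (p i) H1 = 0) (e2 : eval (p i) H2 = 0)
    (hd : eval (p i) (dv v0 H1) * eval (p i) (dv v1 H2) ≠
      eval (p i) (dv v1 H1) * eval (p i) (dv v0 H2)) (j : ℕ) :
    2 * Module.finrank ℂ (Wj p F d m i j) + (j + 2) * (j + 3) ≤
      2 * Module.finrank ℂ (Wj p F d m i (j + 1)) + (j + 2 - m i) * (j + 2 - m i + 1) +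
        (j + 2 - (m i - 1)) * (j + 2 - (m i - 1) + 1) := by
  have := finite_Wj (p := p) (F := F) (d := d) (m := m) i j
  have := finite_Wj (p := p) (F := F) (d := d) (m := m) i (j + 1)
  set ψ := pl (p i) v0 v1 with hψ
  let J : Ideal P2 := (mx 0 ^ (j + 2) ⊔ Ideal.span {ψ F}) ⊔ Ideal.span {ψ G}
  have q1 := finrank_quot_le (le_refl (mx (0 : Fin 2 → ℂ) ^ (j + 2)))
    (pl_mem_pow (p i) v0 v1 (hC.mult i).1)
  have q2 := finrank_quot_le (le_sup_left : mx (0 : Fin 2 → ℂ) ^ (j + 2) ≤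
    mx 0 ^ (j + 2) ⊔ Ideal.span {ψ F}) (pl_mem_pow (p i) v0 v1 g3)
  have q3 := dimb_pow_finrank 0 (j + 2)
  have q4 := dimb_pow_finrank 0 (j + 2 - m i)
  have q5 := dimb_pow_finrank 0 (j + 2 - (m i - 1))
  let ρ : (S ⧸ Ideal.span {F}) →ₐ[ℂ] P2 ⧸ J :=
    Ideal.Quotient.liftₐ (Ideal.span {F}) ((Ideal.Quotient.mkₐ ℂ J).comp ψ) (fun a ha => by
      obtain ⟨e, rfl⟩ := Ideal.mem_span_singleton'.mp ha
      refine Ideal.Quotient.eq_zero_iff_mem.mpr ?_
      rw [map_mul]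
      exact Ideal.mul_mem_left _ _ (Ideal.mem_sup_left (Ideal.mem_sup_right
        (Ideal.subset_span rfl))))
  have hρ : ∀ y : S, ρ (Ideal.Quotient.mk _ y) = Ideal.Quotient.mk J (ψ y) := fun _ => rfl
  let π : Wj p F d m i (j + 1) →ₗ[ℂ] P2 ⧸ J := ρ.toLinearMap.domRestrict _
  have hs : LinearMap.range π = ⊤ := by
    rw [eq_top_iff]
    intro z _
    obtain ⟨y, rfl⟩ := Ideal.Quotient.mk_surjective z
    have m1 : ψ H1 ∈ mx (0 : Fin 2 → ℂ) := by rw [mem_mx, eval_pl, e1]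
    have m2 : ψ H2 ∈ mx (0 : Fin 2 → ℂ) := by rw [mem_mx, eval_pl, e2]
    have hu : ∀ {H : S}, H.IsHomogeneous d → (∀ l, l ≠ i → H ∈ mx (p l) ^ m l) → ∀ j,
        ∀ y ∈ (Yj p d m i j).map ψ.toLinearMap,
          ψ H * y ∈ (Yj p d m i (j + 1)).map ψ.toLinearMap := by
      rintro H h1 h2 j _ ⟨y, hy, rfl⟩
      exact ⟨H * y, mul_mem_Yj h1 h2 hy, by simp⟩
    obtain ⟨_, ⟨u, hu1, rfl⟩, hu2⟩ := span_jets 0 (ψ H0) (ψ H1) (ψ H2) (by rwa [eval_pl]) m1 m2
      (mx_le_of_det m1 m2 (by simp only [hψ, pderiv_pl, eval_pl]; exact hd))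
      (fun j => (Yj p d m i j).map ψ.toLinearMap)
      ⟨1, mem_Yj.mpr ⟨by simpa using isHomogeneous_one _ _, fun l _ => by simp⟩, by simp⟩
      (hu a0 b0) (hu a1 b1) (hu a2 b2) (j + 1) y
    refine ⟨⟨Ideal.Quotient.mk _ u, u, hu1, rfl⟩, ?_⟩
    change ρ (Ideal.Quotient.mk _ u) = _
    rw [hρ, eq_comm, Ideal.Quotient.eq]
    exact Ideal.mem_sup_left (Ideal.mem_sup_left hu2)
  have hdom : IsDomain (S ⧸ Ideal.span {F}) := by
    have : (Ideal.span {F}).IsPrime := (Ideal.span_singleton_prime hC.prime.ne_zero).mpr hC.prime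
    exact Ideal.Quotient.isDomain _
  have hG0 : Ideal.Quotient.mk (Ideal.span {F}) G ≠ 0 := fun h =>
    g4 (Ideal.mem_span_singleton.mp (Ideal.Quotient.eq_zero_iff_mem.mp h))
  have hmem : ∀ w ∈ Wj p F d m i j,
      Ideal.Quotient.mk (Ideal.span {F}) G * w ∈ Wj p F d m i (j + 1) := by
    rintro _ ⟨y, hy, rfl⟩
    exact ⟨G * y, mul_mem_Yj g1 g2 hy, rfl⟩
  let L : Wj p F d m i j →ₗ[ℂ] LinearMap.ker π :=
    { toFun := fun w => ⟨⟨Ideal.Quotient.mk _ G * w.1, hmem _ w.2⟩, by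
        change ρ (Ideal.Quotient.mk _ G * w.1) = 0
        have hJ : ψ G ∈ J := Ideal.mem_sup_right (Ideal.subset_span rfl)
        rw [map_mul, hρ, Ideal.Quotient.eq_zero_iff_mem.mpr hJ, zero_mul]⟩
      map_add' := fun a b => Subtype.ext (Subtype.ext (by simp [mul_add]))
      map_smul' := fun c a => Subtype.ext (Subtype.ext (by
        change Ideal.Quotient.mk _ G * (c • a.1) = c • (Ideal.Quotient.mk _ G * a.1)
        obtain ⟨y, hy⟩ := Ideal.Quotient.mk_surjective a.1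
        rw [← hy]
        change Ideal.Quotient.mk (Ideal.span {F}) (G * (c • y)) =
          Ideal.Quotient.mk _ (c • (G * y))
        rw [mul_smul_comm])) }
  have hL : Function.Injective L := by
    intro a b h
    have h1 : Ideal.Quotient.mk (Ideal.span {F}) G * a.1 = Ideal.Quotient.mk _ G * b.1 :=
      congrArg (fun z => z.1.1) h
    exact Subtype.ext (mul_left_cancel₀ hG0 h1)
  have r1 := LinearMap.finrank_le_finrank_of_injective hL
  have r2 := π.finrank_range_add_finrank_ker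
  rw [hs, finrank_top] at r2
  change _ ≤ Module.finrank ℂ (P2 ⧸ J) + _ at q2
  change _ ≤ Module.finrank ℂ (P2 ⧸ (mx 0 ^ (j + 2) ⊔ Ideal.span {ψ F})) + _ at q1
  have q6 : (j + 2) * (j + 3) = (j + 2) * (j + 2 + 1) := rfl
  omega

end Pool.Agent.P.MP_3c83d0_ag
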