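import Pool.Agent.P.MP_3c83d0_ag.Fill

open MvPolynomial

namespace Pool.Agent.P.MP_3c83d0_ag

variable {ι : Type*} [Fintype ι] {p : ι → Fin 3 → ℂ} {F : S} {d : ℕ} {m : ι → ℕ}

theorem exists_move' (hp : Gen p) (i : ι) (w : Fin 3 → ℂ) {G : S} {a : ℕ}
    (h1 : G.IsHomogeneous d) (h2 : ∀ l, l ≠ i → G ∈ mx (p l) ^ m l) (h3 : G ∈ mx (p i) ^ (a + 1)) :
    ∃ H : S, H.IsHomogeneous d ∧ (∀ l, l ≠ i → H ∈ mx (p l) ^ m l) ∧
      H - dv w G ∈ mx (p i) ^ (a + 1) ∧ H ∈ mx (p i) ^ a := by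
  classical
  obtain ⟨H, a1, a2, a3, a4⟩ := exists_move hp i w (μ := Function.update m i (a + 1)) h1
    (fun l => by
      by_cases hl : l = i
      · subst hl
        simpa using h3
      · simpa [hl] using h2 l hl)
  exact ⟨H, a1, fun l hl => by simpa [hl] using a2 l hl, by simpa using a3, by simpa using a4⟩

/-- At every level some moved form has a nonzero derivative in a given direction. -/
theorem exists_level (hp : Gen p) (hC : Cv p F d m) (hn : sq d m < 0) (i : ι) (hi : 2 ≤ m i)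
    (u : Fin 3 → ℂ) (hu : ∀ c : ℂ, u ≠ c • p i) (s : ℕ) : ∀ a, a + 1 + s = m i →
    ∃ H : S, H.IsHomogeneous d ∧ (∀ l, l ≠ i → H ∈ mx (p l) ^ m l) ∧ H ∈ mx (p i) ^ (a + 1) ∧
      dv u H ∉ mx (p i) ^ (a + 1) := by
  obtain ⟨v0, v1, _, hv⟩ := exists_compl (hp.1 i)
  induction s with
  | zero =>
    intro a ha
    rw [add_zero] at ha
    refine ⟨F, hC.hom, fun l _ => (hC.mult l).1, ha ▸ (hC.mult i).1, fun h => ?_⟩
    obtain ⟨c, hc⟩ := no_pure hp hC hn i hi u (ha ▸ h)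
    exact hu c hc
  | succ s ih =>
    intro a ha
    obtain ⟨H, a1, a2, a3, a4⟩ := ih (a + 1) (by omega)
    have h1 : ∃ v, dv v (dv u H) ∉ mx (p i) ^ (a + 1) := by
      by_contra h
      push Not at h
      exact a4 (mem_succ_of_dv hv (dv_hom u a1) (dv_mem _ u a3) (h v0) (h v1))
    obtain ⟨v, hv'⟩ := h1
    obtain ⟨K, b1, b2, b3, b4⟩ := exists_move' hp i v a1 a2 a3
    refine ⟨K, b1, b2, b4, fun h => hv' ?_⟩
    have := Ideal.sub_mem _ h (dv_mem _ u b3)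
    rw [dv_sub, dv_comm u v] at this
    simpa using this

theorem sum_bound (μ : ℕ) (z : ℕ → ℕ) (h0 : 1 ≤ z 0)
    (h : ∀ j, 2 * z j + (j + 2) * (j + 3) ≤ 2 * z (j + 1) + (j + 2 - (μ + 2)) * (j + 2 - (μ + 2) + 1) +
      (j + 2 - (μ + 1)) * (j + 2 - (μ + 1) + 1)) :
    (μ + 2) * (μ + 1) * (2 * μ + 3) ≤ 2 * z (2 * μ + 1) := by
  have key : ∀ j, (j + 1) * (j + 2) * (j + 3) ≤ 6 * z j +
      (j + 1 - (μ + 2)) * (j + 1 - (μ + 2) + 1) * (j + 1 - (μ + 2) + 2) +
      (j + 1 - (μ + 1)) * (j + 1 - (μ + 1) + 1) * (j + 1 - (μ + 1) + 2) := by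
    intro j
    induction j with
    | zero => omega
    | succ j ih =>
      have h1 := h j
      have e : ∀ t : ℕ, (j + 1 + 1 - t) * (j + 1 + 1 - t + 1) * (j + 1 + 1 - t + 2) =
          (j + 1 - t) * (j + 1 - t + 1) * (j + 1 - t + 2) + 3 * ((j + 2 - t) * (j + 2 - t + 1)) := by
        intro t
        rcases Nat.lt_or_ge (j + 1) t with h2 | h2
        · rw [show j + 1 + 1 - t = 0 by omega, show j + 1 - t = 0 by omega]
        · rw [show j + 1 + 1 - t = (j + 1 - t) + 1 by omega]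
          ring
      rw [e, e]
      nlinarith
  have := key (2 * μ + 1)
  rw [show 2 * μ + 1 + 1 - (μ + 2) = μ by omega, show 2 * μ + 1 + 1 - (μ + 1) = μ + 1 by omega]
    at this
  nlinarith

/-- The genus of a negative curve is bounded by any multiplicity that is at least two. -/
theorem genus_bound (hp : Gen p) (hC : Cv p F d m) (hn : sq d m < 0) (i : ι) (hi : 2 ≤ m i) :
    g2 d m + 2 ≤ (m i : ℤ) * (m i - 1) * (2 * m i - 1) + 4 * (m i - 1) * sq d m := by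
  classical
  obtain ⟨h0, h1, hP, hL⟩ := exists_pack hp.sep hC
  obtain ⟨μ, hμ⟩ : ∃ μ, m i = μ + 2 := ⟨m i - 2, by omega⟩
  obtain ⟨v0, v1, hv, _⟩ := exists_compl (hp.1 i)
  have n0 : ∀ c : ℂ, v0 ≠ c • p i := fun c hc => by
    simpa using (hv 1 0 c (by simpa using hc)).1
  obtain ⟨H1, a1, b1, c1, d1⟩ := exists_level hp hC hn i hi v0 n0 (μ + 1) 0 (by omega)
  rw [zero_add, pow_one, mem_mx] at d1
  have n1 : ∀ c : ℂ, eval (p i) (dv v1 H1) • v0 + (-eval (p i) (dv v0 H1)) • v1 ≠ c • p i :=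
    fun c hc => d1 (neg_eq_zero.mp (hv _ _ c hc).2)
  obtain ⟨H2, a2, b2, c2, d2⟩ := exists_level hp hC hn i hi _ n1 (μ + 1) 0 (by omega)
  rw [zero_add, pow_one, mem_mx, dv_vadd, dv_vsmul, dv_vsmul, map_add, map_mul, map_mul, eval_C,
    eval_C] at d2
  obtain ⟨H0, a0, b0, c0, _⟩ := exists_move' hp i v0 a1 b1 c1
  rw [zero_add, pow_one, mem_mx] at c0 c1 c2
  have e0 : eval (p i) H0 ≠ 0 := by
    rw [map_sub, sub_eq_zero] at c0
    rwa [c0]
  obtain ⟨G, g1, g2', g3, g4⟩ := exists_move hp i v0 hC.hom fun j => (hC.mult j).1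
  have g5 : ¬F ∣ G := by
    intro h
    have h2 := Ideal.sub_mem _ (mem_of_dvd hC h i) g3
    obtain ⟨c, hc⟩ := no_pure hp hC hn i hi v0 (by simpa using h2)
    exact n0 c hc
  have hz := fun j => finrank_Wj_succ hC i g1 g2' g4 g5 a0 b0 a1 b1 a2 b2 e0 c1 c2
    (v0 := v0) (v1 := v1) (fun h => d2 (by linear_combination -h)) j
  have hz0 : 1 ≤ Module.finrank ℂ (Wj p F d m i 0) := by
    have := finite_Wj (p := p) (F := F) (d := d) (m := m) i 0
    refine (Module.finrank_pos_iff_exists_ne_zero (R := ℂ)).mpr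
      ⟨⟨Ideal.Quotient.mk _ 1, 1, mem_Yj.mpr ⟨by simpa using isHomogeneous_one _ _,
        fun l _ => by simp⟩, rfl⟩, fun h => ?_⟩
    have h2 : Ideal.Quotient.mk (Ideal.span {F}) 1 = 0 := congrArg Subtype.val h
    exact hC.prime.not_dvd_one
      (Ideal.mem_span_singleton.mp (Ideal.Quotient.eq_zero_iff_mem.mp h2))
  rw [hμ] at hz
  have hs := (sum_bound μ _ hz0 hz).trans
    (Nat.mul_le_mul_left 2 (finrank_Wj_le hL i (2 * μ + 1)))
  set μ' := Function.update (fun l => (2 * μ + 1) * m l) i 0 with hμ'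
  have hdg : dg d m ((2 * μ + 1) * d) μ' = (2 * μ + 1) * (sq d m + (m i : ℤ) ^ 2) := by
    have e1 : ∑ l, (μ' l : ℤ) * m l = (2 * μ + 1) * (∑ l, (m l : ℤ) ^ 2 - (m i : ℤ) ^ 2) := by
      rw [← Finset.add_sum_erase _ _ (Finset.mem_univ i),
        ← Finset.add_sum_erase _ (fun l => (m l : ℤ) ^ 2) (Finset.mem_univ i), add_sub_cancel_left,
        Finset.mul_sum, hμ', Function.update_self, Nat.cast_zero, zero_mul, zero_add]
      refine Finset.sum_congr rfl fun l hl => ?_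
      rw [Function.update_of_ne (Finset.ne_of_mem_erase hl)]
      push_cast
      ring
    rw [dg, e1, sq]
    push_cast
    ring
  have t1 := low_two hp hC hn hL i hi
  have t2 := hP.b0 d (m - Pi.single i 1) (by omega)
  have hpos : 0 < h0 ((2 * μ + 1) * d) μ' := by
    by_contra h
    have : h0 ((2 * μ + 1) * d) μ' = 0 := by omega
    rw [this] at hs
    simp at hs
  have t3 := hP.p0 d (m - Pi.single i 1) _ μ' (by omega) hpos
  have t4 := hP.cl d (m - Pi.single i 1) _ μ' (by omega) (adm_one i) hpos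
  rw [dg_add', hdg, dg_one i 1 (by omega)] at t4
  rw [dg_one i 1 (by omega)] at t2
  have hs' : ((μ : ℤ) + 2) * (μ + 1) * (2 * μ + 3) ≤ 2 * (h0 ((2 * μ + 1) * d) μ' : ℤ) := by
    exact_mod_cast hs
  have t1' : (2 : ℤ) ≤ h0 d (m - Pi.single i 1) := by exact_mod_cast t1
  have t3' : (h0 d (m - Pi.single i 1) : ℤ) + h0 ((2 * μ + 1) * d) μ' ≤
      h0 (d + (2 * μ + 1) * d) (m - Pi.single i 1 + μ') + 1 := by exact_mod_cast t3
  rw [hμ] at t2 t4 ⊢
  push_cast at t2 t4 ⊢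
  have hμ0 : (0 : ℤ) ≤ μ := by positivity
  have t5 := t4 (by nlinarith)
  nlinarith

/-- Xu's inequality with the extra unit. -/
theorem rule_xu (hp : Gen p) (hC : Cv p F d m) (hn : sq d m < 0) (i : ι) (hi : 2 ≤ m i) :
    -sq d m < m i := by
  classical
  obtain ⟨h0, h1, hP, hL⟩ := exists_pack hp.sep hC
  have t1 := low_two hp hC hn hL i hi
  have t2 := hP.b0 d (m - Pi.single i 1) (by omega)
  rw [dg_one i 1 (by omega)] at t2
  omega

end Pool.Agent.P.MP_3c83d0_ag
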