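import Pool.Agent.P.MP_3c83d0_ag.Lin

open MvPolynomial

namespace Pool.Agent.P.MP_3c83d0_ag

theorem np_exists_pow {R : Type*} [CommRing R] {J Q : Ideal R} (hQ : Q ∈ J.minimalPrimes) {x : R}
    (hx : x ∈ Q) : ∃ s ∉ Q, ∃ n : ℕ, s * x ^ n ∈ J := by
  have := hQ.isPrime
  by_contra h
  push Not at h
  have hd : Disjoint (J : Set R) (Q.primeCompl ⊔ Submonoid.powers x : Submonoid R) := by
    rw [Set.disjoint_left]
    intro y hy hm
    obtain ⟨s, hs, z, ⟨n, rfl⟩, rfl⟩ := Submonoid.mem_sup.1 hm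
    exact h s hs n hy
  obtain ⟨Q', hQ', hJ, hdis⟩ := Ideal.exists_le_prime_disjoint J _ hd
  have hle : Q' ≤ Q := fun y hy => by
    by_contra hn
    exact Set.disjoint_left.1 hdis hy (Submonoid.mem_sup_left hn)
  exact Set.disjoint_left.1 hdis (hQ.2 ⟨hQ', hJ⟩ hle hx)
    (Submonoid.mem_sup_right (Submonoid.mem_powers x))

theorem np_natCast_mem {Q : Ideal S} (hQ : Q.IsPrime) {n : ℕ} (hn : n ≠ 0) : (n : S) ∉ Q := by
  intro h
  refine hQ.ne_top (Ideal.eq_top_of_isUnit_mem _ h ?_)
  have : IsUnit (C (n : ℂ) : S) := (IsUnit.mk0 _ (Nat.cast_ne_zero.2 hn)).map C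
  simpa using this

/-- minimal primes of a differential ideal are differential -/
theorem np_stable (Θ : Derivation ℤ S S) {J Q : Ideal S} (hJ : ∀ x ∈ J, Θ x ∈ J)
    (hQ : Q ∈ J.minimalPrimes) {x : S} (hx : x ∈ Q) : Θ x ∈ Q := by
  have hP := hQ.isPrime
  have key : ∀ n : ℕ, ∀ s : S, s * x ^ n ∈ J → s ∈ Q ∨ Θ x ∈ Q := by
    intro n
    induction n with
    | zero => intro s hs; exact Or.inl (hQ.le (by simpa using hs))
    | succ n ih =>
      intro s hs
      have h1 := J.mul_mem_left s (hJ _ hs)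
      have h2 := J.mul_mem_left (Θ s) hs
      have h3 : (((n + 1 : ℕ) : S) * (s * s * Θ x)) * x ^ n ∈ J := by
        have := J.sub_mem h1 h2
        convert this using 1
        rw [Derivation.leibniz, Derivation.leibniz_pow]
        simp only [smul_eq_mul, nsmul_eq_mul, Nat.add_sub_cancel]
        ring
      rcases ih _ h3 with h4 | h4
      · rcases hP.mem_or_mem ((hP.mem_or_mem h4).resolve_left
          (np_natCast_mem hP (Nat.succ_ne_zero n))) with h5 | h5
        · exact Or.inl ((hP.mem_or_mem h5).elim id id)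
        · exact Or.inr h5
      · exact Or.inr h4
  obtain ⟨s, hs, n, h⟩ := np_exists_pow hQ hx
  exact (key n s h).resolve_left hs

/-- restriction to the line through `p` -/
noncomputable def npLine (p : Fin 3 → ℂ) : S →ₐ[ℂ] Polynomial ℂ :=
  aeval fun a => Polynomial.C (p a) * Polynomial.X

theorem np_eval (p : Fin 3 → ℂ) (t : ℂ) (G : S) :
    (npLine p G).eval t = eval (t • p) G := by
  induction G using MvPolynomial.induction_on with
  | C c => simp [npLine]
  | add f g hf hg => simp [hf, hg]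
  | mul_X f j hf =>
    rw [map_mul, Polynomial.eval_mul, hf, map_mul, npLine, aeval_X, Polynomial.eval_mul,
      Polynomial.eval_C, Polynomial.eval_X, eval_X, Pi.smul_apply, smul_eq_mul, mul_comm t]

theorem np_line_zero {p : Fin 3 → ℂ} {G : S} {k : ℕ} (hG : G.IsHomogeneous k)
    (h : eval p G = 0) : npLine p G = 0 := by
  refine Polynomial.funext fun t => ?_
  rw [np_eval, eval_smul_of_isHomogeneous hG, h, mul_zero, Polynomial.eval_zero]

/-- A singular point of an irreducible curve cannot be moved by a derivation that preserves the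
Jacobian ideal. -/
theorem np0 {F : S} {d : ℕ} (hF : F.IsHomogeneous d) (hP : Prime F) {p w : Fin 3 → ℂ}
    (hp : p ≠ 0) (hs : ∀ j, eval p (pderiv j F) = 0) (Θ : Derivation ℤ S S)
    (hJ : ∀ j, Θ (pderiv j F) ∈ Ideal.span (Set.range fun b => pderiv b F))
    (hl : ∀ l : S, l.IsHomogeneous 1 → eval p l = 0 →
      (Θ l).IsHomogeneous 1 ∧ eval p (Θ l) = eval w l) : ∃ c : ℂ, w = c • p := by
  set J : Ideal S := Ideal.span (Set.range fun b => pderiv b F) with hJdef
  have hstab : ∀ x ∈ J, Θ x ∈ J := by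
    intro x hx
    induction hx using Submodule.span_induction with
    | mem x hx => obtain ⟨j, rfl⟩ := hx; exact hJ j
    | zero => simp
    | add x y _ _ hx hy => rw [map_add]; exact J.add_mem hx hy
    | smul a x hx ih =>
      rw [smul_eq_mul, Derivation.leibniz, smul_eq_mul, smul_eq_mul]
      exact J.add_mem (J.mul_mem_left _ ih) (J.mul_mem_right _ hx)
  set P : Ideal S := RingHom.ker (npLine p) with hPdef
  have hPp : P.IsPrime := RingHom.ker_isPrime _
  have hJP : J ≤ P := by
    rw [hJdef, Ideal.span_le]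
    rintro _ ⟨j, rfl⟩
    exact np_line_zero hF.pderiv (hs j)
  obtain ⟨Q, hQ, hQP⟩ := Ideal.exists_minimalPrimes_le hJP
  have hQp := hQ.isPrime
  have hd : d ≠ 0 := by
    rintro rfl
    rw [← totalDegree_zero_iff_isHomogeneous, totalDegree_eq_zero_iff_eq_C] at hF
    refine hP.not_isUnit ?_
    rw [hF]
    refine (IsUnit.mk0 _ fun h => hP.ne_zero ?_).map C
    rw [hF, h, map_zero]
  have heul := hF.sum_X_mul_pderiv
  have hFQ : F ∈ Q := by
    have h1 : (d : S) * F ∈ Q := by
      rw [← nsmul_eq_mul, ← heul]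
      exact Q.sum_mem fun j _ => Q.mul_mem_left _ (hQ.le (Ideal.subset_span ⟨j, rfl⟩))
    exact (hQp.mem_or_mem h1).resolve_left (np_natCast_mem hQp hd)
  have hFp : (Ideal.span {F}).IsPrime := (Ideal.span_singleton_prime hP.ne_zero).2 hP
  have c1 : (⊥ : Ideal S) < Ideal.span {F} :=
    bot_lt_iff_ne_bot.2 (by simpa using hP.ne_zero)
  have c2 : Ideal.span {F} < Q := by
    refine lt_of_le_of_ne ((Ideal.span_singleton_le_iff_mem _).2 hFQ) fun h => ?_
    have h0 : ∀ j, pderiv j F = 0 := by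
      intro j
      by_contra hne
      have h1 : F ∣ pderiv j F := by
        rw [← Ideal.mem_span_singleton, h]
        exact hQ.le (Ideal.subset_span ⟨j, rfl⟩)
      have h2 := totalDegree_le_of_dvd_of_isDomain h1 hne
      rw [hF.totalDegree hP.ne_zero, hF.pderiv.totalDegree hne] at h2
      omega
    simp only [h0, mul_zero, Finset.sum_const_zero] at heul
    exact hP.ne_zero ((smul_eq_zero.1 heul.symm).resolve_left hd)
  obtain ⟨a, ha⟩ : ∃ a, p a ≠ 0 := Function.ne_iff.1 hp
  have hPm : ∀ G ∈ P, eval p G = 0 := by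
    intro G hG
    have := np_eval p 1 G
    rw [one_smul, (RingHom.mem_ker).1 hG, Polynomial.eval_zero] at this
    exact this.symm
  have hm : (mx p).IsPrime := RingHom.ker_isPrime _
  have c4 : P < mx p := by
    refine lt_of_le_of_ne hPm fun h => ha ?_
    have h1 : X a - C (p a) ∈ P := by
      rw [h, mem_mx]
      simp
    have := np_eval p 0 (X a - C (p a))
    rw [(RingHom.mem_ker).1 h1] at this
    simpa using this
  have hQeq : Q = P := by
    by_contra hne
    have c3 : Q < P := lt_of_le_of_ne hQP hne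
    have e1 := Ideal.height_add_one_le_of_lt_of_isPrime c1
    have e2 := Ideal.height_add_one_le_of_lt_of_isPrime c2
    have e3 := Ideal.height_add_one_le_of_lt_of_isPrime c3
    have e4 := Ideal.height_add_one_le_of_lt_of_isPrime c4
    have e5 : (4 : ℕ∞) ≤ (mx p).height := by
      calc (4 : ℕ∞) = 0 + 1 + 1 + 1 + 1 := by norm_num
        _ ≤ (⊥ : Ideal S).height + 1 + 1 + 1 + 1 := by gcongr; exact zero_le
        _ ≤ (Ideal.span {F}).height + 1 + 1 + 1 := by gcongr
        _ ≤ Q.height + 1 + 1 := by gcongr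
        _ ≤ P.height + 1 := by gcongr
        _ ≤ (mx p).height := e4
    have e6 := Ideal.height_le_ringKrullDim_of_ne_top hm.ne_top
    rw [MvPolynomial.ringKrullDim_of_isNoetherianRing, ringKrullDim_eq_zero_of_field] at e6
    have e7 : ((4 : ℕ∞) : WithBot ℕ∞) ≤ 0 + (Nat.card (Fin 3) : WithBot ℕ∞) :=
      (WithBot.coe_le_coe.2 e5).trans e6
    rw [Nat.card_eq_fintype_card, Fintype.card_fin, zero_add] at e7
    have e8 : (4 : ℕ∞) ≤ (3 : ℕ) := WithBot.coe_le_coe.1 e7
    exact absurd e8 (by decide)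
  refine ⟨w a / p a, funext fun b => ?_⟩
  have hl1 : (C (p a) * X b - C (p b) * X a : S).IsHomogeneous 1 :=
    ((isHomogeneous_X ℂ b).C_mul _).sub ((isHomogeneous_X ℂ a).C_mul _)
  have hl2 : eval p (C (p a) * X b - C (p b) * X a : S) = 0 := by simp [mul_comm]
  have h1 := np_stable Θ hstab hQ (x := C (p a) * X b - C (p b) * X a)
    (hQeq ▸ np_line_zero hl1 hl2)
  have h2 := hPm _ (hQeq ▸ h1)
  rw [(hl _ hl1 hl2).2] at h2
  simp only [map_sub, map_mul, eval_C, eval_X] at h2
  rw [Pi.smul_apply, smul_eq_mul]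
  field_simp
  linear_combination h2

end Pool.Agent.P.MP_3c83d0_ag
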