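import Pool.Agent.P.MP_3c83d0_ag.ProdA

open MvPolynomial

namespace Pool.Agent.P.MP_3c83d0_ag

/-- Restriction to the vertical line with first coordinate `l`. -/
noncomputable def sx (l : ℂ) : P2 →ₐ[ℂ] Polynomial ℂ := aeval ![Polynomial.C l, Polynomial.X]

/-- Polynomials in the first variable. -/
noncomputable def px : Polynomial ℂ →ₐ[ℂ] P2 := Polynomial.aeval (X 0)

/-- Polynomials in the second variable. -/
noncomputable def py : Polynomial ℂ →ₐ[ℂ] P2 := Polynomial.aeval (X 1)

theorem eval_sx (z : Fin 2 → ℂ) (G : P2) : (sx (z 0) G).eval (z 1) = eval z G := by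
  induction G using MvPolynomial.induction_on with
  | C c => simp [sx]
  | add a b ha hb => simp [ha, hb]
  | mul_X a i ha =>
    rw [map_mul, Polynomial.eval_mul, ha, map_mul]
    fin_cases i <;> simp [sx]

theorem derivative_sx (l : ℂ) (G : P2) : (sx l G).derivative = sx l (pderiv 1 G) := by
  induction G using MvPolynomial.induction_on with
  | C c => simp [sx]
  | add a b ha hb => simp [ha, hb]
  | mul_X a i ha =>
    rw [map_mul, Polynomial.derivative_mul, ha, Derivation.leibniz]
    fin_cases i <;> simp [sx] <;> ring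

theorem eval_px (z : Fin 2 → ℂ) (r : Polynomial ℂ) : eval z (px r) = r.eval (z 0) := by
  induction r using Polynomial.induction_on' with
  | add a b ha hb => simp [ha, hb]
  | monomial n c => simp [px, Polynomial.aeval_monomial]

theorem natDegree_sx (l : ℂ) (G : P2) : (sx l G).natDegree ≤ G.totalDegree := by
  have := MvPolynomial.aeval_natDegree_le (n := 1) G le_rfl ![Polynomial.C l, Polynomial.X]
    (fun i => by fin_cases i <;> simp)
  simpa [sx] using this

theorem totalDegree_py (r : Polynomial ℂ) : (py r).totalDegree ≤ r.natDegree := by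
  rw [py, Polynomial.aeval_eq_sum_range]
  refine (totalDegree_finsetSum _ _).trans (Finset.sup_le fun i hi => ?_)
  refine (totalDegree_smul_le _ _).trans ?_
  rw [totalDegree_X_pow]
  exact Nat.lt_succ_iff.mp (Finset.mem_range.mp hi)

theorem monomial_eq2 (s : Fin 2 →₀ ℕ) (c : ℂ) :
    (monomial s c : P2) = C c * X 0 ^ s 0 * X 1 ^ s 1 := by
  rw [monomial_eq, Finsupp.prod_fintype _ _ (by simp), Fin.prod_univ_two, mul_assoc]

theorem supp_le {G : P2} {s : Fin 2 →₀ ℕ} (hs : s ∈ G.support) : s 0 + s 1 ≤ G.totalDegree := by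
  have := le_totalDegree hs
  rwa [Finsupp.sum_fintype _ _ (by simp), Fin.sum_univ_two] at this

theorem eq_single_of {s : Fin 2 →₀ ℕ} {d : ℕ} (h0 : s 0 = 0) (h1 : s 1 = d) :
    s = Finsupp.single 1 d := by
  ext i
  fin_cases i <;> simp [h0, h1]

theorem coeff_sx (l : ℂ) {f : P2} {d : ℕ} (hd : f.totalDegree = d) :
    (sx l f).coeff d = coeff (Finsupp.single 1 d) f := by
  classical
  conv_lhs => rw [f.as_sum, map_sum, Polynomial.finsetSum_coeff]
  have key : ∀ s ∈ f.support, (sx l (monomial s (coeff s f))).coeff d =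
      if s = Finsupp.single 1 d then coeff s f else 0 := by
    intro s hs
    have h1 : sx l (monomial s (coeff s f)) =
        Polynomial.C (coeff s f * l ^ s 0) * Polynomial.X ^ s 1 := by
      rw [monomial_eq2]
      simp [sx]
    rw [h1, Polynomial.coeff_C_mul_X_pow]
    have h2 := supp_le hs
    by_cases h3 : d = s 1
    · have h4 : s 0 = 0 := by omega
      rw [if_pos h3, if_pos (eq_single_of h4 h3.symm), h4, pow_zero, mul_one]
    · rw [if_neg h3, if_neg]
      rintro rfl
      simp at h3
  rw [Finset.sum_congr rfl key, Finset.sum_ite_eq']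
  split_ifs with h
  · rfl
  · exact (notMem_support_iff.mp h).symm

theorem sub_sx (l : ℂ) (G : P2) (n : ℕ) (hG : G.totalDegree ≤ n + 1) :
    ∃ a : P2, a.totalDegree ≤ n ∧ G - py (sx l G) = (X 0 - C l) * a := by
  have h1 : ∀ G : P2, (X 0 - C l : P2) ∣ G - py (sx l G) := by
    intro G
    induction G using MvPolynomial.induction_on with
    | C c => simp [sx, py]
    | add a b ha hb =>
      have := dvd_add ha hb
      rw [map_add, map_add]
      convert this using 1
      ring
    | mul_X a i ha =>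
      have h2 : (X 0 - C l : P2) ∣ X i - py (sx l (X i)) := by
        fin_cases i <;> simp [sx, py]
      have := dvd_add (ha.mul_right (X i)) (h2.mul_left (py (sx l a)))
      rw [map_mul, map_mul]
      convert this using 1
      ring
  obtain ⟨a, ha⟩ := h1 G
  refine ⟨a, ?_, ha⟩
  by_cases h0 : a = 0
  · simp [h0]
  have hx : (X 0 - C l : P2).totalDegree = 1 := by
    rw [sub_eq_add_neg, totalDegree_add_eq_left_of_totalDegree_lt] <;> simp
  have hx0 : (X 0 - C l : P2) ≠ 0 := by
    intro h
    simp [h] at hx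
  have h3 := totalDegree_mul_of_isDomain hx0 h0
  have h4 : (G - py (sx l G)).totalDegree ≤ n + 1 :=
    (totalDegree_sub _ _).trans (max_le hG (((totalDegree_py _).trans (natDegree_sx l G)).trans hG))
  rw [ha] at h4
  omega

variable {ι : Type*} [Fintype ι] {q : ι → Fin 2 → ℂ} {f : P2} {d : ℕ} {m : ι → ℕ}

theorem Ca.pos (h : Ca q f d m) : 0 < d := by
  by_contra h0
  have hd : f.totalDegree = 0 := by rw [h.deg]; omega
  rw [totalDegree_eq_zero_iff_eq_C] at hd
  have h1 : coeff 0 f ≠ 0 := fun h2 => h.prime.ne_zero (by rw [hd, h2, map_zero])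
  exact h.prime.not_unit (hd ▸ (Ne.isUnit h1).map C)

theorem Ca.natDegree_sx (h : Ca q f d m) (l : ℂ) : (sx l f).natDegree = d :=
  le_antisymm (h.deg ▸ Pool.Agent.P.MP_3c83d0_ag.natDegree_sx l f)
    (Polynomial.le_natDegree_of_ne_zero (by rw [coeff_sx l h.deg]; exact h.top))

theorem Ca.sx_ne (h : Ca q f d m) (l : ℂ) : sx l f ≠ 0 := by
  intro h0
  have := h.natDegree_sx l
  have := h.pos
  simp [h0] at *
  omega

theorem Ca.isDomain (h : Ca q f d m) : IsDomain (Af f) := by
  have : (Ideal.span {f}).IsPrime := (Ideal.span_singleton_prime h.prime.ne_zero).mpr h.prime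
  exact Ideal.Quotient.isDomain _

/-- The coordinate ring is spanned by the monomials of degree less than `d` in the second
variable. -/
theorem Ca.span_top (h : Ca q f d m) (M : Submodule ℂ (Af f))
    (hM : ∀ a j : ℕ, j < d → Ideal.Quotient.mk _ (X 0 ^ a * X 1 ^ j : P2) ∈ M) : M = ⊤ := by
  classical
  have key : ∀ b a : ℕ, Ideal.Quotient.mk (Ideal.span {f}) (X 0 ^ a * X 1 ^ b : P2) ∈ M := by
    intro b
    induction b using Nat.strong_induction_on with
    | _ b ih =>
      intro a
      by_cases hb : b < d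
      · exact hM a b hb
      obtain ⟨e, rfl⟩ : ∃ e, b = e + d := ⟨b - d, by omega⟩
      have hs : Finsupp.single 1 d ∈ f.support := mem_support_iff.mpr h.top
      have h1 : f = C (coeff (Finsupp.single 1 d) f) * X 1 ^ d +
          ∑ s ∈ f.support.erase (Finsupp.single 1 d), monomial s (coeff s f) := by
        conv_lhs => rw [f.as_sum, ← Finset.add_sum_erase _ _ hs, monomial_eq2]
        simp
      have h2 : (X 0 ^ a * X 1 ^ (e + d) : P2) =
          C (coeff (Finsupp.single 1 d) f)⁻¹ * (X 0 ^ a * X 1 ^ e) * f -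
          ∑ s ∈ f.support.erase (Finsupp.single 1 d),
            ((coeff (Finsupp.single 1 d) f)⁻¹ * coeff s f) • (X 0 ^ (a + s 0) * X 1 ^ (e + s 1)) := by
        have h3 : (C (coeff (Finsupp.single 1 d) f)⁻¹ * C (coeff (Finsupp.single 1 d) f) : P2) = 1 := by
          rw [← C_mul, inv_mul_cancel₀ h.top, C_1]
        have h4 : ∑ s ∈ f.support.erase (Finsupp.single 1 d),
            ((coeff (Finsupp.single 1 d) f)⁻¹ * coeff s f) •
              (X 0 ^ (a + s 0) * X 1 ^ (e + s 1) : P2) =
            C (coeff (Finsupp.single 1 d) f)⁻¹ * (X 0 ^ a * X 1 ^ e) *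
              ∑ s ∈ f.support.erase (Finsupp.single 1 d), monomial s (coeff s f) := by
          rw [Finset.mul_sum]
          refine Finset.sum_congr rfl fun s _ => ?_
          rw [monomial_eq2, smul_eq_C_mul, C_mul]
          ring
        rw [h4]
        linear_combination (-(X 0 ^ a * X 1 ^ e * X 1 ^ d)) * h3 -
          C (coeff (Finsupp.single 1 d) f)⁻¹ * (X 0 ^ a * X 1 ^ e) * h1
      have h5 : Ideal.Quotient.mk (Ideal.span {f}) f = 0 :=
        Ideal.Quotient.eq_zero_iff_mem.mpr (Ideal.subset_span rfl)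
      rw [h2, map_sub, map_mul _ _ f, h5, mul_zero, zero_sub, map_sum]
      refine M.neg_mem (M.sum_mem fun s hs' => ?_)
      have h6 : s 1 < d := by
        have h7 := supp_le (Finset.mem_of_mem_erase hs')
        rw [h.deg] at h7
        by_contra h8
        exact Finset.ne_of_mem_erase hs' (eq_single_of (by omega) (by omega))
      have := M.smul_mem ((coeff (Finsupp.single 1 d) f)⁻¹ * coeff s f)
        (ih (e + s 1) (by omega) (a + s 0))
      exact this
  rw [eq_top_iff]
  intro x _
  obtain ⟨G, rfl⟩ := Ideal.Quotient.mk_surjective x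
  rw [G.as_sum, map_sum]
  refine M.sum_mem fun s _ => ?_
  have := M.smul_mem (coeff s G) (key (s 1) (s 0))
  rw [monomial_eq2, mul_assoc, ← smul_eq_C_mul]
  exact this

/-- A polynomial not divisible by `f` has finitely many zeros on the curve. -/
theorem Ca.finite_zeros (h : Ca q f d m) (G : P2)
    (hG : Ideal.Quotient.mk (Ideal.span {f}) G ≠ 0) :
    {z : Fin 2 → ℂ | eval z f = 0 ∧ eval z G = 0}.Finite := by
  classical
  have := h.isDomain
  let φ : Polynomial ℂ →ₐ[ℂ] Af f := (Ideal.Quotient.mkₐ ℂ (Ideal.span {f})).comp px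
  letI : Algebra (Polynomial ℂ) (Af f) := φ.toRingHom.toAlgebra
  have hφ : ∀ r, algebraMap (Polynomial ℂ) (Af f) r = φ r := fun _ => rfl
  have : IsScalarTower ℂ (Polynomial ℂ) (Af f) :=
    IsScalarTower.of_algebraMap_eq fun c => (φ.commutes c).symm
  have : Module.Finite (Polynomial ℂ) (Af f) := by
    let T : Finset (Af f) :=
      (Finset.range d).image fun j => Ideal.Quotient.mk (Ideal.span {f}) (X 1 ^ j : P2)
    refine ⟨⟨T, ?_⟩⟩
    apply Submodule.restrictScalars_injective ℂ
    rw [Submodule.restrictScalars_top]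
    refine h.span_top _ fun a j hj => ?_
    have h1 : Ideal.Quotient.mk (Ideal.span {f}) (X 1 ^ j : P2) ∈
        Submodule.span (Polynomial ℂ) (T : Set (Af f)) :=
      Submodule.subset_span (Finset.mem_coe.mpr
        (Finset.mem_image.mpr ⟨j, Finset.mem_range.mpr hj, rfl⟩))
    have h2 := Submodule.smul_mem _ (Polynomial.X ^ a : Polynomial ℂ) h1
    rw [Algebra.smul_def, hφ] at h2
    simpa [φ, px] using h2
  have h1 := Ideal.comap_ne_bot_of_integral_mem (R := Polynomial ℂ) hG
    (Ideal.mem_span_singleton_self _) (Algebra.IsIntegral.isIntegral _)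
  obtain ⟨R, hR, hR0⟩ := Submodule.exists_mem_ne_zero_of_ne_bot h1
  rw [Ideal.mem_comap, hφ, Ideal.mem_span_singleton'] at hR
  obtain ⟨v, hv⟩ := hR
  obtain ⟨V, rfl⟩ := Ideal.Quotient.mk_surjective v
  have h2 : V * G - px R ∈ Ideal.span {f} := by
    rw [← Ideal.Quotient.eq, map_mul]
    exact hv
  obtain ⟨e, he⟩ := Ideal.mem_span_singleton'.mp h2
  have hfin : (⋃ l ∈ {l : ℂ | R.IsRoot l}, (fun η : ℂ => (![l, η] : Fin 2 → ℂ)) ''
      {η : ℂ | (sx l f).IsRoot η}).Finite :=
    (Polynomial.finite_setOf_isRoot hR0).biUnion fun l _ =>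
      (Polynomial.finite_setOf_isRoot (h.sx_ne l)).image _
  refine hfin.subset fun z hz => ?_
  simp only [Set.mem_iUnion, Set.mem_image, Set.mem_setOf_eq]
  refine ⟨z 0, ?_, z 1, ?_, ?_⟩
  · have := congrArg (eval z) he
    rw [map_mul, map_sub, map_mul, hz.1, hz.2, eval_px] at this
    simpa using this
  · rw [Polynomial.IsRoot, eval_sx, hz.1]
  · ext i
    fin_cases i <;> rfl

theorem Ca.pderiv_ne (h : Ca q f d m) :
    Ideal.Quotient.mk (Ideal.span {f}) (pderiv 1 f) ≠ 0 := by
  intro h0
  obtain ⟨e, he⟩ := Ideal.mem_span_singleton'.mp (Ideal.Quotient.eq_zero_iff_mem.mp h0)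
  have h1 := congrArg (sx 0) he
  rw [map_mul, ← derivative_sx] at h1
  have h2 := h.natDegree_sx 0
  have h3 := h.pos
  have h4 : (sx 0 f).derivative ≠ 0 := by
    intro h5
    have := Polynomial.natDegree_eq_zero_of_derivative_eq_zero h5
    omega
  have h5 := Polynomial.natDegree_le_of_dvd (⟨sx 0 e, by rw [← h1, mul_comm]⟩ :
    sx 0 f ∣ (sx 0 f).derivative) h4
  have h6 := Polynomial.natDegree_derivative_lt (p := sx 0 f) (by omega)
  omega

end Pool.Agent.P.MP_3c83d0_ag
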