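import Pool.Agent.P.MP_3c83d0_ag.DimA
import Pool.Agent.P.MP_3c83d0_ag.DimB
import Pool.Agent.P.MP_3c83d0_ag.ProdB

open MvPolynomial

namespace Pool.Agent.P.MP_3c83d0_ag

/-- Points of the curve whose first coordinate is not a root of `N`. -/
def Pts (f : P2) (N : Polynomial ℂ) : Type := {z : Fin 2 → ℂ // eval z f = 0 ∧ N.eval (z 0) ≠ 0}

/-- Evaluation at a point of the curve. -/
noncomputable def evA {f : P2} {N : Polynomial ℂ} (z : Pts f N) : Af f →ₐ[ℂ] ℂ :=
  Ideal.Quotient.liftₐ (Ideal.span {f}) (aeval z.1) (fun a ha => by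
    obtain ⟨e, rfl⟩ := Ideal.mem_span_singleton'.mp ha
    have : aeval z.1 f = 0 := z.2.1
    rw [map_mul, this, mul_zero])

theorem evA_mk {f : P2} {N : Polynomial ℂ} (z : Pts f N) (G : P2) :
    evA z (Ideal.Quotient.mk _ G) = eval z.1 G := rfl

/-- Functions on the curve. -/
noncomputable def eA (f : P2) (N : Polynomial ℂ) : Af f →ₗ[ℂ] (Pts f N → ℂ) :=
  LinearMap.pi fun z => (evA z).toLinearMap

/-- The class with a simple pole at `z`. -/
noncomputable def del {f : P2} {N : Polynomial ℂ} (z : Pts f N) : Af f :=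
  Ideal.Quotient.mk _ (px (cinv N (z.1 0)) *
    py (sx (z.1 0) f /ₘ (Polynomial.X - Polynomial.C (z.1 1))))

/-- The function attached to a functional. -/
noncomputable def om (f : P2) (N : Polynomial ℂ) : Module.Dual ℂ (Af f) →ₗ[ℂ] (Pts f N → ℂ) :=
  LinearMap.pi fun z => LinearMap.applyₗ (del z)

variable {ι : Type*} [Fintype ι] {q : ι → Fin 2 → ℂ} {f : P2} {d : ℕ} {m : ι → ℕ}

theorem Ca.eA_finite (h : Ca q f d m) (N : Polynomial ℂ) (u : Af f) (hu : u ≠ 0) :
    {z : Pts f N | eA f N u z = 0}.Finite := by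
  obtain ⟨G, rfl⟩ := Ideal.Quotient.mk_surjective u
  refine ((h.finite_zeros G hu).preimage (Subtype.val_injective (p := fun z : Fin 2 → ℂ =>
    eval z f = 0 ∧ N.eval (z 0) ≠ 0)).injOn).subset fun z hz => ⟨z.2.1, hz⟩

theorem Ca.pts_infinite (h : Ca q f d m) (N : Polynomial ℂ) (hN : N ≠ 0) :
    (Set.univ : Set (Pts f N)).Infinite := by
  intro hf
  have h1 := hf.image fun z : Pts f N => z.1 0
  refine (Polynomial.finite_setOf_isRoot hN).infinite_compl (h1.subset fun l hl => ?_)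
  obtain ⟨η, hη⟩ := IsAlgClosed.exists_root (sx l f) (by
    rw [Polynomial.degree_eq_natDegree (h.sx_ne l), h.natDegree_sx l]
    exact_mod_cast h.pos.ne')
  refine ⟨⟨![l, η], ?_, hl⟩, Set.mem_univ _, rfl⟩
  rw [← eval_sx]
  exact hη

theorem mul_mem_Ak {k k' : ℕ} {x y : Af f} (hx : x ∈ Ak f k) (hy : y ∈ Ak f k') :
    x * y ∈ Ak f (k + k') := by
  obtain ⟨a, ha, rfl⟩ := hx
  obtain ⟨b, hb, rfl⟩ := hy
  refine ⟨a * b, ?_, by simp⟩
  exact (mem_restrictTotalDegree _ _ _).mpr ((totalDegree_mul a b).trans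
    (add_le_add ((mem_restrictTotalDegree _ _ _).mp ha) ((mem_restrictTotalDegree _ _ _).mp hb)))

omit [Fintype ι] in
theorem mem_Im {μ : ι → ℕ} {x : Af f} : x ∈ Im f q μ ↔
    ∀ i, x ∈ (mx (q i) ^ μ i).map (Ideal.Quotient.mk (Ideal.span {f})) := by
  simp [Im, Submodule.mem_iInf]

omit [Fintype ι] in
theorem mul_mem_Im {μ μ' : ι → ℕ} {x y : Af f} (hx : x ∈ Im f q μ) (hy : y ∈ Im f q μ') :
    x * y ∈ Im f q (μ + μ') := by
  rw [mem_Im] at *
  intro i
  rw [Pi.add_apply, pow_add, Ideal.map_mul]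
  exact Ideal.mul_mem_mul (hx i) (hy i)

theorem finite_H0 (k : ℕ) (μ : ι → ℕ) : Module.Finite ℂ ↥(Im f q μ ⊓ Ak f k) :=
  Module.Finite.of_injective (Submodule.inclusion inf_le_right) (Submodule.inclusion_injective _)

theorem finite_H1 (k : ℕ) (μ : ι → ℕ) :
    Module.Finite ℂ ↥(Im f q μ ⊔ Ak f k).dualAnnihilator := by
  have := finite_quot_Im f q μ
  have : Module.Finite ℂ (Af f ⧸ (Im f q μ ⊔ Ak f k)) :=
    Module.Finite.of_surjective (Submodule.factor (le_sup_left : Im f q μ ≤ Im f q μ ⊔ Ak f k))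
      (Submodule.factor_surjective _)
  exact Module.Finite.equiv (Submodule.dualQuotEquivDualAnnihilator _)

theorem a_p0 {q : ι → Fin 2 → ℂ} {f : P2} {d : ℕ} {m : ι → ℕ} (h : Ca q f d m)
    (k : ℕ) (μ : ι → ℕ) (k' : ℕ) (μ' : ι → ℕ) (h1 : 0 < a0 f q k μ) (h2 : 0 < a0 f q k' μ') :
    a0 f q k μ + a0 f q k' μ' ≤ a0 f q (k + k') (μ + μ') + 1 := by
  have := finite_H0 (f := f) (q := q) k μ
  have := finite_H0 (f := f) (q := q) k' μ'
  have := finite_H0 (f := f) (q := q) (k + k') (μ + μ')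
  refine hopf' (eA f 1 ∘ₗ (Im f q μ ⊓ Ak f k).subtype) (eA f 1 ∘ₗ (Im f q μ' ⊓ Ak f k').subtype)
    (eA f 1 ∘ₗ (Im f q (μ + μ') ⊓ Ak f (k + k')).subtype) h1 h2 (fun u w => ?_) (fun u hu => ?_)
    (fun w hw => ?_)
  · refine ⟨⟨u.1 * w.1, mul_mem_Im u.2.1 w.2.1, mul_mem_Ak u.2.2 w.2.2⟩, ?_⟩
    funext z
    exact map_mul (evA z) u.1 w.1
  · exact h.eA_finite 1 u.1 fun h0 => hu (Subtype.ext h0)
  · have h3 := h.eA_finite 1 w.1 fun h0 => hw (Subtype.ext h0)
    intro h4
    refine h.pts_infinite 1 one_ne_zero ((h3.union h4).subset fun z _ => ?_)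
    by_cases h5 : eA f 1 w.1 z = 0
    · exact Or.inl h5
    · exact Or.inr h5

/-- Multiplication of a functional by a function of bounded degree. -/
theorem Ca.om_mul (h : Ca q f d m) (N : Polynomial ℂ) (ψ : Module.Dual ℂ (Af f)) (k k' : ℕ)
    (hk : d ≤ k + 2) (h1 : ∀ x ∈ Ak f (k + k'), ψ x = 0)
    (h2 : ∀ x, ψ (Ideal.Quotient.mk _ (px N) * x) = 0) (u : Af f) (hu : u ∈ Ak f k')
    (z : Pts f N) : ψ (u * del z) = evA z u * ψ (del z) := by
  obtain ⟨G, hG, rfl⟩ := hu
  have hG' : G.totalDegree ≤ k' := (mem_restrictTotalDegree _ _ _).mp hG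
  change ψ (Ideal.Quotient.mk _ G * del z) = eval z.1 G * ψ (del z)
  have hC : ∀ c : ℂ, ψ (Ideal.Quotient.mk _ (C c) * del z) = c * ψ (del z) := by
    intro c
    have : Ideal.Quotient.mk (Ideal.span {f}) (C c) * del z = c • del z := by
      obtain ⟨y, hy⟩ := Ideal.Quotient.mk_surjective (del z)
      rw [← hy, ← map_mul, ← smul_eq_C_mul]
      rfl
    rw [this, map_smul, smul_eq_mul]
  rcases k' with _ | n
  · have : G = C (coeff 0 G) := totalDegree_eq_zero_iff_eq_C.mp (by omega)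
    rw [this, hC, eval_C]
  obtain ⟨e, he⟩ : ∃ e, d = e + 1 := ⟨d - 1, by have := h.pos; omega⟩
  obtain ⟨a, ha1, ha2⟩ := sub_sx (z.1 0) G n hG'
  obtain ⟨ε, hε1, hε2⟩ := sub_sx (z.1 0) f e (by rw [h.deg, he])
  set w := sx (z.1 0) f /ₘ (Polynomial.X - Polynomial.C (z.1 1)) with hw
  set b := (sx (z.1 0) G - Polynomial.C (eval z.1 G)) /ₘ (Polynomial.X - Polynomial.C (z.1 1))
    with hb
  have e1 : (Polynomial.X - Polynomial.C (z.1 1)) * w = sx (z.1 0) f :=
    Polynomial.mul_divByMonic_eq_iff_isRoot.mpr (by rw [Polynomial.IsRoot, eval_sx]; exact z.2.1)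
  have e2 : (Polynomial.X - Polynomial.C (z.1 1)) * b =
      sx (z.1 0) G - Polynomial.C (eval z.1 G) :=
    Polynomial.mul_divByMonic_eq_iff_isRoot.mpr (by simp [Polynomial.IsRoot, eval_sx])
  have dw : (py w).totalDegree ≤ e := by
    refine (totalDegree_py w).trans ?_
    rw [hw, Polynomial.natDegree_divByMonic _ (Polynomial.monic_X_sub_C _),
      Polynomial.natDegree_X_sub_C, h.natDegree_sx]
    omega
  have db : (py b).totalDegree ≤ n := by
    refine (totalDegree_py b).trans ?_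
    rw [hb, Polynomial.natDegree_divByMonic _ (Polynomial.monic_X_sub_C _),
      Polynomial.natDegree_X_sub_C, Polynomial.natDegree_sub_C]
    have := Pool.Agent.P.MP_3c83d0_ag.natDegree_sx (z.1 0) G
    omega
  have e3 := congrArg py e1
  have e4 := congrArg py e2
  have e5 := congrArg px (cinv_mul N (z.1 0) z.2.2)
  simp only [map_mul, map_sub, map_one] at e3 e4 e5
  have p1 : py Polynomial.X = X 1 := by simp [py]
  have p2 : ∀ c, py (Polynomial.C c) = C c := by simp [py]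
  have p3 : px Polynomial.X = X 0 := by simp [px]
  have p4 : ∀ c, px (Polynomial.C c) = C c := by simp [px]
  rw [p1, p2] at e3
  rw [p1, p2, p2] at e4
  rw [p3, p4, p4] at e5
  have key : G * (px (cinv N (z.1 0)) * py w) =
      C (eval z.1 G) * (px (cinv N (z.1 0)) * py w) + (a * py w - py b * ε) +
      px N * (-(C (N.eval (z.1 0))⁻¹ * (a * py w - py b * ε))) +
      (px (cinv N (z.1 0)) * py b) * f := by
    linear_combination (px (cinv N (z.1 0)) * py w) * ha2 - (px (cinv N (z.1 0)) * py w) * e4 +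
      (px (cinv N (z.1 0)) * py b) * e3 - (px (cinv N (z.1 0)) * py b) * hε2 +
      (a * py w - py b * ε) * e5
  have h5 : Ideal.Quotient.mk (Ideal.span {f}) f = 0 :=
    Ideal.Quotient.eq_zero_iff_mem.mpr (Ideal.subset_span rfl)
  have h6 : Ideal.Quotient.mk (Ideal.span {f}) (a * py w - py b * ε) ∈ Ak f (k + (n + 1)) := by
    refine ⟨a * py w - py b * ε, (mem_restrictTotalDegree _ _ _).mpr ?_, rfl⟩
    refine (totalDegree_sub _ _).trans (max_le ?_ ?_)
    · have := totalDegree_mul a (py w)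
      omega
    · have := totalDegree_mul (py b) ε
      omega
  have h7 : Ideal.Quotient.mk (Ideal.span {f}) G * del z =
      Ideal.Quotient.mk _ (C (eval z.1 G)) * del z + Ideal.Quotient.mk _ (a * py w - py b * ε) +
      Ideal.Quotient.mk _ (px N) *
        Ideal.Quotient.mk _ (-(C (N.eval (z.1 0))⁻¹ * (a * py w - py b * ε))) := by
    rw [del, ← hw, ← map_mul, key, map_add, map_mul _ _ f, h5, mul_zero, add_zero, map_add,
      map_add, map_mul _ (px N), map_mul _ (C (eval z.1 G))]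
  rw [h7, map_add, map_add, h1 _ h6, h2, hC, add_zero, add_zero]

/-- A nonzero functional gives a function with infinite support. -/
theorem Ca.om_infinite (h : Ca q f d m) (N : Polynomial ℂ) (hN : N.Monic)
    (ψ : Module.Dual ℂ (Af f)) (h2 : ∀ x, ψ (Ideal.Quotient.mk _ (px N) * x) = 0) (h0 : ψ ≠ 0) :
    {z : Pts f N | om f N ψ z ≠ 0}.Infinite := by
  classical
  intro hf
  apply h0
  have b1 := Polynomial.finite_setOf_isRoot hN.ne_zero
  have b2 := hf.image fun z : Pts f N => z.1 0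
  have b3 := (h.finite_zeros _ h.pderiv_ne).image fun z : Fin 2 → ℂ => z 0
  have hL := ((b1.union b2).union b3).infinite_compl
  have hker : LinearMap.ker ψ = ⊤ := by
    refine h.span_top _ fun a j hj => ?_
    let Λ : Polynomial ℂ →ₗ[ℂ] ℂ := ψ ∘ₗ (Ideal.Quotient.mkₐ ℂ (Ideal.span {f})).toLinearMap ∘ₗ
      LinearMap.mulRight ℂ (X 1 ^ j : P2) ∘ₗ px.toLinearMap
    have hΛ : ∀ r, Λ r = ψ (Ideal.Quotient.mk _ (px r * X 1 ^ j)) := fun _ => rfl
    have := eq_zero_of_cinv N hN Λ (fun r => by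
      rw [hΛ, map_mul px, mul_assoc, map_mul]
      exact h2 _) _ hL (fun l hl h3 => hl (Or.inl (Or.inl h3))) (fun l hl => ?_)
      (Polynomial.X ^ a)
    · rw [hΛ] at this
      simpa [px] using this
    have hNl : N.eval l ≠ 0 := fun h3 => hl (Or.inl (Or.inl h3))
    have hder : ∀ η, (sx l f).IsRoot η → (sx l f).derivative.eval η ≠ 0 := by
      intro η hη h3
      refine hl (Or.inr ⟨![l, η], ⟨?_, ?_⟩, rfl⟩)
      · rw [← eval_sx]
        exact hη
      · rw [← eval_sx, ← derivative_sx]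
        exact h3
    have hnd : (sx l f).roots.Nodup := by
      rw [Multiset.nodup_iff_count_le_one]
      intro η
      by_contra h3
      rw [Polynomial.count_roots, not_le,
        Polynomial.one_lt_rootMultiplicity_iff_isRoot (h.sx_ne l)] at h3
      exact hder η h3.1 h3.2
    have hcard : (sx l f).roots.toFinset.card = d := by
      rw [Multiset.toFinset_card_of_nodup hnd, IsAlgClosed.card_roots_eq_natDegree,
        h.natDegree_sx]
    have hroot : ∀ η ∈ (sx l f).roots.toFinset, (sx l f).IsRoot η := fun η hη =>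
      (Polynomial.mem_roots (h.sx_ne l)).mp (Multiset.mem_toFinset.mp hη)
    obtain ⟨β, hβ⟩ := lagr _ (sx l f) hroot (fun η hη => hder η (hroot η hη))
      (by rw [hcard, h.natDegree_sx]) (Polynomial.X ^ j)
      (by rw [hcard, Polynomial.degree_X_pow]; exact_mod_cast hj)
    have e1 : (X 1 ^ j : P2) = py (Polynomial.X ^ j) := by simp [py]
    rw [hΛ, e1, hβ, map_sum, Finset.mul_sum, map_sum, map_sum]
    refine Finset.sum_eq_zero fun η hη => ?_
    let z : Pts f N := ⟨![l, η], by rw [← eval_sx]; exact hroot η hη, hNl⟩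
    have hz : ψ (del z) = 0 := by
      by_contra h3
      exact hl (Or.inl (Or.inr ⟨z, h3, rfl⟩))
    have e2 : Ideal.Quotient.mk (Ideal.span {f}) (px (cinv N l) *
        py (Polynomial.C (β η) * (sx l f /ₘ (Polynomial.X - Polynomial.C η)))) = β η • del z := by
      rw [← Polynomial.smul_eq_C_mul, map_smul, mul_smul_comm]
      rfl
    rw [e2, map_smul, hz, smul_zero]
  exact LinearMap.ker_eq_top.mp hker

theorem a_p1 {q : ι → Fin 2 → ℂ} {f : P2} {d : ℕ} {m : ι → ℕ} (h : Ca q f d m)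
    (k : ℕ) (μ : ι → ℕ) (k' : ℕ) (μ' : ι → ℕ) (hk : d ≤ k + 2) (h1 : 0 < a0 f q k' μ')
    (h2 : 0 < a1 f q (k + k') (μ + μ')) :
    a0 f q k' μ' + a1 f q (k + k') (μ + μ') ≤ a1 f q k μ + 1 := by
  classical
  have := finite_H0 (f := f) (q := q) k' μ'
  have := finite_H1 (f := f) (q := q) k μ
  have := finite_H1 (f := f) (q := q) (k + k') (μ + μ')
  let N : Polynomial ℂ := ∏ i, (Polynomial.X - Polynomial.C (q i 0)) ^ (μ + μ') i
  have hN : N.Monic := Polynomial.monic_prod_of_monic _ _ fun i _ =>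
    (Polynomial.monic_X_sub_C _).pow _
  have hI : ∀ x, Ideal.Quotient.mk _ (px N) * x ∈ Im f q (μ + μ') := by
    intro x
    rw [mem_Im]
    intro i
    refine Ideal.mul_mem_right _ _ (Ideal.mem_map_of_mem _ ?_)
    obtain ⟨r, hr⟩ : (Polynomial.X - Polynomial.C (q i 0)) ^ (μ + μ') i ∣ N :=
      Finset.dvd_prod_of_mem _ (Finset.mem_univ i)
    rw [hr, map_mul, map_pow]
    refine Ideal.mul_mem_right _ _ (Ideal.pow_mem_pow ?_ _)
    rw [mem_mx, eval_px]
    simp
  refine hopf' (eA f N ∘ₗ (Im f q μ' ⊓ Ak f k').subtype)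
    (om f N ∘ₗ (Im f q (μ + μ') ⊔ Ak f (k + k')).dualAnnihilator.subtype)
    (om f N ∘ₗ (Im f q μ ⊔ Ak f k).dualAnnihilator.subtype) h1 h2 (fun u w => ?_)
    (fun u hu => ?_) (fun w hw => ?_)
  · have hw := (Submodule.mem_dualAnnihilator _).mp w.2
    refine ⟨⟨w.1 ∘ₗ LinearMap.mulLeft ℂ u.1, (Submodule.mem_dualAnnihilator _).mpr ?_⟩, ?_⟩
    · intro x hx
      obtain ⟨y, hy, y', hy', rfl⟩ := Submodule.mem_sup.mp hx
      refine hw _ ?_
      rw [LinearMap.mulLeft_apply, mul_add, mul_comm u.1 y, mul_comm u.1 y']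
      exact Submodule.add_mem_sup (mul_mem_Im hy u.2.1) (mul_mem_Ak hy' u.2.2)
    · funext z
      exact h.om_mul N w.1 k k' hk (fun x hx => hw x (Submodule.mem_sup_right hx))
        (fun x => hw _ (Submodule.mem_sup_left (hI x))) u.1 u.2.2 z
  · exact h.eA_finite N u.1 fun h0 => hu (Subtype.ext h0)
  · have hw' := (Submodule.mem_dualAnnihilator _).mp w.2
    exact h.om_infinite N hN w.1 (fun x => hw' _ (Submodule.mem_sup_left (hI x)))
      fun h0 => hw (Subtype.ext h0)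

end Pool.Agent.P.MP_3c83d0_ag
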