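import Pool.Agent.P.MP_3c83d0_ag.DimA

open MvPolynomial

namespace Pool.Agent.P.MP_3c83d0_ag

theorem finrank_inf_ker {E : Type*} [AddCommGroup E] [Module ℂ E] (V : Submodule ℂ E)
    [Module.Finite ℂ V] (φ : E →ₗ[ℂ] ℂ) {v : E} (hv : v ∈ V) (h : φ v ≠ 0) :
    Module.finrank ℂ ↥(V ⊓ LinearMap.ker φ) + 1 = Module.finrank ℂ V := by
  have h1 := LinearMap.finrank_range_add_finrank_ker (φ.domRestrict V)
  have h2 : LinearMap.range (φ.domRestrict V) = ⊤ := by
    rw [eq_top_iff]
    intro c _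
    refine ⟨(c / φ v) • ⟨v, hv⟩, ?_⟩
    simp [div_mul_cancel₀ _ h]
  have h3 : (LinearMap.ker (φ.domRestrict V)).map V.subtype = V ⊓ LinearMap.ker φ := by
    ext x
    simp only [Submodule.mem_map, LinearMap.mem_ker, LinearMap.domRestrict_apply,
      Submodule.subtype_apply, Submodule.mem_inf]
    constructor
    · rintro ⟨y, hy, rfl⟩
      exact ⟨y.2, hy⟩
    · rintro ⟨hx, hx'⟩
      exact ⟨⟨x, hx⟩, hx', rfl⟩
  rw [h2, finrank_top, Module.finrank_self] at h1
  rw [← h3, Submodule.finrank_map_subtype_eq]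
  omega

/-- Product inequality for spaces of functions. -/
theorem hopf {X : Type*} (n : ℕ) : ∀ (U W Z : Submodule ℂ (X → ℂ)) [Module.Finite ℂ U]
    [Module.Finite ℂ W] [Module.Finite ℂ Z], Module.finrank ℂ U = n + 1 →
    0 < Module.finrank ℂ W → (∀ u ∈ U, ∀ w ∈ W, u * w ∈ Z) →
    (∀ u ∈ U, u ≠ 0 → {x | u x = 0}.Finite) → (∀ w ∈ W, w ≠ 0 → {x | w x ≠ 0}.Infinite) →
    n + Module.finrank ℂ W ≤ Module.finrank ℂ Z := by
  induction n with
  | zero =>
    intro U W Z _ _ _ hU _ hm hU0 hW0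
    obtain ⟨u, hu⟩ := (Module.finrank_pos_iff_exists_ne_zero (R := ℂ) (M := U)).mp (by omega)
    have hu' : (u : X → ℂ) ≠ 0 := fun h => hu (Subtype.ext h)
    let L : W →ₗ[ℂ] Z :=
      { toFun := fun w => ⟨u * w, hm u u.2 w w.2⟩
        map_add' := fun a b => Subtype.ext (by simp [mul_add])
        map_smul' := fun c a => Subtype.ext (by simp) }
    have hL : Function.Injective L := by
      rw [injective_iff_map_eq_zero]
      intro w hw
      by_contra hw0
      have hw' : (w : X → ℂ) ≠ 0 := fun h => hw0 (Subtype.ext h)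
      refine hW0 w w.2 hw' ((hU0 u u.2 hu').subset fun x hx => ?_)
      have := congrFun (congrArg Subtype.val hw) x
      simpa [L, show (w : X → ℂ) x ≠ 0 from hx] using this
    simpa using LinearMap.finrank_le_finrank_of_injective hL
  | succ n ih =>
    intro U W Z _ _ _ hU hW hm hU0 hW0
    obtain ⟨u, hu⟩ := (Module.finrank_pos_iff_exists_ne_zero (R := ℂ) (M := U)).mp (by omega)
    obtain ⟨w, hw⟩ := (Module.finrank_pos_iff_exists_ne_zero (R := ℂ) (M := W)).mp hW
    have hu' : (u : X → ℂ) ≠ 0 := fun h => hu (Subtype.ext h)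
    have hw' : (w : X → ℂ) ≠ 0 := fun h => hw (Subtype.ext h)
    obtain ⟨x, hx1, hx2⟩ := (hW0 w w.2 hw').exists_notMem_finite (hU0 u u.2 hu')
    have e1 := finrank_inf_ker U (LinearMap.proj x) u.2 hx2
    have e2 := finrank_inf_ker Z (LinearMap.proj x) (hm u u.2 w w.2) (mul_ne_zero hx2 hx1)
    haveI : Module.Finite ℂ ↥(U ⊓ LinearMap.ker (LinearMap.proj (R := ℂ) (φ := fun _ : X => ℂ) x)) :=
      Module.Finite.of_injective (Submodule.inclusion inf_le_left) (Submodule.inclusion_injective _)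
    haveI : Module.Finite ℂ ↥(Z ⊓ LinearMap.ker (LinearMap.proj (R := ℂ) (φ := fun _ : X => ℂ) x)) :=
      Module.Finite.of_injective (Submodule.inclusion inf_le_left) (Submodule.inclusion_injective _)
    have := ih (U ⊓ LinearMap.ker (LinearMap.proj x)) W (Z ⊓ LinearMap.ker (LinearMap.proj x))
      (by omega) hW (fun a ha b hb => ⟨hm a ha.1 b hb, by
        have : a x = 0 := ha.2
        simp [this]⟩) (fun a ha => hU0 a ha.1) hW0
    omega

/-- Product inequality, with the spaces given by linear maps to functions. -/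
theorem hopf' {X U W Z : Type*} [AddCommGroup U] [Module ℂ U] [AddCommGroup W] [Module ℂ W]
    [AddCommGroup Z] [Module ℂ Z] [Module.Finite ℂ U] [Module.Finite ℂ W] [Module.Finite ℂ Z]
    (eU : U →ₗ[ℂ] (X → ℂ)) (eW : W →ₗ[ℂ] (X → ℂ)) (eZ : Z →ₗ[ℂ] (X → ℂ))
    (hU : 0 < Module.finrank ℂ U) (hW : 0 < Module.finrank ℂ W)
    (hm : ∀ u w, ∃ z, eZ z = eU u * eW w) (hU0 : ∀ u, u ≠ 0 → {x | eU u x = 0}.Finite)
    (hW0 : ∀ w, w ≠ 0 → {x | eW w x ≠ 0}.Infinite) :
    Module.finrank ℂ U + Module.finrank ℂ W ≤ Module.finrank ℂ Z + 1 := by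
  have iW : Function.Injective eW := by
    rw [injective_iff_map_eq_zero]
    intro w hw
    by_contra h
    have := hW0 w h
    simp [hw] at this
  have hX : (Set.univ : Set X).Infinite := by
    obtain ⟨w, hw⟩ := (Module.finrank_pos_iff_exists_ne_zero (R := ℂ) (M := W)).mp hW
    exact (hW0 w hw).mono (Set.subset_univ _)
  have iU : Function.Injective eU := by
    rw [injective_iff_map_eq_zero]
    intro u hu
    by_contra h
    have := hU0 u h
    simp only [hu, Pi.zero_apply, Set.setOf_true] at this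
    exact hX this
  have e1 := LinearMap.finrank_range_of_inj iU
  have e2 := LinearMap.finrank_range_of_inj iW
  have e3 := LinearMap.finrank_range_le eZ
  have := hopf (Module.finrank ℂ U - 1) (LinearMap.range eU) (LinearMap.range eW)
    (LinearMap.range eZ) (by omega) (by omega)
    (by rintro _ ⟨u, rfl⟩ _ ⟨w, rfl⟩; exact hm u w)
    (by rintro _ ⟨u, rfl⟩ h; exact hU0 u (fun h' => h (by simp [h'])))
    (by rintro _ ⟨w, rfl⟩ h; exact hW0 w (fun h' => h (by simp [h'])))
  omega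

/-- Partial fractions. -/
theorem lagr (s : Finset ℂ) (Q : Polynomial ℂ) (hr : ∀ η ∈ s, Q.IsRoot η)
    (hd : ∀ η ∈ s, Q.derivative.eval η ≠ 0) (hdeg : Q.natDegree ≤ s.card) (g : Polynomial ℂ)
    (hg : g.degree < s.card) : ∃ β : ℂ → ℂ,
      g = ∑ η ∈ s, Polynomial.C (β η) * (Q /ₘ (Polynomial.X - Polynomial.C η)) := by
  classical
  have hw : ∀ η ∈ s, (Q /ₘ (Polynomial.X - Polynomial.C η)).eval η = Q.derivative.eval η := by
    intro η hη
    conv_rhs => rw [← Polynomial.mul_divByMonic_eq_iff_isRoot.mpr (hr η hη)]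
    simp
  have hz : ∀ η ∈ s, ∀ ξ ∈ s, ξ ≠ η → (Q /ₘ (Polynomial.X - Polynomial.C η)).eval ξ = 0 := by
    intro η hη ξ hξ hne
    have h1 := congrArg (Polynomial.eval ξ) (Polynomial.mul_divByMonic_eq_iff_isRoot.mpr (hr η hη))
    rw [Polynomial.eval_mul, (hr ξ hξ).eq_zero] at h1
    simpa [sub_eq_zero, hne] using h1
  refine ⟨fun η => g.eval η / Q.derivative.eval η, ?_⟩
  rw [← sub_eq_zero]
  apply Polynomial.eq_zero_of_degree_lt_of_eval_finset_eq_zero s
  · refine lt_of_le_of_lt (Polynomial.degree_sub_le _ _) (max_lt hg ?_)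
    refine lt_of_le_of_lt (Polynomial.degree_sum_le _ _) ?_
    rw [Finset.sup_lt_iff (WithBot.bot_lt_coe _)]
    intro η hη
    refine lt_of_le_of_lt (Polynomial.degree_mul_le _ _) ?_
    refine lt_of_le_of_lt (add_le_add Polynomial.degree_C_le Polynomial.degree_le_natDegree) ?_
    rw [Polynomial.natDegree_divByMonic _ (Polynomial.monic_X_sub_C η),
      Polynomial.natDegree_X_sub_C, zero_add]
    have : 0 < s.card := Finset.card_pos.mpr ⟨η, hη⟩
    exact_mod_cast (by omega : Q.natDegree - 1 < s.card)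
  · intro ξ hξ
    rw [Polynomial.eval_sub, Polynomial.eval_finset_sum, Finset.sum_eq_single ξ]
    · rw [Polynomial.eval_mul, hw ξ hξ, Polynomial.eval_C, div_mul_cancel₀ _ (hd ξ hξ), sub_self]
    · intro η hη hne
      rw [Polynomial.eval_mul, hz η hη ξ hξ hne.symm, mul_zero]
    · intro h
      exact absurd hξ h

/-- The inverse of `X - l` modulo `N`. -/
noncomputable def cinv (N : Polynomial ℂ) (l : ℂ) : Polynomial ℂ :=
  Polynomial.C (N.eval l)⁻¹ * ((Polynomial.C (N.eval l) - N) /ₘ (Polynomial.X - Polynomial.C l))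

theorem cinv_mul (N : Polynomial ℂ) (l : ℂ) (h : N.eval l ≠ 0) :
    (Polynomial.X - Polynomial.C l) * cinv N l = 1 - Polynomial.C (N.eval l)⁻¹ * N := by
  have h1 : (Polynomial.C (N.eval l) - N).IsRoot l := by simp
  rw [cinv, mul_left_comm, Polynomial.mul_divByMonic_eq_iff_isRoot.mpr h1, mul_sub,
    ← Polynomial.C_mul, inv_mul_cancel₀ h, Polynomial.C_1]

/-- A functional that kills the multiples of `N` and infinitely many inverses vanishes. -/
theorem eq_zero_of_cinv (N : Polynomial ℂ) (hN : N.Monic) (Λ : Polynomial ℂ →ₗ[ℂ] ℂ)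
    (h1 : ∀ r, Λ (N * r) = 0) (L : Set ℂ) (hL : L.Infinite) (h2 : ∀ l ∈ L, N.eval l ≠ 0)
    (h3 : ∀ l ∈ L, Λ (cinv N l) = 0) (g : Polynomial ℂ) : Λ g = 0 := by
  classical
  obtain ⟨s, hs, hc⟩ := hL.exists_subset_card_eq N.natDegree
  set Q : Polynomial ℂ := ∏ l ∈ s, (Polynomial.X - Polynomial.C l) with hQ
  have hsep : Q.Separable :=
    (Polynomial.separable_prod_X_sub_C_iff' (f := fun l : ℂ => l) (s := s)).mpr
      (fun _ _ _ _ h => h)
  have hr : ∀ η ∈ s, Q.IsRoot η := by
    intro η hη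
    rw [Polynomial.IsRoot, hQ, Polynomial.eval_prod]
    exact Finset.prod_eq_zero hη (by simp)
  have hd : ∀ η ∈ s, Q.derivative.eval η ≠ 0 := by
    intro η hη
    have := hsep.aeval_derivative_ne_zero (x := η) (by simpa using (hr η hη).eq_zero)
    simpa using this
  have hdeg : Q.natDegree ≤ s.card := by
    rw [hQ, Polynomial.natDegree_prod_of_monic _ _ (fun l _ => Polynomial.monic_X_sub_C l)]
    simp
  obtain ⟨β, hβ⟩ := lagr s Q hr hd hdeg ((g * Q) %ₘ N) (by
    rw [hc, ← Polynomial.degree_eq_natDegree hN.ne_zero]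
    exact Polynomial.degree_modByMonic_lt _ hN)
  have hcop : IsCoprime N Q := by
    refine IsCoprime.prod_right fun l hl => ⟨Polynomial.C (N.eval l)⁻¹, cinv N l, ?_⟩
    rw [mul_comm (cinv N l), cinv_mul N l (h2 l (hs hl))]
    ring
  have hdvd : N ∣ (g - ∑ l ∈ s, Polynomial.C (β l) * cinv N l) * Q := by
    have e1 : N ∣ g * Q - (g * Q) %ₘ N :=
      ⟨(g * Q) /ₘ N, by
        have := Polynomial.modByMonic_add_div (g * Q) N
        linear_combination -this⟩
    have e2 : N ∣ (g * Q) %ₘ N - (∑ l ∈ s, Polynomial.C (β l) * cinv N l) * Q := by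
      rw [hβ, Finset.sum_mul, ← Finset.sum_sub_distrib]
      refine Finset.dvd_sum fun l hl => ?_
      have a1 := Polynomial.mul_divByMonic_eq_iff_isRoot.mpr (hr l hl)
      have a2 := cinv_mul N l (h2 l (hs hl))
      refine ⟨Polynomial.C (β l) * Polynomial.C (N.eval l)⁻¹ *
        (Q /ₘ (Polynomial.X - Polynomial.C l)), ?_⟩
      linear_combination (Polynomial.C (β l) * cinv N l) * a1 -
        (Polynomial.C (β l) * (Q /ₘ (Polynomial.X - Polynomial.C l))) * a2
    have := dvd_add e1 e2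
    convert this using 1
    ring
  obtain ⟨r, hr'⟩ := hcop.dvd_of_dvd_mul_right hdvd
  have : g = N * r + ∑ l ∈ s, β l • cinv N l := by
    simp only [Polynomial.smul_eq_C_mul]
    linear_combination hr'
  rw [this, map_add, h1, map_sum, zero_add]
  exact Finset.sum_eq_zero fun l hl => by rw [map_smul, h3 l (hs hl), smul_zero]

end Pool.Agent.P.MP_3c83d0_ag
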