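import Pool.Agent.P.MP_3c83d0_ag.RR
import Pool.Agent.P.MP_3c83d0_ag.Lin

open MvPolynomial

namespace Pool.Agent.P.MP_3c83d0_ag

variable {ι : Type*} [Fintype ι]

/-- Dehomogenisation with respect to the last coordinate. -/
noncomputable def pjPhi : S →ₐ[ℂ] P2 := aeval ![X 0, X 1, 1]

/-- The homogeneous coordinates of an affine point. -/
def pjPt (q : Fin 2 → ℂ) : Fin 3 → ℂ := ![q 0, q 1, 1]

theorem pj_eval (q : Fin 2 → ℂ) (G : S) : eval q (pjPhi G) = eval (pjPt q) G := by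
  induction G using MvPolynomial.induction_on with
  | C c => simp [pjPhi]
  | add a b ha hb => simp [ha, hb]
  | mul_X a j ha =>
    rw [map_mul, map_mul, map_mul, ha]
    congr 1
    fin_cases j <;> simp [pjPhi, pjPt]

theorem pj_X2 : pjPhi (X 2) = 1 := by simp [pjPhi]

theorem pj_X2_pow (k : ℕ) : pjPhi (X 2 ^ k) = 1 := by rw [map_pow, pj_X2, one_pow]

theorem pj_hom_X2 (k : ℕ) : (X 2 ^ k : S).IsHomogeneous k := by
  simpa using (isHomogeneous_X ℂ (2 : Fin 3)).pow k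

theorem pj_surj (a : P2) : ∃ (A : S) (k : ℕ), A.IsHomogeneous k ∧ pjPhi A = a := by
  induction a using MvPolynomial.induction_on with
  | C c => exact ⟨C c, 0, isHomogeneous_C _ _, by simp [pjPhi]⟩
  | add a b ha hb =>
    obtain ⟨A, k, hA, rfl⟩ := ha
    obtain ⟨B, l, hB, rfl⟩ := hb
    refine ⟨A * X 2 ^ l + B * X 2 ^ k, k + l, (hA.mul (pj_hom_X2 l)).add ?_, ?_⟩
    · rw [add_comm]
      exact hB.mul (pj_hom_X2 k)
    · simp only [map_add, map_mul, pj_X2_pow, mul_one]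
  | mul_X a j ha =>
    obtain ⟨A, k, hA, rfl⟩ := ha
    refine ⟨A * X j.castSucc, k + 1, hA.mul (isHomogeneous_X ℂ _), ?_⟩
    rw [map_mul]
    congr 1
    fin_cases j <;> simp [pjPhi]

theorem pj_inj {A : S} {k : ℕ} (hA : A.IsHomogeneous k) (h : pjPhi A = 0) : A = 0 := by
  have h1 : A * X 2 = 0 := by
    apply MvPolynomial.funext
    intro x
    rw [map_mul, eval_X, map_zero]
    by_cases hx : x 2 = 0
    · rw [hx, mul_zero]
    · have h2 : x = x 2 • pjPt ![x 0 / x 2, x 1 / x 2] := by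
        funext j
        fin_cases j <;> simp [pjPt] <;> field_simp
      have h3 : eval x A = 0 := by
        rw [h2, eval_smul_of_isHomogeneous hA, ← pj_eval, h, map_zero, mul_zero]
      rw [h3, zero_mul]
  exact (mul_eq_zero.1 h1).resolve_right (X_ne_zero _)

theorem pj_eq {A B : S} {k l : ℕ} (hA : A.IsHomogeneous k) (hB : B.IsHomogeneous l)
    (h : pjPhi A = pjPhi B) : A * X 2 ^ l = B * X 2 ^ k := by
  rw [← sub_eq_zero]
  refine pj_inj (k := k + l) ((hA.mul (pj_hom_X2 l)).sub ?_) ?_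
  · rw [add_comm]
    exact hB.mul (pj_hom_X2 k)
  · simp only [map_sub, map_mul, pj_X2_pow, mul_one, h, sub_self]

theorem pj_dvd {F G : S} {d k : ℕ} (hF : F.IsHomogeneous d) (hP : Prime F)
    (h1 : eval ![0, 1, 0] F ≠ 0) (hG : G.IsHomogeneous k) (h : pjPhi F ∣ pjPhi G) : F ∣ G := by
  obtain ⟨e, he⟩ := h
  obtain ⟨E, n, hE, rfl⟩ := pj_surj e
  rw [← map_mul] at he
  have h2 := pj_eq hG (hF.mul hE) he
  have h3 : F ∣ G * X 2 ^ (d + n) := ⟨E * X 2 ^ k, by rw [h2, mul_assoc]⟩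
  refine (hP.dvd_or_dvd h3).resolve_right fun h4 => h1 ?_
  have h5 : F ∣ X 2 := hP.dvd_of_dvd_pow h4
  have h6 : (X 2 : S) ∣ F :=
    ((hP.irreducible.associated_of_dvd (X_prime (i := (2 : Fin 3))).irreducible h5).symm).dvd
  obtain ⟨H, rfl⟩ := h6
  simp

theorem pj_prime {F : S} {d : ℕ} (hF : F.IsHomogeneous d) (hP : Prime F)
    (h1 : eval ![0, 1, 0] F ≠ 0) : Prime (pjPhi F) := by
  refine ⟨fun h => hP.ne_zero (pj_inj hF h), fun h => hP.not_isUnit ?_, fun a b h => ?_⟩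
  · apply isUnit_of_dvd_one
    exact pj_dvd hF hP h1 (isHomogeneous_one _ _) h.dvd
  · obtain ⟨A, k, hA, rfl⟩ := pj_surj a
    obtain ⟨B, l, hB, rfl⟩ := pj_surj b
    rw [← map_mul] at h
    exact (hP.dvd_or_dvd (pj_dvd hF hP h1 (hA.mul hB) h)).imp (map_dvd _) (map_dvd _)

theorem pj_mem_pow (q : Fin 2 → ℂ) {G : S} {a : ℕ} (h : G ∈ mx (pjPt q) ^ a) :
    pjPhi G ∈ mx q ^ a := by
  have h1 : (mx (pjPt q)).map pjPhi ≤ mx q := by
    rw [Ideal.map_le_iff_le_comap]
    intro x hx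
    rw [Ideal.mem_comap, mem_mx, pj_eval]
    exact hx
  have h2 := Ideal.mem_map_of_mem pjPhi h
  rw [Ideal.map_pow] at h2
  exact Ideal.pow_right_mono h1 a h2

theorem pj_lift (q : Fin 2 → ℂ) (n : ℕ) : ∀ a ∈ mx q ^ n,
    ∃ (A : S) (k : ℕ), A.IsHomogeneous k ∧ pjPhi A = a ∧ A ∈ mx (pjPt q) ^ n := by
  induction n with
  | zero =>
    intro a _
    obtain ⟨A, k, hA, h⟩ := pj_surj a
    exact ⟨A, k, hA, h, by simp⟩
  | succ n ih =>
    intro a ha
    rw [pow_succ] at ha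
    refine Submodule.mul_induction_on ha ?_ ?_
    · intro x hx y hy
      obtain ⟨A, k, hA, rfl, hm⟩ := ih x hx
      obtain ⟨B, l, hB, rfl⟩ := pj_surj y
      refine ⟨A * B, k + l, hA.mul hB, map_mul _ _ _, ?_⟩
      rw [pow_succ]
      refine Ideal.mul_mem_mul hm ?_
      rw [mem_mx, ← pj_eval]
      exact hy
    · rintro x y ⟨A, k, hA, rfl, hm⟩ ⟨B, l, hB, rfl, hn⟩
      refine ⟨A * X 2 ^ l + B * X 2 ^ k, k + l, (hA.mul (pj_hom_X2 l)).add ?_, ?_, ?_⟩
      · rw [add_comm]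
        exact hB.mul (pj_hom_X2 k)
      · simp only [map_add, map_mul, pj_X2_pow, mul_one]
      · exact add_mem (Ideal.mul_mem_right _ _ hm) (Ideal.mul_mem_right _ _ hn)

theorem pj_mult (q : Fin 2 → ℂ) {F : S} {d m : ℕ} (hF : F.IsHomogeneous d)
    (h : HasMult F (pjPt q) m) : HasMult (pjPhi F) q m := by
  refine ⟨pj_mem_pow q h.1, fun h1 => ?_⟩
  obtain ⟨A, k, hA, h2, h3⟩ := pj_lift q _ _ h1
  have h4 := pj_eq hF hA h2.symm
  have h5 : (X 2 ^ k : S) ∉ mx (pjPt q) ^ (0 + 1) := by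
    rw [zero_add, pow_one, mem_mx]
    simp [pjPt]
  refine not_mem_mul (pjPt q) h.2 h5 ?_
  rw [h4]
  exact Ideal.mul_mem_right _ _ h3

theorem pj_monomial (s : Fin 3 →₀ ℕ) (c : ℂ) : pjPhi (monomial s c) =
    monomial (Finsupp.single 0 (s 0) + Finsupp.single 1 (s 1)) c := by
  rw [pjPhi, aeval_monomial, Finsupp.prod_fintype _ _ (by simp), Fin.prod_univ_three,
    monomial_add_single, ← zero_add (Finsupp.single (0 : Fin 2) (s 0)), monomial_add_single]
  simp [mul_assoc]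

theorem pj_deg_sum {G : S} {k : ℕ} (hG : G.IsHomogeneous k) {s : Fin 3 →₀ ℕ}
    (hs : s ∈ G.support) : s 0 + s 1 + s 2 = k := by
  have h := hG (mem_support_iff.1 hs)
  rw [← h, Finsupp.weight_apply, Finsupp.sum_fintype _ _ (by simp), Fin.sum_univ_three]
  simp

theorem pj_totalDegree {G : S} {k : ℕ} (hG : G.IsHomogeneous k) :
    (pjPhi G).totalDegree ≤ k := by
  conv_lhs => rw [G.as_sum, map_sum]
  refine totalDegree_finsetSum_le fun s hs => ?_
  rw [pj_monomial]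
  refine (totalDegree_monomial_le _ _).trans ?_
  rw [Finsupp.sum_fintype _ _ (by simp), Fin.sum_univ_two]
  have := pj_deg_sum hG hs
  simp
  omega

theorem pj_top {G : S} {k : ℕ} (hG : G.IsHomogeneous k) :
    coeff (Finsupp.single 1 k) (pjPhi G) = eval ![0, 1, 0] G := by
  conv_lhs => rw [G.as_sum, map_sum, coeff_sum]
  conv_rhs => rw [G.as_sum, map_sum]
  refine Finset.sum_congr rfl fun s hs => ?_
  have h := pj_deg_sum hG hs
  rw [pj_monomial, coeff_monomial, eval_monomial, Finsupp.prod_fintype _ _ (by simp),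
    Fin.prod_univ_three]
  by_cases h0 : s 0 = 0 ∧ s 2 = 0
  · rw [if_pos]
    · simp [h0.1, h0.2]
    · have : s 1 = k := by omega
      simp [h0.1, this]
  · rw [if_neg]
    · rcases not_and_or.1 h0 with h1 | h1 <;> simp [h1]
    · intro h1
      have a0 := DFunLike.congr_fun h1 0
      have a1 := DFunLike.congr_fun h1 1
      simp at a0 a1
      omega

theorem pj_pack {q : ι → Fin 2 → ℂ} {F : S} {d : ℕ} {m : ι → ℕ} (hq : Function.Injective q)
    (hC : Cv (fun i => pjPt (q i)) F d m) (h1 : eval ![0, 1, 0] F ≠ 0) :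
    ∃ h0 h1, Pack d m h0 h1 ∧ Low (fun i => pjPt (q i)) F h0 := by
  have ht : coeff (Finsupp.single 1 d) (pjPhi F) ≠ 0 := by rwa [pj_top hC.hom]
  have ha : Ca q (pjPhi F) d m := by
    refine ⟨hq, pj_prime hC.hom hC.prime h1, le_antisymm (pj_totalDegree hC.hom) ?_, ht,
      fun i => pj_mult _ hC.hom (hC.mult i)⟩
    simpa using le_totalDegree (mem_support_iff.2 ht)
  refine ⟨_, _, ha.pack, fun k μ r G hG hm hi => ?_⟩
  refine a_low q _ k μ r (fun a => pjPhi (G a)) (fun a => pj_totalDegree (hG a))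
    (fun a i => ?_) (fun c hc => hi c ?_)
  · obtain ⟨x, hx, y, hy, h⟩ := Submodule.mem_sup.1 (hm a i)
    rw [← h, map_add]
    refine add_mem (Ideal.mem_sup_left (pj_mem_pow _ hx)) (Ideal.mem_sup_right ?_)
    rw [Ideal.mem_span_singleton] at hy ⊢
    exact map_dvd _ hy
  · refine pj_dvd (k := k) hC.hom hC.prime h1 ?_ ?_
    · exact IsHomogeneous.sum _ _ _ fun a _ => (hG a).C_mul _
    · rw [map_sum]
      simpa only [map_mul, algHom_C, algebraMap_eq] using hc

theorem pj_aeval (x : Fin 3 × Fin 3 → ℂ) (F : S) :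
    eval x (aeval (fun a => (X (a, 1) : MvPolynomial (Fin 3 × Fin 3) ℂ)) F) =
      eval (fun a => x (a, 1)) F := by
  induction F using MvPolynomial.induction_on with
  | C c => simp
  | add a b ha hb => simp only [map_add, ha, hb]
  | mul_X a j ha => simp only [map_mul, ha, aeval_X, eval_X]

/-- A good coordinate system. -/
theorem pj_coord {p : ι → Fin 3 → ℂ} (hp : ∀ i, p i ≠ 0) {F : S} (hF : F ≠ 0) :
    ∃ g : Matrix (Fin 3) (Fin 3) ℂ, g.det ≠ 0 ∧ eval (g.mulVec ![0, 1, 0]) F ≠ 0 ∧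
      ∀ i r, g.mulVec r = p i → r 2 ≠ 0 := by
  let Q := MvPolynomial (Fin 3 × Fin 3) ℂ
  let A : Q := (Matrix.of fun a b => (X (a, b) : Q)).det
  let B : Q := aeval (fun a => (X (a, 1) : Q)) F
  let D : ι → Q := fun i => (X (0, 0) * X (1, 1) - X (1, 0) * X (0, 1)) * C (p i 2) +
    (X (1, 0) * X (2, 1) - X (2, 0) * X (1, 1)) * C (p i 0) +
    (X (2, 0) * X (0, 1) - X (0, 0) * X (2, 1)) * C (p i 1)
  have eA : ∀ x : Fin 3 × Fin 3 → ℂ, eval x A = (Matrix.of fun a b => x (a, b)).det := by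
    intro x
    rw [RingHom.map_det]
    congr 1
    ext a b
    simp
  have eB : ∀ x : Fin 3 × Fin 3 → ℂ, eval x B = eval (fun a => x (a, 1)) F := by
    intro x
    exact pj_aeval x F
  have hA : A ≠ 0 := by
    intro h
    have := eA fun ab => (1 : Matrix (Fin 3) (Fin 3) ℂ) ab.1 ab.2
    rw [h, map_zero] at this
    have h2 : (Matrix.of fun a b => (1 : Matrix (Fin 3) (Fin 3) ℂ) a b) = 1 := rfl
    rw [h2, Matrix.det_one] at this
    exact zero_ne_one this
  have hB : B ≠ 0 := by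
    intro h
    apply hF
    apply MvPolynomial.funext
    intro o
    have := eB fun ab => o ab.1
    rw [h, map_zero] at this
    rw [map_zero]
    exact this.symm
  have hD : ∀ i, D i ≠ 0 := by
    intro i h
    apply hp i
    have h0 := congrArg (eval fun ab : Fin 3 × Fin 3 =>
      (!![0, 0, 0; 1, 0, 0; 0, 1, 0] : Matrix (Fin 3) (Fin 3) ℂ) ab.1 ab.2) h
    have h1 := congrArg (eval fun ab : Fin 3 × Fin 3 =>
      (!![0, 1, 0; 0, 0, 0; 1, 0, 0] : Matrix (Fin 3) (Fin 3) ℂ) ab.1 ab.2) h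
    have h2 := congrArg (eval fun ab : Fin 3 × Fin 3 =>
      (!![1, 0, 0; 0, 1, 0; 0, 0, 0] : Matrix (Fin 3) (Fin 3) ℂ) ab.1 ab.2) h
    simp [D] at h0 h1 h2
    funext j
    fin_cases j <;> simp [h0, h1, h2]
  have hne : A * B * ∏ i, D i ≠ 0 :=
    mul_ne_zero (mul_ne_zero hA hB) (Finset.prod_ne_zero_iff.2 fun i _ => hD i)
  obtain ⟨x, hx⟩ : ∃ x : Fin 3 × Fin 3 → ℂ, eval x (A * B * ∏ i, D i) ≠ 0 := by
    by_contra hcon
    push Not at hcon
    exact hne (MvPolynomial.funext fun x => by rw [hcon x, map_zero])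
  rw [map_mul, map_mul, map_prod, mul_ne_zero_iff, mul_ne_zero_iff, Finset.prod_ne_zero_iff,
    eA, eB] at hx
  refine ⟨Matrix.of fun a b => x (a, b), hx.1.1, ?_, fun i r hr h2 => hx.2 i (Finset.mem_univ _) ?_⟩
  · have : (Matrix.of fun a b => x (a, b)).mulVec ![0, 1, 0] = fun a => x (a, 1) := by
      funext a
      simp [Matrix.mulVec, dotProduct, Fin.sum_univ_three]
    rw [this]
    exact hx.1.2
  · have e0 := congrFun hr 0
    have e1 := congrFun hr 1
    have e2 := congrFun hr 2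
    simp [Matrix.mulVec, dotProduct, Fin.sum_univ_three, h2] at e0 e1 e2
    simp only [D, map_add, map_mul, map_sub, eval_X, eval_C]
    rw [← e0, ← e1, ← e2]
    ring

theorem exists_pack {p : ι → Fin 3 → ℂ} {F : S} {d : ℕ} {m : ι → ℕ} (hs : Sep p)
    (hC : Cv p F d m) : ∃ h0 h1, Pack d m h0 h1 ∧ Low p F h0 := by
  obtain ⟨g, hg, hF, hr⟩ := pj_coord hs.1 hC.prime.ne_zero
  have hu : IsUnit g.det := isUnit_iff_ne_zero.2 hg
  let r : ι → Fin 3 → ℂ := fun i => g⁻¹.mulVec (p i)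
  have hgr : ∀ i, g.mulVec (r i) = p i := by
    intro i
    simp only [r]
    rw [Matrix.mulVec_mulVec, Matrix.mul_nonsing_inv _ hu, Matrix.one_mulVec]
  have h2 : ∀ i, r i 2 ≠ 0 := fun i => hr i _ (hgr i)
  let q : ι → Fin 2 → ℂ := fun i => ![r i 0 / r i 2, r i 1 / r i 2]
  have hq : ∀ i, pjPt (q i) = (r i 2)⁻¹ • r i := by
    intro i
    have := h2 i
    funext j
    fin_cases j <;> simp [pjPt, q] <;> field_simp
  have hq' : ∀ i, r i = r i 2 • pjPt (q i) := by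
    intro i
    rw [hq, smul_smul, mul_inv_cancel₀ (h2 i), one_smul]
  have hC1 : Cv r (lin g F) d m := Cv.subst hu (by simpa only [hgr] using hC)
  have hC2 : Cv (fun i => pjPt (q i)) (lin g F) d m := by
    refine ⟨hC1.hom, hC1.prime, fun i => ⟨?_, fun h => (hC1.mult i).2 ?_⟩⟩
    · rw [hq]
      exact mem_pow_smul_of_mem hC1.hom _ (inv_ne_zero (h2 i)) (hC1.mult i).1
    · rw [hq' i]
      exact mem_pow_smul_of_mem hC1.hom _ (h2 i) h
  have hinj : Function.Injective q := by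
    intro i j hij
    by_contra hne
    refine hs.2 i j hne (r i 2 * (r j 2)⁻¹) ?_
    have h3 : r i = (r i 2 * (r j 2)⁻¹) • r j := by
      rw [← smul_smul, ← hq j, ← hij]
      exact hq' i
    rw [← hgr i, ← hgr j, ← Matrix.mulVec_smul, ← h3]
  obtain ⟨h0, h1, hP, hL⟩ := pj_pack hinj hC2 (by rwa [eval_lin])
  refine ⟨h0, h1, hP, fun k μ n G hG hm hi => ?_⟩
  refine hL k μ n (fun a => lin g (G a)) (fun a => lin_isHomogeneous g (hG a))
    (fun a i => ?_) (fun c hc => hi c ?_)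
  · simp only [hq]
    refine mem_smul_of_mem hC1.hom (lin_isHomogeneous g (hG a)) _ (inv_ne_zero (h2 i)) ?_
    obtain ⟨x, hx, y, hy, h⟩ := Submodule.mem_sup.1 (hm a i)
    rw [← h, map_add]
    refine add_mem (Ideal.mem_sup_left (lin_mem_pow g _ (by rwa [hgr]))) (Ideal.mem_sup_right ?_)
    rw [Ideal.mem_span_singleton] at hy ⊢
    exact map_dvd _ hy
  · have h3 : ∑ a, C (c a) * lin g (G a) = lin g (∑ a, C (c a) * G a) := by
      rw [map_sum]
      simp only [map_mul, algHom_C, algebraMap_eq]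
    rw [h3] at hc
    have h4 := map_dvd (lin g⁻¹) hc
    rwa [lin_lin, lin_lin, Matrix.mul_nonsing_inv _ hu, lin_one, lin_one] at h4

end Pool.Agent.P.MP_3c83d0_ag
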