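import Pool.Agent.P.MP_3c83d0_ag.Prod

open MvPolynomial

namespace Pool.Agent.P.MP_3c83d0_ag

variable {ι : Type*} [Fintype ι]

/-- The four term exact sequence of two subspaces. -/
theorem rr_finrank {K V : Type*} [Field K] [AddCommGroup V] [Module K V] (I W : Submodule K V)
    [Module.Finite K (V ⧸ I)] [Module.Finite K W] :
    Module.finrank K ↥(I ⊓ W) + Module.finrank K (V ⧸ I)
      = Module.finrank K W + Module.finrank K ↥(I ⊔ W).dualAnnihilator := by
  have h1 := LinearMap.finrank_range_add_finrank_ker (I.mkQ ∘ₗ W.subtype)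
  have e1 : LinearMap.range (I.mkQ ∘ₗ W.subtype) = W.map I.mkQ := by
    rw [LinearMap.range_comp, Submodule.range_subtype]
  have e2 : LinearMap.ker (I.mkQ ∘ₗ W.subtype) = (I ⊓ W).comap W.subtype := by
    rw [LinearMap.ker_comp, Submodule.ker_mkQ, Submodule.comap_inf, Submodule.comap_subtype_self,
      inf_top_eq]
  rw [e1, e2, (Submodule.comapSubtypeEquivOfLe (inf_le_right : I ⊓ W ≤ W)).finrank_eq] at h1
  have h2 := Submodule.finrank_quotient_add_finrank (W.map I.mkQ)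
  rw [(Submodule.quotientQuotientEquivQuotientSup I W).finrank_eq] at h2
  have h3 := (Submodule.dualQuotEquivDualAnnihilator (I ⊔ W)).finrank_eq
  rw [Subspace.dual_finrank_eq] at h3
  omega

theorem rr_sup_eq_top (f : P2) (q : ι → Fin 2 → ℂ) (μ : ι → ℕ) :
    ∃ k0, ∀ k, k0 ≤ k → Im f q μ ⊔ Ak f k = ⊤ := by
  have := finite_quot_Im f q μ
  obtain ⟨n, g, hg⟩ := Module.Finite.exists_fin (R := ℂ) (M := Af f ⧸ Im f q μ)
  choose x hx using fun j => (Im f q μ).mkQ_surjective (g j)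
  choose c hc using fun j => exists_mem_Ak f (x j)
  refine ⟨Finset.univ.sup c, fun k hk => ?_⟩
  rw [← Submodule.map_mkQ_eq_top, eq_top_iff, ← hg, Submodule.span_le]
  rintro _ ⟨j, rfl⟩
  exact ⟨x j, Ak_mono f ((Finset.le_sup (Finset.mem_univ j)).trans hk) (hc j), hx j⟩

theorem Ca.pack {q : ι → Fin 2 → ℂ} {f : P2} {d : ℕ} {m : ι → ℕ} (h : Ca q f d m) :
    Pack d m (a0 f q) (a1 f q) := by
  refine ⟨?_, fun k μ hk hμ => ?_, a_p0 h, a_p1 h, fun μ => ?_⟩
  · refine Nat.pos_of_ne_zero fun h0 => h.prime.not_isUnit ?_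
    have h1 := totalDegree_eq_zero_iff_eq_C.1 (h.deg.trans h0)
    have h2 : coeff 0 f ≠ 0 := fun h2 => h.prime.ne_zero (by rw [h1, h2, C_0])
    rw [h1]
    exact (Ne.isUnit h2).map C
  · have := finite_quot_Im f q μ
    have h1 := rr_finrank (Im f q μ) (Ak f k)
    have h2 := finrank_Ak h.prime.ne_zero h.deg k hk
    have h3 := finrank_quot_Im h.inj h.mult μ hμ
    have h4 : (a0 f q k μ : ℤ) + Module.finrank ℂ (Af f ⧸ Im f q μ)
        = Module.finrank ℂ (Ak f k) + a1 f q k μ := by exact_mod_cast h1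
    simp only [Finset.sum_add_distrib, Finset.sum_sub_distrib, mul_assoc, ← Finset.mul_sum] at h3
    unfold dg g2 sq kc
    linarith
  · obtain ⟨k0, hk⟩ := rr_sup_eq_top f q μ
    refine ⟨k0, fun k h1 => ?_⟩
    rw [a1, hk k h1, Submodule.dualAnnihilator_top, finrank_bot]

theorem a_low (q : ι → Fin 2 → ℂ) (f : P2) (k : ℕ) (μ : ι → ℕ) (r : ℕ) (G : Fin r → P2)
    (hd : ∀ a, (G a).totalDegree ≤ k) (hm : ∀ a i, G a ∈ mx (q i) ^ μ i ⊔ Ideal.span {f})
    (hi : ∀ c : Fin r → ℂ, f ∣ ∑ a, C (c a) * G a → ∀ a, c a = 0) : r ≤ a0 f q k μ := by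
  have hmem : ∀ a, Ideal.Quotient.mk (Ideal.span {f}) (G a) ∈ Im f q μ ⊓ Ak f k := by
    intro a
    refine ⟨(Submodule.mem_iInf _).2 fun i => ?_, G a, (mem_restrictTotalDegree _ _ _).2 (hd a), rfl⟩
    obtain ⟨y, hy, z, hz, hyz⟩ := Submodule.mem_sup.1 (hm a i)
    rw [Submodule.restrictScalars_mem, ← hyz, map_add, Ideal.Quotient.eq_zero_iff_mem.2 hz,
      add_zero]
    exact Ideal.mem_map_of_mem _ hy
  have : Module.Finite ℂ ↥(Im f q μ ⊓ Ak f k) :=
    Module.Finite.of_injective (Submodule.inclusion inf_le_right) (Submodule.inclusion_injective _)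
  have hli : LinearIndependent ℂ fun a => (⟨_, hmem a⟩ : ↥(Im f q μ ⊓ Ak f k)) := by
    rw [Fintype.linearIndependent_iff]
    intro c hc
    refine hi c ?_
    rw [← Ideal.mem_span_singleton, ← Ideal.Quotient.eq_zero_iff_mem]
    have h1 := congrArg Subtype.val hc
    simp only [Submodule.coe_sum, Submodule.coe_smul, Submodule.coe_zero] at h1
    rw [← h1, map_sum]
    refine Finset.sum_congr rfl fun a _ => ?_
    rw [← smul_eq_C_mul]
    rfl
  simpa [a0] using hli.fintype_card_le_finrank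

end Pool.Agent.P.MP_3c83d0_ag
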