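import Pool.Agent.P.MP_3c83d0_ag.Proj
import Pool.Agent.P.MP_3c83d0_ag.Num
import Pool.Agent.P.MP_3c83d0_ag.Theta
import Pool.Agent.P.MP_3c83d0_ag.NP

open MvPolynomial

namespace Pool.Agent.P.MP_3c83d0_ag

theorem exists_compl {x : Fin 3 → ℂ} (hx : x ≠ 0) : ∃ v0 v1 : Fin 3 → ℂ,
    (∀ b0 b1 c : ℂ, b0 • v0 + b1 • v1 = c • x → b0 = 0 ∧ b1 = 0) ∧
    ∀ u : Fin 3 → ℂ, ∃ b0 b1 c : ℂ, u = b0 • v0 + b1 • v1 + c • x := by
  have h : x 0 ≠ 0 ∨ x 1 ≠ 0 ∨ x 2 ≠ 0 := by
    by_contra h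
    push Not at h
    exact hx (by ext a; fin_cases a <;> simp [h.1, h.2.1, h.2.2])
  rcases h with h | h | h
  · refine ⟨![0, 1, 0], ![0, 0, 1], fun b0 b1 c e => ?_, fun u =>
      ⟨u 1 - u 0 / x 0 * x 1, u 2 - u 0 / x 0 * x 2, u 0 / x 0, ?_⟩⟩
    · have e0 := congrFun e 0
      have e1 := congrFun e 1
      have e2 := congrFun e 2
      simp [h] at e0 e1 e2
      simp [e0, e1, e2]
    · ext a
      fin_cases a <;> simp [h]
  · refine ⟨![1, 0, 0], ![0, 0, 1], fun b0 b1 c e => ?_, fun u =>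
      ⟨u 0 - u 1 / x 1 * x 0, u 2 - u 1 / x 1 * x 2, u 1 / x 1, ?_⟩⟩
    · have e0 := congrFun e 0
      have e1 := congrFun e 1
      have e2 := congrFun e 2
      simp [h] at e0 e1 e2
      simp [e0, e1, e2]
    · ext a
      fin_cases a <;> simp [h]
  · refine ⟨![1, 0, 0], ![0, 1, 0], fun b0 b1 c e => ?_, fun u =>
      ⟨u 0 - u 2 / x 2 * x 0, u 1 - u 2 / x 2 * x 1, u 2 / x 2, ?_⟩⟩
    · have e0 := congrFun e 0
      have e1 := congrFun e 1
      have e2 := congrFun e 2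
      simp [h] at e0 e1 e2
      simp [e0, e1, e2]
    · ext a
      fin_cases a <;> simp [h]

theorem dv_vadd (u w : Fin 3 → ℂ) (G : S) : dv (u + w) G = dv u G + dv w G := by
  simp [dv, add_mul, Finset.sum_add_distrib]

theorem dv_vsmul (c : ℂ) (w : Fin 3 → ℂ) (G : S) : dv (c • w) G = C c * dv w G := by
  simp [dv, Finset.mul_sum, mul_assoc]

theorem dv_single (j : Fin 3) (G : S) : dv (Pi.single j 1) G = pderiv j G := by
  rw [dv, Finset.sum_eq_single j]
  · simp
  · intro b _ hb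
    simp [hb]
  · simp

theorem dv_sub (w : Fin 3 → ℂ) (G H : S) : dv w (G - H) = dv w G - dv w H := by
  simp [dv, mul_sub, Finset.sum_sub_distrib]

theorem dv_C_mul (w : Fin 3 → ℂ) (c : ℂ) (G : S) : dv w (C c * G) = C c * dv w G := by
  rw [lin_dv_mul, lin_dv_C, zero_mul, zero_add]

theorem dv_hom (w : Fin 3 → ℂ) {G : S} {k : ℕ} (h : G.IsHomogeneous k) :
    (dv w G).IsHomogeneous (k - 1) :=
  IsHomogeneous.sum _ _ _ fun j _ => (h.pderiv (i := j)).C_mul _

theorem dv_comm (u w : Fin 3 → ℂ) (G : S) : dv u (dv w G) = dv w (dv u G) := by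
  simp only [dv, map_sum, pderiv_C_mul, Finset.mul_sum]
  rw [Finset.sum_comm]
  refine Finset.sum_congr rfl fun a _ => Finset.sum_congr rfl fun b _ => ?_
  rw [th_pderiv_comm G a b]
  ring

/-- Taylor criterion with two directions. -/
theorem mem_succ_of_dv {x v0 v1 : Fin 3 → ℂ}
    (hv : ∀ u : Fin 3 → ℂ, ∃ b0 b1 c : ℂ, u = b0 • v0 + b1 • v1 + c • x) {G : S} {k a : ℕ}
    (hh : G.IsHomogeneous k) (hG : G ∈ mx x ^ (a + 1)) (h0 : dv v0 G ∈ mx x ^ (a + 1))
    (h1 : dv v1 G ∈ mx x ^ (a + 1)) : G ∈ mx x ^ (a + 2) := by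
  refine (mem_pow_succ_iff x G (a + 1)).mpr ⟨((mem_pow_succ_iff x G a).mp hG).1, fun j => ?_⟩
  obtain ⟨b0, b1, c, e⟩ := hv (Pi.single j 1)
  rw [← dv_single, e, dv_vadd, dv_vadd, dv_vsmul, dv_vsmul, dv_vsmul]
  exact Ideal.add_mem _ (Ideal.add_mem _ (Ideal.mul_mem_left _ _ h0) (Ideal.mul_mem_left _ _ h1))
    (Ideal.mul_mem_left _ _ (dv_self_mem x hh hG))

theorem eval_dv_linear {l : S} (hl : l.IsHomogeneous 1) (x w : Fin 3 → ℂ) :
    eval x (dv w l) = eval w l := by
  have h1 : ∀ j, ∃ c, pderiv j l = C c := fun j =>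
    ⟨_, totalDegree_eq_zero_iff_eq_C.mp
      (Nat.le_zero.mp (hl.pderiv (i := j)).totalDegree_le)⟩
  choose c hc using h1
  have h2 := hl.sum_X_mul_pderiv
  rw [one_smul] at h2
  conv_rhs => rw [← h2]
  simp [dv, hc]

variable {ι : Type*} [Fintype ι] {p : ι → Fin 3 → ℂ} {F : S} {d : ℕ} {m : ι → ℕ}

theorem dg_add' (k k' : ℕ) (μ μ' : ι → ℕ) :
    dg d m (k + k') (μ + μ') = dg d m k μ + dg d m k' μ' := by
  simp only [dg, Pi.add_apply, Nat.cast_add, add_mul, Finset.sum_add_distrib]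
  ring

theorem dg_self : dg d m d m = sq d m := by
  simp only [dg, sq, pow_two]

theorem dg_sub (τ : ι → ℕ) (h : ∀ j, τ j ≤ m j) :
    dg d m d (m - τ) = sq d m + ∑ j, (τ j : ℤ) * m j := by
  have : ∀ j, (((m - τ) j : ℕ) : ℤ) * m j = (m j : ℤ) ^ 2 - (τ j : ℤ) * m j := fun j => by
    rw [Pi.sub_apply, Nat.cast_sub (h j)]
    ring
  simp only [dg, sq, this, Finset.sum_sub_distrib]
  ring

theorem sum_single [DecidableEq ι] (i : ι) (t : ℕ) :
    ∑ j, ((Pi.single i t : ι → ℕ) j : ℤ) * m j = t * m i := by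
  rw [Finset.sum_eq_single i]
  · simp
  · intro b _ hb
    simp [hb]
  · simp

theorem dg_one [DecidableEq ι] (i : ι) (t : ℕ) (h : t ≤ m i) :
    dg d m d (m - Pi.single i t) = sq d m + t * m i := by
  rw [dg_sub _ (fun j => by by_cases hj : j = i <;> simp [hj, h]), sum_single]

theorem dg_two [DecidableEq ι] {i j : ι} (hij : i ≠ j) (hi : 1 ≤ m i) (hj : 1 ≤ m j) :
    dg d m d (m - (Pi.single i 1 + Pi.single j 1)) = sq d m + m i + m j := by
  rw [dg_sub _ (fun l => by
    by_cases h1 : l = i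
    · subst h1; simp [hij, hi]
    · by_cases h2 : l = j
      · subst h2; simp [h1, hj]
      · simp [h1, h2])]
  simp only [Pi.add_apply, Nat.cast_add, add_mul, Finset.sum_add_distrib, sum_single]
  ring

theorem h0_self {h0 h1 : ℕ → (ι → ℕ) → ℕ} (h : Pack d m h0 h1) (hn : sq d m < 0) :
    h0 d m = 0 := by
  by_contra h2
  have := h.b0 d m (by omega)
  rw [dg_self] at this
  omega

/-- The tangent cone at a multiple point is not a cone over a direction. -/
theorem no_pure (hp : Gen p) (hC : Cv p F d m) (hn : sq d m < 0) (i : ι) (hi : 2 ≤ m i)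
    (w : Fin 3 → ℂ) (hw : dv w F ∈ mx (p i) ^ m i) : ∃ c : ℂ, w = c • p i := by
  obtain ⟨h0, h1, hP, hL⟩ := exists_pack hp.sep hC
  obtain ⟨Θ, t1, t2, t3, t4⟩ := hp.exists_theta i w
  have hm : ∀ j, Θ F ∈ mx (p j) ^ m j := by
    intro j
    by_cases hj : j = i
    · subst hj
      simpa using Ideal.add_mem _ (t3 F d _ hC.hom (hC.mult j).1) hw
    · exact t2 j hj F d _ hC.hom (hC.mult j).1
  have hd : F ∣ Θ F := by
    by_contra hd
    have := hL d m 1 ![Θ F] (fun a => by fin_cases a; exact t1 F d hC.hom)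
      (fun a j => by fin_cases a; exact Ideal.mem_sup_left (hm j)) (fun c hc a => by
        fin_cases a
        simp only [Finset.univ_unique, Fin.default_eq_zero, Finset.sum_singleton,
          Matrix.cons_val_zero] at hc
        by_contra hc0
        rcases hC.prime.dvd_or_dvd hc with h3 | h3
        · exact hC.prime.not_isUnit (isUnit_of_dvd_unit h3 ((Ne.isUnit hc0).map C))
        · exact hd h3)
    rw [h0_self hP hn] at this
    omega
  obtain ⟨c, hc⟩ := exists_eq_C_mul hC.hom hC.prime.ne_zero (t1 F d hC.hom) hd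
  obtain ⟨a, ha⟩ : ∃ a, m i = a + 2 := ⟨m i - 2, by omega⟩
  have hF := (hC.mult i).1
  rw [ha] at hF
  refine np0 hC.hom hC.prime (hp.1 i) (fun j => ?_) Θ (fun j => ?_) (fun l hl hl0 => ?_)
  · exact ((mem_pow_succ_iff _ _ a).mp (((mem_pow_succ_iff _ _ (a + 1)).mp hF).2 j)).1
  · have h3 := t4 F j
    rw [hc, pderiv_C_mul] at h3
    have h4 : C c * pderiv j F ∈ Ideal.span (Set.range fun b => pderiv b F) :=
      Ideal.mul_mem_left _ _ (Ideal.subset_span ⟨j, rfl⟩)
    simpa using Ideal.add_mem _ h3 h4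
  · refine ⟨t1 l 1 hl, ?_⟩
    have h3 := t3 l 1 1 hl (by rw [pow_one]; exact hl0)
    rw [pow_one, mem_mx, map_sub, eval_dv_linear hl] at h3
    exact sub_eq_zero.mp h3

/-- The first derivative of a form with respect to a moving point. -/
theorem exists_move (hp : Gen p) (i : ι) (w : Fin 3 → ℂ) {G : S} {k : ℕ} {μ : ι → ℕ}
    (hG : G.IsHomogeneous k) (hm : ∀ j, G ∈ mx (p j) ^ μ j) :
    ∃ H : S, H.IsHomogeneous k ∧ (∀ j, j ≠ i → H ∈ mx (p j) ^ μ j) ∧
      H - dv w G ∈ mx (p i) ^ μ i ∧ H ∈ mx (p i) ^ (μ i - 1) := by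
  obtain ⟨Θ, t1, t2, t3, _⟩ := hp.exists_theta i w
  have h1 := t3 G k _ hG (hm i)
  refine ⟨Θ G, t1 G k hG, fun j hj => t2 j hj G k _ hG (hm j), h1, ?_⟩
  rcases h : μ i with _ | a
  · simp
  · have h2 := hm i
    rw [h] at h1 h2
    simpa using Ideal.add_mem _ (Ideal.pow_le_pow_right (Nat.le_succ a) h1) (dv_mem _ w h2)

/-- At a smooth point the moved form does not vanish. -/
theorem exists_move_one (hp : Gen p) (hC : Cv p F d m) (i : ι) (hi : m i = 1) :
    ∃ H : S, H.IsHomogeneous d ∧ (∀ j, j ≠ i → H ∈ mx (p j) ^ m j) ∧ eval (p i) H ≠ 0 := by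
  have h1 := hC.mult i
  rw [hi] at h1
  have h2 : ∃ j, eval (p i) (pderiv j F) ≠ 0 := by
    by_contra h3
    push Not at h3
    refine h1.2 ((mem_pow_succ_iff _ _ 1).mpr ⟨(mem_mx _ _).mp (by simpa using h1.1), fun j => ?_⟩)
    rw [pow_one]
    exact h3 j
  obtain ⟨j, hj⟩ := h2
  obtain ⟨H, a1, a2, a3, _⟩ := exists_move hp i (Pi.single j 1) hC.hom fun j => (hC.mult j).1
  refine ⟨H, a1, a2, ?_⟩
  rw [hi, pow_one, mem_mx, map_sub, dv_single, sub_eq_zero] at a3
  rwa [a3]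

/-- At a multiple point there are two independent moved forms. -/
theorem exists_move_two (hp : Gen p) (hC : Cv p F d m) (hn : sq d m < 0) (i : ι) (hi : 2 ≤ m i)
    {v0 v1 : Fin 3 → ℂ} (hv : ∀ b0 b1 c : ℂ, b0 • v0 + b1 • v1 = c • p i → b0 = 0 ∧ b1 = 0)
    {G0 G1 : S} (h0 : G0 - dv v0 F ∈ mx (p i) ^ m i) (h1 : G1 - dv v1 F ∈ mx (p i) ^ m i)
    (b0 b1 : ℂ) (h : C b0 * G0 + C b1 * G1 ∈ mx (p i) ^ m i) : b0 = 0 ∧ b1 = 0 := by
  have h2 : dv (b0 • v0 + b1 • v1) F ∈ mx (p i) ^ m i := by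
    rw [dv_vadd, dv_vsmul, dv_vsmul]
    have := Ideal.sub_mem _ h (Ideal.add_mem _ (Ideal.mul_mem_left _ (C b0) h0)
      (Ideal.mul_mem_left _ (C b1) h1))
    convert this using 1
    ring
  obtain ⟨c, hc⟩ := no_pure hp hC hn i hi _ h2
  exact hv b0 b1 c hc

omit [Fintype ι] in
theorem mem_low {G : S} {τ : ι → ℕ} {j : ι} {a : ℕ} (h : G ∈ mx (p j) ^ a)
    (ha : m j ≤ a + τ j) : G ∈ mx (p j) ^ (m - τ) j ⊔ Ideal.span {F} :=
  Ideal.mem_sup_left (Ideal.pow_le_pow_right (by rw [Pi.sub_apply]; omega) h)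

omit [Fintype ι] in
theorem mem_of_dvd (hC : Cv p F d m) {G : S} (h : F ∣ G) (i : ι) : G ∈ mx (p i) ^ m i := by
  obtain ⟨Q, rfl⟩ := h
  exact Ideal.mul_mem_right _ _ (hC.mult i).1

theorem low_one [DecidableEq ι] (hp : Gen p) (hC : Cv p F d m) {h0 : ℕ → (ι → ℕ) → ℕ}
    (hL : Low p F h0) (i : ι) (hi : m i = 1) : 1 ≤ h0 d (m - Pi.single i 1) := by
  obtain ⟨H, a1, a2, a3⟩ := exists_move_one hp hC i hi
  refine hL d _ 1 ![H] (fun a => by fin_cases a; exact a1) (fun a j => ?_) (fun c hc a => ?_)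
  · fin_cases a
    by_cases hj : j = i
    · subst hj
      exact mem_low (a := 0) (by simp) (by simp [hi])
    · exact mem_low (a2 j hj) (by simp)
  · fin_cases a
    have := mem_of_dvd hC hc i
    rw [hi, pow_one, mem_mx] at this
    simpa [a3] using this

theorem low_two [DecidableEq ι] (hp : Gen p) (hC : Cv p F d m) (hn : sq d m < 0)
    {h0 : ℕ → (ι → ℕ) → ℕ} (hL : Low p F h0) (i : ι) (hi : 2 ≤ m i) :
    2 ≤ h0 d (m - Pi.single i 1) := by
  obtain ⟨v0, v1, hv, _⟩ := exists_compl (hp.1 i)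
  obtain ⟨G0, a1, a2, a3, a4⟩ := exists_move hp i v0 hC.hom fun j => (hC.mult j).1
  obtain ⟨G1, b1, b2, b3, b4⟩ := exists_move hp i v1 hC.hom fun j => (hC.mult j).1
  refine hL d _ 2 ![G0, G1] (fun a => by fin_cases a; exacts [a1, b1]) (fun a j => ?_)
    (fun c hc a => ?_)
  · by_cases hj : j = i
    · subst hj
      fin_cases a
      · exact mem_low a4 (by simp; omega)
      · exact mem_low b4 (by simp; omega)
    · fin_cases a
      · exact mem_low (a2 j hj) (by simp)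
      · exact mem_low (b2 j hj) (by simp)
  · have := exists_move_two hp hC hn i hi hv a3 b3 (c 0) (c 1)
      (by simpa [Fin.sum_univ_two] using mem_of_dvd hC hc i)
    fin_cases a
    exacts [this.1, this.2]

theorem rule0 (hp : Gen p) (hC : Cv p F d m) : -2 ≤ g2 d m := by
  obtain ⟨h0, h1, hP, _⟩ := exists_pack hp.sep hC
  exact hP.g0

theorem rule1 (hp : Gen p) (hC : Cv p F d m) (hn : sq d m < 0) (i : ι) (hi : m i = 1) :
    sq d m = -1 := by
  classical
  obtain ⟨h0, h1, hP, hL⟩ := exists_pack hp.sep hC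
  have a1 := low_one hp hC hL i hi
  have a2 := hP.b0 _ _ a1
  rw [dg_one i 1 (by omega), hi] at a2
  omega

theorem rule11 (hp : Gen p) (hC : Cv p F d m) (hn : sq d m < 0) (i j : ι) (hij : i ≠ j)
    (hi : m i = 1) (hj : m j = 1) : g2 d m = -2 := by
  classical
  obtain ⟨h0, h1, hP, hL⟩ := exists_pack hp.sep hC
  obtain ⟨H, a1, a2, a3⟩ := exists_move_one hp hC i hi
  obtain ⟨K, b1, b2, b3⟩ := exists_move_one hp hC j hj
  have h2 : 2 ≤ h0 d (m - (Pi.single i 1 + Pi.single j 1)) := by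
    refine hL d _ 2 ![H, K] (fun a => by fin_cases a; exacts [a1, b1]) (fun a l => ?_)
      (fun c hc a => ?_)
    · fin_cases a
      · by_cases hl : l = i
        · subst hl
          exact mem_low (a := 0) (by simp) (by simp [hi])
        · exact mem_low (a2 l hl) (by simp)
      · by_cases hl : l = j
        · subst hl
          exact mem_low (a := 0) (by simp) (by simp [hj])
        · exact mem_low (b2 l hl) (by simp)
    · have e1 := mem_of_dvd hC hc i
      have e2 := mem_of_dvd hC hc j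
      have e3 := b2 i hij
      have e4 := a2 j hij.symm
      rw [hi, pow_one, mem_mx] at e1 e3
      rw [hj, pow_one, mem_mx] at e2 e4
      simp [Fin.sum_univ_two, e3, e4, a3, b3] at e1 e2
      fin_cases a
      exacts [e1, e2]
  refine hP.g1 d _ (by omega) (fun l => ?_) h2 ?_
  · by_cases h3 : l = i
    · subst h3; simp [hi]
    · by_cases h4 : l = j
      · subst h4; simp [hj]
      · simp [h3, h4]
  · rw [dg_two hij (by omega) (by omega), hi, hj]
    omega

theorem adm_one [DecidableEq ι] (i l : ι) : m l ≤ (m - Pi.single i 1 : ι → ℕ) l + 1 := by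
  by_cases h : l = i
  · subst h; simp; omega
  · simp [h]

theorem rule2 (hp : Gen p) (hC : Cv p F d m) (hn : sq d m < 0) (i : ι) (hi : m i = 2) :
    sq d m = -1 ∧ g2 d m = -2 := by
  classical
  obtain ⟨h0, h1, hP, hL⟩ := exists_pack hp.sep hC
  have a1 := low_two hp hC hn hL i (by omega)
  have a2 := hP.b0 d (m - Pi.single i 1) (by omega)
  have a3 := hP.g1 d _ (by omega) (adm_one i) a1
  rw [dg_one i 1 (by omega), hi] at a2 a3
  exact ⟨by omega, a3 (by omega)⟩

theorem exists_annih (x : Fin 2 × Fin 2 → ℂ × ℂ)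
    (h : ∀ s t, (x s).1 * (x t).2 = (x s).2 * (x t).1) :
    ∃ β0 β1 : ℂ, ¬(β0 = 0 ∧ β1 = 0) ∧ ∀ s, β0 * (x s).1 + β1 * (x s).2 = 0 := by
  by_cases h0 : ∀ s, (x s).1 = 0 ∧ (x s).2 = 0
  · exact ⟨1, 0, by simp, fun s => by simp [(h0 s).1]⟩
  · push Not at h0
    obtain ⟨t, ht⟩ := h0
    refine ⟨(x t).2, -(x t).1, fun h1 => ht (neg_eq_zero.mp h1.2) h1.1, fun s => ?_⟩
    linear_combination h s t

theorem low_four [DecidableEq ι] (hp : Gen p) (hC : Cv p F d m) (hn : sq d m < 0)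
    {h0 : ℕ → (ι → ℕ) → ℕ} (hL : Low p F h0) (i : ι) (hi : m i = 3) :
    4 ≤ h0 d (m - Pi.single i 2) := by
  obtain ⟨v0, v1, hv, hv'⟩ := exists_compl (hp.1 i)
  let v : Fin 2 → Fin 3 → ℂ := ![v0, v1]
  choose G a1 a2 a3 a4 using fun a : Fin 2 =>
    exists_move hp i (v a) hC.hom fun j => (hC.mult j).1
  have hG : ∀ a j, G a ∈ mx (p j) ^ (Function.update m i 2) j := by
    intro a j
    by_cases hj : j = i
    · subst hj
      simpa [hi] using a4 a
    · simpa [hj] using a2 a j hj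
  choose H b1 b2 b3 b4 using fun s : Fin 2 × Fin 2 => exists_move hp i (v s.2) (a1 s.1) (hG s.1)
  simp only [Function.update_self] at b3 b4
  rw [hi] at a3 a4
  have hF := (hC.mult i).1
  rw [hi] at hF
  have hH : ∀ s u, eval (p i) (dv u (H s)) = eval (p i) (dv u (dv (v s.2) (dv (v s.1) F))) := by
    intro s u
    have e1 : H s - dv (v s.2) (dv (v s.1) F) ∈ mx (p i) ^ 2 := by
      have := Ideal.add_mem _ (b3 s) (dv_mem _ (v s.2) (a3 s.1))
      rw [dv_sub] at this
      simpa using this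
    have e2 := dv_mem _ u e1
    rw [pow_one, mem_mx, dv_sub, map_sub] at e2
    exact sub_eq_zero.mp e2
  have hdet : ∃ s t, eval (p i) (dv v0 (H s)) * eval (p i) (dv v1 (H t)) ≠
      eval (p i) (dv v1 (H s)) * eval (p i) (dv v0 (H t)) := by
    by_contra h3
    push Not at h3
    obtain ⟨β0, β1, hβ, hβ'⟩ := exists_annih
      (fun s => (eval (p i) (dv v0 (H s)), eval (p i) (dv v1 (H s)))) h3
    have e1 : ∀ a b, dv (v b) (dv (v a) (dv (β0 • v0 + β1 • v1) F)) ∈ mx (p i) ^ (0 + 1) := by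
      intro a b
      have := hβ' (a, b)
      rw [hH, hH] at this
      rw [zero_add, pow_one, mem_mx, dv_comm (v a), dv_comm (v b), dv_vadd, dv_vsmul, dv_vsmul]
      simpa using this
    have e2 : ∀ a, dv (v a) (dv (β0 • v0 + β1 • v1) F) ∈ mx (p i) ^ (1 + 1) := fun a =>
      mem_succ_of_dv hv' (dv_hom _ (dv_hom _ hC.hom)) (dv_mem _ _ (dv_mem _ _ hF)) (e1 a 0) (e1 a 1)
    have e3 := mem_succ_of_dv hv' (dv_hom _ hC.hom) (dv_mem _ _ hF) (e2 0) (e2 1)
    obtain ⟨c, hc⟩ := no_pure hp hC hn i (by omega) (β0 • v0 + β1 • v1) (by rw [hi]; exact e3)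
    exact hβ (hv β0 β1 c hc)
  obtain ⟨s, t, hst⟩ := hdet
  refine hL d _ 4 ![G 0, G 1, H s, H t]
    (fun a => by fin_cases a; exacts [a1 0, a1 1, b1 s, b1 t]) (fun a j => ?_) (fun c hc a => ?_)
  · by_cases hj : j = i
    · subst hj
      fin_cases a
      · exact mem_low (a4 0) (by simp [hi])
      · exact mem_low (a4 1) (by simp [hi])
      · exact mem_low (b4 s) (by simp [hi])
      · exact mem_low (b4 t) (by simp [hi])
    · fin_cases a
      · exact mem_low (a2 0 j hj) (by simp)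
      · exact mem_low (a2 1 j hj) (by simp)
      · exact mem_low (b2 s j hj) (by simp [hj])
      · exact mem_low (b2 t j hj) (by simp [hj])
  · have e1 := mem_of_dvd hC hc i
    rw [hi] at e1
    simp only [Fin.sum_univ_four, Matrix.cons_val_zero, Matrix.cons_val_one, Matrix.cons_val]
      at e1
    have e2 : C (c 2) * H s + C (c 3) * H t ∈ mx (p i) ^ 2 := by
      have := Ideal.sub_mem _ (Ideal.pow_le_pow_right (by norm_num : 2 ≤ 3) e1)
        (Ideal.add_mem _ (Ideal.mul_mem_left _ (C (c 0)) (a4 0))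
          (Ideal.mul_mem_left _ (C (c 1)) (a4 1)))
      convert this using 1
      ring
    have e3 := dv_mem _ v0 e2
    have e4 := dv_mem _ v1 e2
    rw [pow_one, mem_mx, lin_dv_add, dv_C_mul, dv_C_mul, map_add, map_mul, map_mul, eval_C,
      eval_C] at e3 e4
    have e5 : c 2 = 0 := by
      apply mul_right_cancel₀ (sub_ne_zero.mpr hst)
      linear_combination (eval (p i) (dv v1 (H t))) * e3 - (eval (p i) (dv v0 (H t))) * e4
    have e6 : c 3 = 0 := by
      apply mul_right_cancel₀ (sub_ne_zero.mpr hst)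
      linear_combination (eval (p i) (dv v0 (H s))) * e4 - (eval (p i) (dv v1 (H s))) * e3
    have e7 := exists_move_two hp hC hn i (by omega) hv (G0 := G 0) (G1 := G 1)
      (by rw [hi]; exact a3 0) (by rw [hi]; exact a3 1) (c 0) (c 1)
      (by rw [hi]; simpa [e5, e6] using e1)
    fin_cases a
    exacts [e7.1, e7.2, e5, e6]

theorem rule3 (hp : Gen p) (hC : Cv p F d m) (hn : sq d m < 0) (i : ι) (hi : m i = 3) :
    (sq d m = -2 ∧ g2 d m = -2) ∨ (sq d m = -1 ∧ g2 d m ≤ 2) := by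
  classical
  obtain ⟨h0, h1, hP, hL⟩ := exists_pack hp.sep hC
  have a1 := low_two hp hC hn hL i (by omega)
  have a2 := hP.b0 d (m - Pi.single i 1) (by omega)
  have a3 := hP.g1 d _ (by omega) (adm_one i) a1
  have a4 := low_four hp hC hn hL i hi
  have a5 := hP.p0 d (m - Pi.single i 1) d (m - Pi.single i 1) (by omega) (by omega)
  have a6 := hP.cl d m d (m - Pi.single i 2) (by omega) (fun l => by omega) (by omega)
  have e : (m - Pi.single i 1 + (m - Pi.single i 1) : ι → ℕ) = m + (m - Pi.single i 2) := by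
    funext l
    by_cases h : l = i
    · subst h; simp [hi]
    · simp [h]
  rw [e] at a5
  rw [dg_add', dg_self, h0_self hP hn, dg_one i 2 (by omega), hi] at a6
  rw [dg_one i 1 (by omega), hi] at a2 a3
  by_cases h2 : sq d m = -2
  · exact Or.inl ⟨h2, a3 (by omega)⟩
  · have h3 : sq d m = -1 := by omega
    have := a6 (by omega)
    exact Or.inr ⟨h3, by omega⟩

theorem rule31 (hp : Gen p) (hC : Cv p F d m) (hn : sq d m < 0) (i j : ι) (hi : m i = 3)
    (hj : m j = 1) : g2 d m ≤ 0 := by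
  classical
  have hij : i ≠ j := fun h => by subst h; omega
  have hs := rule1 hp hC hn j hj
  obtain ⟨h0, h1, hP, hL⟩ := exists_pack hp.sep hC
  have c1 := low_one hp hC hL j hj
  have c2 := hP.b0 _ _ c1
  obtain ⟨v0, v1, hv, _⟩ := exists_compl (hp.1 i)
  obtain ⟨G0, a1, a2, a3, a4⟩ := exists_move hp i v0 hC.hom fun j => (hC.mult j).1
  obtain ⟨G1, b1, b2, b3, b4⟩ := exists_move hp i v1 hC.hom fun j => (hC.mult j).1
  obtain ⟨K, k1, k2, k3⟩ := exists_move_one hp hC j hj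
  have c3 : 3 ≤ h0 d (m - (Pi.single i 1 + Pi.single j 1)) := by
    refine hL d _ 3 ![G0, G1, K] (fun a => by fin_cases a; exacts [a1, b1, k1]) (fun a l => ?_)
      (fun c hc a => ?_)
    · fin_cases a
      · by_cases hl : l = i
        · subst hl
          exact mem_low a4 (by simp; omega)
        · exact mem_low (a2 l hl) (by simp)
      · by_cases hl : l = i
        · subst hl
          exact mem_low b4 (by simp; omega)
        · exact mem_low (b2 l hl) (by simp)
      · by_cases hl : l = j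
        · subst hl
          exact mem_low (a := 0) (by simp) (by simp [hj])
        · exact mem_low (k2 l hl) (by simp)
    · have e1 := mem_of_dvd hC hc i
      have e2 := mem_of_dvd hC hc j
      have e3 := a2 j hij.symm
      have e4 := b2 j hij.symm
      rw [hj, pow_one, mem_mx] at e2 e3 e4
      have e5 : c 2 = 0 := by simpa [Fin.sum_univ_three, e3, e4, k3] using e2
      have e7 := exists_move_two hp hC hn i (by omega) hv a3 b3 (c 0) (c 1)
        (by simpa [Fin.sum_univ_three, e5] using e1)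
      fin_cases a
      exacts [e7.1, e7.2, e5]
  have c4 := hP.p0 d (m - Pi.single j 1) d (m - (Pi.single i 1 + Pi.single j 1)) c1 (by omega)
  have c5 := hP.cl d (m - Pi.single j 1) d (m - (Pi.single i 1 + Pi.single j 1)) (by omega)
    (adm_one j) (by omega)
  rw [dg_add', dg_two hij (by omega) (by omega), dg_one j 1 (by omega), hi, hj, hs] at c5
  rw [dg_one j 1 (by omega), hj, hs] at c2
  have := c5 (by omega)
  omega

end Pool.Agent.P.MP_3c83d0_ag
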